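import Mathlib

namespace Pool.Agent.Helper48

open Finset Classical in
/-- There is an `r`-regular `d`-handicap graph on `p` vertices: a simple graph on `Fin p`, regular of
degree `r`, and a labelling `l` (the label of `x` is `l x + 1 ∈ {1, …, p}`), such that whenever the
label of `v` is one more than the label of `u`, the sum of the labels of the neighbours of `v` is
`d` more than that of `u`. -/
def ExistsH (p r d : ℕ) : Prop :=
  ∃ (G : SimpleGraph (Fin p)) (l : Fin p ≃ Fin p),
    (∀ v, (univ.filter (fun x => G.Adj v x)).card = r) ∧
    ∀ u v, (l v).val = (l u).val + 1 →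
      ∑ x ∈ univ.filter (fun x => G.Adj v x), ((l x).val + 1) =
        ∑ x ∈ univ.filter (fun x => G.Adj u x), ((l x).val + 1) + d

end Pool.Agent.Helper48
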