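import Pool.Agent.Helper48.HcBase
import Pool.Agent.Helper48.HcDefs

namespace Pool.Agent.Helper48

open Finset

theorem existsH_of_matrix {V : Type} [Fintype V] {p r d : ℕ} (e : V ≃ Fin p) (A : V → V → ℤ)
    (hA : IsAdj A) (hr : ∀ v, deg A v = r)
    (hw : ∀ v, ∑ b, A v b * (2 * ((e b).val : ℤ) + 1 - p) = d * (2 * ((e v).val : ℤ) + 1 - p)) :
    ExistsH p r d := by
  classical
  have hA' := tr_isAdj e hA
  let G : SimpleGraph (Fin p) :=
    { Adj := fun x y => tr e A x y = 1
      symm := ⟨fun x y h => by rw [hA'.symm]; exact h⟩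
      loopless := ⟨fun x h => by rw [hA'.diag] at h; norm_num at h⟩ }
  have hcard : ∀ v, ((univ.filter (fun x => G.Adj v x)).card : ℤ) = r := by
    intro v
    have h1 := deg_eq_card hA' v
    have h2 : deg (tr e A) v = r := by
      unfold deg; rw [tr_sum']; exact hr _
    rw [← h2, h1]
  have hsum : ∀ v, ∑ x ∈ univ.filter (fun x => G.Adj v x), ((2 : ℤ) * (x.val : ℤ) + 1 - p)
      = d * (2 * (v.val : ℤ) + 1 - p) := by
    intro v
    have h1 : ∑ x ∈ univ.filter (fun x => G.Adj v x), ((2 : ℤ) * (x.val : ℤ) + 1 - p)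
        = ∑ x, tr e A v x * (2 * (x.val : ℤ) + 1 - p) := by
      rw [Finset.sum_filter]
      apply Finset.sum_congr rfl
      intro x _
      by_cases h : tr e A v x = 1
      · rw [if_pos h, h, one_mul]
      · rw [if_neg h]
        rcases hA'.zo v x with h' | h'
        · rw [h', zero_mul]
        · exact absurd h' h
    rw [h1, tr_sum e A (fun x => 2 * (x.val : ℤ) + 1 - p), hw]
    rw [Equiv.apply_symm_apply]
  refine ⟨G, Equiv.refl _, ?_, ?_⟩
  · intro v
    have h5 : (univ.filter (fun x => G.Adj v x)).card = r := by exact_mod_cast hcard v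
    convert h5
  · intro u v huv
    simp only [Equiv.refl_apply] at huv ⊢
    have key : ∀ w : Fin p, (2 : ℤ) * ∑ x ∈ univ.filter (fun x => G.Adj w x), ((x.val : ℤ) + 1)
        = d * (2 * (w.val : ℤ) + 1 - p) + r * (p + 1) := by
      intro w
      rw [← hsum w, ← hcard w, Finset.mul_sum, ← nsmul_eq_mul, ← Finset.sum_const,
        ← Finset.sum_add_distrib]
      apply Finset.sum_congr rfl
      intro x _
      ring
    have h1 := key u
    have h2 := key v
    have h3 : (v.val : ℤ) = u.val + 1 := by exact_mod_cast huv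
    rw [h3] at h2
    have h4 : ∑ x ∈ univ.filter (fun x => G.Adj v x), ((x.val : ℤ) + 1)
        = ∑ x ∈ univ.filter (fun x => G.Adj u x), ((x.val : ℤ) + 1) + d := by
      linarith
    have h5 : ∑ x ∈ univ.filter (fun x => G.Adj v x), (x.val + 1)
        = ∑ x ∈ univ.filter (fun x => G.Adj u x), (x.val + 1) + d := by exact_mod_cast h4
    convert h5

/-- two copies -/
def dbl {m : ℕ} (K P N : Fin m → Fin m → ℤ) : Fin m ⊕ Fin m → Fin m ⊕ Fin m → ℤ := fun x y =>
  Sum.elim (fun a => Sum.elim (fun b => K a b + P a b) (fun b => K a b + N a b) y)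
    (fun a => Sum.elim (fun b => K a b + N a b) (fun b => K a b + P a b) y) x

theorem existsH_even_of {m r d : ℕ} {K P N : Fin m → Fin m → ℤ} (hS : Str d vl P N)
    (hK : IsAdj K) (hKP : ∀ a b, K a b + P a b ≤ 1) (hKN : ∀ a b, K a b + N a b ≤ 1)
    (hr : ∀ a, 2 * deg K a + deg P a + deg N a = r) : ExistsH (m + m) r d := by
  let e : Fin m ⊕ Fin m ≃ Fin (m + m) :=
    (Equiv.sumCongr Fin.revPerm (Equiv.refl _)).trans finSumFinEquiv
  have el : ∀ a : Fin m, (2 * ((e (Sum.inl a)).val : ℤ) + 1 - ((m + m : ℕ) : ℤ)) = -(2 * vl a + 1) := by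
    intro a
    have : (e (Sum.inl a)).val = m - (a.val + 1) := by simp [e, Fin.revPerm, Fin.val_rev]
    rw [this]
    have := a.isLt
    unfold vl
    push_cast [Nat.cast_sub (show a.val + 1 ≤ m by omega)]
    ring
  have er : ∀ a : Fin m, (2 * ((e (Sum.inr a)).val : ℤ) + 1 - ((m + m : ℕ) : ℤ)) = 2 * vl a + 1 := by
    intro a
    have : (e (Sum.inr a)).val = m + a.val := by simp [e, Nat.add_comm]
    rw [this]
    unfold vl
    push_cast
    ring
  have hPz := hS.adj.zo
  have zo : ∀ (X : Fin m → Fin m → ℤ), (∀ a b, X a b = 0 ∨ X a b = 1) → (∀ a b, K a b + X a b ≤ 1) →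
      ∀ a b, K a b + X a b = 0 ∨ K a b + X a b = 1 := by
    intro X h1 h2 a b
    have := h2 a b
    have := hK.nonneg a b
    rcases h1 a b with h | h <;> omega
  have wsum : ∀ a, ∑ b, (P a b - N a b) * (2 * vl b + 1) = d * (2 * vl a + 1) := by
    intro a
    have := (hS.affine 1 2).sm a
    rw [Finset.sum_congr rfl (fun b _ => by rw [add_comm (2 * vl b) 1]), this]
    ring
  have hKPs : ∀ a b, K a b + P a b = K b a + P b a := fun a b => by rw [hK.symm, hS.adj.symm]
  have hKNs : ∀ a b, K a b + N a b = K b a + N b a := fun a b => by rw [hK.symm, hS.symm]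
  apply existsH_of_matrix e (dbl K P N)
  · refine ⟨?_, ?_, ?_⟩
    · rintro (a | a) (b | b)
      · exact zo P hPz hKP a b
      · exact zo N hS.zo hKN a b
      · exact zo N hS.zo hKN a b
      · exact zo P hPz hKP a b
    · rintro (a | a) (b | b)
      · exact hKPs a b
      · exact hKNs a b
      · exact hKNs a b
      · exact hKPs a b
    · rintro (a | a)
      · show K a a + P a a = 0
        rw [hK.diag, hS.adj.diag]; rfl
      · show K a a + P a a = 0
        rw [hK.diag, hS.adj.diag]; rfl
  · rintro (a | a)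
    · unfold deg
      rw [Fintype.sum_sum_type]
      show ∑ b, (K a b + P a b) + ∑ b, (K a b + N a b) = r
      rw [Finset.sum_add_distrib, Finset.sum_add_distrib, ← hr a]
      unfold deg
      ring
    · unfold deg
      rw [Fintype.sum_sum_type]
      show ∑ b, (K a b + N a b) + ∑ b, (K a b + P a b) = r
      rw [Finset.sum_add_distrib, Finset.sum_add_distrib, ← hr a]
      unfold deg
      ring
  · rintro (a | a)
    · rw [Fintype.sum_sum_type]
      rw [Finset.sum_congr rfl (fun b _ => by rw [el b])]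
      rw [Finset.sum_congr (s₁ := univ) (f := fun b => dbl K P N (Sum.inl a) (Sum.inr b) * _) rfl
        (fun b _ => by rw [er b])]
      rw [el a]
      show ∑ b, (K a b + P a b) * (-(2 * vl b + 1)) + ∑ b, (K a b + N a b) * (2 * vl b + 1) = _
      rw [← Finset.sum_add_distrib]
      have : ∀ b, (K a b + P a b) * (-(2 * vl b + 1)) + (K a b + N a b) * (2 * vl b + 1)
          = - ((P a b - N a b) * (2 * vl b + 1)) := fun b => by ring
      rw [Finset.sum_congr rfl (fun b _ => this b), Finset.sum_neg_distrib, wsum]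
      ring
    · rw [Fintype.sum_sum_type]
      rw [Finset.sum_congr rfl (fun b _ => by rw [el b])]
      rw [Finset.sum_congr (s₁ := univ) (f := fun b => dbl K P N (Sum.inr a) (Sum.inr b) * _) rfl
        (fun b _ => by rw [er b])]
      rw [er a]
      show ∑ b, (K a b + N a b) * (-(2 * vl b + 1)) + ∑ b, (K a b + P a b) * (2 * vl b + 1) = _
      rw [← Finset.sum_add_distrib]
      have : ∀ b, (K a b + N a b) * (-(2 * vl b + 1)) + (K a b + P a b) * (2 * vl b + 1)
          = ((P a b - N a b) * (2 * vl b + 1)) := fun b => by ring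
      rw [Finset.sum_congr rfl (fun b _ => this b), wsum]

/-- union graph -/
def uni {m : ℕ} (P N : Fin m → Fin m → ℤ) : Fin m → Fin m → ℤ := fun a b =>
  if a = b then 0 else P a b + N a b - P a b * N a b

theorem uni_isAdj {m : ℕ} {P N : Fin m → Fin m → ℤ} (hP : IsAdj P)
    (hN : ∀ a b, N a b = 0 ∨ N a b = 1) (hNs : ∀ a b, N a b = N b a) : IsAdj (uni P N) := by
  refine ⟨fun a b => ?_, fun a b => ?_, fun a => ?_⟩
  · unfold uni
    split_ifs
    · exact Or.inl rfl
    · rcases hP.zo a b with h | h <;> rcases hN a b with h' | h' <;> rw [h, h'] <;> norm_num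
  · unfold uni
    rw [hP.symm a b, hNs a b]
    by_cases hab : a = b
    · rw [if_pos hab, if_pos hab.symm]
    · rw [if_neg hab, if_neg (fun h => hab h.symm)]
  · unfold uni
    rw [if_pos rfl]

theorem uni_deg {m : ℕ} {P N : Fin m → Fin m → ℤ} (hP : IsAdj P) (a : Fin m) :
    deg (uni P N) a = deg P a + deg N a - exc P N a := by
  have : ∀ b, uni P N a b = (P a b + N a b - P a b * N a b) - (if a = b then N a b else 0) := by
    intro b
    unfold uni
    by_cases hab : a = b
    · rw [if_pos hab, if_pos hab, ← hab, hP.diag]; ring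
    · rw [if_neg hab, if_neg hab]; ring
  unfold deg exc
  rw [Finset.sum_congr rfl (fun b _ => this b), Finset.sum_sub_distrib, Finset.sum_sub_distrib,
    Finset.sum_add_distrib]
  simp
  ring

theorem le_of_uni {m : ℕ} {K P N : Fin m → Fin m → ℤ} (hK : IsAdj K) (hP : IsAdj P)
    (hN : ∀ a b, N a b = 0 ∨ N a b = 1) (h : ∀ a b, uni P N a b + K a b ≤ 1) :
    (∀ a b, K a b + P a b ≤ 1) ∧ (∀ a b, K a b + N a b ≤ 1) := by
  have key : ∀ a b, a ≠ b → K a b + P a b ≤ 1 ∧ K a b + N a b ≤ 1 := by
    intro a b hab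
    have h1 := h a b
    unfold uni at h1
    rw [if_neg hab] at h1
    rcases hP.zo a b with g | g <;> rcases hN a b with g' | g' <;> rw [g, g'] at h1 ⊢ <;>
      constructor <;> have := hK.le_one a b <;> linarith
  constructor
  · intro a b
    by_cases hab : a = b
    · rw [← hab, hK.diag, hP.diag]; norm_num
    · exact (key a b hab).1
  · intro a b
    by_cases hab : a = b
    · rw [← hab, hK.diag]; rcases hN a a with g | g <;> rw [g] <;> norm_num
    · exact (key a b hab).2

theorem card_lt_le (m L : ℕ) : (univ.filter (fun a : Fin m => a.val < L)).card ≤ L := by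
  have : (univ.filter (fun a : Fin m => a.val < L)).card ≤ (range L).card := by
    apply Finset.card_le_card_of_injOn (fun a => a.val)
    · intro a ha
      rw [mem_coe, mem_filter] at ha
      rw [mem_coe, mem_range]
      exact ha.2
    · intro a _ b _ hab
      exact Fin.ext hab
  rwa [card_range] at this

theorem exc_nonneg {n : ℕ} {P N : Fin n → Fin n → ℤ} (hP : IsAdj P)
    (hN : ∀ a b, N a b = 0 ∨ N a b = 1) (a : Fin n) : 0 ≤ exc P N a := by
  have hN0 : ∀ a b, 0 ≤ N a b := fun a b => by rcases hN a b with h | h <;> omega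
  exact add_nonneg (hN0 a a) (Finset.sum_nonneg (fun b _ => mul_nonneg (hP.nonneg a b) (hN0 a b)))

theorem sum_deg_N_parity {m d : ℕ} {P N : Fin m → Fin m → ℤ} (hS : Str d vl P N) :
    Even (∑ a, deg N a - m * d) := by
  have h1 : ∑ a, (deg P a - deg N a) = m * d := by
    have : ∀ a, deg P a - deg N a = d := by
      intro a
      unfold deg
      rw [← Finset.sum_sub_distrib]
      exact hS.dg a
    rw [Finset.sum_congr rfl (fun a _ => this a), Finset.sum_const]
    simp
  rw [Finset.sum_sub_distrib] at h1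
  obtain ⟨k, hk⟩ := even_sum_deg hS.adj
  exact ⟨∑ a, deg N a - k, by omega⟩

theorem quad_le (d : ℕ) (hd : 1 ≤ d) : (2 * d + 17) * (d + 11) + 1 ≤ 100 * 5 ^ d := by
  induction d, hd using Nat.le_induction with
  | base => norm_num
  | succ d hd ih =>
    rw [pow_succ]
    nlinarith

theorem exists_even (d : ℕ) (hd : 1 ≤ d) : ∀ m, 420 * 5 ^ d ≤ m → ∀ r, d + 2 ≤ r →
    r + d + 4 ≤ 2 * m → r % 2 = d % 2 → (m % 2 = 1 → (r + d) % 4 = 0) → ExistsH (m + m) r d := by
  obtain ⟨L, hL0, hL⟩ := base_exists d hd
  intro m hm' r hr1 hr2 hr3 hr4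
  have hm : (2 * d + 17) * (d + 11) + L + 1 ≤ m := by
    have := quad_le d hd
    omega
  have hmL : L ≤ m := by
    have : 0 ≤ (2 * d + 17) * (d + 11) := Nat.zero_le _
    omega
  obtain ⟨P, N, hB, hc1, hc2⟩ := hL m hmL
  obtain ⟨h, hh⟩ : ∃ h : ℕ, r = d + 2 * h := ⟨(r - d) / 2, by omega⟩
  have hh1 : 1 ≤ h := by omega
  have hmh : d + h + 2 ≤ m := by omega
  have hpar : m % 2 = 1 → (d + h) % 2 = 0 := by
    intro h1
    have := hr4 h1
    omega
  have hS := hB.str
  have hP := hS.adj
  have hN := hS.zo
  have hdP : ∀ a, deg P a = d + deg N a := by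
    intro a
    have := hS.dg a
    rw [Finset.sum_sub_distrib] at this
    unfold deg
    omega
  have hF := uni_isAdj hP hN hS.symm
  have hFd : ∀ a, deg (uni P N) a = d + 2 * deg N a - exc P N a := by
    intro a
    rw [uni_deg hP, hdP]; ring
  have hN12 : ∀ a, 1 ≤ deg N a ∧ deg N a ≤ 2 := by
    intro a
    rcases hB.row a with h | h <;> omega
  -- it suffices to find K
  suffices hsuff : ∃ K : Fin m → Fin m → ℤ, IsAdj K ∧ (∀ a b, uni P N a b + K a b ≤ 1) ∧
      ∀ a, deg K a = h - deg N a by
    obtain ⟨K, hK, hK2, hK3⟩ := hsuff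
    obtain ⟨g1, g2⟩ := le_of_uni hK hP hN hK2
    apply existsH_even_of hS hK g1 g2
    intro a
    rw [hK3, hdP, hh]
    push_cast
    ring
  by_cases hA : h = 1 ∧ (Even m ∨ Odd d)
  · refine ⟨fun _ _ => 0, ⟨fun _ _ => Or.inl rfl, fun _ _ => rfl, fun _ => rfl⟩, ?_, ?_⟩
    · intro a b
      have := hF.le_one a b
      simpa using this
    · intro a
      rw [hc1 hA.2 a, hA.1]
      simp [deg]
  by_cases hT : m = d + h + 2
  · have hme : Even m := by
      rw [Nat.even_iff]
      by_contra hcon
      have := hpar (by omega)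
      omega
    obtain ⟨Q, hQ, hQ2, hQ3⟩ := hc2 hme
    have hFQ : ∀ a b, uni P N a b + Q a b ≤ 1 := by
      intro a b
      have := hQ2 a b
      unfold uni
      have h0 := hQ.nonneg a b
      have h1 := hQ.le_one a b
      by_cases hab : a = b
      · rw [if_pos hab]; omega
      · rw [if_neg hab]
        rcases hP.zo a b with g | g <;> rcases hN a b with g' | g' <;> rw [g, g'] at this ⊢ <;> omega
    have hFQ2 := add_isAdj hF hQ hFQ
    refine ⟨cmpl (fun a b => uni P N a b + Q a b), cmpl_isAdj hFQ2, ?_, ?_⟩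
    · intro a b
      unfold cmpl
      have h3 : (if a = b then (0 : ℤ) else 1) ≤ 1 := by split_ifs <;> omega
      have h4 := hQ.nonneg a b
      show uni P N a b + ((if a = b then (0 : ℤ) else 1) - (uni P N a b + Q a b)) ≤ 1
      omega
    · intro a
      rw [cmpl_deg, Fintype.card_fin, add_deg, hFd, hQ3, hc1 (Or.inl hme) a]
      have : (m : ℤ) = d + h + 2 := by exact_mod_cast hT
      rw [this]
      ring
  -- general case
  have hm3 : d + h + 3 ≤ m := by omega
  have hn : ∀ a, (m : ℤ) - 1 - deg (uni P N) a - (h - deg N a)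
      = m - 1 - d - h - deg N a + exc P N a := by
    intro a
    rw [hFd]; ring
  have hdeg2 : ∀ a, deg N a = 2 → 2 ≤ h := by
    intro a ha
    have h1 : ¬ (Even m ∨ Odd d) := by
      intro hc
      have := hc1 hc a
      omega
    push Not at h1
    rw [Nat.not_even_iff_odd, Nat.not_odd_iff_even, Nat.odd_iff, Nat.even_iff] at h1
    have := hpar h1.1
    omega
  have hm3' : (d : ℤ) + h + 3 ≤ m := by exact_mod_cast hm3
  have hh1' : (1 : ℤ) ≤ h := by exact_mod_cast hh1
  apply exists_graph_deg hF (Δ := d + 4) (δ := 1) (Z := L)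
  · intro a
    rw [hFd]
    have := hN12 a
    have := exc_nonneg hP hN a
    omega
  · intro a
    rcases hB.row a with g | g
    · rw [g]; omega
    · have := hdeg2 a g.1
      rw [g.1]
      have : (2 : ℤ) ≤ h := by exact_mod_cast this
      omega
  · intro a
    rw [hn]
    have := hN12 a
    have := exc_nonneg hP hN a
    omega
  · intro a b
    have := hN12 a
    have := hN12 b
    omega
  · have hsub : univ.filter (fun a => (h : ℤ) - deg N a = 0) ⊆ univ.filter (fun a : Fin m => a.val < L) := by
      intro a ha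
      rw [mem_filter] at ha ⊢
      refine ⟨mem_univ _, ?_⟩
      rcases hB.row a with g | g
      · exfalso
        have h1 : h = 1 := by
          have := ha.2
          rw [g] at this
          have : (h : ℤ) = 1 := by omega
          exact_mod_cast this
        apply hA
        refine ⟨h1, ?_⟩
        by_contra hcon
        push Not at hcon
        rw [Nat.not_even_iff_odd, Nat.not_odd_iff_even, Nat.odd_iff, Nat.even_iff] at hcon
        have := hpar hcon.1
        omega
      · exact g.2
    have := (Finset.card_le_card hsub).trans (card_lt_le m L)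
    exact_mod_cast this
  · have hsub : univ.filter (fun a => (m : ℤ) - 1 - deg (uni P N) a - (h - deg N a) = 0) ⊆
        univ.filter (fun a : Fin m => a.val < L) := by
      intro a ha
      rw [mem_filter] at ha ⊢
      refine ⟨mem_univ _, ?_⟩
      by_contra hcon
      push Not at hcon
      have h1 := hB.good a hcon
      have h2 := exc_ne hP hN a h1.1 h1.2
      have h3 := ha.2
      rw [hn, h2] at h3
      rcases hB.row a with g | g
      · rw [g] at h3; omega
      · omega
    have := (Finset.card_le_card hsub).trans (card_lt_le m L)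
    exact_mod_cast this
  · rw [Finset.sum_sub_distrib, Finset.sum_const]
    simp only [nsmul_eq_mul, Finset.card_univ, Fintype.card_fin]
    obtain ⟨u, hu⟩ := sum_deg_N_parity hS
    have h1 : Even ((m : ℤ) * (h - d)) := by
      rcases Nat.even_or_odd m with g | g
      · have : Even (m : ℤ) := by exact_mod_cast g
        exact this.mul_right _
      · rw [Nat.odd_iff] at g
        have := hpar g
        apply Even.mul_left
        have h2 : Even ((d : ℤ) + h) := by
          have : Even (d + h) := by rw [Nat.even_iff]; exact this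
          exact_mod_cast this
        obtain ⟨v, hv⟩ := h2
        exact ⟨v - d, by omega⟩
    obtain ⟨v, hv⟩ := h1
    refine ⟨v - u, ?_⟩
    have : (m : ℤ) * h - ∑ a, deg N a = (m : ℤ) * (h - d) - (∑ a, deg N a - m * d) := by ring
    rw [this, hu, hv]
    ring
  · have : (2 * d + 17) * (d + 11) + L < m := by omega
    have h2 : ((2 * (d : ℤ) + 17) * (d + 11) + L) < m := by exact_mod_cast this
    linarith

end Pool.Agent.Helper48
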