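import Pool.Agent.Helper48.HcBasic
import Pool.Agent.Helper48.HcDefs

namespace Pool.Agent.Helper48

open Finset

theorem gauss_fin (p : ℕ) : 2 * ∑ x : Fin p, (x.val : ℤ) = p * (p - 1) := by
  have h1 : ∑ x : Fin p, (x.val : ℤ) = ∑ i ∈ range p, (i : ℤ) := by
    rw [Fin.sum_univ_eq_sum_range (fun i => (i : ℤ))]
  rw [h1]
  induction p with
  | zero => simp
  | succ p ih =>
    rw [Finset.sum_range_succ, mul_add, ih (by rw [Fin.sum_univ_eq_sum_range (fun i => (i : ℤ))])]
    push_cast
    ring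

theorem existsH_matrix {p r d : ℕ} (h : ExistsH p r d) (hp : 1 ≤ p) :
    ∃ A : Fin p → Fin p → ℤ, IsAdj A ∧ (∀ x, deg A x = r) ∧
      (∃ S0 : ℤ, 2 * S0 = r * (p + 1) - d * (p - 1) ∧
        ∀ x : Fin p, ∑ y, A x y * ((y.val : ℤ) + 1) = S0 + d * x.val) ∧
      ∀ x : Fin p, ∑ y, A x y * (2 * (y.val : ℤ) + 1 - p) = d * (2 * (x.val : ℤ) + 1 - p) := by
  classical
  obtain ⟨G, l, hreg, hw⟩ := h
  let A : Fin p → Fin p → ℤ := fun x y => if G.Adj (l.symm x) (l.symm y) then 1 else 0
  have hA : IsAdj A := by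
    refine ⟨fun x y => ?_, fun x y => ?_, fun x => ?_⟩
    · simp only [A]; split_ifs <;> simp
    · simp only [A, G.adj_comm]
    · simp [A]
  have hd : ∀ x, deg A x = r := by
    intro x
    have h1 := hreg (l.symm x)
    have h2 : deg A x = ∑ z, (if G.Adj (l.symm x) z then (1 : ℤ) else 0) := by
      unfold deg
      rw [← Equiv.sum_comp l]
      simp [A]
    rw [h2, ← h1, Finset.card_filter]
    push_cast
    apply Finset.sum_congr rfl
    intro z _
    congr
  have hS : ∀ u, ∑ y, A (l u) y * ((y.val : ℤ) + 1) =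
      ((∑ x ∈ univ.filter (fun x => G.Adj u x), ((l x).val + 1) : ℕ) : ℤ) := by
    intro u
    rw [← Equiv.sum_comp l, Finset.sum_filter]
    push_cast
    apply Finset.sum_congr rfl
    intro z _
    simp only [A, Equiv.symm_apply_apply]
    split_ifs <;> simp
  let S : Fin p → ℤ := fun x => ∑ y, A x y * ((y.val : ℤ) + 1)
  have hstep : ∀ x y : Fin p, y.val = x.val + 1 → S y = S x + d := by
    intro x y hxy
    have h1 := hw (l.symm x) (l.symm y) (by simpa using hxy)
    have h2 := hS (l.symm x)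
    have h3 := hS (l.symm y)
    rw [Equiv.apply_symm_apply] at h2 h3
    show ∑ z, A y z * ((z.val : ℤ) + 1) = ∑ z, A x z * ((z.val : ℤ) + 1) + d
    rw [h2, h3]
    have h4 : (∑ x ∈ univ.filter (fun z => G.Adj (l.symm y) z), ((l x).val + 1)) =
        (∑ z ∈ univ.filter (fun z => G.Adj (l.symm x) z), ((l z).val + 1)) + d := by
      convert h1
    rw [h4]
    push_cast
    ring
  have hlin : ∀ n : ℕ, ∀ hn : n < p, S ⟨n, hn⟩ = S ⟨0, hp⟩ + d * n := by
    intro n
    induction n with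
    | zero => intro hn; simp
    | succ n ih =>
      intro hn
      rw [hstep ⟨n, by omega⟩ ⟨n + 1, hn⟩ rfl, ih (by omega)]
      push_cast; ring
  have hlin' : ∀ x : Fin p, S x = S ⟨0, hp⟩ + d * x.val := fun x => hlin x.val x.isLt
  have htot1 : ∑ x, S x = p * S ⟨0, hp⟩ + d * ∑ x : Fin p, (x.val : ℤ) := by
    rw [Finset.sum_congr rfl (fun x _ => hlin' x), Finset.sum_add_distrib, ← Finset.mul_sum,
      Finset.sum_const, Finset.card_univ, Fintype.card_fin, nsmul_eq_mul]
  have htot2 : ∑ x, S x = r * (∑ x : Fin p, (x.val : ℤ) + p) := by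
    simp only [S]
    rw [Finset.sum_comm]
    have : ∀ y : Fin p, ∑ x, A x y * ((y.val : ℤ) + 1) = r * ((y.val : ℤ) + 1) := by
      intro y
      rw [← Finset.sum_mul, ← hd y]
      unfold deg
      rw [Finset.sum_congr rfl (fun x _ => hA.symm x y)]
    rw [Finset.sum_congr rfl (fun y _ => this y), ← Finset.mul_sum, Finset.sum_add_distrib]
    simp
  have hg := gauss_fin p
  have hS0 : 2 * S ⟨0, hp⟩ = r * (p + 1) - d * (p - 1) := by
    have h1 : (p : ℤ) * (2 * S ⟨0, hp⟩) = p * (r * (p + 1) - d * (p - 1)) := by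
      have h2 : 2 * (p * S ⟨0, hp⟩ + d * ∑ x : Fin p, (x.val : ℤ)) = 2 * (r * (∑ x : Fin p, (x.val : ℤ) + p)) := by
        rw [← htot1, ← htot2]
      have h3 : 2 * (p * S ⟨0, hp⟩ + d * ∑ x : Fin p, (x.val : ℤ)) =
          p * (2 * S ⟨0, hp⟩) + d * (2 * ∑ x : Fin p, (x.val : ℤ)) := by ring
      have h4 : 2 * (r * (∑ x : Fin p, (x.val : ℤ) + p)) = r * (2 * ∑ x : Fin p, (x.val : ℤ)) + 2 * r * p := by ring
      rw [h3, h4, hg] at h2
      linarith
    have hp0 : (p : ℤ) ≠ 0 := by
      have : (1 : ℤ) ≤ p := by exact_mod_cast hp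
      omega
    exact mul_left_cancel₀ hp0 h1
  refine ⟨A, hA, hd, ⟨S ⟨0, hp⟩, hS0, hlin'⟩, ?_⟩
  intro x
  have h1 : ∀ y : Fin p, A x y * (2 * (y.val : ℤ) + 1 - p) =
      2 * (A x y * ((y.val : ℤ) + 1)) - A x y * (p + 1) := fun y => by ring
  rw [Finset.sum_congr rfl (fun y _ => h1 y), Finset.sum_sub_distrib, ← Finset.mul_sum,
    ← Finset.sum_mul]
  have h2 : ∑ y, A x y = r := hd x
  have h3 : ∑ y, A x y * ((y.val : ℤ) + 1) = S ⟨0, hp⟩ + d * x.val := hlin' x
  rw [h2, h3]
  linarith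

theorem nec_odd {p r d : ℕ} (h : ExistsH p r d) (hp : p % 2 = 1) : r % 2 = 0 := by
  obtain ⟨A, hA, hd, _, _⟩ := existsH_matrix h (by omega)
  have h1 : Even (∑ x, deg A x) := even_sum_of_symm hA.symm (fun a => by rw [hA.diag]; exact Even.zero)
  rw [Finset.sum_congr rfl (fun x _ => hd x)] at h1
  simp only [Finset.sum_const, Finset.card_univ, Fintype.card_fin, nsmul_eq_mul] at h1
  have h2 : Even (p * r) := by exact_mod_cast h1
  rw [Nat.even_mul] at h2
  rcases h2 with h2 | h2
  · rw [Nat.even_iff] at h2; omega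
  · rwa [Nat.even_iff] at h2

theorem nec_even {p r d : ℕ} (h : ExistsH p r d) (hp : p % 2 = 0) (hp1 : 2 ≤ p) :
    r % 2 = d % 2 := by
  obtain ⟨A, hA, hd, ⟨S0, hS0, _⟩, _⟩ := existsH_matrix h (by omega)
  obtain ⟨m, rfl⟩ : ∃ m, p = 2 * m := ⟨p / 2, by omega⟩
  push_cast at hS0
  have h1 : (r : ℤ) * (2 * m + 1) - d * (2 * m - 1) = 2 * (m * (r - d)) + (r + d) := by ring
  rw [h1] at hS0
  omega

theorem nec_two_mod_four {p r d : ℕ} (h : ExistsH p r d) (hp : p % 4 = 2) : (r + d) % 4 = 0 := by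
  obtain ⟨A, hA, hd, ⟨S0, hS0, hS⟩, _⟩ := existsH_matrix h (by omega)
  obtain ⟨q, rfl⟩ : ∃ q, p = 2 * (2 * q + 1) := ⟨p / 4, by omega⟩
  -- the indicator of odd labels
  let o : Fin (2 * (2 * q + 1)) → ℤ := fun x => if x.val % 2 = 0 then 1 else 0
  have ho : ∀ x, o x = 0 ∨ o x = 1 := by
    intro x; simp only [o]; split_ifs <;> simp
  have h1 : Even (∑ x, ∑ y, A x y * o x * o y) := by
    apply even_sum_of_symm (A := fun x y => A x y * o x * o y)
    · intro a b
      rw [hA.symm a b]; ring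
    · intro a
      rw [hA.diag]; simp
  -- S x ≡ number of odd neighbours
  have h2 : ∀ x, Even (∑ y, A x y * ((y.val : ℤ) + 1) - ∑ y, A x y * o y) := by
    intro x
    rw [← Finset.sum_sub_distrib]
    apply Finset.even_sum
    intro y _
    have : A x y * ((y.val : ℤ) + 1) - A x y * o y = A x y * ((y.val : ℤ) + 1 - o y) := by ring
    rw [this]
    apply Even.mul_left
    simp only [o]
    split_ifs with hy
    · obtain ⟨k, hk⟩ : ∃ k, y.val = 2 * k := ⟨y.val / 2, by omega⟩
      rw [hk]; push_cast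
      exact ⟨k, by ring⟩
    · obtain ⟨k, hk⟩ : ∃ k, y.val = 2 * k + 1 := ⟨y.val / 2, by omega⟩
      rw [hk]; push_cast
      exact ⟨k + 1, by ring⟩
  have h3 : Even (∑ x, o x * (S0 + d * x.val) - ∑ x, ∑ y, A x y * o x * o y) := by
    rw [← Finset.sum_sub_distrib]
    apply Finset.even_sum
    intro x _
    have e1 : ∑ y, A x y * o x * o y = o x * ∑ y, A x y * o y := by
      rw [Finset.mul_sum]
      apply Finset.sum_congr rfl
      intro y _; ring
    rw [e1, ← hS x, ← mul_sub]
    exact (h2 x).mul_left _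
  have h4 : Even (∑ x, o x * (S0 + d * x.val)) := by
    have := h3.add h1
    simpa using this
  have h5 : Even (∑ x, o x * (S0 + d * x.val) - ∑ x, o x * S0) := by
    rw [← Finset.sum_sub_distrib]
    apply Finset.even_sum
    intro x _
    simp only [o]
    split_ifs with hx
    · obtain ⟨k, hk⟩ : ∃ k, x.val = 2 * k := ⟨x.val / 2, by omega⟩
      rw [hk]; push_cast
      exact ⟨d * k, by ring⟩
    · simp
  have h6 : Even (∑ x, o x * S0) := by
    have := h4.sub h5
    simpa using this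
  have h7 : ∑ x, o x = 2 * q + 1 := by
    have e1 : ∑ x : Fin (2 * (2 * q + 1)), o x = ∑ i ∈ range (2 * (2 * q + 1)), (if i % 2 = 0 then (1 : ℤ) else 0) := by
      rw [← Fin.sum_univ_eq_sum_range (fun i => if i % 2 = 0 then (1 : ℤ) else 0)]
    rw [e1]
    have : ∀ n : ℕ, ∑ i ∈ range (2 * n), (if i % 2 = 0 then (1 : ℤ) else 0) = n := by
      intro n
      induction n with
      | zero => simp
      | succ n ih =>
        rw [show 2 * (n + 1) = 2 * n + 1 + 1 by ring, Finset.sum_range_succ, Finset.sum_range_succ, ih]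
        have a1 : (2 * n) % 2 = 0 := by omega
        have a2 : ¬ (2 * n + 1) % 2 = 0 := by omega
        rw [if_pos a1, if_neg a2]
        push_cast; ring
    rw [this]
    push_cast; ring
  rw [← Finset.sum_mul, h7] at h6
  have h8 : Even S0 := by
    rw [Int.even_mul] at h6
    rcases h6 with h6 | h6
    · exfalso
      rw [Int.even_iff] at h6
      omega
    · exact h6
  obtain ⟨k, hk⟩ := h8
  push_cast at hS0
  have h9 : (r : ℤ) * (2 * (2 * q + 1) + 1) - d * (2 * (2 * q + 1) - 1) = 4 * (q * (r - d) + r) - (r + d) := by ring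
  rw [h9, hk] at hS0
  omega

theorem nec_low {p r d : ℕ} (h : ExistsH p r d) (hd : 1 ≤ d) (hp : 2 ≤ p) : d + 1 ≤ r := by
  obtain ⟨A, hA, hdeg, _, hc⟩ := existsH_matrix h (by omega)
  let x : Fin p := ⟨p - 1, by omega⟩
  have hx : (x.val : ℤ) = p - 1 := by
    simp only [x]
    push_cast [Nat.cast_sub (show 1 ≤ p by omega)]
    ring
  have h1 := hc x
  have h2 : ∑ y, A x y = r := hdeg x
  have h3 : ∑ y, A x y * (2 * (x.val : ℤ) - 2 * y.val) = (r - d) * (p - 1) := by
    have : ∀ y : Fin p, A x y * (2 * (x.val : ℤ) - 2 * y.val) = A x y * (2 * x.val + 1 - p) -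
      A x y * (2 * (y.val : ℤ) + 1 - p) := fun y => by ring
    rw [Finset.sum_congr rfl (fun y _ => this y), Finset.sum_sub_distrib, ← Finset.sum_mul, h1, h2, hx]
    ring
  have h4 : ∑ y, A x y * 2 ≤ ∑ y, A x y * (2 * (x.val : ℤ) - 2 * y.val) := by
    apply Finset.sum_le_sum
    intro y _
    by_cases hxy : y = x
    · rw [hxy, hA.diag]; simp
    · apply mul_le_mul_of_nonneg_left _ (hA.nonneg x y)
      have h5 : y.val < x.val := by
        have := y.isLt
        have h6 : y.val ≠ x.val := fun h => hxy (Fin.ext h)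
        simp only [x] at h6 ⊢
        omega
      have : (y.val : ℤ) + 1 ≤ x.val := by exact_mod_cast h5
      linarith
  rw [← Finset.sum_mul, h2, h3] at h4
  by_contra hcon
  push Not at hcon
  have h5 : (r : ℤ) - d ≤ 0 := by
    have : (r : ℤ) < d + 1 := by exact_mod_cast hcon
    linarith
  have hp' : (2 : ℤ) ≤ p := by exact_mod_cast hp
  have hd' : (1 : ℤ) ≤ d := by exact_mod_cast hd
  have h6 : ((r : ℤ) - d) * (p - 1) ≤ 0 := mul_nonpos_of_nonpos_of_nonneg h5 (by linarith)
  have hr0 : (r : ℤ) = 0 := by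
    have : (0 : ℤ) ≤ r := Int.natCast_nonneg r
    linarith
  rw [hr0] at h4
  nlinarith

theorem nec_high {p r d : ℕ} (h : ExistsH p r d) (hd : 1 ≤ d) (hp : 2 ≤ p) : r + d + 3 ≤ p := by
  obtain ⟨A, hA, hdeg, _, hc⟩ := existsH_matrix h (by omega)
  let x : Fin p := ⟨p - 1, by omega⟩
  have hx : (x.val : ℤ) = p - 1 := by
    simp only [x]
    push_cast [Nat.cast_sub (show 1 ≤ p by omega)]
    ring
  have h1 := hc x
  have h2 : ∑ y, A x y = r := hdeg x
  -- complement row
  let C : Fin p → ℤ := fun y => 1 - A x y - (if y = x then 1 else 0)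
  have hC0 : ∀ y, 0 ≤ C y := by
    intro y
    simp only [C]
    split_ifs with hy
    · rw [hy, hA.diag]; norm_num
    · have := hA.le_one x y; omega
  have hCs : ∑ y, C y = p - 1 - r := by
    simp only [C]
    rw [Finset.sum_sub_distrib, Finset.sum_sub_distrib, h2]
    simp
    ring
  have hg := gauss_fin p
  have hCw : ∑ y, C y * (2 * (y.val : ℤ)) = (p - 1) * (p - 2 - d - r) := by
    have e1 : ∀ y : Fin p, C y * (2 * (y.val : ℤ)) = 2 * (y.val : ℤ) - (A x y * (2 * (y.val : ℤ) + 1 - p)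
      + A x y * (p - 1)) - (if y = x then 2 * (y.val : ℤ) else 0) := by
      intro y
      simp only [C]
      split_ifs <;> ring
    rw [Finset.sum_congr rfl (fun y _ => e1 y), Finset.sum_sub_distrib, Finset.sum_sub_distrib,
      Finset.sum_add_distrib, ← Finset.sum_mul, h1, h2, ← Finset.mul_sum, hg]
    simp only [Finset.sum_ite_eq', Finset.mem_univ, if_true]
    rw [hx]
    ring
  -- at most one nonneighbour has value 0
  have hlow : ∑ y, C y * (2 * (y.val : ℤ)) ≥ 2 * (∑ y, C y) - 2 := by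
    have e2 : ∑ y : Fin p, (C y * (2 * (y.val : ℤ)) - 2 * C y + (if y.val = 0 then 2 else 0)) ≥ 0 := by
      apply Finset.sum_nonneg
      intro y _
      by_cases hy : y.val = 0
      · rw [if_pos hy, hy]
        have : C y ≤ 1 := by
          simp only [C]
          have := hA.nonneg x y
          split_ifs <;> omega
        simp
        linarith
      · rw [if_neg hy]
        have h5 : (1 : ℤ) ≤ y.val := by
          have : 1 ≤ y.val := by omega
          exact_mod_cast this
        have := hC0 y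
        nlinarith
    rw [Finset.sum_add_distrib, Finset.sum_sub_distrib, ← Finset.mul_sum] at e2
    have e3 : ∑ y : Fin p, (if y.val = 0 then (2 : ℤ) else 0) = 2 := by
      have : ∀ y : Fin p, (y.val = 0) ↔ y = ⟨0, by omega⟩ := by
        intro y; constructor
        · intro h; exact Fin.ext h
        · intro h; rw [h]
      rw [Finset.sum_congr rfl (fun y _ => if_congr (this y) rfl rfl)]
      simp
    rw [e3] at e2
    linarith
  rw [hCw, hCs] at hlow
  have hpos : (0 : ℤ) ≤ (p - 1) * (p - 2 - d - r) := by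
    rw [← hCw]
    exact Finset.sum_nonneg (fun y _ => mul_nonneg (hC0 y) (by positivity))
  have hp' : (2 : ℤ) ≤ p := by exact_mod_cast hp
  have hd' : (1 : ℤ) ≤ d := by exact_mod_cast hd
  by_contra hcon
  push Not at hcon
  have h6 : (p : ℤ) - 2 - d - r ≤ 0 := by
    have : (p : ℤ) < r + d + 3 := by exact_mod_cast hcon
    linarith
  have h7 : ((p : ℤ) - 1) * (p - 2 - d - r) ≤ 0 := mul_nonpos_of_nonneg_of_nonpos (by linarith) h6
  have h8 : ((p : ℤ) - 2 - d - r) < 0 := by linarith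
  have h9 : ((p : ℤ) - 1) * (p - 2 - d - r) < 0 := mul_neg_of_pos_of_neg (by linarith) h8
  linarith

end Pool.Agent.Helper48
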