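import Pool.Agent.Helper48.HcEven
import Pool.Agent.Helper48.HcNec

namespace Pool.Agent.Helper48

theorem even_main (d : ℕ) (hd : 1 ≤ d) (p : ℕ) (hp : 1000 * 5 ^ d ≤ p) (hp2 : Even p) (r : ℕ) :
    ExistsH p r d ↔ (d + 2 ≤ r ∧ r + d + 4 ≤ p ∧ Even (r + d) ∧ (p % 4 = 2 → 4 ∣ r + d)) := by
  rw [Nat.even_iff] at hp2
  have h5 : 1 ≤ 5 ^ d := Nat.one_le_pow _ _ (by norm_num)
  constructor
  · intro h
    have h1 := nec_even h hp2 (by omega)
    have h2 := nec_low h hd (by omega)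
    have h3 := nec_high h hd (by omega)
    exact ⟨by omega, by omega, by rw [Nat.even_iff]; omega,
      fun h4 => Nat.dvd_of_mod_eq_zero (nec_two_mod_four h h4)⟩
  · rintro ⟨h1, h2, h3, h4⟩
    obtain ⟨m, hm⟩ : ∃ m, p = m + m := ⟨p / 2, by omega⟩
    subst hm
    rw [Nat.even_iff] at h3
    exact exists_even d hd m (by omega) r h1 (by omega) (by omega)
      (fun h5 => Nat.mod_eq_zero_of_dvd (h4 (by omega)))

end Pool.Agent.Helper48
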