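import Pool.Agent.Helper48.HcPetersen

namespace Pool.Agent.Helper48

open Finset

/-- complement -/
def cmpl {V : Type*} [DecidableEq V] (A : V → V → ℤ) : V → V → ℤ :=
  fun a b => (if a = b then 0 else 1) - A a b

theorem cmpl_isAdj {V : Type*} [DecidableEq V] {A : V → V → ℤ} (h : IsAdj A) : IsAdj (cmpl A) := by
  refine ⟨fun a b => ?_, fun a b => ?_, fun a => ?_⟩
  · unfold cmpl
    by_cases hab : a = b
    · rw [if_pos hab, hab, h.diag]; left; rfl
    · rw [if_neg hab]
      rcases h.zo a b with h | h <;> rw [h] <;> norm_num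
  · unfold cmpl
    rw [h.symm a b]
    by_cases hab : a = b
    · rw [if_pos hab, if_pos hab.symm]
    · rw [if_neg hab, if_neg (fun h => hab h.symm)]
  · unfold cmpl
    rw [if_pos rfl, h.diag]; rfl

theorem cmpl_deg {V : Type*} [Fintype V] [DecidableEq V] (A : V → V → ℤ) (a : V) :
    deg (cmpl A) a = Fintype.card V - 1 - deg A a := by
  unfold deg cmpl
  rw [Finset.sum_sub_distrib]
  congr 1
  have : ∀ b : V, (if a = b then (0 : ℤ) else 1) = 1 - (if a = b then 1 else 0) := by
    intro b; split_ifs <;> rfl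
  rw [Finset.sum_congr rfl (fun b _ => this b), Finset.sum_sub_distrib]
  simp

theorem add_isAdj {V : Type*} {F W : V → V → ℤ} (hF : IsAdj F) (hW : IsAdj W)
    (hFW : ∀ a b, F a b + W a b ≤ 1) : IsAdj (fun a b => F a b + W a b) := by
  refine ⟨fun a b => ?_, fun a b => ?_, fun a => ?_⟩
  · have := hFW a b; have := hF.nonneg a b; have := hW.nonneg a b
    show F a b + W a b = 0 ∨ F a b + W a b = 1
    omega
  · show F a b + W a b = F b a + W b a
    rw [hF.symm, hW.symm]
  · show F a a + W a a = 0
    rw [hF.diag, hW.diag]; rfl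

theorem add_deg {V : Type*} [Fintype V] (F W : V → V → ℤ) (a : V) :
    deg (fun a b => F a b + W a b) a = deg F a + deg W a := by
  unfold deg; rw [← Finset.sum_add_distrib]

theorem even_sum_deg {V : Type*} [Fintype V] [DecidableEq V] {W : V → V → ℤ} (hW : IsAdj W) :
    Even (∑ a, deg W a) :=
  even_sum_of_symm hW.symm (fun a => by rw [hW.diag]; exact Even.zero)

/-- Graphs with nearly constant prescribed degrees avoiding a graph of bounded degree. -/
theorem exists_graph_deg {m : ℕ} {F : Fin m → Fin m → ℤ} (hF : IsAdj F) {Δ δ Z : ℤ}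
    (hΔ : ∀ a, deg F a ≤ Δ) {k : Fin m → ℤ} (hk0 : ∀ a, 0 ≤ k a)
    (hn0 : ∀ a, 0 ≤ (m : ℤ) - 1 - deg F a - k a) (hδ : ∀ a b, k a ≤ k b + δ)
    (hZk : ((univ.filter (fun a => k a = 0)).card : ℤ) ≤ Z)
    (hZn : ((univ.filter (fun a => (m : ℤ) - 1 - deg F a - k a = 0)).card : ℤ) ≤ Z)
    (heven : Even (∑ a, k a))
    (hm : (2 * Δ + 2 * δ + 7) * (Δ + δ + 6) + Z < m) :
    ∃ K : Fin m → Fin m → ℤ, IsAdj K ∧ (∀ a b, F a b + K a b ≤ 1) ∧ ∀ a, deg K a = k a := by
  have hZ0 : 0 ≤ Z := le_trans (by positivity) hZk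
  by_cases hm0 : m = 0
  · subst hm0
    exact ⟨fun _ _ => 0, ⟨fun _ _ => Or.inl rfl, fun _ _ => rfl, fun _ => rfl⟩,
      fun a => a.elim0, fun a => a.elim0⟩
  haveI : Nonempty (Fin m) := ⟨⟨0, Nat.pos_of_ne_zero hm0⟩⟩
  obtain ⟨a0, ha0⟩ := Finite.exists_min k
  have hΔ0 : 0 ≤ Δ := (hF.deg_nonneg a0).trans (hΔ a0)
  have hδ0 : 0 ≤ δ := by have := hδ a0 a0; omega
  have hmu : ∀ a, k a ≤ k a0 + δ := fun a => hδ a a0
  by_cases hκ : k a0 ≤ 1
  · apply exists_deg_small hF hΔ hk0 (ω := δ + 1) (Z := Z) (fun a => by have := hmu a; omega) hZk heven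
    rw [Fintype.card_fin]
    nlinarith
  · push Not at hκ
    obtain ⟨j, hj⟩ : ∃ j : ℕ, k a0 - 1 = 2 * j ∨ k a0 - 1 = 2 * j + 1 := by
      refine ⟨((k a0 - 1) / 2).toNat, ?_⟩
      omega
    have hw0 : ∀ a, 1 ≤ k a - 2 * j := fun a => by have := ha0 a; omega
    have hwω : ∀ a, k a - 2 * j ≤ δ + 2 := fun a => by have := hmu a; omega
    obtain ⟨W, hW, hFW, hWd⟩ := exists_deg_small hF hΔ (w := fun a => k a - 2 * j) (Z := 0)
      (fun a => by have := hw0 a; omega) hwω
      (by
        have : univ.filter (fun a => k a - 2 * (j : ℤ) = 0) = ∅ := by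
          apply Finset.filter_false_of_mem
          intro a _
          have := hw0 a; omega
        rw [this]; simp)
      (by
        rw [Finset.sum_sub_distrib]
        apply heven.sub
        rw [Finset.sum_const]
        simp only [nsmul_eq_mul]
        exact ⟨(univ : Finset (Fin m)).card * j, by ring⟩)
      (by
        rw [Fintype.card_fin]
        nlinarith)
    have hF2 := add_isAdj hF hW hFW
    set F2 := fun a b => F a b + W a b with hF2def
    have hF2d : ∀ a, deg F2 a ≤ Δ + δ + 2 := by
      intro a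
      rw [hF2def, add_deg, hWd]
      have := hΔ a; have := hwω a
      show deg F a + (k a - 2 * j) ≤ _
      omega
    obtain ⟨Δ', hΔ'1, hΔ'2, q', hq'⟩ : ∃ Δ' : ℤ, Δ + δ + 3 ≤ Δ' ∧ Δ' ≤ Δ + δ + 4 ∧
        ∃ q' : ℤ, (m : ℤ) - 1 - Δ' = 2 * q' := by
      rcases Int.even_or_odd' ((m : ℤ) - 1 - (Δ + δ + 3)) with ⟨q', h | h⟩
      · exact ⟨Δ + δ + 3, le_refl _, by omega, q', h⟩
      · exact ⟨Δ + δ + 4, by omega, le_refl _, q', by omega⟩
    have hpar : Even ((m : ℤ) * Δ') := by
      rcases Int.even_or_odd Δ' with h | h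
      · exact h.mul_left _
      · apply Even.mul_right
        obtain ⟨t, ht⟩ := h
        exact ⟨q' + t + 1, by omega⟩
    obtain ⟨W2, hW2, hFW2, hW2d⟩ := exists_deg_small hF2 hF2d (w := fun a => Δ' - deg F2 a) (Z := 0)
      (ω := Δ + δ + 4)
      (fun a => by have := hF2d a; omega) (fun a => by have := hF2.deg_nonneg a; omega)
      (by
        have : univ.filter (fun a => Δ' - deg F2 a = 0) = ∅ := by
          apply Finset.filter_false_of_mem
          intro a _
          have := hF2d a; omega
        rw [this]; simp)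
      (by
        rw [Finset.sum_sub_distrib]
        apply Even.sub _ (even_sum_deg hF2)
        rw [Finset.sum_const]
        simp only [nsmul_eq_mul, Finset.card_univ, Fintype.card_fin]
        exact hpar)
      (by
        rw [Fintype.card_fin]
        nlinarith)
    have hF3 := add_isAdj hF2 hW2 hFW2
    set F3 := fun a b => F2 a b + W2 a b with hF3def
    have hR := cmpl_isAdj hF3
    have hRd : ∀ a, deg (cmpl F3) a = 2 * q' := by
      intro a
      rw [cmpl_deg, Fintype.card_fin, hF3def, add_deg, hW2d]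
      show (m : ℤ) - 1 - (deg F2 a + (Δ' - deg F2 a)) = 2 * q'
      omega
    by_cases hjq : (j : ℤ) ≤ q'
    · -- Petersen
      obtain ⟨q, rfl⟩ := Int.eq_ofNat_of_zero_le (show 0 ≤ q' by omega)
      obtain ⟨S, hS, hSR, hSd⟩ := exists_even_factor hR (q := q) (j := j) hRd (by exact_mod_cast hjq)
      have hle : ∀ a b, F a b + (W a b + S a b) ≤ 1 := by
        intro a b
        have h1 := hSR a b
        have h2 : cmpl F3 a b = (if a = b then 0 else 1) - (F a b + W a b + W2 a b) := rfl
        have h3 : (if a = b then (0 : ℤ) else 1) ≤ 1 := by split_ifs <;> omega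
        have h4 := hW2.nonneg a b
        omega
      refine ⟨fun a b => W a b + S a b, add_isAdj hW hS ?_, hle, ?_⟩
      · intro a b
        have := hle a b
        have := hF.nonneg a b
        omega
      · intro a
        rw [add_deg, hWd, hSd]
        show k a - 2 * (j : ℤ) + 2 * (j : ℤ) = k a
        ring
    · push Not at hjq
      obtain ⟨Q, hQ, hFQ, hQd⟩ := exists_deg_small hF hΔ (w := fun a => (m : ℤ) - 1 - deg F a - k a)
        (Z := Z) (ω := Δ + δ + 4) hn0
        (fun a => by
          have h1 := ha0 a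
          have h2 := hF.deg_nonneg a
          show (m : ℤ) - 1 - deg F a - k a ≤ Δ + δ + 4
          omega) hZn
        (by
          rw [Finset.sum_sub_distrib, Finset.sum_sub_distrib]
          apply Even.sub _ heven
          apply Even.sub _ (even_sum_deg hF)
          rw [Finset.sum_const]
          simp only [nsmul_eq_mul, Finset.card_univ, Fintype.card_fin]
          rcases Int.even_or_odd (m : ℤ) with h | h
          · exact h.mul_right _
          · exact (h.sub_odd odd_one).mul_left _)
        (by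
          rw [Fintype.card_fin]
          nlinarith)
      have hF4 := add_isAdj hF hQ hFQ
      refine ⟨cmpl (fun a b => F a b + Q a b), cmpl_isAdj hF4, ?_, ?_⟩
      · intro a b
        unfold cmpl
        have h3 : (if a = b then (0 : ℤ) else 1) ≤ 1 := by split_ifs <;> omega
        have h4 := hQ.nonneg a b
        show F a b + ((if a = b then (0 : ℤ) else 1) - (F a b + Q a b)) ≤ 1
        omega
      · intro a
        rw [cmpl_deg, Fintype.card_fin, add_deg, hQd]
        show (m : ℤ) - 1 - (deg F a + ((m : ℤ) - 1 - deg F a - k a)) = k a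
        ring

end Pool.Agent.Helper48
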