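import Pool.Agent.Helper48.HcOddFam
import Pool.Agent.Helper48.HcEven
import Pool.Agent.Helper48.HcNec

namespace Pool.Agent.Helper48

open Finset

/-- adjacency matrix for odd order: negative classes, zero, positive classes -/
def odm {m : ℕ} (K P N : Fin m → Fin m → ℤ) (z : Fin m → ℤ) :
    (Fin m ⊕ Fin 1) ⊕ Fin m → (Fin m ⊕ Fin 1) ⊕ Fin m → ℤ
  | Sum.inl (Sum.inl a), Sum.inl (Sum.inl b) => K a b + P a b
  | Sum.inl (Sum.inl a), Sum.inl (Sum.inr _) => z a
  | Sum.inl (Sum.inl a), Sum.inr b => K a b + N a b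
  | Sum.inl (Sum.inr _), Sum.inl (Sum.inl b) => z b
  | Sum.inl (Sum.inr _), Sum.inl (Sum.inr _) => 0
  | Sum.inl (Sum.inr _), Sum.inr b => z b
  | Sum.inr a, Sum.inl (Sum.inl b) => K a b + N a b
  | Sum.inr a, Sum.inl (Sum.inr _) => z a
  | Sum.inr a, Sum.inr b => K a b + P a b

theorem existsH_odd_of {m r d : ℕ} {K P N : Fin m → Fin m → ℤ} {z : Fin m → ℤ}
    (hP : IsAdj P) (hNzo : ∀ a b, N a b = 0 ∨ N a b = 1) (hNs : ∀ a b, N a b = N b a)
    (hwt : ∀ a, ∑ b, (P a b - N a b) * (vl b + 1) = d * (vl a + 1))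
    (hK : IsAdj K) (hKP : ∀ a b, K a b + P a b ≤ 1) (hKN : ∀ a b, K a b + N a b ≤ 1)
    (hz : ∀ a, z a = 0 ∨ z a = 1) (hzs : 2 * ∑ a, z a = r)
    (hr : ∀ a, 2 * deg K a + deg P a + deg N a + z a = r) : ExistsH (m + 1 + m) r d := by
  let e : (Fin m ⊕ Fin 1) ⊕ Fin m ≃ Fin (m + 1 + m) :=
    (Equiv.sumCongr ((Equiv.sumCongr Fin.revPerm (Equiv.refl _)).trans finSumFinEquiv)
      (Equiv.refl _)).trans finSumFinEquiv
  have el : ∀ a : Fin m, (2 * ((e (Sum.inl (Sum.inl a))).val : ℤ) + 1 - ((m + 1 + m : ℕ) : ℤ))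
      = -2 * (vl a + 1) := by
    intro a
    have : (e (Sum.inl (Sum.inl a))).val = m - (a.val + 1) := by simp [e, Fin.revPerm, Fin.val_rev]
    rw [this]
    have := a.isLt
    unfold vl
    push_cast [Nat.cast_sub (show a.val + 1 ≤ m by omega)]
    ring
  have ez : ∀ u : Fin 1, (2 * ((e (Sum.inl (Sum.inr u))).val : ℤ) + 1 - ((m + 1 + m : ℕ) : ℤ)) = 0 := by
    intro u
    have : (e (Sum.inl (Sum.inr u))).val = m := by simp [e]
    rw [this]
    push_cast
    ring
  have er : ∀ a : Fin m, (2 * ((e (Sum.inr a)).val : ℤ) + 1 - ((m + 1 + m : ℕ) : ℤ))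
      = 2 * (vl a + 1) := by
    intro a
    have : (e (Sum.inr a)).val = m + 1 + a.val := by
      simp [e]
    rw [this]
    unfold vl
    push_cast
    ring
  have zo : ∀ (X : Fin m → Fin m → ℤ), (∀ a b, X a b = 0 ∨ X a b = 1) → (∀ a b, K a b + X a b ≤ 1) →
      ∀ a b, K a b + X a b = 0 ∨ K a b + X a b = 1 := by
    intro X h1 h2 a b
    have := h2 a b
    have := hK.nonneg a b
    rcases h1 a b with h | h <;> omega
  have hKPs : ∀ a b, K a b + P a b = K b a + P b a := fun a b => by rw [hK.symm, hP.symm]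
  have hKNs : ∀ a b, K a b + N a b = K b a + N b a := fun a b => by rw [hK.symm, hNs]
  apply existsH_of_matrix e (odm K P N z)
  · refine ⟨?_, ?_, ?_⟩
    · rintro ((a | a) | a) ((b | b) | b)
      · exact zo P hP.zo hKP a b
      · exact hz a
      · exact zo N hNzo hKN a b
      · exact hz b
      · exact Or.inl rfl
      · exact hz b
      · exact zo N hNzo hKN a b
      · exact hz a
      · exact zo P hP.zo hKP a b
    · rintro ((a | a) | a) ((b | b) | b)
      · exact hKPs a b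
      · rfl
      · exact hKNs a b
      · rfl
      · rfl
      · rfl
      · exact hKNs a b
      · rfl
      · exact hKPs a b
    · rintro ((a | a) | a)
      · show K a a + P a a = 0
        rw [hK.diag, hP.diag]; rfl
      · rfl
      · show K a a + P a a = 0
        rw [hK.diag, hP.diag]; rfl
  · rintro ((a | a) | a)
    · unfold deg
      rw [Fintype.sum_sum_type, Fintype.sum_sum_type]
      show ∑ b, (K a b + P a b) + ∑ _b : Fin 1, z a + ∑ b, (K a b + N a b) = r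
      rw [Finset.sum_add_distrib, Finset.sum_add_distrib, ← hr a]
      unfold deg
      simp
      ring
    · unfold deg
      rw [Fintype.sum_sum_type, Fintype.sum_sum_type]
      show ∑ b, z b + ∑ _b : Fin 1, (0 : ℤ) + ∑ b, z b = r
      rw [← hzs]
      simp
      ring
    · unfold deg
      rw [Fintype.sum_sum_type, Fintype.sum_sum_type]
      show ∑ b, (K a b + N a b) + ∑ _b : Fin 1, z a + ∑ b, (K a b + P a b) = r
      rw [Finset.sum_add_distrib, Finset.sum_add_distrib, ← hr a]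
      unfold deg
      simp
      ring
  · intro v
    have split : ∀ f : (Fin m ⊕ Fin 1) ⊕ Fin m → ℤ,
        ∑ b, f b * (2 * ((e b).val : ℤ) + 1 - ((m + 1 + m : ℕ) : ℤ)) =
        ∑ b : Fin m, (f (Sum.inr b) - f (Sum.inl (Sum.inl b))) * (2 * (vl b + 1)) := by
      intro f
      rw [Fintype.sum_sum_type, Fintype.sum_sum_type]
      rw [Finset.sum_congr rfl (fun b _ => by rw [el b])]
      rw [Finset.sum_congr (s₁ := univ)
        (f := fun b : Fin 1 => f (Sum.inl (Sum.inr b)) * (2 * ((e (Sum.inl (Sum.inr b))).val : ℤ) + 1 - ((m + 1 + m : ℕ) : ℤ)))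
        (g := fun _ => 0) rfl (fun b _ => by rw [ez b, mul_zero])]
      rw [Finset.sum_congr (s₁ := univ)
        (f := fun b : Fin m => f (Sum.inr b) * (2 * ((e (Sum.inr b)).val : ℤ) + 1 - ((m + 1 + m : ℕ) : ℤ)))
        rfl (fun b _ => by rw [er b])]
      rw [Finset.sum_const_zero, add_zero, ← Finset.sum_add_distrib]
      apply Finset.sum_congr rfl
      intro b _
      ring
    rw [split]
    rcases v with ((a | a) | a)
    · rw [el a]
      show ∑ b, ((K a b + N a b) - (K a b + P a b)) * (2 * (vl b + 1)) = _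
      have : ∀ b, ((K a b + N a b) - (K a b + P a b)) * (2 * (vl b + 1))
          = - 2 * ((P a b - N a b) * (vl b + 1)) := fun b => by ring
      rw [Finset.sum_congr rfl (fun b _ => this b), ← Finset.mul_sum, hwt]
      ring
    · rw [ez a]
      show ∑ b, (z b - z b) * (2 * (vl b + 1)) = _
      simp
    · rw [er a]
      show ∑ b, ((K a b + P a b) - (K a b + N a b)) * (2 * (vl b + 1)) = _
      have : ∀ b, ((K a b + P a b) - (K a b + N a b)) * (2 * (vl b + 1))
          = 2 * ((P a b - N a b) * (vl b + 1)) := fun b => by ring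
      rw [Finset.sum_congr rfl (fun b _ => this b), ← Finset.mul_sum, hwt]
      ring

theorem quad_le2 (d : ℕ) (hd : 1 ≤ d) : (2 * d + 33) * (d + 19) + 1 ≤ 200 * 5 ^ d := by
  induction d, hd using Nat.le_induction with
  | base => norm_num
  | succ d hd ih =>
    rw [pow_succ]
    nlinarith

/-- main existence statement for odd order; `z₀ = 0` for even `d`, `z₀ = 1` for odd `d` -/
theorem exists_odd {d : ℕ} (hd : 1 ≤ d) {m r : ℕ} (hr2 : r % 2 = 0) (hr : d + 12 ≤ r)
    (hr' : r + d + 13 ≤ 2 * m) (hm : 600 * 5 ^ d ≤ m) {y z₀ : ℕ} (hz₀ : z₀ = d % 2)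
    (hy : (z₀ = 0 ∧ 2 * y = r) ∨ (z₀ = 1 ∧ 2 * y + r = 2 * m))
    (hy1 : 25 ≤ y) (hy2 : y + 26000 * 5 ^ d ≤ m) : ExistsH (m + 1 + m) r d := by
  obtain ⟨L, hL0, hL⟩ := base_exists d hd
  have h5 : 5 ≤ 5 ^ d := by
    calc 5 = 5 ^ 1 := by norm_num
      _ ≤ 5 ^ d := Nat.pow_le_pow_right (by norm_num) hd
  have hq := quad_le2 d hd
  obtain ⟨P₀, N₀, hB, _, _⟩ := hL m (by omega)
  have hS := hB.str
  have hN12 : ∀ a, 1 ≤ deg N₀ a ∧ deg N₀ a ≤ 2 := by
    intro a
    rcases hB.row a with h | h <;> omega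
  -- the odd family
  obtain ⟨κ, hκ⟩ := sum_deg_N_parity hS
  obtain ⟨ρ', hρ'⟩ : ∃ ρ' : ℤ, (r : ℤ) = 2 * ρ' := ⟨r / 2, by omega⟩
  obtain ⟨T, s, hT, hs⟩ := oddFam_exists (L := L) (m := m) (y := y) hy1 (by omega)
    (ρ := m * r - ρ' - m * d - 2 * ∑ a, deg N₀ a) (by
      have e1 : (∑ a, deg N₀ a : ℤ) = m * d + (κ + κ) := by linarith
      rw [e1, hρ']
      rcases hy with ⟨hz, hy⟩ | ⟨hz, hy⟩
      · have hde : Even (d : ℤ) := by
          have : Even d := by rw [Nat.even_iff]; omega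
          exact_mod_cast this
        obtain ⟨δ, hδ⟩ := hde
        have : (ρ' : ℤ) = y := by omega
        rw [this, hδ]
        exact ⟨m * y - y - m * δ - m * (δ + δ) - (κ + κ), by ring⟩
      · have hde : Odd (d : ℤ) := by
          have : Odd d := by rw [Nat.odd_iff]; omega
          exact_mod_cast this
        obtain ⟨δ, hδ⟩ := hde
        have : (ρ' : ℤ) = m - y := by omega
        rw [this, hδ]
        exact ⟨m * (m - y) - m - m * δ - m * (2 * δ + 1) - (κ + κ), by ring⟩)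
  -- combined matrices
  obtain ⟨P₁, hP₁⟩ : ∃ P₁ : Fin m → Fin m → ℤ, P₁ = fun a b => if T a b = -1 then 1 else 0 := ⟨_, rfl⟩
  obtain ⟨N₁, hN₁⟩ : ∃ N₁ : Fin m → Fin m → ℤ, N₁ = fun a b => if T a b = 1 then 1 else 0 := ⟨_, rfl⟩
  have hP₁v : ∀ a b, P₁ a b = if T a b = -1 then 1 else 0 := fun a b => by rw [hP₁]
  have hN₁v : ∀ a b, N₁ a b = if T a b = 1 then 1 else 0 := fun a b => by rw [hN₁]
  have hPN1 : ∀ a b, (P₁ a b = 0 ∧ N₁ a b = 0 ∧ T a b = 0) ∨ (P₁ a b = 0 ∧ N₁ a b = 1 ∧ T a b = 1) ∨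
      (P₁ a b = 1 ∧ N₁ a b = 0 ∧ T a b = -1) := by
    intro a b
    rw [hP₁v, hN₁v]
    rcases hT.zo a b with h | h | h <;> rw [h] <;> norm_num
  have hbase0 : ∀ a b, T a b ≠ 0 → P₀ a b = 0 ∧ N₀ a b = 0 := by
    intro a b hab
    by_cases hne : a = b
    · subst hne
      have h1 := hT.low a (hT.supp a a hab)
      exact ⟨hS.adj.diag a, (hB.good a h1).1⟩
    · rcases hT.far a b hne hab with h | h
      · exact hB.band a b h
      · rw [hS.adj.symm, hS.symm]
        exact hB.band b a h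
  obtain ⟨P, hPdef⟩ : ∃ P : Fin m → Fin m → ℤ, P = fun a b => P₀ a b + P₁ a b := ⟨_, rfl⟩
  obtain ⟨N, hNdef⟩ : ∃ N : Fin m → Fin m → ℤ, N = fun a b => N₀ a b + N₁ a b := ⟨_, rfl⟩
  have hPv : ∀ a b, P a b = P₀ a b + P₁ a b := fun a b => by rw [hPdef]
  have hNv : ∀ a b, N a b = N₀ a b + N₁ a b := fun a b => by rw [hNdef]
  have hP : IsAdj P := by
    refine ⟨fun a b => ?_, fun a b => ?_, fun a => ?_⟩
    · rw [hPv]
      rcases hPN1 a b with ⟨h1, _, _⟩ | ⟨h1, _, _⟩ | ⟨h1, _, h3⟩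
      · rw [h1, add_zero]; exact hS.adj.zo a b
      · rw [h1, add_zero]; exact hS.adj.zo a b
      · rw [h1, (hbase0 a b (by rw [h3]; norm_num)).1]; right; rfl
    · rw [hPv, hPv, hS.adj.symm, hP₁v, hP₁v, hT.symm]
    · rw [hPv, hS.adj.diag, zero_add, hP₁v, if_neg]
      rcases hT.diag a with h | h <;> rw [h] <;> norm_num
  have hNzo : ∀ a b, N a b = 0 ∨ N a b = 1 := by
    intro a b
    rw [hNv]
    rcases hPN1 a b with ⟨_, h1, _⟩ | ⟨_, h1, h3⟩ | ⟨_, h1, _⟩
    · rw [h1, add_zero]; exact hS.zo a b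
    · rw [h1, (hbase0 a b (by rw [h3]; norm_num)).2]; right; rfl
    · rw [h1, add_zero]; exact hS.zo a b
  have hNs : ∀ a b, N a b = N b a := by
    intro a b
    rw [hNv, hNv, hS.symm, hN₁v, hN₁v, hT.symm]
  have hwt : ∀ a, ∑ b, (P a b - N a b) * (vl b + 1) = d * (vl a + 1) := by
    intro a
    have e1 : ∀ b, (P a b - N a b) * (vl b + 1) = (P₀ a b - N₀ a b) * (vl b + 1) - T a b * (vl b + 1) := by
      intro b
      rw [hPv, hNv]
      rcases hPN1 a b with ⟨h1, h2, h3⟩ | ⟨h1, h2, h3⟩ | ⟨h1, h2, h3⟩ <;> rw [h1, h2, h3] <;> ring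
    rw [Finset.sum_congr rfl (fun b _ => e1 b), Finset.sum_sub_distrib, hT.wt]
    have := (hS.affine 1 1).sm a
    rw [Finset.sum_congr rfl (fun b _ => by rw [add_comm (vl b) 1, ← one_mul (vl b)]), this]
    ring
  -- degrees
  obtain ⟨q, hq'⟩ : ∃ q : Fin m → ℤ, q = fun a => ∑ b, (T a b) ^ 2 := ⟨_, rfl⟩
  have hqv : ∀ a, q a = ∑ b, (T a b) ^ 2 := fun a => by rw [hq']
  have hdP₀ : ∀ a, deg P₀ a = d + deg N₀ a := by
    intro a
    have := hS.dg a
    rw [Finset.sum_sub_distrib] at this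
    unfold deg
    omega
  have hdPN : ∀ a, deg P a + deg N a = d + 2 * deg N₀ a + q a := by
    intro a
    have e1 : deg P a + deg N a = deg P₀ a + deg N₀ a + q a := by
      rw [hqv]
      unfold deg
      rw [← Finset.sum_add_distrib, ← Finset.sum_add_distrib, ← Finset.sum_add_distrib]
      apply Finset.sum_congr rfl
      intro b _
      rw [hPv, hNv]
      rcases hPN1 a b with ⟨h1, h2, h3⟩ | ⟨h1, h2, h3⟩ | ⟨h1, h2, h3⟩ <;> rw [h1, h2, h3] <;> ring
    rw [e1, hdP₀]; ring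
  have hq5 : ∀ a, 0 ≤ q a ∧ q a ≤ 5 := by
    intro a
    rcases hT.sz a with ⟨_, h⟩ | ⟨_, h | h⟩ <;> rw [hqv, h] <;> norm_num
  -- z
  obtain ⟨z, hz⟩ : ∃ z : Fin m → ℤ, z = fun a => z₀ + (1 - 2 * z₀) * T a a := ⟨_, rfl⟩
  have hzv : ∀ a, z a = z₀ + (1 - 2 * z₀) * T a a := fun a => by rw [hz]
  have hz01 : ∀ a, z a = 0 ∨ z a = 1 := by
    intro a
    rw [hzv]
    rcases hy with ⟨h, _⟩ | ⟨h, _⟩ <;> rcases hT.diag a with h' | h' <;> rw [h, h'] <;> norm_num
  have hzs : 2 * ∑ a, z a = r := by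
    have : ∑ a, z a = m * z₀ + (1 - 2 * z₀) * y := by
      rw [Finset.sum_congr rfl (fun a _ => hzv a), Finset.sum_add_distrib, ← Finset.mul_sum, hT.cnt]
      simp
    rw [this]
    rcases hy with ⟨h, h'⟩ | ⟨h, h'⟩
    · rw [h]; push_cast; omega
    · rw [h]; push_cast; omega
  have hparity : ∀ a, ∃ k : ℤ, (r : ℤ) - z a - d - 2 * deg N₀ a - q a = 2 * k := by
    intro a
    have h1 : ∃ j : ℤ, z a + d + q a = 2 * j := by
      rw [hzv, hqv]
      rcases hy with ⟨h, _⟩ | ⟨h, _⟩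
      · obtain ⟨δ, hδ⟩ : ∃ δ : ℕ, d = 2 * δ := ⟨d / 2, by omega⟩
        rw [h, hδ]
        rcases hT.sz a with ⟨h1, h2⟩ | ⟨h1, h2 | h2⟩ <;> rw [h1, h2]
        · exact ⟨δ, by push_cast; ring⟩
        · exact ⟨δ + 2, by push_cast; ring⟩
        · exact ⟨δ + 3, by push_cast; ring⟩
      · obtain ⟨δ, hδ⟩ : ∃ δ : ℕ, d = 2 * δ + 1 := ⟨d / 2, by omega⟩
        rw [h, hδ]
        rcases hT.sz a with ⟨h1, h2⟩ | ⟨h1, h2 | h2⟩ <;> rw [h1, h2]
        · exact ⟨δ + 1, by push_cast; ring⟩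
        · exact ⟨δ + 2, by push_cast; ring⟩
        · exact ⟨δ + 3, by push_cast; ring⟩
    obtain ⟨j, hj⟩ := h1
    exact ⟨ρ' - deg N₀ a - j, by linarith⟩
  choose k hk using hparity
  have hF := uni_isAdj hP hNzo hNs
  have hexc0 : ∀ a, 0 ≤ exc P N a := fun a => exc_nonneg hP hNzo a
  have hFd : ∀ a, deg (uni P N) a ≤ d + 2 * deg N₀ a + q a := by
    intro a
    rw [uni_deg hP, hdPN]
    have := hexc0 a
    omega
  have hkl : ∀ a, 1 ≤ k a := by
    intro a
    have h1 := hk a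
    have h2 := hN12 a
    have h3 := hq5 a
    have h4 := hz01 a
    omega
  have hkn : ∀ a, 1 ≤ (m : ℤ) - 1 - deg (uni P N) a - k a := by
    intro a
    have h1 := hk a
    have h2 := hN12 a
    have h3 := hq5 a
    have h4 := hz01 a
    have h5 := hFd a
    omega
  obtain ⟨K, hK, hK2, hK3⟩ := exists_graph_deg hF (Δ := d + 9) (δ := 4) (Z := 0) (k := k)
    (fun a => by
      have h2 := hN12 a
      have h3 := hq5 a
      have h5 := hFd a
      omega)
    (fun a => by have := hkl a; omega) (fun a => by have := hkn a; omega)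
    (fun a b => by
      have h1 := hk a
      have h2 := hN12 a
      have h3 := hq5 a
      have h4 := hz01 a
      have h1' := hk b
      have h2' := hN12 b
      have h3' := hq5 b
      have h4' := hz01 b
      omega)
    (by
      have : univ.filter (fun a => k a = 0) = ∅ := by
        apply Finset.filter_false_of_mem
        intro a _
        have := hkl a; omega
      rw [this]; simp)
    (by
      have : univ.filter (fun a => (m : ℤ) - 1 - deg (uni P N) a - k a = 0) = ∅ := by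
        apply Finset.filter_false_of_mem
        intro a _
        have := hkn a; omega
      rw [this]; simp)
    (by
      have e1 : 2 * ∑ a, k a = m * r - ∑ a, z a - m * d - 2 * ∑ a, deg N₀ a - s := by
        rw [Finset.mul_sum, ← Finset.sum_congr rfl (fun a _ => hk a)]
        simp only [Finset.sum_sub_distrib]
        have e2 : ∑ a, q a = s := by
          rw [← hT.tot]
          exact Finset.sum_congr rfl (fun a _ => hqv a)
        rw [e2, ← Finset.mul_sum]
        simp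
      have e3 : ∑ a, z a = ρ' := by omega
      rw [e3] at e1
      obtain ⟨j, hj⟩ := hs
      exact ⟨-j, by linarith⟩)
    (by
      have h1 : ((2 * d + 33) * (d + 19) + 1 : ℕ) ≤ m := by omega
      have h2 : ((2 * (d : ℤ) + 33) * (d + 19) + 1) ≤ m := by exact_mod_cast h1
      linarith)
  obtain ⟨g1, g2⟩ := le_of_uni hK hP hNzo hK2
  refine existsH_odd_of hP hNzo hNs hwt hK g1 g2 hz01 hzs ?_
  intro a
  rw [hK3, add_assoc (2 * k a), hdPN]
  have := hk a
  linarith

theorem odd_main (d : ℕ) (hd : 1 ≤ d) (p : ℕ) (hp : Odd p) (r : ℕ)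
    (h : (Even d ∧ d + 50 ≤ r ∧ r + 60000 * 5 ^ d ≤ p) ∨
      (Odd d ∧ 60000 * 5 ^ d ≤ r ∧ r + d + 50 ≤ p)) :
    ExistsH p r d ↔ Even r := by
  have h5 : 5 ≤ 5 ^ d := by
    calc 5 = 5 ^ 1 := by norm_num
      _ ≤ 5 ^ d := Nat.pow_le_pow_right (by norm_num) hd
  have hd5 : d < 5 ^ d := Nat.lt_pow_self (by norm_num)
  constructor
  · intro hE
    rw [Nat.even_iff]
    exact nec_odd hE (Nat.odd_iff.1 hp)
  · intro hr
    obtain ⟨m, hm⟩ := hp
    have hpm : p = m + 1 + m := by omega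
    rw [hpm]
    rw [Nat.even_iff] at hr
    rcases h with ⟨h1, h2, h3⟩ | ⟨h1, h2, h3⟩
    · rw [Nat.even_iff] at h1
      exact exists_odd hd hr (by omega) (by omega) (by omega) (y := r / 2) (z₀ := 0) (by omega)
        (Or.inl ⟨rfl, by omega⟩) (by omega) (by omega)
    · rw [Nat.odd_iff] at h1
      exact exists_odd hd hr (by omega) (by omega) (by omega) (y := m - r / 2) (z₀ := 1) (by omega)
        (Or.inr ⟨rfl, by omega⟩) (by omega) (by omega)

end Pool.Agent.Helper48
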