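import Mathlib

/-!
Bipartite graphs given by a relation `r : α → β → Prop` and finite sets `U`, `V`:
degrees, common neighbourhoods, density, and the two basic lemmas (selection of a set with a
large common neighbourhood, regularisation).
-/

namespace Pool.Agent.Helper48.Bip

open Finset

variable {α β : Type*}

open Classical in
/-- number of elements of `V` related to `u` -/
noncomputable def dg (r : α → β → Prop) (V : Finset β) (u : α) : ℕ :=
  (V.filter (fun v => r u v)).card

open Classical in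
/-- the elements of `U` related to everything in `T` -/
noncomputable def cm (r : α → β → Prop) (U : Finset α) (T : Finset β) : Finset α :=
  U.filter (fun u => ∀ v ∈ T, r u v)

/-- density of the relation between `U` and `V` -/
noncomputable def den (r : α → β → Prop) (U : Finset α) (V : Finset β) : ℝ :=
  (∑ u ∈ U, (dg r V u : ℝ)) / ((U.card : ℝ) * V.card)

theorem dg_le (r : α → β → Prop) (V : Finset β) (u : α) : dg r V u ≤ V.card := by
  classical
  unfold dg
  exact card_filter_le _ _

theorem sum_dg_comm (r : α → β → Prop) (U : Finset α) (V : Finset β) :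
    ∑ u ∈ U, dg r V u = ∑ v ∈ V, dg (flip r) U v := by
  classical
  have := sum_card_bipartiteAbove_eq_sum_card_bipartiteBelow (s := U) (t := V) r
  unfold dg
  simpa [bipartiteAbove, bipartiteBelow, flip] using this

theorem den_flip (r : α → β → Prop) (U : Finset α) (V : Finset β) :
    den (flip r) V U = den r U V := by
  unfold den
  rw [mul_comm]
  congr 1
  exact_mod_cast (sum_dg_comm r U V).symm

theorem den_nonneg (r : α → β → Prop) (U : Finset α) (V : Finset β) : 0 ≤ den r U V := by
  unfold den; positivity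

theorem den_le_one (r : α → β → Prop) (U : Finset α) (V : Finset β) : den r U V ≤ 1 := by
  unfold den
  apply div_le_one_of_le₀
  · calc ∑ u ∈ U, (dg r V u : ℝ) ≤ ∑ _u ∈ U, (V.card : ℝ) :=
        sum_le_sum (fun u _ => by exact_mod_cast dg_le r V u)
      _ = (U.card : ℝ) * V.card := by simp
  · positivity

theorem sum_dg_eq (r : α → β → Prop) {U : Finset α} {V : Finset β} (hU : U.Nonempty)
    (hV : V.Nonempty) : ∑ u ∈ U, (dg r V u : ℝ) = den r U V * ((U.card : ℝ) * V.card) := by
  unfold den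
  have h1 : (0:ℝ) < U.card := by exact_mod_cast card_pos.2 hU
  have h2 : (0:ℝ) < V.card := by exact_mod_cast card_pos.2 hV
  field_simp

theorem le_den (r : α → β → Prop) {U : Finset α} {V : Finset β} (hU : U.Nonempty)
    (hV : V.Nonempty) {t : ℝ} (h : ∀ u ∈ U, t * V.card ≤ dg r V u) : t ≤ den r U V := by
  unfold den
  have h1 : (0:ℝ) < U.card := by exact_mod_cast card_pos.2 hU
  have h2 : (0:ℝ) < V.card := by exact_mod_cast card_pos.2 hV
  rw [le_div_iff₀ (by positivity)]
  calc t * ((U.card : ℝ) * V.card) = ∑ _u ∈ U, t * (V.card : ℝ) := by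
        rw [sum_const, nsmul_eq_mul]; ring
    _ ≤ _ := sum_le_sum h

theorem sum_cm (r : α → β → Prop) (U : Finset α) (V : Finset β) (j : ℕ) :
    ∑ T ∈ powersetCard j V, (cm r U T).card = ∑ u ∈ U, (dg r V u).choose j := by
  classical
  unfold cm
  simp_rw [card_filter]
  rw [sum_comm]
  apply sum_congr rfl
  intro u _
  rw [← card_filter]
  unfold dg
  rw [← card_powersetCard]
  congr 1
  ext T
  simp only [mem_filter, mem_powersetCard]
  constructor
  · rintro ⟨⟨h1, h2⟩, h3⟩
    exact ⟨fun v hv => mem_filter.2 ⟨h1 hv, h3 v hv⟩, h2⟩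
  · rintro ⟨h1, h2⟩
    exact ⟨⟨fun v hv => (mem_filter.1 (h1 hv)).1, h2⟩, fun v hv => (mem_filter.1 (h1 hv)).2⟩

theorem choose_lower (n j : ℕ) : (max ((n : ℝ) - j) 0) ^ j ≤ (j.factorial : ℝ) * n.choose j := by
  have h1 : ((n + 1 - j : ℕ) : ℝ) ^ j ≤ (j.factorial : ℝ) * n.choose j := by
    have := Nat.pow_sub_le_descFactorial n j
    rw [Nat.descFactorial_eq_factorial_mul_choose] at this
    exact_mod_cast this
  refine le_trans (pow_le_pow_left₀ (le_max_right _ _) ?_ j) h1
  apply max_le
  · rcases le_total j n with h | h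
    · rw [Nat.cast_sub (by omega)]; push_cast; linarith
    · have : (n : ℝ) ≤ j := by exact_mod_cast h
      have h3 : (0 : ℝ) ≤ ((n + 1 - j : ℕ) : ℝ) := Nat.cast_nonneg _
      linarith
  · exact Nat.cast_nonneg _

/-- Selection: some `j`-subset of `V` has many common neighbours in `U`. -/
theorem sel (r : α → β → Prop) {U : Finset α} {V : Finset β} (hU : U.Nonempty) {j : ℕ}
    (hj : 1 ≤ j) (hjV : (j : ℝ) ≤ den r U V * V.card) :
    ∃ T ⊆ V, T.card = j ∧
      (U.card : ℝ) * (den r U V - j / V.card) ^ j ≤ (cm r U T).card := by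
  classical
  set D := den r U V with hD
  have hD1 : D ≤ 1 := den_le_one r U V
  have hD0 : 0 ≤ D := den_nonneg r U V
  have hjpos : (0:ℝ) < j := by exact_mod_cast hj
  have hV0 : (0:ℝ) < V.card := by
    by_contra h
    have : (V.card : ℝ) = 0 := le_antisymm (not_lt.1 h) (Nat.cast_nonneg _)
    rw [this] at hjV; linarith
  have hVne : V.Nonempty := by
    rw [← card_pos]; exact_mod_cast hV0
  have hjm : j ≤ V.card := by
    have : (j : ℝ) ≤ V.card := le_trans hjV (by nlinarith)
    exact_mod_cast this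
  have hU0 : (0:ℝ) < U.card := by exact_mod_cast card_pos.2 hU
  by_contra hcon
  push Not at hcon
  have hlt : ∑ T ∈ powersetCard j V, ((cm r U T).card : ℝ)
      < ∑ _T ∈ powersetCard j V, (U.card : ℝ) * (D - j / V.card) ^ j := by
    apply sum_lt_sum_of_nonempty
    · exact powersetCard_nonempty.2 hjm
    · intro T hT
      rw [mem_powersetCard] at hT
      exact hcon T hT.1 hT.2
  rw [sum_const, card_powersetCard, nsmul_eq_mul] at hlt
  have hfact : (0:ℝ) < j.factorial := by exact_mod_cast j.factorial_pos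
  have h1 : ((V.card.choose j : ℕ) : ℝ) ≤ (V.card : ℝ) ^ j / j.factorial :=
    Nat.choose_le_pow_div j V.card
  have hbase : 0 ≤ D - j / V.card := by
    rw [sub_nonneg, div_le_iff₀ hV0]; exact hjV
  have h2 : ((V.card.choose j : ℕ) : ℝ) * ((U.card : ℝ) * (D - j / V.card) ^ j)
      ≤ (U.card : ℝ) * (D * V.card - j) ^ j / j.factorial := by
    calc ((V.card.choose j : ℕ) : ℝ) * ((U.card : ℝ) * (D - j / V.card) ^ j)
        ≤ (V.card : ℝ) ^ j / j.factorial * ((U.card : ℝ) * (D - j / V.card) ^ j) := by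
          apply mul_le_mul_of_nonneg_right h1; positivity
      _ = (U.card : ℝ) * ((V.card : ℝ) * (D - j / V.card)) ^ j / j.factorial := by
          rw [mul_pow]; ring
      _ = (U.card : ℝ) * (D * V.card - j) ^ j / j.factorial := by
          congr 3; field_simp
  -- lower bound for the sum
  have h3 : (∑ T ∈ powersetCard j V, ((cm r U T).card : ℝ)) = ∑ u ∈ U, ((dg r V u).choose j : ℝ) := by
    exact_mod_cast sum_cm r U V j
  obtain ⟨i, rfl⟩ : ∃ i, j = i + 1 := ⟨j - 1, by omega⟩
  have h4 : (D * V.card - (i+1 : ℕ)) * U.card ≤ ∑ u ∈ U, max ((dg r V u : ℝ) - (i+1 : ℕ)) 0 := by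
    calc (D * V.card - (i+1 : ℕ)) * U.card = ∑ u ∈ U, ((dg r V u : ℝ) - (i+1 : ℕ)) := by
          rw [sum_sub_distrib, sum_dg_eq r hU hVne, sum_const, nsmul_eq_mul]; ring
      _ ≤ _ := sum_le_sum (fun u _ => le_max_left _ _)
  have h5 := pow_sum_le_card_mul_sum_pow (s := U)
    (f := fun u => max ((dg r V u : ℝ) - (i+1 : ℕ)) 0) (fun u _ => le_max_right _ _) i
  have h6 : ∑ u ∈ U, (max ((dg r V u : ℝ) - (i+1 : ℕ)) 0) ^ (i+1)
      ≤ ((i+1).factorial : ℝ) * ∑ u ∈ U, ((dg r V u).choose (i+1) : ℝ) := by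
    rw [mul_sum]
    exact sum_le_sum (fun u _ => choose_lower _ _)
  have h7 : 0 ≤ (D * V.card - (i+1 : ℕ)) := by linarith
  have h8 : ((D * V.card - (i+1 : ℕ)) * U.card) ^ (i+1) ≤
      (U.card : ℝ) ^ i * (((i+1).factorial : ℝ) * ∑ u ∈ U, ((dg r V u).choose (i+1) : ℝ)) := by
    calc ((D * V.card - (i+1 : ℕ)) * U.card) ^ (i+1)
        ≤ (∑ u ∈ U, max ((dg r V u : ℝ) - (i+1 : ℕ)) 0) ^ (i+1) :=
          pow_le_pow_left₀ (by positivity) h4 _
      _ ≤ (U.card : ℝ) ^ i * ∑ u ∈ U, (max ((dg r V u : ℝ) - (i+1 : ℕ)) 0) ^ (i+1) := h5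
      _ ≤ _ := by
          apply mul_le_mul_of_nonneg_left h6; positivity
  rw [mul_pow, pow_succ (U.card : ℝ) i] at h8
  have h9 : (D * V.card - (i+1 : ℕ)) ^ (i+1) * U.card ≤
      ((i+1).factorial : ℝ) * ∑ u ∈ U, ((dg r V u).choose (i+1) : ℝ) := by
    have hp : (0:ℝ) < (U.card : ℝ) ^ i := by positivity
    have : (U.card : ℝ) ^ i * ((D * V.card - (i+1 : ℕ)) ^ (i+1) * U.card) ≤
      (U.card : ℝ) ^ i * (((i+1).factorial : ℝ) * ∑ u ∈ U, ((dg r V u).choose (i+1) : ℝ)) := by
      calc _ = (D * V.card - (i+1 : ℕ)) ^ (i+1) * ((U.card : ℝ) ^ i * U.card) := by ring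
        _ ≤ _ := h8
    exact le_of_mul_le_mul_left this hp
  rw [h3] at hlt
  have h10 := lt_of_lt_of_le hlt h2
  rw [lt_div_iff₀ hfact] at h10
  linarith

/-- One-sided regularisation: pass to `U₁ ⊆ U` such that `|U₁|² D^y` does not drop and every
element of `U₁` has degree at least `(1 - 2/y) D |V|`. -/
theorem reg (r : α → β → Prop) {U : Finset α} {V : Finset β} (hU : U.Nonempty)
    (hV : V.Nonempty) {y : ℕ} (hy : 2 ≤ y) :
    ∃ U₁ ⊆ U, U₁.Nonempty ∧
      (U.card : ℝ) ^ 2 * den r U V ^ y ≤ (U₁.card : ℝ) ^ 2 * den r U₁ V ^ y ∧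
      den r U V ≤ den r U₁ V ∧
      ∀ u ∈ U₁, (1 - 2 / (y:ℝ)) * den r U₁ V * V.card ≤ dg r V u := by
  classical
  have hne : (U.powerset.filter (fun S => S.Nonempty)).Nonempty :=
    ⟨U, by simp [hU]⟩
  obtain ⟨U₁, hU₁, hmax⟩ := exists_max_image (U.powerset.filter (fun S => S.Nonempty))
    (fun S => (S.card : ℝ) ^ 2 * den r S V ^ y) hne
  simp only [mem_filter, mem_powerset] at hU₁ hmax
  obtain ⟨hsub, hne1⟩ := hU₁
  have hF : (U.card : ℝ) ^ 2 * den r U V ^ y ≤ (U₁.card : ℝ) ^ 2 * den r U₁ V ^ y :=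
    hmax U ⟨subset_rfl, hU⟩
  have hU0 : (0:ℝ) < U.card := by exact_mod_cast card_pos.2 hU
  have hV0 : (0:ℝ) < V.card := by exact_mod_cast card_pos.2 hV
  have hn0 : (0:ℝ) < U₁.card := by exact_mod_cast card_pos.2 hne1
  have hy0 : (0:ℝ) < y := by positivity
  have hy2 : (2:ℝ) ≤ y := by exact_mod_cast hy
  refine ⟨U₁, hsub, hne1, hF, ?_, ?_⟩
  · -- density does not drop
    by_contra hlt
    push Not at hlt
    have h1 : den r U₁ V ^ y < den r U V ^ y := pow_lt_pow_left₀ hlt (den_nonneg _ _ _) (by omega)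
    have h2 : (U₁.card : ℝ) ^ 2 ≤ (U.card : ℝ) ^ 2 :=
      pow_le_pow_left₀ hn0.le (by exact_mod_cast card_le_card hsub) 2
    have h3 : (U₁.card : ℝ) ^ 2 * den r U₁ V ^ y < (U.card : ℝ) ^ 2 * den r U V ^ y := by
      calc (U₁.card : ℝ) ^ 2 * den r U₁ V ^ y < (U₁.card : ℝ) ^ 2 * den r U V ^ y := by
            apply mul_lt_mul_of_pos_left h1; positivity
        _ ≤ _ := by
            apply mul_le_mul_of_nonneg_right h2
            exact pow_nonneg (den_nonneg _ _ _) _
    linarith
  · intro u hu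
    set D := den r U₁ V with hD
    have hD0 : 0 ≤ D := den_nonneg _ _ _
    by_contra hlt
    push Not at hlt
    have hdg0 : (0:ℝ) ≤ dg r V u := Nat.cast_nonneg _
    have hDpos : 0 < D := by
      rcases hD0.lt_or_eq with h | h
      · exact h
      · rw [← h] at hlt; simp at hlt; linarith
    have hsum := sum_dg_eq r hne1 hV
    rw [← hD] at hsum
    have hsplit : ∑ w ∈ U₁, (dg r V w : ℝ) = dg r V u + ∑ w ∈ U₁.erase u, (dg r V w : ℝ) :=
      (add_sum_erase U₁ (fun w => (dg r V w : ℝ)) hu).symm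
    rcases Nat.lt_or_ge U₁.card 2 with h1 | h2
    · -- one element
      have hc1 : U₁.card = 1 := by
        have := card_pos.2 hne1; omega
      have he : U₁.erase u = ∅ := by
        rw [← card_eq_zero, card_erase_of_mem hu, hc1]
      rw [he, sum_empty, add_zero, hsum, hc1] at hsplit
      have : D * V.card = dg r V u := by
        rw [← hsplit]; push_cast; ring
      have h3 : (1 - 2 / (y:ℝ)) * D * V.card ≤ D * V.card := by
        have : 0 ≤ 2 / (y:ℝ) * (D * V.card) := by positivity
        nlinarith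
      linarith
    · have hn2 : (2:ℝ) ≤ U₁.card := by exact_mod_cast h2
      set n : ℝ := (U₁.card : ℝ) with hn
      have hcard : ((U₁.erase u).card : ℝ) = n - 1 := by
        rw [card_erase_of_mem hu, Nat.cast_sub (by omega)]; simp [hn]
      have hne2 : (U₁.erase u).Nonempty := by
        rw [← card_pos, card_erase_of_mem hu]; omega
      have hmx := hmax (U₁.erase u) ⟨(erase_subset _ _).trans hsub, hne2⟩
      rw [hcard] at hmx
      have hn1 : 0 < n - 1 := by linarith
      have hden : den r (U₁.erase u) V = (D * (n * V.card) - dg r V u) / ((n - 1) * V.card) := by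
        unfold den
        rw [hcard]
        congr 1
        linarith
      set t : ℝ := 2 / (y * (n - 1)) with ht
      have ht0 : 0 < t := by positivity
      have hlow : D * (1 + t) < den r (U₁.erase u) V := by
        rw [hden, lt_div_iff₀ (by positivity)]
        have : D * (1 + t) * ((n - 1) * V.card) = D * V.card * (n - 1) + D * V.card * (2 / y) := by
          rw [ht]; field_simp
        rw [this]
        nlinarith
      have h3 : (D * (1 + t)) ^ y < den r (U₁.erase u) V ^ y :=
        pow_lt_pow_left₀ hlow (by positivity) (by omega)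
      have h4 : (n / (n - 1)) ^ 2 ≤ (1 + t) ^ y := by
        have hb := one_add_mul_self_le_rpow_one_add (s := t) (by linarith) (p := (y:ℝ)/2)
          (by linarith)
        have hb2 : 1 + (y:ℝ) / 2 * t = n / (n - 1) := by
          rw [ht]; field_simp; ring
        rw [hb2] at hb
        calc (n / (n - 1)) ^ 2 ≤ ((1 + t) ^ ((y:ℝ)/2)) ^ 2 :=
              pow_le_pow_left₀ (by positivity) hb 2
          _ = (1 + t) ^ y := by
              rw [← Real.rpow_natCast, ← Real.rpow_mul (by linarith)]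
              rw [show (y:ℝ)/2 * ((2:ℕ):ℝ) = (y:ℝ) by push_cast; ring, Real.rpow_natCast]
      have h5 : n ^ 2 * D ^ y < (n - 1) ^ 2 * den r (U₁.erase u) V ^ y := by
        calc n ^ 2 * D ^ y = (n - 1) ^ 2 * ((n / (n - 1)) ^ 2 * D ^ y) := by field_simp
          _ ≤ (n - 1) ^ 2 * ((1 + t) ^ y * D ^ y) := by
              apply mul_le_mul_of_nonneg_left _ (by positivity)
              apply mul_le_mul_of_nonneg_right h4 (by positivity)
          _ = (n - 1) ^ 2 * (D * (1 + t)) ^ y := by rw [mul_pow]; ring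
          _ < _ := by
              apply mul_lt_mul_of_pos_left h3; positivity
      linarith

end Pool.Agent.Helper48.Bip
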