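import Pool.Agent.Helper48.BipMain

/-!
Two colours: one of them has density at least `1/2`.
-/

namespace Pool.Agent.Helper48.Bip

open Finset

theorem half {α β : Type*} (r s : α → β → Prop) {U : Finset α} {V : Finset β} (hU : U.Nonempty)
    (hV : V.Nonempty) (h : ∀ u v, r u v ∨ s u v) :
    1 / 2 ≤ den r U V ∨ 1 / 2 ≤ den s U V := by
  classical
  by_contra hcon
  push Not at hcon
  obtain ⟨h1, h2⟩ := hcon
  have hU0 : (0:ℝ) < U.card := by exact_mod_cast card_pos.2 hU
  have hV0 : (0:ℝ) < V.card := by exact_mod_cast card_pos.2 hV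
  have hr := sum_dg_eq r hU hV
  have hs := sum_dg_eq s hU hV
  have hle : ∀ u ∈ U, (V.card : ℝ) ≤ dg r V u + dg s V u := by
    intro u _
    have : V.card ≤ dg r V u + dg s V u := by
      unfold dg
      calc V.card ≤ (V.filter (fun v => r u v) ∪ V.filter (fun v => s u v)).card := by
            apply card_le_card
            intro v hv
            rw [mem_union, mem_filter, mem_filter]
            rcases h u v with h | h
            · exact Or.inl ⟨hv, h⟩
            · exact Or.inr ⟨hv, h⟩
        _ ≤ _ := card_union_le _ _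
    exact_mod_cast this
  have hsum := sum_le_sum hle
  rw [sum_add_distrib, hr, hs, sum_const, nsmul_eq_mul] at hsum
  have hUV : 0 < (U.card : ℝ) * V.card := by positivity
  nlinarith

/-- Every two-colouring of a complete bipartite graph with `N ≥ 2^(n+9)` vertices in both classes
contains a monochromatic complete `n` by `n` subgraph. -/
theorem ramsey {n N : ℕ} (hN : 2 ^ (n + 9) ≤ N) (r : Fin N → Fin N → Prop) :
    (∃ R C : Finset (Fin N), R.card = n ∧ C.card = n ∧ ∀ i ∈ R, ∀ j ∈ C, r i j) ∨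
    (∃ R C : Finset (Fin N), R.card = n ∧ C.card = n ∧ ∀ i ∈ R, ∀ j ∈ C, ¬ r i j) := by
  classical
  have hNpos : 0 < N := lt_of_lt_of_le (by positivity) hN
  rcases Nat.lt_or_ge n 2 with h2 | h2
  · interval_cases n
    · exact Or.inl ⟨∅, ∅, by simp, by simp, by simp⟩
    · by_cases h : r ⟨0, hNpos⟩ ⟨0, hNpos⟩
      · refine Or.inl ⟨{⟨0, hNpos⟩}, {⟨0, hNpos⟩}, by simp, by simp, ?_⟩
        intro i hi j hj
        rw [mem_singleton] at hi hj
        rw [hi, hj]; exact h
      · refine Or.inr ⟨{⟨0, hNpos⟩}, {⟨0, hNpos⟩}, by simp, by simp, ?_⟩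
        intro i hi j hj
        rw [mem_singleton] at hi hj
        rw [hi, hj]; exact h
  · have hne : (univ : Finset (Fin N)).Nonempty := ⟨⟨0, hNpos⟩, mem_univ _⟩
    have hcard : 2 ^ (n + 9) ≤ (univ : Finset (Fin N)).card := by simpa using hN
    rcases half r (fun i j => ¬ r i j) hne hne (fun u v => em _) with h | h
    · obtain ⟨R, _, C, _, hR, hC, hRC⟩ := zarankiewicz h2 hcard hcard h
      exact Or.inl ⟨R, C, hR, hC, hRC⟩
    · obtain ⟨R, _, C, _, hR, hC, hRC⟩ := zarankiewicz h2 hcard hcard h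
      exact Or.inr ⟨R, C, hR, hC, hRC⟩

end Pool.Agent.Helper48.Bip
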