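import Pool.Agent.Helper48.BipStage

/-!
The induction, and the bound `f(n) ≤ 2^(n+9)`.
-/

namespace Pool.Agent.Helper48.Bip

open Finset

theorem numA (L : ℕ) (hL : 12 ≤ L) : 300 * L ≤ 2 ^ L := by
  induction L, hL using Nat.le_induction with
  | base => norm_num
  | succ L hL ih => rw [pow_succ]; omega

theorem numB (L : ℕ) (hL : 15 ≤ L) : 144 * L ^ 2 ≤ 2 ^ L := by
  induction L, hL using Nat.le_induction with
  | base => norm_num
  | succ L hL ih =>
    have h1 : (L + 1) ^ 2 ≤ 2 * L ^ 2 := by nlinarith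
    calc 144 * (L + 1) ^ 2 ≤ 2 * (144 * L ^ 2) := by omega
      _ ≤ 2 * 2 ^ L := by omega
      _ = 2 ^ (L + 1) := by rw [pow_succ]; ring

theorem num6 (n : ℕ) : n ^ 6 ≤ 2 ^ (18 + n) := by
  induction n with
  | zero => norm_num
  | succ n ih =>
    rcases Nat.lt_or_ge n 10 with h | h
    · interval_cases n <;> norm_num
    · have h1 : 10 * (n + 1) ≤ 11 * n := by omega
      have h2 : (10 * (n + 1)) ^ 6 ≤ (11 * n) ^ 6 := Nat.pow_le_pow_left h1 6
      rw [mul_pow, mul_pow] at h2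
      have h3 : 2 ^ (18 + (n + 1)) = 2 * 2 ^ (18 + n) := by
        rw [show 18 + (n + 1) = (18 + n) + 1 by ring, pow_succ]; ring
      rw [h3]
      norm_num at h2
      omega

theorem num4 (n : ℕ) : 100 * n ^ 4 ≤ 2 ^ (18 + n) := by
  induction n with
  | zero => norm_num
  | succ n ih =>
    rcases Nat.lt_or_ge n 10 with h | h
    · interval_cases n <;> norm_num
    · have h1 : 10 * (n + 1) ≤ 11 * n := by omega
      have h2 : (10 * (n + 1)) ^ 4 ≤ (11 * n) ^ 4 := Nat.pow_le_pow_left h1 4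
      rw [mul_pow, mul_pow] at h2
      have h3 : 2 ^ (18 + (n + 1)) = 2 * 2 ^ (18 + n) := by
        rw [show 18 + (n + 1) = (18 + n) + 1 by ring, pow_succ]; ring
      rw [h3]
      norm_num at h2
      omega

/-- Combining a stage with the rest. -/
theorem goal_of_stage {α β : Type} {r : α → β → Prop} {U : Finset α} {V : Finset β} {x y j y' : ℕ}
    {T V' : Finset β} {U' : Finset α} (hT : T ⊆ V) (hU' : U' ⊆ U) (hTc : T.card = j)
    (hc : ∀ u ∈ U', ∀ v ∈ T, r u v) (hV' : ∀ v, v ∈ V' ↔ v ∈ V ∧ v ∉ T) (hjy : y' + j = y)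
    (h : Goal (flip r) V' U' y' x) : Goal r U V x y := by
  classical
  obtain ⟨B, hB, A, hA, hBc, hAc, hAB⟩ := h
  refine ⟨A, hA.trans hU', T ∪ B, ?_, hAc, ?_, ?_⟩
  · intro v hv
    rcases mem_union.1 hv with h | h
    · exact hT h
    · exact ((hV' v).1 (hB h)).1
  · rw [card_union_of_disjoint, hTc, hBc]
    · omega
    · rw [disjoint_left]
      intro v hv hvB
      exact ((hV' v).1 (hB hvB)).2 hv
  · intro u hu v hv
    rcases mem_union.1 hv with h | h
    · exact hc u (hA hu) v h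
    · exact hAB v h u hu

/-- One stage with `ε = 1/y²`, in continuation form. -/
theorem step0 {α β : Type} {r : α → β → Prop} {U : Finset α} {V : Finset β} {x y : ℕ} {b c : ℝ}
    (h : St r U V x y b c) (hx : 2 ≤ x) (hy : 4 ≤ y) (h6 : (y:ℝ) ^ 6 ≤ c ^ 2 * 2 ^ x)
    {y' : ℕ} (hy'x : y' ≤ x) (hy'y : y' < y)
    (hnext : ∀ (V' : Finset β) (U' : Finset α) (b' c' : ℝ),
      c * (1 - 1 / (y:ℝ)) * (1 - (2 / (y:ℝ) + 1 / (y:ℝ) ^ 2)) ^ x ≤ c' →
      St (flip r) V' U' y' x b' c' → Goal (flip r) V' U' y' x) : Goal r U V x y := by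
  classical
  obtain ⟨j, hj⟩ : ∃ j, y' + j = y := ⟨y - y', by omega⟩
  have hj1 : 1 ≤ j := by omega
  have hjy : (j:ℝ) ≤ y := by exact_mod_cast (by omega : j ≤ y)
  have hy4 : (4:ℝ) ≤ y := by exact_mod_cast hy
  have hypos : (0:ℝ) < y := by linarith
  have hc := h.hc
  have hε : ((y:ℕ) : ℝ) ^ 2 ≤ (1 / (y:ℝ) ^ 2) ^ 2 * (c ^ 2 * 2 ^ x) := by
    have : (1 / (y:ℝ) ^ 2) ^ 2 * (c ^ 2 * 2 ^ x) = (c ^ 2 * 2 ^ x) / (y:ℝ) ^ 4 := by
      field_simp
    rw [this, le_div_iff₀ (by positivity)]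
    calc (y:ℝ) ^ 2 * (y:ℝ) ^ 4 = (y:ℝ) ^ 6 := by ring
      _ ≤ _ := h6
  have hy1 : 1 / (y:ℝ) ≤ 1 / 4 := one_div_le_one_div_of_le (by norm_num) hy4
  have hyinv : 0 < 1 / (y:ℝ) := by positivity
  have hsq : 1 / (y:ℝ) ^ 2 = (1 / (y:ℝ)) * (1 / (y:ℝ)) := by field_simp
  have h2y : 2 / (y:ℝ) = 2 * (1 / (y:ℝ)) := by ring
  have hsq1 : 1 / (y:ℝ) ^ 2 ≤ 1 / 4 * (1 / (y:ℝ)) := by rw [hsq]; nlinarith
  have hθ : 0 < 1 - 2 / (y:ℝ) - 1 / (y:ℝ) ^ 2 := by rw [h2y]; linarith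
  obtain ⟨T, hTV, U', hU'U, hTc, hcomp, hSt⟩ := stage h hx (by omega) hj1 hj hy'x
    (ε := 1 / (y:ℝ) ^ 2) (by positivity) hε hθ
  have hV' : ∀ v, v ∈ V \ T ↔ v ∈ V ∧ v ∉ T := fun v => mem_sdiff
  have hSt' := hSt (V \ T) hV'
  apply goal_of_stage hTV hU'U hTc hcomp hV' hj
  refine hnext (V \ T) U' _ _ ?_ hSt'
  have hb1 : 1 - 1 / (y:ℝ) ≤ (1 - 1 / (y:ℝ) ^ 2) ^ j := by
    have := one_add_mul_le_pow (a := -(1 / (y:ℝ) ^ 2)) (by linarith) j
    have h3 : (j:ℝ) * (1 / (y:ℝ) ^ 2) ≤ 1 / (y:ℝ) := by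
      calc (j:ℝ) * (1 / (y:ℝ) ^ 2) ≤ y * (1 / (y:ℝ) ^ 2) := by
            apply mul_le_mul_of_nonneg_right hjy; positivity
        _ = 1 / (y:ℝ) := by field_simp
    calc 1 - 1 / (y:ℝ) ≤ 1 + (j:ℝ) * -(1 / (y:ℝ) ^ 2) := by linarith
      _ ≤ (1 + -(1 / (y:ℝ) ^ 2)) ^ j := this
      _ = _ := by ring
  have e2 : 1 - (2 / (y:ℝ) + 1 / (y:ℝ) ^ 2) = 1 - 2 / (y:ℝ) - 1 / (y:ℝ) ^ 2 := by ring
  rw [e2]
  apply mul_le_mul_of_nonneg_right _ (by positivity)
  exact mul_le_mul_of_nonneg_left hb1 hc.le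

/-- One stage when `x` is small compared to `y`. -/
theorem step {α β : Type} {r : α → β → Prop} {U : Finset α} {V : Finset β} {x y : ℕ} {b c : ℝ}
    (h : St r U V x y b c) (hx : 2 ≤ x) (hxy : 3 * x ≤ y) (h6 : (y:ℝ) ^ 6 ≤ c ^ 2 * 2 ^ x)
    {y' : ℕ} (hy'x : y' ≤ x)
    (hnext : ∀ (V' : Finset β) (U' : Finset α) (b' c' : ℝ),
      c * (1 - 3 * (x:ℝ) / y) ≤ c' →
      St (flip r) V' U' y' x b' c' → Goal (flip r) V' U' y' x) : Goal r U V x y := by
  refine step0 h hx (by omega) h6 hy'x (by omega) ?_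
  intro V' U' b' c' hc'
  refine hnext V' U' b' c' (le_trans ?_ hc')
  have hc := h.hc
  have hx2 : (2:ℝ) ≤ x := by exact_mod_cast hx
  have hxyr : 3 * (x:ℝ) ≤ y := by exact_mod_cast hxy
  have hypos : (0:ℝ) < y := by linarith
  set t : ℝ := 1 / (y:ℝ) with ht
  have ht0 : 0 < t := by positivity
  have hxt : 3 * (x * t) ≤ 1 := by
    rw [ht]
    have : 3 * ((x:ℝ) * (1 / y)) = 3 * (x:ℝ) / y := by ring
    rw [this, div_le_one hypos]; exact hxyr
  have hxt0 : 0 ≤ x * t := by positivity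
  have htx : 2 * t ≤ x * t := mul_le_mul_of_nonneg_right hx2 ht0.le
  have hsq : 1 / (y:ℝ) ^ 2 = t * t := by rw [ht]; field_simp
  have h2y : 2 / (y:ℝ) = 2 * t := by rw [ht]; ring
  have h3 : 3 * (x:ℝ) / y = 3 * (x * t) := by rw [ht]; ring
  rw [h3, hsq, h2y]
  have hbern : 1 - x * (2 * t + t * t) ≤ (1 - (2 * t + t * t)) ^ x := by
    have := one_add_mul_le_pow (a := -(2 * t + t * t)) (by nlinarith) x
    calc 1 - x * (2 * t + t * t) = 1 + (x:ℝ) * -(2 * t + t * t) := by ring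
      _ ≤ (1 + -(2 * t + t * t)) ^ x := this
      _ = _ := by ring
  have h5 : 1 - 3 * (x * t) ≤ (1 - t) * (1 - x * (2 * t + t * t)) := by
    have h1 : x * (2 * t + t * t) ≤ 2 * (x * t) + t * (x * t) := by nlinarith
    have h6 : t * (x * t) ≤ t * (1/3) := by
      apply mul_le_mul_of_nonneg_left _ ht0.le; linarith
    have h7 : 0 ≤ t * (x * (2 * t + t * t)) := by positivity
    nlinarith
  have h8 : 0 ≤ 1 - x * (2 * t + t * t) := by
    have h1 : x * (2 * t + t * t) ≤ 2 * (x * t) + t * (x * t) := by nlinarith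
    have h6 : t * (x * t) ≤ t * (1/3) := by
      apply mul_le_mul_of_nonneg_left _ ht0.le; linarith
    nlinarith
  calc c * (1 - 3 * (x * t)) ≤ c * ((1 - t) * (1 - x * (2 * t + t * t))) :=
        mul_le_mul_of_nonneg_left h5 hc.le
    _ = c * (1 - t) * (1 - x * (2 * t + t * t)) := by ring
    _ ≤ c * (1 - t) * (1 - (2 * t + t * t)) ^ x := by
        apply mul_le_mul_of_nonneg_left hbern
        apply mul_nonneg hc.le; linarith

theorem small {α β : Type} {r : α → β → Prop} {U : Finset α} {V : Finset β} {y : ℕ} {b c : ℝ}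
    (hy16 : 16 ≤ y) (hy : y < 4096) (hc49 : 49 ≤ c)
    (h : St r U V (4 * Nat.log 2 y) y b c) : Goal r U V (4 * Nat.log 2 y) y := by
  obtain ⟨L, hL⟩ : ∃ L, L = Nat.log 2 y := ⟨_, rfl⟩
  have h1 : y < 2 ^ (L + 1) := by
    rw [hL]; exact Nat.lt_pow_succ_log_self (by norm_num) y
  have h2 : L < 12 := by
    rw [hL]; exact Nat.log_lt_of_lt_pow (by omega) (by norm_num; exact hy)
  have h3 : 1 ≤ L := by
    rw [hL]; exact Nat.log_pos (by norm_num) (by omega)
  rw [← hL] at h ⊢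
  refine terminal (δ := 1/10) h (by omega) (by omega) (by norm_num) (by norm_num) ?_ ?_
  · have : ((4 * L : ℕ) : ℝ) ≤ 44 := by exact_mod_cast (by omega : 4 * L ≤ 44)
    linarith
  · have h4 : (y:ℝ) ^ 4 ≤ ((2:ℝ) ^ (L + 1)) ^ 4 := by
      apply pow_le_pow_left₀ (by positivity)
      exact_mod_cast h1.le
    have h5 : ((2:ℝ) ^ (L + 1)) ^ 4 = 16 * 2 ^ (4 * L) := by
      rw [← pow_mul, show (L + 1) * 4 = 4 * L + 4 by ring, pow_add]; ring
    have h6 : (49:ℝ) ^ 2 ≤ c ^ 2 := pow_le_pow_left₀ (by norm_num) hc49 2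
    have h7 : (0:ℝ) < 2 ^ (4 * L) := by positivity
    nlinarith

theorem main : ∀ (y : ℕ), 4096 ≤ y → ∀ (α β : Type) (r : α → β → Prop) (U : Finset α)
    (V : Finset β) (b c : ℝ), 60 * (1 - 1 / (y:ℝ)) ≤ c →
    St r U V (6 * Nat.log 2 y) y b c → Goal r U V (6 * Nat.log 2 y) y := by
  classical
  intro y
  induction y using Nat.strong_induction_on with
  | _ y ih =>
  intro hy α β r U V b c hcy h
  obtain ⟨L, hL⟩ : ∃ L, L = Nat.log 2 y := ⟨_, rfl⟩
  have hlt : y < 2 ^ (L + 1) := by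
    rw [hL]; exact Nat.lt_pow_succ_log_self (by norm_num) y
  have hle : 2 ^ L ≤ y := by
    rw [hL]; exact Nat.pow_log_le_self 2 (by omega)
  have hL12 : 12 ≤ L := by
    rw [hL]
    exact Nat.le_log_of_pow_le (by norm_num) (by norm_num; exact hy)
  have hA := numA L hL12
  rw [← hL] at h ⊢
  obtain ⟨x, hx⟩ : ∃ x, x = 6 * L := ⟨_, rfl⟩
  rw [← hx] at h ⊢
  have hxy50 : 50 * x ≤ y := by omega
  have hy0 : (4096:ℝ) ≤ y := by exact_mod_cast hy
  have hxr : (72:ℝ) ≤ x := by exact_mod_cast (by omega : 72 ≤ x)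
  have hypos : (0:ℝ) < y := by linarith
  have hyinv : 1 / (y:ℝ) ≤ 1 / 4096 := one_div_le_one_div_of_le (by norm_num) hy0
  have hc59 : (59:ℝ) ≤ c := by linarith
  have h6 : (y:ℝ) ^ 6 ≤ c ^ 2 * 2 ^ x := by
    have h4 : (y:ℝ) ^ 6 ≤ ((2:ℝ) ^ (L + 1)) ^ 6 := by
      apply pow_le_pow_left₀ (by positivity)
      exact_mod_cast hlt.le
    have h5 : ((2:ℝ) ^ (L + 1)) ^ 6 = 64 * 2 ^ x := by
      rw [← pow_mul, show (L + 1) * 6 = x + 6 by omega, pow_add]; ring
    have h7 : (64:ℝ) ≤ c ^ 2 := by nlinarith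
    have h8 : (0:ℝ) < 2 ^ x := by positivity
    nlinarith
  rcases Nat.lt_or_ge x 4096 with hsm | hbg
  · -- next state is terminal
    have hy'x : 4 * Nat.log 2 x ≤ x := by
      have h9 : Nat.log 2 x < 12 := Nat.log_lt_of_lt_pow (by omega) (by norm_num; exact hsm)
      omega
    refine step h (by omega) (by omega) h6 (y' := 4 * Nat.log 2 x) hy'x ?_
    intro V' U' b' c' hc' hSt'
    apply small (by omega) hsm _ hSt'
    refine le_trans ?_ hc'
    have h9 : 3 * (x:ℝ) / y ≤ 3 / 50 := by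
      rw [div_le_iff₀ hypos]
      have : 50 * (x:ℝ) ≤ y := by exact_mod_cast hxy50
      linarith
    have h10 : 0 ≤ 3 * (x:ℝ) / y := by positivity
    nlinarith
  · -- next state is of the same kind
    have hL15 : 15 ≤ L := by omega
    have hB := numB L hL15
    have hx2y : 4 * x ^ 2 ≤ y := by
      rw [hx]; nlinarith
    have hy'x : 6 * Nat.log 2 x ≤ x := by
      have h9 : 2 ^ Nat.log 2 x ≤ x := Nat.pow_log_le_self 2 (by omega)
      have h10 : 12 ≤ Nat.log 2 x := Nat.le_log_of_pow_le (by norm_num) (by norm_num; exact hbg)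
      have := numA _ h10
      omega
    refine step h (by omega) (by omega) h6 (y' := 6 * Nat.log 2 x) hy'x ?_
    intro V' U' b' c' hc' hSt'
    refine ih x (by omega) hbg β α (flip r) V' U' b' c' (le_trans ?_ hc') hSt'
    have hx2r : 4 * (x:ℝ) ^ 2 ≤ y := by exact_mod_cast hx2y
    have hxpos : (0:ℝ) < x := by linarith
    set t : ℝ := 1 / (y:ℝ) with ht
    have ht0 : 0 < t := by positivity
    have h3 : 3 * (x:ℝ) / y = 3 * (x * t) := by rw [ht]; ring
    have hxt : 4 * (x * t) ≤ 1 / x := by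
      rw [ht, le_div_iff₀ hxpos]
      have : 4 * ((x:ℝ) * (1 / y)) * x = 4 * (x:ℝ) ^ 2 / y := by ring
      rw [this, div_le_one hypos]; exact hx2r
    have htx : t ≤ x * t := by nlinarith
    have hx1 : 1 / (x:ℝ) ≤ 1 := by rw [div_le_one hxpos]; linarith
    rw [h3]
    have h11 : 1 - 1 / (x:ℝ) ≤ (1 - t) * (1 - 3 * (x * t)) := by
      have : 0 ≤ t * (3 * (x * t)) := by positivity
      nlinarith
    calc 60 * (1 - 1 / (x:ℝ)) ≤ 60 * ((1 - t) * (1 - 3 * (x * t))) := by linarith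
      _ = 60 * (1 - t) * (1 - 3 * (x * t)) := by ring
      _ ≤ c * (1 - 3 * (x * t)) := by
          apply mul_le_mul_of_nonneg_right hcy
          linarith

/-- lower bound for the loss in the very first stage -/
theorem first_loss (n : ℕ) (hn : 460 ≤ n) :
    60 * (1 - 1 / (n:ℝ)) ≤
      512 * (1 - 1 / (n:ℝ)) * (1 - (2 / (n:ℝ) + 1 / (n:ℝ) ^ 2)) ^ n := by
  have hn0 : (460:ℝ) ≤ n := by exact_mod_cast hn
  have hnpos : (0:ℝ) < n := by linarith
  have hinv : 1 / (n:ℝ) ≤ 1 / 460 := one_div_le_one_div_of_le (by norm_num) hn0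
  have hinv0 : 0 < 1 / (n:ℝ) := by positivity
  set t : ℝ := 2 / (n:ℝ) + 1 / (n:ℝ) ^ 2 with ht
  have hsq : 1 / (n:ℝ) ^ 2 = (1 / (n:ℝ)) * (1 / (n:ℝ)) := by field_simp
  have h2n : 2 / (n:ℝ) = 2 * (1 / (n:ℝ)) := by ring
  have ht0 : 0 < t := by positivity
  have ht1 : t ≤ 1 / 200 := by rw [ht, hsq, h2n]; nlinarith
  have hnt : n * t = 2 + 1 / n := by rw [ht]; field_simp
  -- exp (n * (t/(1-t))) ≥ (1/(1-t))^n
  have h1t : 0 < 1 - t := by linarith
  have hexp : (1 / (1 - t)) ^ n ≤ Real.exp (n * (t / (1 - t))) := by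
    rw [Real.exp_nat_mul]
    apply pow_le_pow_left₀ (by positivity)
    have := Real.add_one_le_exp (t / (1 - t))
    have h2 : t / (1 - t) + 1 = 1 / (1 - t) := by field_simp; ring
    linarith
  have harg : n * (t / (1 - t)) ≤ 2 + 1 / 16 := by
    rw [← mul_div_assoc, hnt, div_le_iff₀ h1t]
    nlinarith
  have he2 : Real.exp (2 + 1/16) ≤ 8.5 := by
    have h1 : Real.exp 1 < 2.7182818286 := Real.exp_one_lt_d9
    have h2 : Real.exp 2 ≤ 7.39 := by
      have : Real.exp 2 = Real.exp 1 * Real.exp 1 := by rw [← Real.exp_add]; norm_num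
      rw [this]
      have h0 : 0 < Real.exp 1 := Real.exp_pos 1
      nlinarith
    have h3 : Real.exp (1/16) ≤ 16 / 15 := by
      have h4 := Real.add_one_le_exp (-(1/16:ℝ))
      have h5 : Real.exp (-(1/16:ℝ)) = (Real.exp (1/16))⁻¹ := Real.exp_neg _
      rw [h5] at h4
      have h6 : 0 < Real.exp (1/16) := Real.exp_pos _
      have h7 : (15/16:ℝ) ≤ (Real.exp (1/16))⁻¹ := by linarith
      have h8 := (le_inv_comm₀ (by norm_num) h6).1 h7
      calc Real.exp (1/16) ≤ (15/16:ℝ)⁻¹ := h8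
        _ = 16 / 15 := by norm_num
    rw [Real.exp_add]
    have h6 : 0 < Real.exp (1/16) := Real.exp_pos _
    have h7 : 0 < Real.exp 2 := Real.exp_pos _
    nlinarith
  have hpow : (1 / (1 - t)) ^ n ≤ 8.5 :=
    hexp.trans ((Real.exp_le_exp.2 harg).trans he2)
  have hfin : 60 ≤ 512 * (1 - t) ^ n := by
    rw [div_pow, one_pow, div_le_iff₀ (by positivity)] at hpow
    linarith
  have hpos : 0 ≤ 1 - 1 / (n:ℝ) := by linarith
  calc 60 * (1 - 1 / (n:ℝ)) ≤ (512 * (1 - t) ^ n) * (1 - 1 / (n:ℝ)) :=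
        mul_le_mul_of_nonneg_right hfin hpos
    _ = _ := by ring

theorem start {α β : Type} {r : α → β → Prop} {U : Finset α} {V : Finset β} {n : ℕ} {b : ℝ}
    (hn : 2 ≤ n) (h : St r U V n n b 512) : Goal r U V n n := by
  rcases Nat.lt_or_ge n 460 with hs | hb
  · refine terminal (δ := 1/10) h hn (by omega) (by norm_num) (by norm_num) ?_ ?_
    · have : (n:ℝ) ≤ 460 := by exact_mod_cast hs.le
      linarith
    · have h4 : 100 * (n:ℝ) ^ 4 ≤ 2 ^ (18 + n) := by exact_mod_cast num4 n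
      rw [pow_add] at h4
      have h5 : ((1:ℝ)/10) ^ 2 * (512 ^ 2 * 2 ^ n) = (2 ^ 18 * 2 ^ n) / 100 := by ring
      rw [h5, le_div_iff₀ (by norm_num)]
      linarith
  · have h6 : (n:ℝ) ^ 6 ≤ 512 ^ 2 * 2 ^ n := by
      have h4 : (n:ℝ) ^ 6 ≤ 2 ^ (18 + n) := by exact_mod_cast num6 n
      rw [pow_add] at h4
      calc (n:ℝ) ^ 6 ≤ 2 ^ 18 * 2 ^ n := h4
        _ = _ := by norm_num
    have hloss := first_loss n hb
    have hn0 : (460:ℝ) ≤ n := by exact_mod_cast hb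
    rcases Nat.lt_or_ge n 4096 with hsm | hbg
    · have h9 : Nat.log 2 n < 12 := Nat.log_lt_of_lt_pow (by omega) (by norm_num; exact hsm)
      refine step0 h hn (by omega) h6 (y' := 4 * Nat.log 2 n) (by omega) (by omega) ?_
      intro V' U' b' c' hc' hSt'
      apply small (by omega) hsm _ hSt'
      have hinv : 1 / (n:ℝ) ≤ 1 / 460 := one_div_le_one_div_of_le (by norm_num) hn0
      linarith
    · have h10 : 12 ≤ Nat.log 2 n := Nat.le_log_of_pow_le (by norm_num) (by norm_num; exact hbg)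
      have h11 := numA _ h10
      have h12 : 2 ^ Nat.log 2 n ≤ n := Nat.pow_log_le_self 2 (by omega)
      refine step0 h hn (by omega) h6 (y' := 6 * Nat.log 2 n) (by omega) (by omega) ?_
      intro V' U' b' c' hc' hSt'
      exact main n hbg β α (flip r) V' U' b' c' (hloss.trans hc') hSt'

/-- Zarankiewicz form: a relation of density at least `1/2` between two sets of size at least
`2^(n+9)` contains a complete `n` by `n` subrectangle. -/
theorem zarankiewicz {α β : Type} {r : α → β → Prop} {U : Finset α} {V : Finset β} {n : ℕ}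
    (hn : 2 ≤ n) (hU : 2 ^ (n + 9) ≤ U.card) (hV : 2 ^ (n + 9) ≤ V.card)
    (hd : 1 / 2 ≤ den r U V) : Goal r U V n n := by
  have hpos : 0 < 2 ^ (n + 9) := by positivity
  apply start (b := 2) hn
  have key : ∀ N : ℕ, 2 ^ (n + 9) ≤ N →
      (512:ℝ) ^ 2 * 2 ^ n ≤ (N:ℝ) ^ 2 * den r U V ^ n := by
    intro N hN
    have h1 : (2:ℝ) ^ (n + 9) ≤ N := by exact_mod_cast hN
    calc (512:ℝ) ^ 2 * 2 ^ n = ((2:ℝ) ^ (n + 9)) ^ 2 * (1 / 2) ^ n := by
          rw [← pow_mul, show (n + 9) * 2 = n + n + 18 by ring, pow_add, pow_add, one_div,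
            inv_pow]
          field_simp
          norm_num
      _ ≤ (N:ℝ) ^ 2 * den r U V ^ n := by
          apply mul_le_mul _ _ (by positivity) (by positivity)
          · exact pow_le_pow_left₀ (by positivity) h1 2
          · exact pow_le_pow_left₀ (by norm_num) hd n
  exact ⟨card_pos.1 (by omega), card_pos.1 (by omega), le_refl _, by norm_num, by linarith,
    key _ hU, key _ hV⟩

end Pool.Agent.Helper48.Bip
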