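import Pool.Agent.Helper48.BipBasic

/-!
The state of the process, one stage of the process and the terminal step.
-/

namespace Pool.Agent.Helper48.Bip

open Finset

variable {α β : Type*}

/-- We look for `x` elements of `U` and `y` elements of `V`, completely related. -/
structure St (r : α → β → Prop) (U : Finset α) (V : Finset β) (x y : ℕ) (b c : ℝ) : Prop where
  hU : U.Nonempty
  hV : V.Nonempty
  hb : 2 ≤ b
  hc : 0 < c
  hd : 1 ≤ b * den r U V
  hUy : c ^ 2 * b ^ y ≤ (U.card : ℝ) ^ 2 * den r U V ^ y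
  hVx : c ^ 2 * b ^ x ≤ (V.card : ℝ) ^ 2 * den r U V ^ x

/-- a complete `x` by `y` subrectangle -/
def Goal (r : α → β → Prop) (U : Finset α) (V : Finset β) (x y : ℕ) : Prop :=
  ∃ A ⊆ U, ∃ B ⊆ V, A.card = x ∧ B.card = y ∧ ∀ u ∈ A, ∀ v ∈ B, r u v

theorem St.big {r : α → β → Prop} {U : Finset α} {V : Finset β} {x y : ℕ} {b c : ℝ}
    (h : St r U V x y b c) (hx : 2 ≤ x) {D : ℝ} (hD : den r U V ≤ D) (hD1 : D ≤ 1) :
    c ^ 2 * 2 ^ x ≤ (D * V.card) ^ 2 := by
  have h0 : 0 ≤ den r U V := den_nonneg _ _ _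
  have hD0 : 0 ≤ D := h0.trans hD
  calc c ^ 2 * 2 ^ x ≤ c ^ 2 * b ^ x := by
        apply mul_le_mul_of_nonneg_left _ (by positivity)
        exact pow_le_pow_left₀ (by norm_num) h.hb x
    _ ≤ (V.card : ℝ) ^ 2 * den r U V ^ x := h.hVx
    _ ≤ (V.card : ℝ) ^ 2 * D ^ x := by
        apply mul_le_mul_of_nonneg_left _ (by positivity)
        exact pow_le_pow_left₀ h0 hD x
    _ ≤ (V.card : ℝ) ^ 2 * D ^ 2 := by
        apply mul_le_mul_of_nonneg_left _ (by positivity)
        exact pow_le_pow_of_le_one hD0 hD1 hx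
    _ = _ := by ring

theorem terminal {r : α → β → Prop} {U : Finset α} {V : Finset β} {x y : ℕ} {b c δ : ℝ}
    (h : St r U V x y b c) (hx : 2 ≤ x) (hy : 1 ≤ y) (hδ0 : 0 < δ) (hδ1 : δ ≤ 1)
    (hxc : (x : ℝ) ≤ c * (1 - δ))
    (hε : (y : ℝ) ^ 4 ≤ δ ^ 2 * (c ^ 2 * 2 ^ x)) : Goal r U V x y := by
  classical
  set D := den r U V with hD
  have hD1 : D ≤ 1 := den_le_one _ _ _
  have hD0 : 0 ≤ D := den_nonneg _ _ _
  have hb := h.hb
  have hc := h.hc
  have hDpos : 0 < D := by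
    rcases hD0.lt_or_eq with h1 | h1
    · exact h1
    · have := h.hd
      rw [← hD, ← h1] at this; simp at this; linarith
  have hV0 : (0:ℝ) < V.card := by exact_mod_cast card_pos.2 h.hV
  have hU0 : (0:ℝ) < U.card := by exact_mod_cast card_pos.2 h.hU
  have hy1 : (1:ℝ) ≤ y := by exact_mod_cast hy
  have hbig := h.big hx (le_refl _) hD1
  have h2 : (y:ℝ) ^ 2 ≤ δ * (D * V.card) := by
    have : ((y:ℝ) ^ 2) ^ 2 ≤ (δ * (D * V.card)) ^ 2 := by
      calc ((y:ℝ) ^ 2) ^ 2 = (y:ℝ) ^ 4 := by ring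
        _ ≤ δ ^ 2 * (c ^ 2 * 2 ^ x) := hε
        _ ≤ δ ^ 2 * (D * V.card) ^ 2 := by
            apply mul_le_mul_of_nonneg_left hbig; positivity
        _ = _ := by ring
    exact le_of_sq_le_sq this (by positivity)
  have hDV : 0 < D * V.card := by positivity
  have hyD : (y : ℝ) ≤ D * V.card := by
    have : δ * (D * V.card) ≤ 1 * (D * V.card) := mul_le_mul_of_nonneg_right hδ1 hDV.le
    nlinarith
  obtain ⟨T, hTV, hTc, hT⟩ := sel r h.hU hy hyD
  rw [← hD] at hT
  set e : ℝ := y / (D * V.card) with he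
  have he0 : 0 ≤ e := by positivity
  have hye : (y:ℝ) * e ≤ δ := by
    rw [he, mul_div_assoc', div_le_iff₀ (by positivity)]
    nlinarith
  have hbase : D - y / V.card = D * (1 - e) := by
    rw [he]; field_simp
  rw [hbase, mul_pow] at hT
  have hbern : 1 - (y:ℝ) * e ≤ (1 - e) ^ y := by
    have := one_add_mul_le_pow (a := -e) (by nlinarith) y
    calc 1 - (y:ℝ) * e = 1 + (y:ℝ) * -e := by ring
      _ ≤ (1 + -e) ^ y := this
      _ = _ := by ring
  have hUD : c ≤ (U.card : ℝ) * D ^ y := by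
    have : c ^ 2 ≤ ((U.card : ℝ) * D ^ y) ^ 2 := by
      calc c ^ 2 = c ^ 2 * 1 ^ y := by simp
        _ ≤ c ^ 2 * (b * D) ^ y := by
            apply mul_le_mul_of_nonneg_left _ (by positivity)
            exact pow_le_pow_left₀ (by norm_num) h.hd y
        _ = (c ^ 2 * b ^ y) * D ^ y := by rw [mul_pow]; ring
        _ ≤ ((U.card : ℝ) ^ 2 * D ^ y) * D ^ y := by
            apply mul_le_mul_of_nonneg_right h.hUy; positivity
        _ = _ := by ring
    exact le_of_sq_le_sq this (by positivity)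
  have hcard : (x : ℝ) ≤ (cm r U T).card := by
    calc (x : ℝ) ≤ c * (1 - δ) := hxc
      _ ≤ ((U.card : ℝ) * D ^ y) * (1 - e) ^ y := by
          apply mul_le_mul hUD _ (by linarith) (by positivity)
          linarith
      _ = (U.card : ℝ) * (D ^ y * (1 - e) ^ y) := by ring
      _ ≤ _ := hT
  have hcard' : x ≤ (cm r U T).card := by exact_mod_cast hcard
  obtain ⟨A, hA, hAc⟩ := exists_subset_card_eq hcard'
  refine ⟨A, hA.trans (filter_subset _ _), T, hTV, hAc, hTc, ?_⟩
  intro u hu v hv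
  exact (mem_filter.1 (hA hu)).2 v hv

theorem stage {r : α → β → Prop} {U : Finset α} {V : Finset β} {x y : ℕ} {b c : ℝ}
    (h : St r U V x y b c) (hx : 2 ≤ x) (hy : 2 ≤ y) {j y' : ℕ} (hj : 1 ≤ j) (hjy : y' + j = y)
    (hy'x : y' ≤ x) {ε : ℝ} (hε0 : 0 < ε) (hε : (y : ℝ) ^ 2 ≤ ε ^ 2 * (c ^ 2 * 2 ^ x))
    (hθ : 0 < 1 - 2 / (y:ℝ) - ε) :
    ∃ T ⊆ V, ∃ U' ⊆ U, T.card = j ∧ (∀ u ∈ U', ∀ v ∈ T, r u v) ∧
      ∀ V' : Finset β, (∀ v, v ∈ V' ↔ v ∈ V ∧ v ∉ T) →
      St (flip r) V' U' y' x (b / (1 - 2 / (y:ℝ) - ε))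
        (c * (1 - ε) ^ j * (1 - 2 / (y:ℝ) - ε) ^ x) := by
  classical
  obtain ⟨U₁, hsub, hne1, hF, hden, hdeg⟩ := reg r h.hU h.hV hy
  set D := den r U₁ V with hD
  have hD1 : D ≤ 1 := den_le_one _ _ _
  have hd0 : 0 ≤ den r U V := den_nonneg _ _ _
  have hb := h.hb
  have hc := h.hc
  have hdpos : 0 < den r U V := by
    rcases hd0.lt_or_eq with h1 | h1
    · exact h1
    · have := h.hd
      rw [← h1] at this; simp at this; linarith
  have hDpos : 0 < D := lt_of_lt_of_le hdpos hden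
  have hbD : 1 ≤ b * D := h.hd.trans (mul_le_mul_of_nonneg_left hden (by linarith))
  have hV0 : (0:ℝ) < V.card := by exact_mod_cast card_pos.2 h.hV
  have hn0 : (0:ℝ) < U₁.card := by exact_mod_cast card_pos.2 hne1
  have hy0 : (0:ℝ) < y := by positivity
  have hbig := h.big hx hden hD1
  set m : ℝ := (V.card : ℝ) with hm
  have hjley : (j:ℝ) ≤ y := by exact_mod_cast (by omega : j ≤ y)
  have hj1 : (1:ℝ) ≤ j := by exact_mod_cast hj
  set θ : ℝ := 1 - 2 / (y:ℝ) - ε with hθdef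
  have h2y : 0 < 2 / (y:ℝ) := by positivity
  have hθ1 : θ ≤ 1 := by linarith
  have hε1 : ε < 1 := by linarith
  -- e := j / (D m) ≤ ε
  have hjeps : (j:ℝ) ≤ ε * (D * m) := by
    have : (y:ℝ) ^ 2 ≤ (ε * (D * m)) ^ 2 := by
      calc (y:ℝ) ^ 2 ≤ ε ^ 2 * (c ^ 2 * 2 ^ x) := hε
        _ ≤ ε ^ 2 * (D * m) ^ 2 := by
            apply mul_le_mul_of_nonneg_left hbig; positivity
        _ = _ := by ring
    exact hjley.trans (le_of_sq_le_sq this (by positivity))
  have hjD : (j : ℝ) ≤ D * m := by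
    have : ε * (D * m) ≤ 1 * (D * m) := mul_le_mul_of_nonneg_right hε1.le (by positivity)
    linarith
  have hjm : (j:ℝ) ≤ ε * m := by
    refine hjeps.trans ?_
    have : D * m ≤ 1 * m := mul_le_mul_of_nonneg_right hD1 hV0.le
    nlinarith
  obtain ⟨T, hTV, hTc, hT⟩ := sel r hne1 hj (by rw [← hD]; exact hjD)
  rw [← hD, ← hm] at hT
  have hTlow : (U₁.card : ℝ) * (D ^ j * (1 - ε) ^ j) ≤ (cm r U₁ T).card := by
    refine le_trans ?_ hT
    apply mul_le_mul_of_nonneg_left _ hn0.le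
    rw [← mul_pow]
    apply pow_le_pow_left₀ (mul_nonneg hDpos.le (by linarith))
    have : (j:ℝ) / m ≤ D * ε := by
      rw [div_le_iff₀ hV0]; linarith
    linarith
  set U' := cm r U₁ T with hU'
  have hU'sub : U' ⊆ U₁ := filter_subset _ _
  have h1e : 0 < 1 - ε := by linarith
  have hU'pos : (0:ℝ) < U'.card := lt_of_lt_of_le (by positivity) hTlow
  have hU'ne : U'.Nonempty := by
    rw [← card_pos]; exact_mod_cast hU'pos
  refine ⟨T, hTV, U', hU'sub.trans hsub, hTc, ?_, ?_⟩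
  · intro u hu v hv
    exact (mem_filter.1 hu).2 v hv
  intro V' hV'
  have hV'eq : V' = V \ T := by
    ext v; rw [hV' v, mem_sdiff]
  have hV'card : (V'.card : ℝ) = m - j := by
    rw [hV'eq, card_sdiff_of_subset hTV, Nat.cast_sub (card_le_card hTV), hTc]
  have hV'pos : (0:ℝ) < V'.card := by
    rw [hV'card]
    have : ε * m < 1 * m := mul_lt_mul_of_pos_right hε1 hV0
    linarith
  have hV'ne : V'.Nonempty := by
    rw [← card_pos]; exact_mod_cast hV'pos
  have hV'le : (V'.card : ℝ) ≤ m := by rw [hV'card]; linarith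
  -- new density
  have hden' : θ * D ≤ den r U' V' := by
    apply le_den r hU'ne hV'ne
    intro u hu
    have h1 := hdeg u (hU'sub hu)
    have h2 : (dg r V u : ℝ) ≤ dg r V' u + j := by
      have : dg r V u ≤ dg r V' u + T.card := by
        unfold dg
        rw [hV'eq]
        calc (V.filter (fun v => r u v)).card
            ≤ (((V \ T).filter (fun v => r u v)) ∪ T).card := by
              apply card_le_card
              intro v hv
              rw [mem_filter] at hv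
              rw [mem_union, mem_filter, mem_sdiff]
              by_cases hvT : v ∈ T
              · right; exact hvT
              · left; exact ⟨⟨hv.1, hvT⟩, hv.2⟩
          _ ≤ _ := card_union_le _ _
      rw [hTc] at this
      exact_mod_cast this
    have h3 : θ * D * m ≤ dg r V' u := by
      have : θ * D * m = (1 - 2 / (y:ℝ)) * D * m - ε * (D * m) := by
        rw [hθdef]; ring
      linarith
    refine le_trans ?_ h3
    apply mul_le_mul_of_nonneg_left hV'le
    exact mul_nonneg hθ.le hDpos.le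
  set D' := den r U' V' with hD'
  have hθD : 0 < θ * D := mul_pos hθ hDpos
  have hD'pos : 0 < D' := lt_of_lt_of_le hθD hden'
  refine ⟨hV'ne, hU'ne, ?_, ?_, ?_, ?_, ?_⟩
  · rw [le_div_iff₀ hθ]; nlinarith
  · positivity
  · rw [den_flip, ← hD']
    rw [div_mul_eq_mul_div, le_div_iff₀ hθ]
    calc 1 * θ ≤ (b * D) * θ := mul_le_mul_of_nonneg_right hbD hθ.le
      _ = b * (θ * D) := by ring
      _ ≤ b * D' := mul_le_mul_of_nonneg_left hden' (by linarith)
  · -- the `V` side, exponent `x`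
    rw [den_flip, ← hD']
    have hm2 : c ^ 2 * b ^ x ≤ m ^ 2 * D ^ x := by
      refine h.hVx.trans ?_
      apply mul_le_mul_of_nonneg_left _ (by positivity)
      exact pow_le_pow_left₀ hd0 hden x
    have hpow : (1 - ε) ^ (2 * j) ≤ (1 - ε) ^ 2 :=
      pow_le_pow_of_le_one h1e.le (by linarith) (by omega)
    calc (c * (1 - ε) ^ j * θ ^ x) ^ 2 * (b / θ) ^ x
        = c ^ 2 * b ^ x * (1 - ε) ^ (2 * j) * θ ^ x := by
          rw [div_pow, mul_pow, mul_pow, ← pow_mul, ← pow_mul, mul_comm j 2]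
          field_simp
          ring
      _ ≤ (m ^ 2 * D ^ x) * (1 - ε) ^ 2 * θ ^ x := by
          apply mul_le_mul_of_nonneg_right _ (by positivity)
          apply mul_le_mul hm2 hpow (by positivity) (by positivity)
      _ = (m * (1 - ε)) ^ 2 * (θ * D) ^ x := by rw [mul_pow, mul_pow]; ring
      _ ≤ (V'.card : ℝ) ^ 2 * D' ^ x := by
          apply mul_le_mul _ _ (by positivity) (by positivity)
          · apply pow_le_pow_left₀ (by positivity)
            rw [hV'card]; linarith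
          · exact pow_le_pow_left₀ hθD.le hden' x
  · -- the `U` side, exponent `y'`
    rw [den_flip, ← hD']
    have hn2 : c ^ 2 * b ^ y ≤ (U₁.card : ℝ) ^ 2 * D ^ y := h.hUy.trans hF
    have hpow : θ ^ (2 * x) ≤ θ ^ (2 * y') :=
      pow_le_pow_of_le_one hθ.le hθ1 (by omega)
    have key : c ^ 2 * b ^ y' ≤ (U₁.card : ℝ) ^ 2 * D ^ y' * D ^ (2 * j) := by
      have hbj : 0 < b ^ j := by positivity
      have h1 : c ^ 2 * b ^ y' * b ^ j ≤ (U₁.card : ℝ) ^ 2 * D ^ y' * D ^ (2 * j) * b ^ j := by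
        calc c ^ 2 * b ^ y' * b ^ j = c ^ 2 * b ^ y := by rw [← hjy, pow_add]; ring
          _ ≤ (U₁.card : ℝ) ^ 2 * D ^ y := hn2
          _ ≤ (U₁.card : ℝ) ^ 2 * D ^ y * (b * D) ^ j := by
              apply le_mul_of_one_le_right (by positivity)
              exact one_le_pow₀ hbD
          _ = (U₁.card : ℝ) ^ 2 * D ^ y' * D ^ (2 * j) * b ^ j := by
              rw [← hjy, pow_add, mul_pow, two_mul, pow_add]; ring
      exact le_of_mul_le_mul_right h1 hbj
    calc (c * (1 - ε) ^ j * θ ^ x) ^ 2 * (b / θ) ^ y'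
        = c ^ 2 * b ^ y' * (1 - ε) ^ (2 * j) * (θ ^ (2 * x) / θ ^ y') := by
          rw [div_pow, mul_pow, mul_pow, ← pow_mul, ← pow_mul, mul_comm j 2, mul_comm x 2]
          ring
      _ ≤ c ^ 2 * b ^ y' * (1 - ε) ^ (2 * j) * (θ ^ (2 * y') / θ ^ y') := by
          apply mul_le_mul_of_nonneg_left _ (by positivity)
          apply div_le_div_of_nonneg_right hpow (by positivity)
      _ = c ^ 2 * b ^ y' * (1 - ε) ^ (2 * j) * θ ^ y' := by
          congr 1
          rw [two_mul, pow_add]; field_simp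
      _ ≤ ((U₁.card : ℝ) ^ 2 * D ^ y' * D ^ (2 * j)) * (1 - ε) ^ (2 * j) * θ ^ y' := by
          apply mul_le_mul_of_nonneg_right _ (by positivity)
          apply mul_le_mul_of_nonneg_right key (by positivity)
      _ = ((U₁.card : ℝ) * (D ^ j * (1 - ε) ^ j)) ^ 2 * (θ * D) ^ y' := by
          rw [mul_pow, mul_pow, mul_pow, ← pow_mul, ← pow_mul, mul_comm j 2]; ring
      _ ≤ (U'.card : ℝ) ^ 2 * D' ^ y' := by
          apply mul_le_mul _ _ (by positivity) (by positivity)
          · exact pow_le_pow_left₀ (by positivity) hTlow 2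
          · exact pow_le_pow_left₀ hθD.le hden' y'

end Pool.Agent.Helper48.Bip
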