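import Pool.Agent.Helper48.HcSizes

namespace Pool.Agent.Helper48

open Finset

/-- overlap count at a vertex -/
def exc {n : ℕ} (P N : Fin n → Fin n → ℤ) (a : Fin n) : ℤ := N a a + ∑ b, P a b * N a b

/-- a base structure: good away from the first `L` points, banded -/
structure Base (d : ℤ) (L n : ℕ) (P N : Fin n → Fin n → ℤ) : Prop where
  str : Str d vl P N
  row : ∀ a, deg N a = 1 ∨ (deg N a = 2 ∧ a.val < L)
  good : ∀ a : Fin n, L ≤ a.val → N a a = 0 ∧ ∀ b, P a b + N a b ≤ 1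
  band : ∀ a b : Fin n, a.val + L ≤ b.val → P a b = 0 ∧ N a b = 0

def HasQ {n : ℕ} (P N : Fin n → Fin n → ℤ) : Prop := ∃ Q : Fin n → Fin n → ℤ, IsAdj Q ∧
  (∀ a b, Q a b + P a b ≤ 1 ∧ Q a b + N a b ≤ 1) ∧ ∀ a, deg Q a = exc P N a

def HasBase (d : ℤ) (L n : ℕ) (c₁ c₂ : Prop) : Prop := ∃ P N : Fin n → Fin n → ℤ,
  Base d L n P N ∧ (c₁ → ∀ a, deg N a = 1) ∧ (c₂ → HasQ P N)

theorem fsum_ll {n₁ n₂ : ℕ} (A : Fin n₁ → Fin n₁ → ℤ) (B : Fin n₂ → Fin n₂ → ℤ) (a b : Fin n₁) :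
    fsum A B (finSumFinEquiv (Sum.inl a)) (finSumFinEquiv (Sum.inl b)) = A a b := by
  unfold fsum tr; rw [Equiv.symm_apply_apply, Equiv.symm_apply_apply]; rfl
theorem fsum_lr {n₁ n₂ : ℕ} (A : Fin n₁ → Fin n₁ → ℤ) (B : Fin n₂ → Fin n₂ → ℤ) (a : Fin n₁) (b : Fin n₂) :
    fsum A B (finSumFinEquiv (Sum.inl a)) (finSumFinEquiv (Sum.inr b)) = 0 := by
  unfold fsum tr; rw [Equiv.symm_apply_apply, Equiv.symm_apply_apply]; rfl
theorem fsum_rl {n₁ n₂ : ℕ} (A : Fin n₁ → Fin n₁ → ℤ) (B : Fin n₂ → Fin n₂ → ℤ) (a : Fin n₂) (b : Fin n₁) :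
    fsum A B (finSumFinEquiv (Sum.inr a)) (finSumFinEquiv (Sum.inl b)) = 0 := by
  unfold fsum tr; rw [Equiv.symm_apply_apply, Equiv.symm_apply_apply]; rfl
theorem fsum_rr {n₁ n₂ : ℕ} (A : Fin n₁ → Fin n₁ → ℤ) (B : Fin n₂ → Fin n₂ → ℤ) (a b : Fin n₂) :
    fsum A B (finSumFinEquiv (Sum.inr a)) (finSumFinEquiv (Sum.inr b)) = B a b := by
  unfold fsum tr; rw [Equiv.symm_apply_apply, Equiv.symm_apply_apply]; rfl

theorem sum_fsum {n₁ n₂ : ℕ} (f : Fin (n₁ + n₂) → ℤ) :
    ∑ x, f x = ∑ a : Fin n₁, f (finSumFinEquiv (Sum.inl a)) + ∑ b : Fin n₂, f (finSumFinEquiv (Sum.inr b)) := by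
  rw [← Equiv.sum_comp (finSumFinEquiv : Fin n₁ ⊕ Fin n₂ ≃ Fin (n₁ + n₂)), Fintype.sum_sum_type]

theorem fsum_deg_l {n₁ n₂ : ℕ} (A : Fin n₁ → Fin n₁ → ℤ) (B : Fin n₂ → Fin n₂ → ℤ) (a : Fin n₁) :
    deg (fsum A B) (finSumFinEquiv (Sum.inl a)) = deg A a := by
  unfold deg
  rw [sum_fsum]
  simp only [fsum_ll, fsum_lr, Finset.sum_const_zero, add_zero]

theorem fsum_deg_r {n₁ n₂ : ℕ} (A : Fin n₁ → Fin n₁ → ℤ) (B : Fin n₂ → Fin n₂ → ℤ) (a : Fin n₂) :
    deg (fsum A B) (finSumFinEquiv (Sum.inr a)) = deg B a := by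
  unfold deg
  rw [sum_fsum]
  simp only [fsum_rl, fsum_rr, Finset.sum_const_zero, zero_add]

theorem fsum_exc_l {n₁ n₂ : ℕ} (P N : Fin n₁ → Fin n₁ → ℤ) (P' N' : Fin n₂ → Fin n₂ → ℤ) (a : Fin n₁) :
    exc (fsum P P') (fsum N N') (finSumFinEquiv (Sum.inl a)) = exc P N a := by
  unfold exc
  rw [sum_fsum]
  simp only [fsum_ll, fsum_lr, Finset.sum_const_zero, add_zero, mul_zero]

theorem fsum_exc_r {n₁ n₂ : ℕ} (P N : Fin n₁ → Fin n₁ → ℤ) (P' N' : Fin n₂ → Fin n₂ → ℤ) (a : Fin n₂) :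
    exc (fsum P P') (fsum N N') (finSumFinEquiv (Sum.inr a)) = exc P' N' a := by
  unfold exc
  rw [sum_fsum]
  simp only [fsum_rl, fsum_rr, Finset.sum_const_zero, zero_add, mul_zero]

theorem val_l {n₁ n₂ : ℕ} (a : Fin n₁) :
    ((finSumFinEquiv (Sum.inl a) : Fin (n₁ + n₂)).val) = a.val := by simp
theorem val_r {n₁ n₂ : ℕ} (a : Fin n₂) :
    ((finSumFinEquiv (Sum.inr a) : Fin (n₁ + n₂)).val) = n₁ + a.val := by simp

theorem exc_ne {n : ℕ} {P N : Fin n → Fin n → ℤ} (hP : IsAdj P) (hN : ∀ a b, N a b = 0 ∨ N a b = 1)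
    (a : Fin n) (h : N a a = 0) (h' : ∀ b, P a b + N a b ≤ 1) : exc P N a = 0 := by
  unfold exc
  rw [h, zero_add]
  apply Finset.sum_eq_zero
  intro b _
  have := h' b
  have := hP.nonneg a b
  rcases hN a b with h | h
  · rw [h, mul_zero]
  · have : P a b = 0 := by omega
    rw [this, zero_mul]

theorem HasBase.extend {d : ℤ} {L n s : ℕ} {c₁ c₂ : Prop} (h : HasBase d L n c₁ c₂)
    (h' : HasNe d s) (hs : s ≤ L) : HasBase d L (n + s) c₁ c₂ := by
  obtain ⟨P, N, hB, hc1, hc2⟩ := h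
  obtain ⟨P', N', h1', h2', h3'⟩ := h'
  refine ⟨fsum P P', fsum N N', ⟨fsum_str hB.str h1', ?_, ?_, ?_⟩, ?_, ?_⟩
  · intro a
    obtain ⟨x, rfl⟩ := finSumFinEquiv.surjective a
    rcases x with x | x
    · rw [fsum_deg_l, val_l]; exact hB.row x
    · rw [fsum_deg_r]; left; exact h2'.row x
  · intro a
    obtain ⟨x, rfl⟩ := finSumFinEquiv.surjective a
    rcases x with x | x
    · rw [val_l]
      intro hx
      refine ⟨by rw [fsum_ll]; exact (hB.good x hx).1, fun b => ?_⟩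
      obtain ⟨y, rfl⟩ := finSumFinEquiv.surjective b
      rcases y with y | y
      · rw [fsum_ll, fsum_ll]; exact (hB.good x hx).2 y
      · rw [fsum_lr, fsum_lr]; norm_num
    · intro hx
      refine ⟨by rw [fsum_rr]; exact (h3' x x).2, fun b => ?_⟩
      obtain ⟨y, rfl⟩ := finSumFinEquiv.surjective b
      rcases y with y | y
      · rw [fsum_rl, fsum_rl]; norm_num
      · rw [fsum_rr, fsum_rr]; exact (h3' x y).1
  · intro a b
    obtain ⟨x, rfl⟩ := finSumFinEquiv.surjective a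
    obtain ⟨y, rfl⟩ := finSumFinEquiv.surjective b
    rcases x with x | x <;> rcases y with y | y
    · rw [val_l, val_l, fsum_ll, fsum_ll]; exact hB.band x y
    · intro _; rw [fsum_lr, fsum_lr]; exact ⟨rfl, rfl⟩
    · intro _; rw [fsum_rl, fsum_rl]; exact ⟨rfl, rfl⟩
    · rw [val_r, val_r]
      intro hxy
      have := y.isLt
      omega
  · intro hc a
    obtain ⟨x, rfl⟩ := finSumFinEquiv.surjective a
    rcases x with x | x
    · rw [fsum_deg_l]; exact hc1 hc x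
    · rw [fsum_deg_r]; exact h2'.row x
  · intro hc
    obtain ⟨Q, hQ, hQ2, hQ3⟩ := hc2 hc
    refine ⟨fsum Q (fun _ _ => 0), tr_isAdj _ (dsum_isAdj hQ ⟨fun _ _ => Or.inl rfl, fun _ _ => rfl,
      fun _ => rfl⟩), ?_, ?_⟩
    · intro a b
      obtain ⟨x, rfl⟩ := finSumFinEquiv.surjective a
      obtain ⟨y, rfl⟩ := finSumFinEquiv.surjective b
      rcases x with x | x <;> rcases y with y | y
      · rw [fsum_ll, fsum_ll, fsum_ll]; exact hQ2 x y
      · rw [fsum_lr, fsum_lr, fsum_lr]; norm_num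
      · rw [fsum_rl, fsum_rl, fsum_rl]; norm_num
      · rw [fsum_rr, fsum_rr, fsum_rr]
        have h1 := h1'.adj.le_one x y
        have h2 := h2'.zo x y
        constructor
        · omega
        · rcases h2 with h2 | h2 <;> omega
    · intro a
      obtain ⟨x, rfl⟩ := finSumFinEquiv.surjective a
      rcases x with x | x
      · rw [fsum_deg_l, fsum_exc_l]; exact hQ3 x
      · rw [fsum_deg_r, fsum_exc_r, exc_ne h1'.adj h2'.zo x (h3' x x).2 (fun b => (h3' x b).1)]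
        simp [deg]

theorem HasBase.extend_mul {d : ℤ} {L n s : ℕ} {c₁ c₂ : Prop} (h : HasBase d L n c₁ c₂)
    (h' : HasNe d s) (hs : s ≤ L) (t : ℕ) : HasBase d L (n + t * s) c₁ c₂ := by
  induction t with
  | zero => rw [Nat.zero_mul, Nat.add_zero]; exact h
  | succ t ih =>
    rw [Nat.succ_mul, ← Nat.add_assoc]
    exact ih.extend h' hs

theorem HasB.hasBase {d : ℤ} {n L : ℕ} (h : HasB d n) (hL : n ≤ L) : HasBase d L n True False := by
  obtain ⟨P, N, h1, h2⟩ := h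
  refine ⟨P, N, ⟨h1, fun a => Or.inl (h2.row a), ?_, ?_⟩, fun _ a => h2.row a, fun h => h.elim⟩
  · intro a ha
    have := a.isLt; omega
  · intro a b hab
    have := b.isLt; omega

theorem exc_zo {n : ℕ} {P N : Fin n → Fin n → ℤ} (hP : IsAdj P) (hN : Inv N) (a : Fin n) :
    exc P N a = 0 ∨ exc P N a = 1 := by
  have h1 : exc P N a = ∑ b, (P a b + (if a = b then 1 else 0)) * N a b := by
    unfold exc
    simp only [add_mul, Finset.sum_add_distrib]
    simp
    ring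
  have h2 : ∀ b, 0 ≤ (P a b + (if a = b then 1 else 0)) ∧ (P a b + (if a = b then 1 else 0)) ≤ 1 := by
    intro b
    by_cases hab : a = b
    · rw [if_pos hab, ← hab, hP.diag]; norm_num
    · rw [if_neg hab, add_zero]
      exact ⟨hP.nonneg a b, hP.le_one a b⟩
  have hN0 : ∀ b, 0 ≤ N a b := fun b => by rcases hN.zo a b with h | h <;> omega
  have h3 : 0 ≤ exc P N a := by
    rw [h1]
    exact Finset.sum_nonneg (fun b _ => mul_nonneg (h2 b).1 (hN0 b))
  have h4 : exc P N a ≤ 1 := by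
    have h5 : exc P N a ≤ ∑ b, N a b := by
      rw [h1]
      apply Finset.sum_le_sum
      intro b _
      have := mul_le_mul_of_nonneg_right (h2 b).2 (hN0 b)
      rw [one_mul] at this
      exact this
    rw [hN.row a] at h5
    exact h5
  omega

theorem HasB.hasBase_double {d : ℤ} {n L : ℕ} (h : HasB d n) (hL : n + n ≤ L) :
    HasBase d L (n + n) True True := by
  obtain ⟨P, N, h1, h2⟩ := h
  refine ⟨fsum P P, fsum N N, ⟨fsum_str h1 h1, ?_, ?_, ?_⟩, ?_, ?_⟩
  · intro a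
    left
    exact (fsum_inv h2 h2).row a
  · intro a ha
    have := a.isLt; omega
  · intro a b hab
    have := b.isLt; omega
  · intro _ a
    exact (fsum_inv h2 h2).row a
  · intro _
    let q : Fin n ⊕ Fin n → Fin n ⊕ Fin n → ℤ := fun x y =>
      Sum.elim (fun a => Sum.elim (fun _ => 0) (fun b => if a = b then exc P N a else 0) y)
        (fun a => Sum.elim (fun b => if a = b then exc P N a else 0) (fun _ => 0) y) x
    have hq : IsAdj q := by
      refine ⟨?_, ?_, ?_⟩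
      · rintro (a | a) (b | b)
        · exact Or.inl rfl
        · show (if a = b then exc P N a else 0) = 0 ∨ (if a = b then exc P N a else 0) = 1
          split_ifs
          · exact exc_zo h1.adj h2 a
          · exact Or.inl rfl
        · show (if a = b then exc P N a else 0) = 0 ∨ (if a = b then exc P N a else 0) = 1
          split_ifs
          · exact exc_zo h1.adj h2 a
          · exact Or.inl rfl
        · exact Or.inl rfl
      · rintro (a | a) (b | b)
        · rfl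
        · show (if a = b then exc P N a else 0) = (if b = a then exc P N b else 0)
          by_cases hab : a = b
          · rw [if_pos hab, if_pos hab.symm, hab]
          · rw [if_neg hab, if_neg (fun h => hab h.symm)]
        · show (if a = b then exc P N a else 0) = (if b = a then exc P N b else 0)
          by_cases hab : a = b
          · rw [if_pos hab, if_pos hab.symm, hab]
          · rw [if_neg hab, if_neg (fun h => hab h.symm)]
        · rfl
      · rintro (a | a) <;> rfl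
    refine ⟨tr finSumFinEquiv q, tr_isAdj _ hq, ?_, ?_⟩
    · intro a b
      obtain ⟨x, rfl⟩ := finSumFinEquiv.surjective a
      obtain ⟨y, rfl⟩ := finSumFinEquiv.surjective b
      have e : tr finSumFinEquiv q (finSumFinEquiv x) (finSumFinEquiv y) = q x y := by
        unfold tr; rw [Equiv.symm_apply_apply, Equiv.symm_apply_apply]
      rw [e]
      rcases x with x | x <;> rcases y with y | y
      · rw [fsum_ll, fsum_ll]
        show 0 + P x y ≤ 1 ∧ 0 + N x y ≤ 1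
        have g1 := h1.adj.le_one x y
        have g2 := h2.zo x y
        omega
      · rw [fsum_lr, fsum_lr]
        have := hq.le_one (Sum.inl x) (Sum.inr y)
        omega
      · rw [fsum_rl, fsum_rl]
        have := hq.le_one (Sum.inr x) (Sum.inl y)
        omega
      · rw [fsum_rr, fsum_rr]
        show 0 + P x y ≤ 1 ∧ 0 + N x y ≤ 1
        have g1 := h1.adj.le_one x y
        have g2 := h2.zo x y
        omega
    · intro a
      obtain ⟨x, rfl⟩ := finSumFinEquiv.surjective a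
      unfold deg
      rw [tr_sum', Equiv.symm_apply_apply, Fintype.sum_sum_type]
      rcases x with x | x
      · rw [fsum_exc_l]
        show ∑ _y : Fin n, (0 : ℤ) + ∑ y : Fin n, (if x = y then exc P N x else 0) = exc P N x
        simp
      · rw [fsum_exc_r]
        show ∑ y : Fin n, (if x = y then exc P N x else 0) + ∑ _y : Fin n, (0 : ℤ) = exc P N x
        simp

theorem hasBase_zero (d : ℤ) (L : ℕ) : HasBase d L 0 True True := by
  obtain ⟨P, N, h1, h2, h3⟩ := hasNe_zero d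
  refine ⟨P, N, ⟨h1, fun a => a.elim0, fun a => a.elim0, fun a => a.elim0⟩, fun _ a => a.elim0,
    fun _ => ⟨P, h1.adj, fun a => a.elim0, fun a => a.elim0⟩⟩

theorem HasE.hasBase {d : ℤ} {n L : ℕ} (h : HasE d n) (hL : n ≤ L) : HasBase d L n False False := by
  obtain ⟨P, μ₁, μ₂, h1, h2, h3⟩ := h
  refine ⟨P, _, ⟨h1, fun a => Or.inr ⟨?_, ?_⟩, ?_, ?_⟩, fun h => h.elim, fun h => h.elim⟩
  · unfold deg
    rw [Finset.sum_add_distrib, h2.row, h3.row]; rfl
  · have := a.isLt; omega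
  · intro a ha
    have := a.isLt; omega
  · intro a b hab
    have := b.isLt; omega

/-- non-exceptional block sizes exist for odd `d` -/
theorem hasNe_odd (e : ℕ) : HasNe (2 * e + 1) (4 * 4 ^ e) := by
  induction e with
  | zero => simpa using hasNe_1_4
  | succ e ih =>
    have h1 := HasNe.prod hasB_1_4 ih
    have e1 : (1 : ℤ) + (2 * (e : ℤ) + 1) + 1 = 2 * ((e + 1 : ℕ) : ℤ) + 1 := by push_cast; ring
    rw [e1] at h1
    have e2 : 4 * (4 * 4 ^ e) = 4 * 4 ^ (e + 1) := by ring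
    rw [e2] at h1
    exact h1

theorem HasBase.mono {d : ℤ} {L n : ℕ} {c₁ c₂ c₁' c₂' : Prop} (h : HasBase d L n c₁ c₂)
    (h1 : c₁' → c₁) (h2 : c₂' → c₂) : HasBase d L n c₁' c₂' := by
  obtain ⟨P, N, hB, hc1, hc2⟩ := h
  exact ⟨P, N, hB, fun h => hc1 (h1 h), fun h => hc2 (h2 h)⟩

/-- base structures exist for all large sizes -/
theorem base_exists (d : ℕ) (hd : 1 ≤ d) : ∃ L : ℕ, L ≤ 320 * 5 ^ d ∧ ∀ m, L ≤ m →
    HasBase d L m (Even m ∨ Odd d) (Even m) := by
  rcases Nat.even_or_odd' d with ⟨e, he | he⟩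
  · -- `d = 2 (e' + 1)`
    obtain ⟨e', rfl⟩ : ∃ e', e = e' + 1 := ⟨e - 1, by omega⟩
    have hde : (d : ℤ) = 2 * (e' : ℤ) + 2 := by rw [he]; push_cast; ring
    have h23 : 1 ≤ 23 ^ e' := Nat.one_le_pow _ _ (by norm_num)
    have h25 : 25 * 23 ^ e' ≤ 5 ^ d := by
      have : 5 ^ d = 25 ^ (e' + 1) := by rw [he, pow_mul]; norm_num
      rw [this, pow_succ, Nat.mul_comm]
      exact Nat.mul_le_mul_right _ (Nat.pow_le_pow_left (by norm_num) _)
    obtain ⟨n₀, hn₀'⟩ : ∃ n₀, n₀ + 4 = 40 * 23 ^ e' := ⟨40 * 23 ^ e' - 4, by omega⟩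
    obtain ⟨n₁, hn₁'⟩ : ∃ n₁, n₁ + 4 = 80 * 23 ^ e' := ⟨80 * 23 ^ e' - 4, by omega⟩
    have hn₀ := hasNe_even e'
    have hn₁ := hasB_large e'
    -- odd E block
    have hE : HasE (d : ℤ) ((2 * n₁ + 1) * 9) := by
      have := HasE.prod (hn₁ (2 * n₁ + 1) (by omega)) hasE_0_9
      have e1 : (2 * (e' : ℤ) + 1) + 0 + 1 = d := by rw [hde]; ring
      rw [e1] at this
      exact this
    rw [← hde] at hn₀
    have hne : ∀ n, n₀ + 1 ≤ n → HasNe (d : ℤ) (2 * n) := fun n hn => hn₀ n (by omega)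
    -- L
    set b := (2 * n₁ + 1) * 9 with hb
    refine ⟨b + 4 * (n₀ + 1), by omega, fun m hm => ?_⟩
    rcases Nat.even_or_odd' m with ⟨k, hk | hk⟩
    · -- m = 2k
      have hk0 : 2 * (n₀ + 1) ≤ k := by omega
      have h1 : HasNe (d : ℤ) (2 * (n₀ + 1 + (k - (n₀ + 1)) % (n₀ + 1))) := hne _ (by omega)
      have h2 : HasNe (d : ℤ) (2 * (n₀ + 1)) := hne _ (le_refl _)
      have hmod : (k - (n₀ + 1)) % (n₀ + 1) < n₀ + 1 := Nat.mod_lt _ (by omega)
      have hdm := Nat.div_add_mod (k - (n₀ + 1)) (n₀ + 1)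
      have h3 := ((hasBase_zero (d : ℤ) (b + 4 * (n₀ + 1))).extend h1 (by omega)).extend_mul h2
        (by omega) ((k - (n₀ + 1)) / (n₀ + 1))
      have e2 : 0 + 2 * (n₀ + 1 + (k - (n₀ + 1)) % (n₀ + 1)) +
          (k - (n₀ + 1)) / (n₀ + 1) * (2 * (n₀ + 1)) = m := by
        have : (k - (n₀ + 1)) / (n₀ + 1) * (2 * (n₀ + 1)) =
            2 * ((n₀ + 1) * ((k - (n₀ + 1)) / (n₀ + 1))) := by ring
        rw [this]
        omega
      rw [e2] at h3
      exact h3.mono (fun _ => trivial) (fun _ => trivial)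
    · -- m = 2k + 1
      obtain ⟨u, hu⟩ : ∃ u, m = b + 2 * u := by
        refine ⟨(m - b) / 2, ?_⟩
        have : b % 2 = 1 := by omega
        omega
      have hu0 : 2 * (n₀ + 1) ≤ u := by omega
      have h1 : HasNe (d : ℤ) (2 * (n₀ + 1 + (u - (n₀ + 1)) % (n₀ + 1))) := hne _ (by omega)
      have h2 : HasNe (d : ℤ) (2 * (n₀ + 1)) := hne _ (le_refl _)
      have hmod : (u - (n₀ + 1)) % (n₀ + 1) < n₀ + 1 := Nat.mod_lt _ (by omega)
      have hdm := Nat.div_add_mod (u - (n₀ + 1)) (n₀ + 1)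
      have h3 := ((HasE.hasBase hE (L := b + 4 * (n₀ + 1)) (by omega)).extend h1 (by omega)).extend_mul h2
        (by omega) ((u - (n₀ + 1)) / (n₀ + 1))
      have e2 : b + 2 * (n₀ + 1 + (u - (n₀ + 1)) % (n₀ + 1)) +
          (u - (n₀ + 1)) / (n₀ + 1) * (2 * (n₀ + 1)) = m := by
        have : (u - (n₀ + 1)) / (n₀ + 1) * (2 * (n₀ + 1)) =
            2 * ((n₀ + 1) * ((u - (n₀ + 1)) / (n₀ + 1))) := by ring
        rw [this]
        omega
      rw [e2] at h3
      have hmo : ¬ Even m := by rw [Nat.not_even_iff_odd]; exact ⟨k, hk⟩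
      have hdo : ¬ Odd d := by rw [Nat.not_odd_iff_even]; exact ⟨e' + 1, by omega⟩
      exact h3.mono (fun h => by rcases h with h | h; exacts [hmo h, hdo h]) (fun h => hmo h)
  · have hde : (d : ℤ) = 2 * (e : ℤ) + 1 := by rw [he]; push_cast; ring
    have h23 : 1 ≤ 23 ^ e := Nat.one_le_pow _ _ (by norm_num)
    have h25 : 5 * 23 ^ e ≤ 5 ^ d := by
      have : 5 ^ d = 25 ^ e * 5 := by rw [he, pow_succ, pow_mul]; norm_num
      rw [this, Nat.mul_comm]
      exact Nat.mul_le_mul_right _ (Nat.pow_le_pow_left (by norm_num) _)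
    have h4 : 4 ^ e ≤ 23 ^ e := Nat.pow_le_pow_left (by norm_num) _
    have h41 : 1 ≤ 4 ^ e := Nat.one_le_pow _ _ (by norm_num)
    obtain ⟨n₀, hn₀'⟩ : ∃ n₀, n₀ + 4 = 80 * 23 ^ e := ⟨80 * 23 ^ e - 4, by omega⟩
    obtain ⟨s, hs⟩ : ∃ s, s = 2 * 4 ^ e := ⟨_, rfl⟩
    have hn₀ := hasB_large e
    have hs2 := hasNe_odd e
    have hs3 : 4 * 4 ^ e = 2 * s := by omega
    rw [hs3] at hs2
    rw [← hde] at hn₀ hs2
    refine ⟨2 * n₀ + 2 * s, by omega, fun m hm => ?_⟩
    have hmod : (m - 2 * n₀) % (2 * s) < 2 * s := Nat.mod_lt _ (by omega)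
    have hdm := Nat.div_add_mod (m - 2 * n₀) (2 * s)
    set r := (m - 2 * n₀) % (2 * s) with hr
    set t := (m - 2 * n₀) / (2 * s) with ht
    have e2 : 2 * n₀ + r + t * (2 * s) = m := by
      have : t * (2 * s) = 2 * s * t := by ring
      rw [this]
      omega
    rcases Nat.even_or_odd' r with ⟨k, hk | hk⟩
    · have h1 := HasB.hasBase_double (hn₀ (n₀ + k) (by omega)) (L := 2 * n₀ + 2 * s) (by omega)
      have h2 := h1.extend_mul hs2 (by omega) t
      have e3 : n₀ + k + (n₀ + k) + t * (2 * s) = m := by omega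
      rw [e3] at h2
      exact h2.mono (fun _ => trivial) (fun _ => trivial)
    · have h1 := HasB.hasBase (hn₀ (2 * n₀ + r) (by omega)) (L := 2 * n₀ + 2 * s) (by omega)
      have h2 := h1.extend_mul hs2 (by omega) t
      rw [e2] at h2
      have hmo : ¬ Even m := by
        rw [Nat.not_even_iff_odd, ← e2, hk]
        exact ⟨n₀ + k + t * s, by ring⟩
      exact h2.mono (fun _ => trivial) (fun h => hmo h)

end Pool.Agent.Helper48
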