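import Mathlib

/-! Symmetric 0/1 integer matrices as graphs; the switching lemma. -/

namespace Pool.Agent.Helper48

open Finset

variable {V : Type*} [Fintype V] [DecidableEq V]

/-- `A` is the adjacency matrix of a simple graph. -/
structure IsAdj (A : V → V → ℤ) : Prop where
  zo : ∀ a b, A a b = 0 ∨ A a b = 1
  symm : ∀ a b, A a b = A b a
  diag : ∀ a, A a a = 0

omit [Fintype V] [DecidableEq V] in
theorem IsAdj.nonneg {A : V → V → ℤ} (h : IsAdj A) (a b : V) : 0 ≤ A a b := by
  rcases h.zo a b with h | h <;> omega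

omit [Fintype V] [DecidableEq V] in
theorem IsAdj.le_one {A : V → V → ℤ} (h : IsAdj A) (a b : V) : A a b ≤ 1 := by
  rcases h.zo a b with h | h <;> omega

/-- handshake -/
theorem even_sum_of_symm {A : V → V → ℤ} (hs : ∀ a b, A a b = A b a) (hd : ∀ a, Even (A a a)) :
    Even (∑ a, ∑ b, A a b) := by
  rw [← Finset.sum_product']
  rw [Int.even_iff, ← Int.emod_emod_of_dvd _ (dvd_refl 2)]
  have key : ((∑ x ∈ (univ : Finset V) ×ˢ (univ : Finset V), A x.1 x.2 : ℤ) : ZMod 2) = 0 := by
    push_cast
    apply Finset.sum_involution (fun x _ => (x.2, x.1))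
    · intro x _
      have : A x.1 x.2 = A x.2 x.1 := hs _ _
      simp only [this]
      have h2 : ((2 : ℕ) : ZMod 2) = 0 := by decide
      have : ((A x.2 x.1 : ℤ) : ZMod 2) + ((A x.2 x.1 : ℤ) : ZMod 2) = 2 * ((A x.2 x.1 : ℤ) : ZMod 2) := by ring
      rw [this]
      have h3 : (2 : ZMod 2) = 0 := by decide
      rw [h3, zero_mul]
    · intro x _ hne heq
      apply hne
      have h1 : x.2 = x.1 := by
        have := congrArg Prod.fst heq
        simpa using this
      rw [h1]
      obtain ⟨k, hk⟩ := hd x.1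
      rw [hk]
      push_cast
      have : ((k : ℤ) : ZMod 2) + ((k : ℤ) : ZMod 2) = 2 * ((k : ℤ) : ZMod 2) := by ring
      rw [this]
      have h3 : (2 : ZMod 2) = 0 := by decide
      rw [h3, zero_mul]
    · intro x _
      simp
    · intro x _
      simp
  rw [ZMod.intCast_zmod_eq_zero_iff_dvd] at key
  omega

/-- the edge matrix -/
def E (x y : V) : V → V → ℤ := fun i j => if (i = x ∧ j = y) ∨ (i = y ∧ j = x) then 1 else 0

omit [Fintype V] in
theorem E_symm (x y i j : V) : E x y i j = E x y j i := by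
  unfold E
  congr 1
  apply propext
  tauto

theorem sum_E (x y : V) (h : x ≠ y) (i : V) :
    ∑ j, E x y i j = (if i = x then 1 else 0) + (if i = y then 1 else 0) := by
  unfold E
  by_cases h1 : i = x
  · have h2 : i ≠ y := fun h' => h (h1 ▸ h')
    have : ∀ j, ((i = x ∧ j = y) ∨ (i = y ∧ j = x)) ↔ j = y := by
      intro j; constructor
      · rintro (h3 | h3)
        · exact h3.2
        · exact absurd h3.1 h2
      · intro h3; exact Or.inl ⟨h1, h3⟩
    rw [Finset.sum_congr rfl (fun j _ => if_congr (this j) rfl rfl), if_pos h1, if_neg h2]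
    simp
  · by_cases h2 : i = y
    · have : ∀ j, ((i = x ∧ j = y) ∨ (i = y ∧ j = x)) ↔ j = x := by
        intro j; constructor
        · rintro (h3 | h3)
          · exact absurd h3.1 h1
          · exact h3.2
        · intro h3; exact Or.inr ⟨h2, h3⟩
      rw [Finset.sum_congr rfl (fun j _ => if_congr (this j) rfl rfl), if_neg h1, if_pos h2]
      simp
    · simp [h1, h2]

omit [Fintype V] in
theorem E_zo (x y i j : V) : E x y i j = 0 ∨ E x y i j = 1 := by
  unfold E
  split_ifs <;> simp

omit [Fintype V] in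
theorem E_eq_one {x y i j : V} : E x y i j = 1 ↔ (i = x ∧ j = y) ∨ (i = y ∧ j = x) := by
  unfold E
  split_ifs with h <;> simp [h]

/-- degree -/
def deg (A : V → V → ℤ) (a : V) : ℤ := ∑ b, A a b

theorem deg_eq_card {A : V → V → ℤ} (h : IsAdj A) (a : V) :
    deg A a = ((univ.filter (fun b => A a b = 1)).card : ℤ) := by
  unfold deg
  rw [Finset.card_filter]
  push_cast
  apply Finset.sum_congr rfl
  intro b _
  rcases h.zo a b with h | h <;> simp [h]

end Pool.Agent.Helper48
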