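import Pool.Agent.Helper48.HcFactor

namespace Pool.Agent.Helper48

open Finset

/-- signed translation-invariant structure: `P` same sign adjacency, `N` opposite sign adjacency
(loops allowed in `N`) -/
structure Str {V : Type} [Fintype V] (d : ℤ) (lab : V → ℤ) (P N : V → V → ℤ) : Prop where
  adj : IsAdj P
  zo : ∀ a b, N a b = 0 ∨ N a b = 1
  symm : ∀ a b, N a b = N b a
  dg : ∀ a, ∑ b, (P a b - N a b) = d
  sm : ∀ a, ∑ b, (P a b - N a b) * lab b = d * lab a

/-- involution matrix -/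
structure Inv {V : Type} [Fintype V] (N : V → V → ℤ) : Prop where
  zo : ∀ a b, N a b = 0 ∨ N a b = 1
  symm : ∀ a b, N a b = N b a
  row : ∀ a, ∑ b, N a b = 1

/-- transport of a matrix -/
def tr {V W : Type} (e : V ≃ W) (A : V → V → ℤ) : W → W → ℤ := fun x y => A (e.symm x) (e.symm y)

theorem tr_sum {V W : Type} [Fintype V] [Fintype W] (e : V ≃ W) (A : V → V → ℤ) (f : W → ℤ) (x : W) :
    ∑ y, tr e A x y * f y = ∑ b, A (e.symm x) b * f (e b) := by
  rw [← Equiv.sum_comp e]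
  simp [tr]

theorem tr_sum' {V W : Type} [Fintype V] [Fintype W] (e : V ≃ W) (A : V → V → ℤ) (x : W) :
    ∑ y, tr e A x y = ∑ b, A (e.symm x) b := by
  rw [← Equiv.sum_comp e]
  simp [tr]

theorem tr_isAdj {V W : Type} (e : V ≃ W) {A : V → V → ℤ} (h : IsAdj A) : IsAdj (tr e A) :=
  ⟨fun a b => h.zo _ _, fun a b => h.symm _ _, fun a => h.diag _⟩

theorem tr_inv {V W : Type} [Fintype V] [Fintype W] (e : V ≃ W) {A : V → V → ℤ} (h : Inv A) :
    Inv (tr e A) :=
  ⟨fun a b => h.zo _ _, fun a b => h.symm _ _, fun a => by rw [tr_sum']; exact h.row _⟩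

theorem tr_str {V W : Type} [Fintype V] [Fintype W] (e : V ≃ W) {d : ℤ} {lab : V → ℤ}
    {P N : V → V → ℤ} (h : Str d lab P N) : Str d (fun w => lab (e.symm w)) (tr e P) (tr e N) := by
  refine ⟨tr_isAdj e h.adj, fun a b => h.zo _ _, fun a b => h.symm _ _, fun a => ?_, fun a => ?_⟩
  · rw [Finset.sum_sub_distrib, tr_sum', tr_sum', ← Finset.sum_sub_distrib]
    exact h.dg _
  · have : ∀ b, (tr e P a b - tr e N a b) * lab (e.symm b)
        = tr e (fun x y => (P x y - N x y)) a b * lab (e.symm b) := fun b => rfl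
    rw [Finset.sum_congr rfl (fun b _ => this b), tr_sum e _ (fun b => lab (e.symm b))]
    simp only [Equiv.symm_apply_apply]
    exact h.sm _

/-- affine change of labels -/
theorem Str.affine {V : Type} [Fintype V] {d : ℤ} {lab : V → ℤ} {P N : V → V → ℤ}
    (h : Str d lab P N) (α β : ℤ) : Str d (fun a => α + β * lab a) P N := by
  refine ⟨h.adj, h.zo, h.symm, h.dg, fun a => ?_⟩
  have : ∀ b, (P a b - N a b) * (α + β * lab b) = α * (P a b - N a b) + β * ((P a b - N a b) * lab b) :=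
    fun b => by ring
  rw [Finset.sum_congr rfl (fun b _ => this b), Finset.sum_add_distrib, ← Finset.mul_sum,
    ← Finset.mul_sum, h.dg, h.sm]
  ring

/-- direct sum of matrices -/
def dsum {V W : Type} (A : V → V → ℤ) (B : W → W → ℤ) : V ⊕ W → V ⊕ W → ℤ :=
  fun x y => Sum.elim (fun a => Sum.elim (fun b => A a b) (fun _ => 0) y)
    (fun a => Sum.elim (fun _ => 0) (fun b => B a b) y) x

@[simp] theorem dsum_ll {V W : Type} (A : V → V → ℤ) (B : W → W → ℤ) (a b : V) :
    dsum A B (Sum.inl a) (Sum.inl b) = A a b := rfl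
@[simp] theorem dsum_lr {V W : Type} (A : V → V → ℤ) (B : W → W → ℤ) (a : V) (b : W) :
    dsum A B (Sum.inl a) (Sum.inr b) = 0 := rfl
@[simp] theorem dsum_rl {V W : Type} (A : V → V → ℤ) (B : W → W → ℤ) (a : W) (b : V) :
    dsum A B (Sum.inr a) (Sum.inl b) = 0 := rfl
@[simp] theorem dsum_rr {V W : Type} (A : V → V → ℤ) (B : W → W → ℤ) (a b : W) :
    dsum A B (Sum.inr a) (Sum.inr b) = B a b := rfl

theorem dsum_isAdj {V W : Type} {A : V → V → ℤ} {B : W → W → ℤ} (hA : IsAdj A) (hB : IsAdj B) :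
    IsAdj (dsum A B) := by
  refine ⟨?_, ?_, ?_⟩
  · rintro (a | a) (b | b)
    · exact hA.zo a b
    · exact Or.inl rfl
    · exact Or.inl rfl
    · exact hB.zo a b
  · rintro (a | a) (b | b)
    · exact hA.symm a b
    · rfl
    · rfl
    · exact hB.symm a b
  · rintro (a | a)
    · exact hA.diag a
    · exact hB.diag a

theorem dsum_inv {V W : Type} [Fintype V] [Fintype W] {A : V → V → ℤ} {B : W → W → ℤ}
    (hA : Inv A) (hB : Inv B) : Inv (dsum A B) := by
  refine ⟨?_, ?_, ?_⟩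
  · rintro (a | a) (b | b)
    · exact hA.zo a b
    · exact Or.inl rfl
    · exact Or.inl rfl
    · exact hB.zo a b
  · rintro (a | a) (b | b)
    · exact hA.symm a b
    · rfl
    · rfl
    · exact hB.symm a b
  · rintro (a | a)
    · simp [Fintype.sum_sum_type, hA.row]
    · simp [Fintype.sum_sum_type, hB.row]

theorem dsum_str {V W : Type} [Fintype V] [Fintype W] {d : ℤ} {labV : V → ℤ} {labW : W → ℤ}
    {P N : V → V → ℤ} {P' N' : W → W → ℤ} (h : Str d labV P N) (h' : Str d labW P' N') :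
    Str d (Sum.elim labV labW) (dsum P P') (dsum N N') := by
  refine ⟨dsum_isAdj h.adj h'.adj, ?_, ?_, ?_, ?_⟩
  · rintro (a | a) (b | b)
    · exact h.zo a b
    · exact Or.inl rfl
    · exact Or.inl rfl
    · exact h'.zo a b
  · rintro (a | a) (b | b)
    · exact h.symm a b
    · rfl
    · rfl
    · exact h'.symm a b
  · rintro (a | a)
    · rw [Fintype.sum_sum_type]
      simp only [dsum_ll, dsum_lr, sub_self, Finset.sum_const_zero, add_zero]
      exact h.dg a
    · rw [Fintype.sum_sum_type]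
      simp only [dsum_rl, dsum_rr, sub_self, Finset.sum_const_zero, zero_add]
      exact h'.dg a
  · rintro (a | a)
    · rw [Fintype.sum_sum_type]
      simp only [dsum_ll, dsum_lr, sub_self, zero_mul, Finset.sum_const_zero, add_zero, Sum.elim_inl]
      exact h.sm a
    · rw [Fintype.sum_sum_type]
      simp only [dsum_rl, dsum_rr, sub_self, zero_mul, Finset.sum_const_zero, zero_add, Sum.elim_inr]
      exact h'.sm a

/-- cartesian product of matrices -/
def cart {V W : Type} [DecidableEq V] [DecidableEq W] (A : V → V → ℤ) (B : W → W → ℤ) :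
    V × W → V × W → ℤ :=
  fun x y => (if x.2 = y.2 then A x.1 y.1 else 0) + (if x.1 = y.1 then B x.2 y.2 else 0)

/-- tensor product of matrices -/
def tens {V W : Type} (A : V → V → ℤ) (B : W → W → ℤ) : V × W → V × W → ℤ :=
  fun x y => A x.1 y.1 * B x.2 y.2

theorem cart_isAdj {V W : Type} [DecidableEq V] [DecidableEq W] {A : V → V → ℤ} {B : W → W → ℤ}
    (hA : IsAdj A) (hB : IsAdj B) : IsAdj (cart A B) := by
  refine ⟨?_, ?_, ?_⟩
  · rintro ⟨a, a'⟩ ⟨b, b'⟩
    show (if a' = b' then A a b else 0) + (if a = b then B a' b' else 0) = 0 ∨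
      (if a' = b' then A a b else 0) + (if a = b then B a' b' else 0) = 1
    by_cases h1 : a' = b'
    · by_cases h2 : a = b
      · rw [if_pos h1, if_pos h2, h1, h2, hA.diag, hB.diag]; left; rfl
      · rw [if_pos h1, if_neg h2, add_zero]; exact hA.zo a b
    · by_cases h2 : a = b
      · rw [if_neg h1, if_pos h2, zero_add]; exact hB.zo a' b'
      · rw [if_neg h1, if_neg h2]; left; rfl
  · rintro ⟨a, a'⟩ ⟨b, b'⟩
    show (if a' = b' then A a b else 0) + (if a = b then B a' b' else 0) =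
      (if b' = a' then A b a else 0) + (if b = a then B b' a' else 0)
    rw [hA.symm a b, hB.symm a' b']
    simp only [eq_comm]
  · rintro ⟨a, a'⟩
    show (if a' = a' then A a a else 0) + (if a = a then B a' a' else 0) = 0
    rw [hA.diag, hB.diag]; simp

theorem cart_sum {V W : Type} [Fintype V] [Fintype W] [DecidableEq V] [DecidableEq W]
    (A : V → V → ℤ) (B : W → W → ℤ) (f : V × W → ℤ) (x : V × W) :
    ∑ y, cart A B x y * f y = ∑ b, A x.1 b * f (b, x.2) + ∑ b, B x.2 b * f (x.1, b) := by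
  rw [Fintype.sum_prod_type]
  simp only [cart, add_mul, Finset.sum_add_distrib, ite_mul, zero_mul]
  congr 1
  · apply Finset.sum_congr rfl
    intro b _
    simp
  · rw [Finset.sum_comm]
    apply Finset.sum_congr rfl
    intro b _
    simp

theorem tens_sum {V W : Type} [Fintype V] [Fintype W]
    (A : V → V → ℤ) (B : W → W → ℤ) (f : V → ℤ) (g : W → ℤ) (x : V × W) :
    ∑ y, tens A B x y * (f y.1 * g y.2) = (∑ b, A x.1 b * f b) * (∑ b, B x.2 b * g b) := by
  rw [Fintype.sum_prod_type, Finset.sum_mul_sum]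
  apply Finset.sum_congr rfl
  intro b _
  apply Finset.sum_congr rfl
  intro b' _
  simp only [tens]
  ring

theorem tens_inv {V W : Type} [Fintype V] [Fintype W] {A : V → V → ℤ} {B : W → W → ℤ}
    (hA : Inv A) (hB : Inv B) : Inv (tens A B) := by
  refine ⟨?_, ?_, ?_⟩
  · intro x y
    unfold tens
    rcases hA.zo x.1 y.1 with h | h <;> rcases hB.zo x.2 y.2 with h' | h' <;> rw [h, h'] <;> simp
  · intro x y
    unfold tens
    rw [hA.symm x.1 y.1, hB.symm x.2 y.2]
  · intro x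
    have := tens_sum A B (fun _ => 1) (fun _ => 1) x
    simp only [mul_one] at this
    rw [this, hA.row, hB.row, one_mul]

/-- product rule: two blocks with `N₁` an involution and `N₂` an involution -/
theorem prod_str {V W : Type} [Fintype V] [Fintype W] [DecidableEq V] [DecidableEq W]
    {d₁ d₂ : ℤ} {lab₁ : V → ℤ} {lab₂ : W → ℤ} {P₁ N₁ : V → V → ℤ} {P₂ N₂ : W → W → ℤ}
    (h₁ : Str d₁ lab₁ P₁ N₁) (h₂ : Str d₂ lab₂ P₂ N₂) (i₁ : Inv N₁) (i₂ : Inv N₂) (c : ℤ) :
    Str (d₁ + d₂ + 1) (fun x => c * lab₁ x.1 + lab₂ x.2) (cart P₁ P₂) (tens N₁ N₂) := by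
  have i := tens_inv i₁ i₂
  have e1 : ∀ a, ∑ b, P₁ a b = d₁ + 1 := by
    intro a
    have := h₁.dg a
    rw [Finset.sum_sub_distrib, i₁.row] at this
    omega
  have e2 : ∀ a, ∑ b, P₂ a b = d₂ + 1 := by
    intro a
    have := h₂.dg a
    rw [Finset.sum_sub_distrib, i₂.row] at this
    omega
  have s1 : ∀ a, ∑ b, P₁ a b * lab₁ b = d₁ * lab₁ a + ∑ b, N₁ a b * lab₁ b := by
    intro a
    have := h₁.sm a
    simp only [sub_mul, Finset.sum_sub_distrib] at this
    linarith
  have s2 : ∀ a, ∑ b, P₂ a b * lab₂ b = d₂ * lab₂ a + ∑ b, N₂ a b * lab₂ b := by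
    intro a
    have := h₂.sm a
    simp only [sub_mul, Finset.sum_sub_distrib] at this
    linarith
  refine ⟨cart_isAdj h₁.adj h₂.adj, i.zo, i.symm, ?_, ?_⟩
  · intro x
    rw [Finset.sum_sub_distrib, i.row]
    have := cart_sum P₁ P₂ (fun _ => 1) x
    simp only [mul_one] at this
    rw [this, e1, e2]
    ring
  · intro x
    simp only [sub_mul, Finset.sum_sub_distrib]
    rw [cart_sum P₁ P₂ (fun x => c * lab₁ x.1 + lab₂ x.2) x]
    have t1 := tens_sum N₁ N₂ lab₁ (fun _ => 1) x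
    have t2 := tens_sum N₁ N₂ (fun _ => 1) lab₂ x
    have t : ∑ y, tens N₁ N₂ x y * (c * lab₁ y.1 + lab₂ y.2)
        = c * ∑ y, tens N₁ N₂ x y * (lab₁ y.1 * 1) + ∑ y, tens N₁ N₂ x y * (1 * lab₂ y.2) := by
      rw [Finset.mul_sum, ← Finset.sum_add_distrib]
      apply Finset.sum_congr rfl
      intro y _
      ring
    rw [t, t1, t2]
    simp only [mul_one, i₁.row, i₂.row, one_mul]
    have u1 : ∑ b, P₁ x.1 b * (c * lab₁ b + lab₂ x.2) = c * (∑ b, P₁ x.1 b * lab₁ b)
        + (∑ b, P₁ x.1 b) * lab₂ x.2 := by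
      rw [Finset.mul_sum, Finset.sum_mul, ← Finset.sum_add_distrib]
      apply Finset.sum_congr rfl
      intro y _
      ring
    have u2 : ∑ b, P₂ x.2 b * (c * lab₁ x.1 + lab₂ b) = (∑ b, P₂ x.2 b * lab₂ b)
        + (∑ b, P₂ x.2 b) * (c * lab₁ x.1) := by
      rw [Finset.sum_mul, ← Finset.sum_add_distrib]
      apply Finset.sum_congr rfl
      intro y _
      ring
    show ∑ b, P₁ x.1 b * (c * lab₁ b + lab₂ x.2) + ∑ b, P₂ x.2 b * (c * lab₁ x.1 + lab₂ b)
      - (c * ((∑ b, N₁ x.1 b * lab₁ b)) + (∑ b, N₂ x.2 b * lab₂ b)) = _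
    rw [u1, u2, e1, e2, s1, s2]
    ring

/-- product rule with `N₂ = μ₁ + μ₂` a sum of two involutions -/
theorem prod_str2 {V W : Type} [Fintype V] [Fintype W] [DecidableEq V] [DecidableEq W]
    {d₁ d₂ : ℤ} {lab₁ : V → ℤ} {lab₂ : W → ℤ} {P₁ N₁ : V → V → ℤ} {P₂ μ₁ μ₂ : W → W → ℤ}
    (h₁ : Str d₁ lab₁ P₁ N₁) (h₂ : Str d₂ lab₂ P₂ (fun a b => μ₁ a b + μ₂ a b)) (i₁ : Inv N₁)
    (j₁ : Inv μ₁) (j₂ : Inv μ₂) (c : ℤ) :
    Str (d₁ + d₂ + 1) (fun x => c * lab₁ x.1 + lab₂ x.2) (cart P₁ P₂)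
      (fun x y => tens N₁ μ₁ x y + tens (fun a b => if a = b then 1 else 0) μ₂ x y) := by
  have iI : Inv (fun a b : V => if a = b then (1 : ℤ) else 0) := by
    refine ⟨fun a b => ?_, fun a b => ?_, fun a => ?_⟩
    · show (if a = b then (1 : ℤ) else 0) = 0 ∨ (if a = b then (1 : ℤ) else 0) = 1
      split_ifs <;> simp
    · show (if a = b then (1 : ℤ) else 0) = (if b = a then (1 : ℤ) else 0)
      simp only [eq_comm]
    · simp
  have i := tens_inv i₁ j₁
  have i' := tens_inv iI j₂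
  have e1 : ∀ a, ∑ b, P₁ a b = d₁ + 1 := by
    intro a
    have := h₁.dg a
    rw [Finset.sum_sub_distrib, i₁.row] at this
    omega
  have e2 : ∀ a, ∑ b, P₂ a b = d₂ + 2 := by
    intro a
    have := h₂.dg a
    rw [Finset.sum_sub_distrib, Finset.sum_add_distrib, j₁.row, j₂.row] at this
    omega
  have s1 : ∀ a, ∑ b, P₁ a b * lab₁ b = d₁ * lab₁ a + ∑ b, N₁ a b * lab₁ b := by
    intro a
    have := h₁.sm a
    simp only [sub_mul, Finset.sum_sub_distrib] at this
    linarith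
  have s2 : ∀ a, ∑ b, P₂ a b * lab₂ b = d₂ * lab₂ a + (∑ b, μ₁ a b * lab₂ b + ∑ b, μ₂ a b * lab₂ b) := by
    intro a
    have := h₂.sm a
    simp only [sub_mul, add_mul, Finset.sum_sub_distrib, Finset.sum_add_distrib] at this
    linarith
  refine ⟨cart_isAdj h₁.adj h₂.adj, ?_, ?_, ?_, ?_⟩
  · intro x y
    show tens N₁ μ₁ x y + tens (fun a b => if a = b then 1 else 0) μ₂ x y = 0 ∨
      tens N₁ μ₁ x y + tens (fun a b => if a = b then 1 else 0) μ₂ x y = 1
    have hz := h₂.zo x.2 y.2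
    have g1 := i.zo x y
    have g2 := i'.zo x y
    have k1 : tens N₁ μ₁ x y = 1 → μ₁ x.2 y.2 = 1 := by
      intro h
      unfold tens at h
      rcases j₁.zo x.2 y.2 with h' | h'
      · rw [h', mul_zero] at h; norm_num at h
      · exact h'
    have k2 : tens (fun a b => if a = b then (1 : ℤ) else 0) μ₂ x y = 1 → μ₂ x.2 y.2 = 1 := by
      intro h
      unfold tens at h
      rcases j₂.zo x.2 y.2 with h' | h'
      · rw [h', mul_zero] at h; norm_num at h
      · exact h'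
    rcases g1 with g1 | g1
    · rw [g1, zero_add]; exact g2
    · rcases g2 with g2 | g2
      · rw [g2, add_zero]; exact Or.inr g1
      · exfalso
        have := k1 g1; have := k2 g2
        have hz : μ₁ x.2 y.2 + μ₂ x.2 y.2 = 0 ∨ μ₁ x.2 y.2 + μ₂ x.2 y.2 = 1 := hz
        omega
  · intro x y
    show tens N₁ μ₁ x y + tens (fun a b => if a = b then 1 else 0) μ₂ x y = tens N₁ μ₁ y x +
      tens (fun a b => if a = b then 1 else 0) μ₂ y x
    rw [i.symm, i'.symm]
  · intro x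
    rw [Finset.sum_sub_distrib, Finset.sum_add_distrib, i.row, i'.row]
    have := cart_sum P₁ P₂ (fun _ => 1) x
    simp only [mul_one] at this
    rw [this, e1, e2]
    ring
  · intro x
    simp only [sub_mul, add_mul, Finset.sum_sub_distrib, Finset.sum_add_distrib]
    rw [cart_sum P₁ P₂ (fun x => c * lab₁ x.1 + lab₂ x.2) x]
    have tt : ∀ (A : V → V → ℤ) (B : W → W → ℤ), Inv A → Inv B →
        ∑ y, tens A B x y * (c * lab₁ y.1 + lab₂ y.2)
        = c * (∑ b, A x.1 b * lab₁ b) + (∑ b, B x.2 b * lab₂ b) := by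
      intro A B hA hB
      have t1 := tens_sum A B lab₁ (fun _ => 1) x
      have t2 := tens_sum A B (fun _ => 1) lab₂ x
      have t : ∑ y, tens A B x y * (c * lab₁ y.1 + lab₂ y.2)
          = c * ∑ y, tens A B x y * (lab₁ y.1 * 1) + ∑ y, tens A B x y * (1 * lab₂ y.2) := by
        rw [Finset.mul_sum, ← Finset.sum_add_distrib]
        apply Finset.sum_congr rfl
        intro y _
        ring
      rw [t, t1, t2]
      simp only [mul_one, hA.row, hB.row, one_mul]
    rw [tt N₁ μ₁ i₁ j₁, tt _ μ₂ iI j₂]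
    have u1 : ∑ b, P₁ x.1 b * (c * lab₁ b + lab₂ x.2) = c * (∑ b, P₁ x.1 b * lab₁ b)
        + (∑ b, P₁ x.1 b) * lab₂ x.2 := by
      rw [Finset.mul_sum, Finset.sum_mul, ← Finset.sum_add_distrib]
      apply Finset.sum_congr rfl
      intro y _
      ring
    have u2 : ∑ b, P₂ x.2 b * (c * lab₁ x.1 + lab₂ b) = (∑ b, P₂ x.2 b * lab₂ b)
        + (∑ b, P₂ x.2 b) * (c * lab₁ x.1) := by
      rw [Finset.sum_mul, ← Finset.sum_add_distrib]
      apply Finset.sum_congr rfl
      intro y _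
      ring
    have u3 : ∑ b, (if x.1 = b then (1 : ℤ) else 0) * lab₁ b = lab₁ x.1 := by simp
    rw [u3]
    show ∑ b, P₁ x.1 b * (c * lab₁ b + lab₂ x.2) + ∑ b, P₂ x.2 b * (c * lab₁ x.1 + lab₂ b)
      - ((c * ((∑ b, N₁ x.1 b * lab₁ b)) + (∑ b, μ₁ x.2 b * lab₂ b)) +
        (c * lab₁ x.1 + (∑ b, μ₂ x.2 b * lab₂ b))) = _
    rw [u1, u2, e1, e2, s1, s2]
    ring

end Pool.Agent.Helper48
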