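import Pool.Agent.Helper48.HcBase

namespace Pool.Agent.Helper48

open Finset

/-- a family of pairwise disjoint balanced odd pieces, as the matrix `∑ w wᵀ` -/
structure OddFam (m L : ℕ) (T : Fin m → Fin m → ℤ) (y s : ℤ) : Prop where
  zo : ∀ a b, T a b = 0 ∨ T a b = 1 ∨ T a b = -1
  symm : ∀ a b, T a b = T b a
  diag : ∀ a, T a a = 0 ∨ T a a = 1
  supp : ∀ a b, T a b ≠ 0 → T a a = 1
  wt : ∀ a, ∑ b, T a b * (vl b + 1) = 0
  far : ∀ a b : Fin m, a ≠ b → T a b ≠ 0 → a.val + L ≤ b.val ∨ b.val + L ≤ a.val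
  low : ∀ a : Fin m, T a a = 1 → L ≤ a.val
  sz : ∀ a, (T a a = 0 ∧ ∑ b, (T a b) ^ 2 = 0) ∨
    (T a a = 1 ∧ (∑ b, (T a b) ^ 2 = 3 ∨ ∑ b, (T a b) ^ 2 = 5))
  cnt : ∑ a, T a a = y
  tot : ∑ a, ∑ b, (T a b) ^ 2 = s

structure IsPiece (m L : ℕ) (w : Fin m → ℤ) (q : ℤ) : Prop where
  zo : ∀ a, w a = 0 ∨ w a = 1 ∨ w a = -1
  wt : ∑ b, w b * (vl b + 1) = 0
  sz : ∑ b, (w b) ^ 2 = q
  q35 : q = 3 ∨ q = 5
  far : ∀ a b : Fin m, a ≠ b → w a ≠ 0 → w b ≠ 0 → a.val + L ≤ b.val ∨ b.val + L ≤ a.val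
  low : ∀ a : Fin m, w a ≠ 0 → L ≤ a.val

theorem OddFam.zero (m L : ℕ) : OddFam m L (fun _ _ => 0) 0 0 := by
  refine ⟨fun _ _ => Or.inl rfl, fun _ _ => rfl, fun _ => Or.inl rfl, fun _ _ h => absurd rfl h,
    fun _ => by simp, fun _ _ _ h => absurd rfl h, fun _ h => by norm_num at h,
    fun _ => Or.inl ⟨rfl, by simp⟩, by simp, by simp⟩

theorem OddFam.add {m L : ℕ} {T : Fin m → Fin m → ℤ} {y s q : ℤ} {w : Fin m → ℤ}
    (h : OddFam m L T y s) (hw : IsPiece m L w q) (hd : ∀ a, w a ≠ 0 → T a a = 0) :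
    OddFam m L (fun a b => T a b + w a * w b) (y + q) (s + q ^ 2) := by
  have hT0 : ∀ a b, w a ≠ 0 → T a b = 0 := by
    intro a b ha
    by_contra hne
    have := h.supp a b hne
    rw [hd a ha] at this
    norm_num at this
  have hcross : ∀ a b, T a b * (w a * w b) = 0 := by
    intro a b
    by_cases ha : w a = 0
    · rw [ha]; ring
    · rw [hT0 a b ha]; ring
  have hsq : ∀ a b, (T a b + w a * w b) ^ 2 = (T a b) ^ 2 + (w a) ^ 2 * (w b) ^ 2 := by
    intro a b
    have := hcross a b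
    have e : (T a b + w a * w b) ^ 2 = (T a b) ^ 2 + (w a) ^ 2 * (w b) ^ 2 + 2 * (T a b * (w a * w b)) := by
      ring
    rw [e, this]; ring
  have hw2 : ∀ a, w a ≠ 0 → w a * w a = 1 := by
    intro a ha
    rcases hw.zo a with h | h | h
    · exact absurd h ha
    · rw [h]; norm_num
    · rw [h]; norm_num
  have hrow : ∀ a, ∑ b, (T a b + w a * w b) ^ 2 = ∑ b, (T a b) ^ 2 + (w a) ^ 2 * q := by
    intro a
    rw [Finset.sum_congr rfl (fun b _ => hsq a b), Finset.sum_add_distrib, ← Finset.mul_sum, hw.sz]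
  refine ⟨?_, ?_, ?_, ?_, ?_, ?_, ?_, ?_, ?_, ?_⟩
  · intro a b
    by_cases ha : w a = 0
    · show T a b + w a * w b = 0 ∨ T a b + w a * w b = 1 ∨ T a b + w a * w b = -1
      rw [ha, zero_mul, add_zero]; exact h.zo a b
    · show T a b + w a * w b = 0 ∨ T a b + w a * w b = 1 ∨ T a b + w a * w b = -1
      rw [hT0 a b ha, zero_add]
      rcases hw.zo a with h1 | h1 | h1 <;> rcases hw.zo b with h2 | h2 | h2 <;> rw [h1, h2] <;> norm_num
  · intro a b
    show T a b + w a * w b = T b a + w b * w a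
    rw [h.symm a b]; ring
  · intro a
    show T a a + w a * w a = 0 ∨ T a a + w a * w a = 1
    by_cases ha : w a = 0
    · rw [ha, zero_mul, add_zero]; exact h.diag a
    · rw [hT0 a a ha, hw2 a ha]; right; rfl
  · intro a b hab
    have hab : T a b + w a * w b ≠ 0 := hab
    show T a a + w a * w a = 1
    by_cases ha : w a = 0
    · rw [ha, zero_mul, add_zero] at hab ⊢
      exact h.supp a b hab
    · rw [hT0 a a ha, hw2 a ha]; rfl
  · intro a
    show ∑ b, (T a b + w a * w b) * (vl b + 1) = 0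
    have : ∀ b, (T a b + w a * w b) * (vl b + 1) = T a b * (vl b + 1) + w a * (w b * (vl b + 1)) :=
      fun b => by ring
    rw [Finset.sum_congr rfl (fun b _ => this b), Finset.sum_add_distrib, ← Finset.mul_sum, h.wt,
      hw.wt]
    ring
  · intro a b hne hab
    have hab : T a b + w a * w b ≠ 0 := hab
    by_cases ha : w a = 0
    · rw [ha, zero_mul, add_zero] at hab
      exact h.far a b hne hab
    · by_cases hb : w b = 0
      · rw [hb, mul_zero, add_zero] at hab
        exact h.far a b hne hab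
      · exact hw.far a b hne ha hb
  · intro a ha1
    have ha1 : T a a + w a * w a = 1 := ha1
    by_cases ha : w a = 0
    · rw [ha, zero_mul, add_zero] at ha1
      exact h.low a ha1
    · exact hw.low a ha
  · intro a
    show (T a a + w a * w a = 0 ∧ ∑ b, (T a b + w a * w b) ^ 2 = 0) ∨
      (T a a + w a * w a = 1 ∧ (∑ b, (T a b + w a * w b) ^ 2 = 3 ∨ ∑ b, (T a b + w a * w b) ^ 2 = 5))
    rw [hrow a]
    by_cases ha : w a = 0
    · rw [ha, zero_mul, add_zero]
      have : (0 : ℤ) ^ 2 * q = 0 := by ring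
      rw [this, add_zero]
      exact h.sz a
    · right
      have h1 := hw2 a ha
      have h2 : (w a) ^ 2 * q = q := by rw [pow_two, h1, one_mul]
      have h3 : ∑ b, (T a b) ^ 2 = 0 := by
        apply Finset.sum_eq_zero
        intro b _
        rw [hT0 a b ha]; rfl
      rw [h2, h3, zero_add, hT0 a a ha, h1]
      exact ⟨rfl, hw.q35⟩
  · show ∑ a, (T a a + w a * w a) = y + q
    rw [Finset.sum_add_distrib, h.cnt, ← hw.sz]
    congr 1
    apply Finset.sum_congr rfl
    intro a _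
    ring
  · show ∑ a, ∑ b, (T a b + w a * w b) ^ 2 = s + q ^ 2
    rw [Finset.sum_congr rfl (fun a _ => hrow a), Finset.sum_add_distrib, h.tot, ← Finset.sum_mul,
      hw.sz]
    ring

/-- indicator of a set of values -/
def ind {m : ℕ} (A : Finset ℕ) : Fin m → ℤ := fun a => if a.val + 1 ∈ A then 1 else 0

theorem sum_ind {m : ℕ} {A : Finset ℕ} (hA : ∀ v ∈ A, 1 ≤ v ∧ v ≤ m) (g : ℕ → ℤ) :
    ∑ a : Fin m, ind A a * g (a.val + 1) = ∑ v ∈ A, g v := by
  have h1 : ∀ a : Fin m, ind A a * g (a.val + 1) = if a.val + 1 ∈ A then g (a.val + 1) else 0 := by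
    intro a; unfold ind; split_ifs <;> simp
  rw [Finset.sum_congr rfl (fun a _ => h1 a), ← Finset.sum_filter]
  apply Finset.sum_bij (fun (a : Fin m) _ => a.val + 1)
  · intro a ha
    rw [mem_filter] at ha
    exact ha.2
  · intro a _ b _ hab
    exact Fin.ext (by omega)
  · intro v hv
    have := hA v hv
    exact ⟨⟨v - 1, by omega⟩, by rw [mem_filter]; exact ⟨mem_univ _, by
      show v - 1 + 1 ∈ A
      rw [Nat.sub_add_cancel this.1]; exact hv⟩, by
      show v - 1 + 1 = v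
      omega⟩
  · intro a _
    rfl

/-- a valid pair of sets of values -/
structure Valid (m L : ℕ) (A B : Finset ℕ) (q : ℕ) : Prop where
  disj : Disjoint A B
  rng : ∀ v ∈ A ∪ B, L + 1 ≤ v ∧ v ≤ m
  far : ∀ v ∈ A ∪ B, ∀ v' ∈ A ∪ B, v ≠ v' → v + L ≤ v' ∨ v' + L ≤ v
  bal : ∑ v ∈ A, (v : ℤ) = ∑ v ∈ B, (v : ℤ)
  card : A.card + B.card = q
  q35 : q = 3 ∨ q = 5

theorem Valid.isPiece {m L q : ℕ} {A B : Finset ℕ} (h : Valid m L A B q) :
    IsPiece m L (fun a => ind A a - ind B a) q := by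
  have hne : ∀ a : Fin m, (ind A a : ℤ) - ind B a ≠ 0 → a.val + 1 ∈ A ∪ B := by
    intro a ha
    unfold ind at ha
    rw [mem_union]
    by_contra hcon
    push Not at hcon
    rw [if_neg hcon.1, if_neg hcon.2] at ha
    exact ha rfl
  have hnot : ∀ a : Fin m, a.val + 1 ∈ A → a.val + 1 ∈ B → False := by
    intro a h1 h2
    exact Finset.disjoint_left.1 h.disj h1 h2
  have hA : ∀ v ∈ A, 1 ≤ v ∧ v ≤ m := fun v hv => by
    have := h.rng v (mem_union_left _ hv); omega
  have hB : ∀ v ∈ B, 1 ≤ v ∧ v ≤ m := fun v hv => by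
    have := h.rng v (mem_union_right _ hv); omega
  refine ⟨?_, ?_, ?_, ?_, ?_, ?_⟩
  · intro a
    show (ind A a : ℤ) - ind B a = 0 ∨ _
    unfold ind
    split_ifs <;> norm_num
  · have e1 : ∀ a : Fin m, ((ind A a : ℤ) - ind B a) * (vl a + 1) =
        ind A a * (((a.val + 1 : ℕ)) : ℤ) - ind B a * (((a.val + 1 : ℕ)) : ℤ) := by
      intro a
      unfold vl
      push_cast
      ring
    rw [Finset.sum_congr rfl (fun a _ => e1 a), Finset.sum_sub_distrib,
      sum_ind hA (fun v => (v : ℤ)), sum_ind hB (fun v => (v : ℤ)), h.bal, sub_self]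
  · have e1 : ∀ a : Fin m, ((ind A a : ℤ) - ind B a) ^ 2 = ind A a * 1 + ind B a * 1 := by
      intro a
      unfold ind
      split_ifs with h1 h2
      · exact (hnot a h1 h2).elim
      · norm_num
      · norm_num
      · norm_num
    rw [Finset.sum_congr rfl (fun a _ => e1 a), Finset.sum_add_distrib,
      sum_ind hA (fun v => 1), sum_ind hB (fun v => 1)]
    simp only [Finset.sum_const, nsmul_eq_mul, mul_one]
    exact_mod_cast h.card
  · rcases h.q35 with h | h
    · left; exact_mod_cast h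
    · right; exact_mod_cast h
  · intro a b hab ha hb
    have := h.far _ (hne a ha) _ (hne b hb) (fun h => hab (Fin.ext (by omega)))
    omega
  · intro a ha
    have := h.rng _ (hne a ha)
    omega

theorem fam_exists {ι : Type} [DecidableEq ι] {m L : ℕ} (A B : ι → Finset ℕ) (q : ι → ℕ)
    (I : Finset ι) (hv : ∀ i ∈ I, Valid m L (A i) (B i) (q i))
    (hd : ∀ i ∈ I, ∀ j ∈ I, i ≠ j → Disjoint (A i ∪ B i) (A j ∪ B j)) :
    ∃ T : Fin m → Fin m → ℤ, OddFam m L T (∑ i ∈ I, (q i : ℤ)) (∑ i ∈ I, (q i : ℤ) ^ 2) ∧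
      ∀ a, T a a ≠ 0 → ∃ i ∈ I, a.val + 1 ∈ A i ∪ B i := by
  induction I using Finset.induction_on with
  | empty =>
    refine ⟨fun _ _ => 0, ?_, fun a h => absurd rfl h⟩
    rw [Finset.sum_empty, Finset.sum_empty]
    exact OddFam.zero m L
  | insert i I hi ih =>
    obtain ⟨T, hT, hT2⟩ := ih (fun j hj => hv j (mem_insert_of_mem hj))
      (fun j hj k hk => hd j (mem_insert_of_mem hj) k (mem_insert_of_mem hk))
    have hp := (hv i (mem_insert_self _ _)).isPiece
    have hne : ∀ a : Fin m, (ind (A i) a : ℤ) - ind (B i) a ≠ 0 → a.val + 1 ∈ A i ∪ B i := by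
      intro a ha
      unfold ind at ha
      rw [mem_union]
      by_contra hcon
      push Not at hcon
      rw [if_neg hcon.1, if_neg hcon.2] at ha
      exact ha rfl
    have hdis : ∀ a : Fin m, (ind (A i) a : ℤ) - ind (B i) a ≠ 0 → T a a = 0 := by
      intro a ha
      by_contra hcon
      obtain ⟨j, hj, hj2⟩ := hT2 a hcon
      have hij : i ≠ j := fun h => hi (h ▸ hj)
      exact Finset.disjoint_left.1 (hd i (mem_insert_self _ _) j (mem_insert_of_mem hj) hij) (hne a ha) hj2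
    refine ⟨fun a b => T a b + (ind (A i) a - ind (B i) a) * (ind (A i) b - ind (B i) b), ?_, ?_⟩
    · have := hT.add hp hdis
      rw [Finset.sum_insert hi, Finset.sum_insert hi, add_comm (q i : ℤ), add_comm ((q i : ℤ) ^ 2)]
      exact this
    · intro a ha
      by_cases h0 : (ind (A i) a : ℤ) - ind (B i) a = 0
      · have ha : T a a + ((ind (A i) a : ℤ) - ind (B i) a) * (ind (A i) a - ind (B i) a) ≠ 0 := ha
        rw [h0, zero_mul, add_zero] at ha
        obtain ⟨j, hj, hj2⟩ := hT2 a ha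
        exact ⟨j, mem_insert_of_mem hj, hj2⟩
      · exact ⟨i, mem_insert_self _ _, hne a h0⟩

/-- table of five balanced quintuples -/
def tabA (j : ℕ) : Finset ℕ :=
  ([{7, 16, 24}, {12, 14, 22}, {3, 10, 15}, {1, 9, 13}, {2, 5, 17}] : List (Finset ℕ)).getD j ∅
def tabB (j : ℕ) : Finset ℕ :=
  ([{21, 26}, {23, 25}, {8, 20}, {4, 19}, {6, 18}] : List (Finset ℕ)).getD j ∅

theorem tab_facts : ∀ j < 5, Disjoint (tabA j) (tabB j) ∧ (∀ c ∈ tabA j ∪ tabB j, 1 ≤ c ∧ c ≤ 26) ∧
    ∑ c ∈ tabA j, c = ∑ c ∈ tabB j, c ∧ (tabA j).card = 3 ∧ (tabB j).card = 2 := by decide +kernel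

theorem tab_disj : ∀ j < 5, ∀ j' < 5, j ≠ j' → Disjoint (tabA j ∪ tabB j) (tabA j' ∪ tabB j') := by
  decide +kernel

/-- the long Skolem-type family: the partner of `i` -/
def xx (t i : ℕ) : ℕ :=
  if i % 2 = 1 then t + (t + 1) / 2 + 1 - (i + 1) / 2 else 2 * t + (t + 1) / 2 + 1 - i / 2

def fA (L t : ℕ) (i : ℕ) : Finset ℕ :=
  if i < 5 then (tabA i).image (fun c => (L + 1) * c) else {i, xx t i}
def fB (L t : ℕ) (i : ℕ) : Finset ℕ :=
  if i < 5 then (tabB i).image (fun c => (L + 1) * c) else {xx t i + i}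
def fq (i : ℕ) : ℕ := if i < 5 then 5 else 3

theorem valid_five {m L t i : ℕ} (hi : i < 5) (hm : 26 * (L + 1) ≤ m) :
    Valid m L (fA L t i) (fB L t i) (fq i) := by
  obtain ⟨h1, h2, h3, h4, h5⟩ := tab_facts i hi
  have hinj : Function.Injective (fun c => (L + 1) * c) :=
    fun a b h => Nat.eq_of_mul_eq_mul_left (Nat.succ_pos L) h
  unfold fA fB fq
  rw [if_pos hi, if_pos hi, if_pos hi]
  have hmem : ∀ v ∈ (tabA i).image (fun c => (L + 1) * c) ∪ (tabB i).image (fun c => (L + 1) * c),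
      ∃ c, 1 ≤ c ∧ c ≤ 26 ∧ v = (L + 1) * c := by
    intro v hv
    rw [← Finset.image_union, mem_image] at hv
    obtain ⟨c, hc, rfl⟩ := hv
    have := h2 c hc
    exact ⟨c, this.1, this.2, rfl⟩
  refine ⟨?_, ?_, ?_, ?_, ?_, ?_⟩
  · exact (Finset.disjoint_image hinj).2 h1
  · intro v hv
    obtain ⟨c, hc1, hc2, rfl⟩ := hmem v hv
    constructor
    · nlinarith
    · nlinarith
  · intro v hv v' hv' hne
    obtain ⟨c, hc1, hc2, rfl⟩ := hmem v hv
    obtain ⟨c', hc1', hc2', rfl⟩ := hmem v' hv'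
    have hcc : c ≠ c' := fun h => hne (by rw [h])
    rcases Nat.lt_or_gt_of_ne hcc with h | h
    · left; nlinarith
    · right; nlinarith
  · rw [Finset.sum_image (fun a _ b _ h => hinj h), Finset.sum_image (fun a _ b _ h => hinj h)]
    push_cast
    rw [← Finset.mul_sum, ← Finset.mul_sum]
    have : ∑ c ∈ tabA i, (c : ℤ) = ∑ c ∈ tabB i, (c : ℤ) := by
      rw [← Nat.cast_sum, ← Nat.cast_sum, h3]
    rw [this]
  · rw [Finset.card_image_of_injective _ hinj, Finset.card_image_of_injective _ hinj, h4, h5]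
  · right; rfl

theorem valid_three {m L t i : ℕ} (hi : 5 ≤ i) (hiL : L + 1 ≤ i) (hit : i + L ≤ t)
    (hm : 3 * t + 1 ≤ m) :
    Valid m L (fA L t i) (fB L t i) (fq i) := by
  unfold fA fB fq
  rw [if_neg (by omega), if_neg (by omega), if_neg (by omega)]
  have hx : t + 1 ≤ xx t i ∧ xx t i + i ≤ 3 * t + 1 := by
    unfold xx; split_ifs <;> omega
  refine ⟨?_, ?_, ?_, ?_, ?_, ?_⟩
  · rw [Finset.disjoint_left]
    intro v hv hv'
    simp only [mem_insert, mem_singleton] at hv hv'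
    omega
  · intro v hv
    simp only [mem_union, mem_insert, mem_singleton] at hv
    omega
  · intro v hv v' hv' hne
    simp only [mem_union, mem_insert, mem_singleton] at hv hv'
    omega
  · have hne : i ≠ xx t i := by omega
    rw [Finset.sum_pair hne, Finset.sum_singleton]
    push_cast
    ring
  · have hne : i ≠ xx t i := by omega
    rw [Finset.card_pair hne, Finset.card_singleton]
  · left; rfl

theorem disj_three {L t i j : ℕ} (hi : 5 ≤ i) (hj : 5 ≤ j) (hit : i ≤ t) (hjt : j ≤ t)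
    (hij : i ≠ j) : Disjoint (fA L t i ∪ fB L t i) (fA L t j ∪ fB L t j) := by
  unfold fA fB
  rw [if_neg (by omega), if_neg (by omega), if_neg (by omega), if_neg (by omega),
    Finset.disjoint_left]
  intro v hv hv'
  simp only [mem_union, mem_insert, mem_singleton] at hv hv'
  unfold xx at hv hv'
  split_ifs at hv hv' <;> omega

theorem disj_five_three {L t i j : ℕ} (hi : i < 5) (hj : 5 ≤ j) (hj2 : 26 * (L + 1) < j)
    (hjt : j ≤ t) : Disjoint (fA L t i ∪ fB L t i) (fA L t j ∪ fB L t j) := by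
  obtain ⟨h1, h2, h3, h4, h5⟩ := tab_facts i hi
  unfold fA fB
  rw [if_pos hi, if_pos hi, if_neg (by omega), if_neg (by omega), ← Finset.image_union,
    Finset.disjoint_left]
  intro v hv hv'
  rw [mem_image] at hv
  obtain ⟨c, hc, rfl⟩ := hv
  have h6 := (h2 c hc).2
  simp only [mem_union, mem_insert, mem_singleton] at hv'
  have h7 : (L + 1) * c ≤ (L + 1) * 26 := Nat.mul_le_mul_left _ h6
  have hx : t + 1 ≤ xx t j := by
    unfold xx; split_ifs <;> omega
  omega

theorem disj_five {L t i j : ℕ} (hi : i < 5) (hj : j < 5) (hij : i ≠ j) :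
    Disjoint (fA L t i ∪ fB L t i) (fA L t j ∪ fB L t j) := by
  have hinj : Function.Injective (fun c => (L + 1) * c) :=
    fun a b h => Nat.eq_of_mul_eq_mul_left (Nat.succ_pos L) h
  unfold fA fB
  rw [if_pos hi, if_pos hi, if_pos hj, if_pos hj, ← Finset.image_union, ← Finset.image_union]
  exact (Finset.disjoint_image hinj).2 (tab_disj i hi j hj hij)

theorem oddFam_exists {L m y : ℕ} (hy1 : 25 ≤ y) (hy2 : y + 81 * L + 88 ≤ m) {ρ : ℤ}
    (hρ : Even (ρ - y)) : ∃ (T : Fin m → Fin m → ℤ) (s : ℤ), OddFam m L T y s ∧ 4 ∣ s - ρ := by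
  obtain ⟨t, ht⟩ : ∃ t, t = (m - 1) / 3 := ⟨_, rfl⟩
  have key : ∀ u t' : ℕ, u ≤ 5 → 3 * t' + 5 * u = y →
      ∃ T : Fin m → Fin m → ℤ, OddFam m L T y (9 * t' + 25 * u) := by
    intro u t' hu htu
    have hv : ∀ i ∈ range u ∪ Finset.Ioc (26 * (L + 1)) (26 * (L + 1) + t'),
        Valid m L (fA L t i) (fB L t i) (fq i) := by
      intro i hi
      rw [mem_union, mem_range, mem_Ioc] at hi
      rcases hi with hi | hi
      · exact valid_five (by omega) (by omega)
      · exact valid_three (by omega) (by omega) (by omega) (by omega)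
    have hd : ∀ i ∈ range u ∪ Finset.Ioc (26 * (L + 1)) (26 * (L + 1) + t'),
        ∀ j ∈ range u ∪ Finset.Ioc (26 * (L + 1)) (26 * (L + 1) + t'), i ≠ j →
        Disjoint (fA L t i ∪ fB L t i) (fA L t j ∪ fB L t j) := by
      intro i hi j hj hij
      rw [mem_union, mem_range, mem_Ioc] at hi hj
      rcases hi with hi | hi
      · rcases hj with hj | hj
        · exact disj_five (by omega) (by omega) hij
        · exact disj_five_three (by omega) (by omega) (by omega) (by omega)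
      · rcases hj with hj | hj
        · exact (disj_five_three (by omega) (by omega) (by omega) (by omega)).symm
        · exact disj_three (by omega) (by omega) (by omega) (by omega) hij
    obtain ⟨T, hT, _⟩ := fam_exists (m := m) (L := L) (fA L t) (fB L t) fq
      (range u ∪ Finset.Ioc (26 * (L + 1)) (26 * (L + 1) + t')) hv hd
    refine ⟨T, ?_⟩
    have hdis : Disjoint (range u) (Finset.Ioc (26 * (L + 1)) (26 * (L + 1) + t')) := by
      rw [Finset.disjoint_left]
      intro v hv hv'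
      rw [mem_range] at hv
      rw [mem_Ioc] at hv'
      omega
    have e1 : ∑ i ∈ range u, (fq i : ℤ) = 5 * u := by
      rw [Finset.sum_congr rfl (g := fun _ => (5 : ℤ))]
      · simp; ring
      · intro i hi
        rw [mem_range] at hi
        unfold fq; rw [if_pos (by omega)]; rfl
    have e2 : ∑ i ∈ range u, (fq i : ℤ) ^ 2 = 25 * u := by
      rw [Finset.sum_congr rfl (g := fun _ => (25 : ℤ))]
      · simp; ring
      · intro i hi
        rw [mem_range] at hi
        unfold fq; rw [if_pos (by omega)]; rfl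
    have e3 : ∑ i ∈ Finset.Ioc (26 * (L + 1)) (26 * (L + 1) + t'), (fq i : ℤ) = 3 * t' := by
      rw [Finset.sum_congr rfl (g := fun _ => (3 : ℤ))]
      · simp; ring
      · intro i hi
        rw [mem_Ioc] at hi
        unfold fq; rw [if_neg (by omega)]; rfl
    have e4 : ∑ i ∈ Finset.Ioc (26 * (L + 1)) (26 * (L + 1) + t'), (fq i : ℤ) ^ 2 = 9 * t' := by
      rw [Finset.sum_congr rfl (g := fun _ => (9 : ℤ))]
      · simp; ring
      · intro i hi
        rw [mem_Ioc] at hi
        unfold fq; rw [if_neg (by omega)]; rfl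
    rw [Finset.sum_union hdis, Finset.sum_union hdis, e1, e2, e3, e4] at hT
    have e5 : (5 * (u : ℤ) + 3 * t') = y := by
      rw [← htu]; push_cast; ring
    have e6 : (25 * (u : ℤ) + 9 * t') = 9 * t' + 25 * u := by ring
    rw [e5, e6] at hT
    exact hT
  obtain ⟨σ, hσ⟩ := hρ
  -- choose u
  obtain ⟨u₀, hu₀⟩ : ∃ u₀, u₀ = (2 * y) % 3 := ⟨_, rfl⟩
  obtain ⟨t₀, ht₀⟩ : ∃ t₀, 3 * t₀ + 5 * u₀ = y := ⟨(y - 5 * u₀) / 3, by omega⟩
  have ht5 : 5 ≤ t₀ := by omega
  by_cases hc : 4 ∣ (9 * (t₀ : ℤ) + 25 * u₀) - ρ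
  · obtain ⟨T, hT⟩ := key u₀ t₀ (by omega) ht₀
    exact ⟨T, _, hT, hc⟩
  · obtain ⟨T, hT⟩ := key (u₀ + 3) (t₀ - 5) (by omega) (by omega)
    refine ⟨T, _, hT, ?_⟩
    push_cast [Nat.cast_sub ht5]
    omega

end Pool.Agent.Helper48
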