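import Pool.Agent.Helper48.HcSwitch

namespace Pool.Agent.Helper48

open Finset

/-- a 0/1 matrix with all row and column sums `q ≥ 1` contains a permutation matrix -/
theorem exists_perm {V : Type*} [Fintype V] [DecidableEq V] {D : V → V → ℤ}
    (h01 : ∀ a b, D a b = 0 ∨ D a b = 1) {q : ℤ} (hq : 1 ≤ q)
    (hrow : ∀ a, ∑ b, D a b = q) (hcol : ∀ b, ∑ a, D a b = q) :
    ∃ π : Equiv.Perm V, ∀ a, D a (π a) = 1 := by
  have hall : ∀ s : Finset V, s.card ≤ (s.biUnion (fun a => univ.filter (fun b => D a b = 1))).card := by
    intro s
    set T := s.biUnion (fun a => univ.filter (fun b => D a b = 1)) with hT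
    have h1 : (s.card : ℤ) * q ≤ (T.card : ℤ) * q := by
      calc (s.card : ℤ) * q = ∑ a ∈ s, ∑ b, D a b := by
            rw [Finset.sum_congr rfl (fun a _ => hrow a), Finset.sum_const, nsmul_eq_mul]
        _ = ∑ a ∈ s, ∑ b ∈ T, D a b := by
            apply Finset.sum_congr rfl
            intro a ha
            symm
            apply Finset.sum_subset (Finset.subset_univ _)
            intro b _ hb
            rcases h01 a b with h | h
            · exact h
            · exfalso; apply hb
              rw [hT, mem_biUnion]
              exact ⟨a, ha, by simp [h]⟩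
        _ = ∑ b ∈ T, ∑ a ∈ s, D a b := Finset.sum_comm
        _ ≤ ∑ b ∈ T, ∑ a, D a b := by
            apply Finset.sum_le_sum
            intro b _
            apply Finset.sum_le_sum_of_subset_of_nonneg (Finset.subset_univ _)
            intro a _ _
            rcases h01 a b with h | h <;> omega
        _ = (T.card : ℤ) * q := by
            rw [Finset.sum_congr rfl (fun a _ => hcol a), Finset.sum_const, nsmul_eq_mul]
    have h2 : (s.card : ℤ) ≤ T.card := le_of_mul_le_mul_right h1 (by omega)
    exact_mod_cast h2
  obtain ⟨f, hf, hf2⟩ := (Finset.all_card_le_biUnion_card_iff_exists_injective _).1 hall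
  refine ⟨Equiv.ofBijective f (Finite.injective_iff_bijective.1 hf), fun a => ?_⟩
  have := hf2 a
  simpa using this

theorem exists_regular_sub {V : Type*} [Fintype V] [DecidableEq V] (n : ℕ) :
    ∀ (D : V → V → ℤ), (∀ a b, D a b = 0 ∨ D a b = 1) → ∀ (j : ℕ),
    (∀ a, ∑ b, D a b = j + n) → (∀ b, ∑ a, D a b = j + n) →
    ∃ D' : V → V → ℤ, (∀ a b, D' a b = 0 ∨ D' a b = 1) ∧ (∀ a b, D' a b ≤ D a b) ∧
      (∀ a, ∑ b, D' a b = j) ∧ (∀ b, ∑ a, D' a b = j) := by
  induction n with
  | zero =>
    intro D h01 j hr hc
    exact ⟨D, h01, fun _ _ => le_refl _, fun a => by simpa using hr a, fun a => by simpa using hc a⟩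
  | succ n ih =>
    intro D h01 j hr hc
    obtain ⟨π, hπ⟩ := exists_perm h01 (q := j + (n + 1 : ℕ)) (by push_cast; omega) hr hc
    have k1 : ∀ a b, D a b - (if b = π a then 1 else 0) = 0 ∨ D a b - (if b = π a then 1 else 0) = 1 := by
      intro a b
      split_ifs with h
      · rw [h, hπ]; left; norm_num
      · simpa using h01 a b
    have k2 : ∀ a, ∑ b, (D a b - (if b = π a then 1 else 0)) = j + n := by
      intro a
      rw [Finset.sum_sub_distrib, hr a]
      simp
      ring
    have k3 : ∀ b, ∑ a, (D a b - (if b = π a then 1 else 0)) = j + n := by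
      intro b
      rw [Finset.sum_sub_distrib, hc b]
      have : ∀ a, (b = π a) ↔ a = π.symm b := by
        intro a; constructor
        · intro h; rw [h]; simp
        · intro h; rw [h]; simp
      simp only [this]
      simp
      ring
    obtain ⟨D', g1, g2, g3, g4⟩ := ih (fun a b => D a b - (if b = π a then 1 else 0)) k1 j k2 k3
    refine ⟨D', g1, fun a b => (g2 a b).trans ?_, g3, g4⟩
    show D a b - (if b = π a then 1 else 0) ≤ D a b
    split_ifs <;> omega

/-- balanced orientation of a `2q`-regular graph on `Fin m` -/
theorem exists_orientation {m : ℕ} {R : Fin m → Fin m → ℤ} (hR : IsAdj R) {q : ℕ}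
    (hdeg : ∀ a, deg R a = 2 * q) :
    ∃ D : Fin m → Fin m → ℤ, (∀ a b, D a b = 0 ∨ D a b = 1) ∧ (∀ a b, D a b + D b a = R a b) ∧
      (∀ a, ∑ b, D a b = q) ∧ (∀ b, ∑ a, D a b = q) := by
  classical
  let ι := {e : Fin m × Fin m // e.1 < e.2 ∧ R e.1 e.2 = 1}
  let t : ι → Finset (Fin m × Fin q) := fun e => ({e.1.1, e.1.2} : Finset (Fin m)) ×ˢ univ
  have hall : ∀ s : Finset ι, s.card ≤ (s.biUnion t).card := by
    intro s
    let U : Finset (Fin m) := s.biUnion (fun e => ({e.1.1, e.1.2} : Finset (Fin m)))
    have hU : s.biUnion t = U ×ˢ univ := by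
      ext ⟨x, y⟩
      simp only [t, U, mem_biUnion, mem_product, mem_univ, and_true]
    rw [hU, Finset.card_product, Finset.card_univ, Fintype.card_fin]
    -- double count
    have h1 : ∑ e ∈ s, ∑ u ∈ U, (if u = e.1.1 ∨ u = e.1.2 then 1 else 0 : ℤ) = 2 * s.card := by
      have : ∀ e ∈ s, ∑ u ∈ U, (if u = e.1.1 ∨ u = e.1.2 then 1 else 0 : ℤ) = 2 := by
        intro e he
        have hsub : ({e.1.1, e.1.2} : Finset (Fin m)) ⊆ U := by
          intro x hx
          simp only [U, mem_biUnion]
          exact ⟨e, he, hx⟩
        rw [← Finset.sum_filter]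
        have : U.filter (fun u => u = e.1.1 ∨ u = e.1.2) = {e.1.1, e.1.2} := by
          ext x
          simp only [mem_filter, mem_insert, mem_singleton]
          constructor
          · exact fun h => h.2
          · intro h
            exact ⟨hsub (by simp [h]), h⟩
        rw [this, Finset.sum_const, Finset.card_pair (ne_of_lt e.2.1)]
        simp
      rw [Finset.sum_congr rfl this, Finset.sum_const, nsmul_eq_mul]
      ring
    have h2 : ∑ e ∈ s, ∑ u ∈ U, (if u = e.1.1 ∨ u = e.1.2 then 1 else 0 : ℤ)
        ≤ ∑ u ∈ U, (2 * q : ℤ) := by
      rw [Finset.sum_comm]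
      apply Finset.sum_le_sum
      intro u _
      rw [← hdeg u, deg_eq_card hR, ← Finset.sum_filter, Finset.sum_const, nsmul_eq_mul, mul_one]
      have : (s.filter (fun e : ι => u = e.1.1 ∨ u = e.1.2)).card
          ≤ (univ.filter (fun b => R u b = 1)).card := by
        apply Finset.card_le_card_of_injOn (fun e : ι => if u = e.1.1 then e.1.2 else e.1.1)
        · intro e he
          rw [mem_coe, mem_filter] at he
          rw [mem_coe, mem_filter]
          refine ⟨mem_univ _, ?_⟩
          show R u (if u = e.1.1 then e.1.2 else e.1.1) = 1
          split_ifs with h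
          · rw [h]; exact e.2.2
          · rcases he.2 with h' | h'
            · exact absurd h' h
            · rw [h', hR.symm]; exact e.2.2
        · intro e he e' he' hee
          rw [mem_coe, mem_filter] at he he'
          have hee : (if u = e.1.1 then e.1.2 else e.1.1) = (if u = e'.1.1 then e'.1.2 else e'.1.1) := hee
          have l1 := e.2.1
          have l2 := e'.2.1
          apply Subtype.ext
          apply Prod.ext
          · split_ifs at hee with h h'
            · rw [← h, ← h']
            · rcases he'.2 with h'' | h''
              · exact absurd h'' h'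
              · exfalso
                rw [← h] at l1
                rw [← h''] at l2
                rw [hee] at l1
                exact lt_asymm l1 l2
            · rcases he.2 with h'' | h''
              · exact absurd h'' h
              · exfalso
                rename_i h'
                rw [← h'] at l2
                rw [← h''] at l1
                rw [hee] at l1
                exact lt_asymm l1 l2
            · exact hee
          · split_ifs at hee with h h'
            · exact hee
            · rcases he'.2 with h'' | h''
              · exact absurd h'' h'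
              · exfalso
                rw [← h] at l1
                rw [← h''] at l2
                rw [hee] at l1
                exact lt_asymm l1 l2
            · rcases he.2 with h'' | h''
              · exact absurd h'' h
              · exfalso
                rename_i h'
                rw [← h'] at l2
                rw [← h''] at l1
                rw [hee] at l1
                exact lt_asymm l1 l2
            · rcases he.2 with h3 | h3
              · exact absurd h3 h
              · rcases he'.2 with h4 | h4
                · rename_i h'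
                  exact absurd h4 h'
                · rw [← h3, ← h4]
      exact_mod_cast this
    rw [h1, Finset.sum_const, nsmul_eq_mul] at h2
    have h3 : (s.card : ℤ) ≤ U.card * q := by linarith
    exact_mod_cast h3
  obtain ⟨f, hf, hf2⟩ := (Finset.all_card_le_biUnion_card_iff_exists_injective _).1 hall
  have hf3 : ∀ e : ι, (f e).1 = e.1.1 ∨ (f e).1 = e.1.2 := by
    intro e
    have := hf2 e
    simp only [t, mem_product, mem_univ, and_true, mem_insert, mem_singleton] at this
    exact this
  -- the orientation
  let D : Fin m → Fin m → ℤ := fun a b =>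
    if ∃ e : ι, (e.1 = (a, b) ∨ e.1 = (b, a)) ∧ (f e).1 = b then 1 else 0
  have hD01 : ∀ a b, D a b = 0 ∨ D a b = 1 := by
    intro a b
    simp only [D]
    split_ifs <;> simp
  have hDsum_lt : ∀ a b, a < b → D a b + D b a = R a b := by
    intro a b hab
    have hne : a ≠ b := ne_of_lt hab
    by_cases h : R a b = 1
    · have huniq : ∀ e : ι, (e.1 = (a, b) ∨ e.1 = (b, a)) → e = ⟨(a, b), ⟨hab, h⟩⟩ := by
        intro e he
        apply Subtype.ext
        rcases he with he | he
        · exact he
        · exfalso
          have := e.2.1
          rw [he] at this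
          exact lt_asymm hab this
      rcases hf3 ⟨(a, b), ⟨hab, h⟩⟩ with h' | h'
      · have e1 : D a b = 0 := by
          simp only [D]
          rw [if_neg]
          rintro ⟨e, he, he2⟩
          rw [huniq e he, h'] at he2
          exact hne he2
        have e2 : D b a = 1 := by
          simp only [D]
          rw [if_pos]
          exact ⟨⟨(a, b), ⟨hab, h⟩⟩, Or.inr rfl, h'⟩
        rw [e1, e2, h]; rfl
      · have e1 : D a b = 1 := by
          simp only [D]
          rw [if_pos]
          exact ⟨⟨(a, b), ⟨hab, h⟩⟩, Or.inl rfl, h'⟩
        have e2 : D b a = 0 := by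
          simp only [D]
          rw [if_neg]
          rintro ⟨e, he, he2⟩
          rw [huniq e he.symm, h'] at he2
          exact hne he2.symm
        rw [e1, e2, h]; rfl
    · have h0 : R a b = 0 := by
        rcases hR.zo a b with h'' | h''
        · exact h''
        · exact absurd h'' h
      have hno : ∀ e : ι, (e.1 = (a, b) ∨ e.1 = (b, a)) → False := by
        intro e he
        rcases he with he | he
        · have := e.2.2
          rw [he] at this
          exact h this
        · have := e.2.2
          rw [he, hR.symm] at this
          exact h this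
      have e1 : D a b = 0 := by
        simp only [D]
        rw [if_neg]
        rintro ⟨e, he, he2⟩
        exact hno e he
      have e2 : D b a = 0 := by
        simp only [D]
        rw [if_neg]
        rintro ⟨e, he, he2⟩
        exact hno e he.symm
      rw [e1, e2, h0]; rfl
  have hDsum : ∀ a b, D a b + D b a = R a b := by
    intro a b
    rcases lt_trichotomy a b with h | h | h
    · exact hDsum_lt a b h
    · subst h
      have : D a a = 0 := by
        simp only [D]
        rw [if_neg]
        rintro ⟨e, he, he2⟩
        have hh := e.2.1
        rcases he with he | he <;> · rw [he] at hh; exact lt_irrefl _ hh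
      rw [this, hR.diag]; rfl
    · rw [add_comm, hDsum_lt b a h, hR.symm]
  have hcol_le : ∀ b, ∑ a, D a b ≤ q := by
    intro b
    have h1 : ∑ a, D a b = ((univ.filter (fun a => D a b = 1)).card : ℤ) := by
      rw [Finset.card_filter]
      push_cast
      apply Finset.sum_congr rfl
      intro a _
      rcases hD01 a b with h | h <;> simp [h]
    rw [h1]
    have hform : ∀ a, D a b = 1 → ∃ i : Fin q, ∃ e : ι, f e = (b, i) ∧
        ((e.1 = (a, b)) ∨ (e.1 = (b, a))) := by
      intro a h
      simp only [D] at h
      split_ifs at h with h1
      · obtain ⟨e, he, he2⟩ := h1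
        exact ⟨(f e).2, e, Prod.ext he2 rfl, he⟩
      · norm_num at h
    by_cases hempty : (univ.filter (fun a => D a b = 1)) = ∅
    · rw [hempty]; simp
    obtain ⟨a0, ha0⟩ := Finset.nonempty_iff_ne_empty.2 hempty
    rw [mem_filter] at ha0
    haveI : Nonempty (Fin q) := ⟨(hform a0 ha0.2).choose⟩
    choose! g hg using hform
    have h2 : (univ.filter (fun a => D a b = 1)).card ≤ (univ : Finset (Fin q)).card := by
      apply Finset.card_le_card_of_injOn g
      · intro a _; simp
      · intro a ha a' ha' haa
        rw [mem_coe, mem_filter] at ha ha'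
        obtain ⟨e, he, he2⟩ := hg a ha.2
        obtain ⟨e', he', he2'⟩ := hg a' ha'.2
        rw [haa] at he
        have heq : e = e' := hf (he.trans he'.symm)
        subst heq
        rcases he2 with h | h
        · rcases he2' with h' | h'
          · exact congrArg Prod.fst (h.symm.trans h')
          · have := h.symm.trans h'
            have h3 : a = b := congrArg Prod.fst this
            have h4 : b = a' := congrArg Prod.snd this
            exact h3.trans h4
        · rcases he2' with h' | h'
          · have := h.symm.trans h'
            have h3 : b = a' := congrArg Prod.fst this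
            have h4 : a = b := congrArg Prod.snd this
            exact h4.trans h3
          · exact congrArg Prod.snd (h.symm.trans h')
    rw [Finset.card_univ, Fintype.card_fin] at h2
    exact_mod_cast h2
  have htot : ∑ b, ∑ a, D a b = ∑ b : Fin m, (q : ℤ) := by
    have h1 : ∑ a, ∑ b, (D a b + D b a) = ∑ a : Fin m, (2 * q : ℤ) := by
      apply Finset.sum_congr rfl
      intro a _
      rw [← hdeg a]
      unfold deg
      exact Finset.sum_congr rfl (fun b _ => hDsum a b)
    simp only [Finset.sum_add_distrib] at h1
    have h2 : ∑ a, ∑ b, D b a = ∑ a, ∑ b, D a b := Finset.sum_comm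
    have h3 : ∑ b, ∑ a, D a b = ∑ a, ∑ b, D a b := Finset.sum_comm
    rw [← Finset.mul_sum] at h1
    linarith
  have hcol : ∀ b, ∑ a, D a b = q := by
    have h4 : ∑ b, ((q : ℤ) - ∑ a, D a b) = 0 := by
      rw [Finset.sum_sub_distrib, htot, sub_self]
    rw [Finset.sum_eq_zero_iff_of_nonneg (fun b _ => by have := hcol_le b; omega)] at h4
    intro b
    have := h4 b (mem_univ b)
    omega
  refine ⟨D, hD01, hDsum, ?_, hcol⟩
  intro a
  have h1 : ∑ b, (D a b + D b a) = 2 * q := by
    rw [← hdeg a]
    unfold deg
    exact Finset.sum_congr rfl (fun b _ => hDsum a b)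
  rw [Finset.sum_add_distrib, hcol a] at h1
  omega

/-- Petersen: a `2q`-regular graph has `2j`-regular spanning subgraphs, `j ≤ q` -/
theorem exists_even_factor {m : ℕ} {R : Fin m → Fin m → ℤ} (hR : IsAdj R) {q j : ℕ}
    (hdeg : ∀ a, deg R a = 2 * q) (hj : j ≤ q) :
    ∃ S : Fin m → Fin m → ℤ, IsAdj S ∧ (∀ a b, S a b ≤ R a b) ∧ ∀ a, deg S a = 2 * j := by
  obtain ⟨D, h1, h2, h3, h4⟩ := exists_orientation hR hdeg
  obtain ⟨n, rfl⟩ := Nat.exists_eq_add_of_le hj
  obtain ⟨D', g1, g2, g3, g4⟩ := exists_regular_sub n D h1 j (by simpa using h3) (by simpa using h4)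
  have hle : ∀ a b, D' a b + D' b a ≤ R a b := by
    intro a b
    rw [← h2]
    exact add_le_add (g2 a b) (g2 b a)
  refine ⟨fun a b => D' a b + D' b a, ⟨?_, ?_, ?_⟩, hle, ?_⟩
  · intro a b
    have := hle a b
    have := hR.le_one a b
    rcases g1 a b with h | h <;> rcases g1 b a with h' | h' <;> omega
  · intro a b
    ring
  · intro a
    have := hle a a
    rw [hR.diag] at this
    rcases g1 a a with h | h
    · show D' a a + D' a a = 0
      rw [h]; rfl
    · omega
  · intro a
    unfold deg
    rw [Finset.sum_add_distrib, g3, g4]
    ring

end Pool.Agent.Helper48
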