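import Pool.Agent.Helper48.HcTables

namespace Pool.Agent.Helper48

open Finset

/-- label function on `Fin n` -/
def vl {n : ℕ} : Fin n → ℤ := fun a => (a.val : ℤ)

def HasB (d : ℤ) (n : ℕ) : Prop := ∃ P N : Fin n → Fin n → ℤ, Str d vl P N ∧ Inv N

def HasNe (d : ℤ) (n : ℕ) : Prop := ∃ P N : Fin n → Fin n → ℤ, Str d vl P N ∧ Inv N ∧
  ∀ a b, P a b + N a b ≤ 1 ∧ N a a = 0

def HasE (d : ℤ) (n : ℕ) : Prop := ∃ P μ₁ μ₂ : Fin n → Fin n → ℤ,
  Str d vl P (fun a b => μ₁ a b + μ₂ a b) ∧ Inv μ₁ ∧ Inv μ₂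

theorem HasNe.hasB {d : ℤ} {n : ℕ} (h : HasNe d n) : HasB d n := by
  obtain ⟨P, N, h1, h2, _⟩ := h
  exact ⟨P, N, h1, h2⟩

/-! sums -/

theorem sum_label {n₁ n₂ : ℕ} (w : Fin (n₁ + n₂)) :
    Sum.elim (vl : Fin n₁ → ℤ) (fun a : Fin n₂ => (n₁ : ℤ) + 1 * vl a) (finSumFinEquiv.symm w) = vl w := by
  obtain ⟨x, rfl⟩ := finSumFinEquiv.surjective w
  rw [Equiv.symm_apply_apply]
  rcases x with a | a
  · simp [vl]
  · simp [vl]

/-- block sum on `Fin (n₁ + n₂)` -/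
def fsum {n₁ n₂ : ℕ} (A : Fin n₁ → Fin n₁ → ℤ) (B : Fin n₂ → Fin n₂ → ℤ) :
    Fin (n₁ + n₂) → Fin (n₁ + n₂) → ℤ := tr finSumFinEquiv (dsum A B)

theorem fsum_str {n₁ n₂ : ℕ} {d : ℤ} {P N : Fin n₁ → Fin n₁ → ℤ} {P' N' : Fin n₂ → Fin n₂ → ℤ}
    (h : Str d vl P N) (h' : Str d vl P' N') : Str d vl (fsum P P') (fsum N N') := by
  have h1 := tr_str finSumFinEquiv (dsum_str h (h'.affine n₁ 1))
  have h2 : (fun w : Fin (n₁ + n₂) => Sum.elim (vl : Fin n₁ → ℤ)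
      (fun a : Fin n₂ => (n₁ : ℤ) + 1 * vl a) (finSumFinEquiv.symm w)) = vl := by
    funext w; exact sum_label w
  rw [h2] at h1
  exact h1

theorem fsum_inv {n₁ n₂ : ℕ} {N : Fin n₁ → Fin n₁ → ℤ} {N' : Fin n₂ → Fin n₂ → ℤ}
    (h : Inv N) (h' : Inv N') : Inv (fsum N N') := tr_inv _ (dsum_inv h h')

theorem HasB.add {d : ℤ} {n₁ n₂ : ℕ} (h₁ : HasB d n₁) (h₂ : HasB d n₂) : HasB d (n₁ + n₂) := by
  obtain ⟨P, N, h1, h2⟩ := h₁
  obtain ⟨P', N', h1', h2'⟩ := h₂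
  exact ⟨_, _, fsum_str h1 h1', fsum_inv h2 h2'⟩

theorem fsum_forall {n₁ n₂ : ℕ} {A : Fin n₁ → Fin n₁ → ℤ} {B : Fin n₂ → Fin n₂ → ℤ}
    {A' : Fin n₁ → Fin n₁ → ℤ} {B' : Fin n₂ → Fin n₂ → ℤ}
    (h : ∀ a b, A a b + A' a b ≤ 1) (h' : ∀ a b, B a b + B' a b ≤ 1) :
    ∀ a b, fsum A B a b + fsum A' B' a b ≤ 1 := by
  intro a b
  obtain ⟨x, rfl⟩ := finSumFinEquiv.surjective a
  obtain ⟨y, rfl⟩ := finSumFinEquiv.surjective b
  show dsum A B (finSumFinEquiv.symm (finSumFinEquiv x)) (finSumFinEquiv.symm (finSumFinEquiv y)) +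
    dsum A' B' (finSumFinEquiv.symm (finSumFinEquiv x)) (finSumFinEquiv.symm (finSumFinEquiv y)) ≤ 1
  rw [Equiv.symm_apply_apply, Equiv.symm_apply_apply]
  rcases x with x | x <;> rcases y with y | y
  · exact h x y
  · simp
  · simp
  · exact h' x y

theorem fsum_diag {n₁ n₂ : ℕ} {A : Fin n₁ → Fin n₁ → ℤ} {B : Fin n₂ → Fin n₂ → ℤ}
    (h : ∀ a, A a a = 0) (h' : ∀ a, B a a = 0) :
    ∀ a, fsum A B a a = 0 := by
  intro a
  obtain ⟨x, rfl⟩ := finSumFinEquiv.surjective a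
  show dsum A B (finSumFinEquiv.symm (finSumFinEquiv x)) (finSumFinEquiv.symm (finSumFinEquiv x)) = 0
  rw [Equiv.symm_apply_apply]
  rcases x with x | x
  · exact h x
  · exact h' x

theorem HasNe.add {d : ℤ} {n₁ n₂ : ℕ} (h₁ : HasNe d n₁) (h₂ : HasNe d n₂) : HasNe d (n₁ + n₂) := by
  obtain ⟨P, N, h1, h2, h3⟩ := h₁
  obtain ⟨P', N', h1', h2', h3'⟩ := h₂
  refine ⟨_, _, fsum_str h1 h1', fsum_inv h2 h2', fun a b => ⟨?_, ?_⟩⟩
  · exact fsum_forall (fun a b => (h3 a b).1) (fun a b => (h3' a b).1) a b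
  · exact fsum_diag (fun a => (h3 a a).2) (fun a => (h3' a a).2) a

theorem hasNe_zero (d : ℤ) : HasNe d 0 :=
  ⟨fun _ _ => 0, fun _ _ => 0, ⟨⟨fun a => a.elim0, fun a => a.elim0, fun a => a.elim0⟩,
    fun a => a.elim0, fun a => a.elim0, fun a => a.elim0, fun a => a.elim0⟩,
    ⟨fun a => a.elim0, fun a => a.elim0, fun a => a.elim0⟩, fun a => a.elim0⟩

theorem HasB.mul {d : ℤ} {n : ℕ} (h : HasB d n) (k : ℕ) : HasB d (k * n) := by
  induction k with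
  | zero => rw [Nat.zero_mul]; exact (hasNe_zero d).hasB
  | succ k ih => rw [Nat.succ_mul]; exact ih.add h

theorem HasNe.mul {d : ℤ} {n : ℕ} (h : HasNe d n) (k : ℕ) : HasNe d (k * n) := by
  induction k with
  | zero => rw [Nat.zero_mul]; exact hasNe_zero d
  | succ k ih => rw [Nat.succ_mul]; exact ih.add h

/-! products -/

theorem prod_label {n₁ n₂ : ℕ} (w : Fin (n₁ * n₂)) :
    (n₂ : ℤ) * vl (finProdFinEquiv.symm w).1 + vl (finProdFinEquiv.symm w).2 = vl w := by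
  obtain ⟨x, rfl⟩ := finProdFinEquiv.surjective w
  rw [Equiv.symm_apply_apply]
  simp only [vl, finProdFinEquiv_apply_val]
  push_cast
  ring

theorem HasB.prod {d₁ d₂ : ℤ} {n₁ n₂ : ℕ} (h₁ : HasB d₁ n₁) (h₂ : HasB d₂ n₂) :
    HasB (d₁ + d₂ + 1) (n₁ * n₂) := by
  obtain ⟨P, N, h1, h2⟩ := h₁
  obtain ⟨P', N', h1', h2'⟩ := h₂
  have h := tr_str finProdFinEquiv (prod_str h1 h1' h2 h2' n₂)
  have e : (fun w : Fin (n₁ * n₂) => (n₂ : ℤ) * vl (finProdFinEquiv.symm w).1 +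
      vl (finProdFinEquiv.symm w).2) = vl := by
    funext w; exact prod_label w
  rw [e] at h
  exact ⟨_, _, h, tr_inv _ (tens_inv h2 h2')⟩

theorem HasNe.prod {d₁ d₂ : ℤ} {n₁ n₂ : ℕ} (h₁ : HasB d₁ n₁) (h₂ : HasNe d₂ n₂) :
    HasNe (d₁ + d₂ + 1) (n₁ * n₂) := by
  obtain ⟨P, N, h1, h2⟩ := h₁
  obtain ⟨P', N', h1', h2', h3'⟩ := h₂
  have h := tr_str finProdFinEquiv (prod_str h1 h1' h2 h2' n₂)
  have e : (fun w : Fin (n₁ * n₂) => (n₂ : ℤ) * vl (finProdFinEquiv.symm w).1 +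
      vl (finProdFinEquiv.symm w).2) = vl := by
    funext w; exact prod_label w
  rw [e] at h
  refine ⟨_, _, h, tr_inv _ (tens_inv h2 h2'), fun a b => ⟨?_, ?_⟩⟩
  · show cart P P' (finProdFinEquiv.symm a) (finProdFinEquiv.symm b) +
      tens N N' (finProdFinEquiv.symm a) (finProdFinEquiv.symm b) ≤ 1
    generalize finProdFinEquiv.symm a = x
    generalize finProdFinEquiv.symm b = y
    have hc := (cart_isAdj h1.adj h1'.adj).le_one x y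
    have ht := (tens_inv h2 h2').zo x y
    rcases ht with ht | ht
    · rw [ht]; omega
    · have e1 : N' x.2 y.2 = 1 := by
        unfold tens at ht
        rcases h2'.zo x.2 y.2 with h | h
        · rw [h, mul_zero] at ht; norm_num at ht
        · exact h
      have e2 : x.2 ≠ y.2 := by
        intro h
        rw [h, (h3' y.2 y.2).2] at e1
        norm_num at e1
      have e3 : P' x.2 y.2 = 0 := by
        have := (h3' x.2 y.2).1
        have := h1'.adj.nonneg x.2 y.2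
        omega
      have : cart P P' x y = 0 := by
        unfold cart
        rw [if_neg e2, e3]
        simp
      rw [this, ht]; rfl
  · show tens N N' (finProdFinEquiv.symm a) (finProdFinEquiv.symm a) = 0
    unfold tens
    rw [(h3' (finProdFinEquiv.symm a).2 (finProdFinEquiv.symm a).2).2, mul_zero]

theorem id_inv (n : ℕ) : Inv (fun a b : Fin n => if a = b then (1 : ℤ) else 0) := by
  refine ⟨fun a b => ?_, fun a b => ?_, fun a => ?_⟩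
  · show (if a = b then (1 : ℤ) else 0) = 0 ∨ (if a = b then (1 : ℤ) else 0) = 1
    split_ifs <;> simp
  · show (if a = b then (1 : ℤ) else 0) = (if b = a then (1 : ℤ) else 0)
    simp only [eq_comm]
  · simp

theorem HasE.prod {d₁ d₂ : ℤ} {n₁ n₂ : ℕ} (h₁ : HasB d₁ n₁) (h₂ : HasE d₂ n₂) :
    HasE (d₁ + d₂ + 1) (n₁ * n₂) := by
  obtain ⟨P, N, h1, h2⟩ := h₁
  obtain ⟨P', μ₁, μ₂, h1', j₁, j₂⟩ := h₂
  have h := tr_str finProdFinEquiv (prod_str2 h1 h1' h2 j₁ j₂ n₂)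
  have e : (fun w : Fin (n₁ * n₂) => (n₂ : ℤ) * vl (finProdFinEquiv.symm w).1 +
      vl (finProdFinEquiv.symm w).2) = vl := by
    funext w; exact prod_label w
  rw [e] at h
  exact ⟨_, _, _, h, tr_inv _ (tens_inv h2 j₁), tr_inv _ (tens_inv (id_inv n₁) j₂)⟩

/-! numerical consequences -/

theorem hasB_1_4 : HasB 1 4 := ⟨P4, N4, str4, inv4⟩
theorem hasB_1_19 : HasB 1 19 := ⟨P19, N19, str19, inv19⟩
theorem hasNe_1_4 : HasNe 1 4 := ⟨P4, N4, str4, inv4, ne4⟩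
theorem hasNe_2_8 : HasNe 2 8 := ⟨P8, N8, str8, inv8, ne8⟩
theorem hasNe_2_18 : HasNe 2 18 := ⟨P18, N18, str18, inv18, ne18⟩
theorem hasE_0_9 : HasE 0 9 := ⟨P9, M9, M9', str9, inv9, inv9'⟩

/-- all large sizes, odd `d` -/
theorem hasB_large (e : ℕ) : ∀ n, 80 * 23 ^ e ≤ n + 4 → HasB (2 * e + 1) n := by
  induction e with
  | zero =>
    intro n hn
    obtain ⟨x, y, rfl⟩ : ∃ x y, n = x * 4 + y * 19 := by
      refine ⟨(n - (3 * n % 4) * 19) / 4, 3 * n % 4, ?_⟩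
      omega
    have := (hasB_1_4.mul x).add (hasB_1_19.mul y)
    simpa using this
  | succ e ih =>
    intro n hn
    obtain ⟨n₀, hn₀⟩ : ∃ n₀, n₀ + 4 = 80 * 23 ^ e := by
      have : 1 ≤ 23 ^ e := Nat.one_le_pow _ _ (by norm_num)
      exact ⟨80 * 23 ^ e - 4, by omega⟩
    have hn' : 4 * n₀ + 19 * (n₀ + 4) ≤ n := by
      rw [pow_succ] at hn
      omega
    obtain ⟨x, y, hx, hy, rfl⟩ : ∃ x y, n₀ ≤ x ∧ n₀ ≤ y ∧ n = 4 * x + 19 * y := by
      refine ⟨(n - (n₀ + (3 * n + 3 * n₀) % 4) * 19) / 4, n₀ + (3 * n + 3 * n₀) % 4, ?_, ?_, ?_⟩ <;> omega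
    have h1 := hasB_1_4.prod (ih x (by omega))
    have h2 := hasB_1_19.prod (ih y (by omega))
    have h3 := h1.add h2
    have e1 : (1 : ℤ) + (2 * (e : ℤ) + 1) + 1 = 2 * ((e + 1 : ℕ) : ℤ) + 1 := by push_cast; ring
    rw [e1] at h3
    exact h3

/-- all large even sizes, even `d ≥ 2`, without exceptional points -/
theorem hasNe_even (e : ℕ) : ∀ n, 40 * 23 ^ e ≤ n + 4 → HasNe (2 * e + 2) (2 * n) := by
  induction e with
  | zero =>
    intro n hn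
    obtain ⟨x, y, hxy⟩ : ∃ x y, 2 * n = x * 8 + y * 18 := by
      refine ⟨(n - (n % 4) * 9) / 4, n % 4, ?_⟩
      omega
    rw [hxy]
    have := (hasNe_2_8.mul x).add (hasNe_2_18.mul y)
    simpa using this
  | succ e ih =>
    intro n hn
    obtain ⟨n₀, hn₀⟩ : ∃ n₀, n₀ + 4 = 40 * 23 ^ e := by
      have : 1 ≤ 23 ^ e := Nat.one_le_pow _ _ (by norm_num)
      exact ⟨40 * 23 ^ e - 4, by omega⟩
    have hn' : 4 * n₀ + 19 * (n₀ + 4) ≤ n := by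
      rw [pow_succ] at hn
      omega
    obtain ⟨x, y, hx, hy, hn2⟩ : ∃ x y, n₀ ≤ x ∧ n₀ ≤ y ∧ 2 * n = 4 * (2 * x) + 19 * (2 * y) := by
      refine ⟨(n - (n₀ + (3 * n + 3 * n₀) % 4) * 19) / 4, n₀ + (3 * n + 3 * n₀) % 4, ?_, ?_, ?_⟩ <;> omega
    rw [hn2]
    have h1 := HasNe.prod hasB_1_4 (ih x (by omega))
    have h2 := HasNe.prod hasB_1_19 (ih y (by omega))
    have h3 := h1.add h2
    have e1 : (1 : ℤ) + (2 * (e : ℤ) + 2) + 1 = 2 * ((e + 1 : ℕ) : ℤ) + 2 := by push_cast; ring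
    rw [e1] at h3
    exact h3

end Pool.Agent.Helper48
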