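import Pool.Agent.Helper48.HcBasic

namespace Pool.Agent.Helper48

open Finset

variable {V : Type*} [Fintype V] [DecidableEq V]

theorem IsAdj.deg_nonneg {A : V → V → ℤ} (h : IsAdj A) (a : V) : 0 ≤ deg A a :=
  Finset.sum_nonneg (fun b _ => h.nonneg a b)

/-- adding one edge -/
theorem add_edge {F W : V → V → ℤ} (hF : IsAdj F) (hW : IsAdj W) (hFW : ∀ a b, F a b + W a b ≤ 1)
    {u v : V} (huv : u ≠ v) (h0 : F u v + W u v = 0) :
    IsAdj (fun a b => W a b + E u v a b) ∧ (∀ a b, F a b + (W a b + E u v a b) ≤ 1) ∧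
      ∀ a, deg (fun a b => W a b + E u v a b) a
        = deg W a + ((if a = u then 1 else 0) + (if a = v then 1 else 0)) := by
  have hFuv : F u v = 0 := by have := hF.nonneg u v; have := hW.nonneg u v; omega
  have hWuv : W u v = 0 := by have := hF.nonneg u v; have := hW.nonneg u v; omega
  have key : ∀ a b, E u v a b = 1 → F a b = 0 ∧ W a b = 0 := by
    intro a b h
    rcases E_eq_one.1 h with ⟨h1, h2⟩ | ⟨h1, h2⟩
    · subst h1; subst h2; exact ⟨hFuv, hWuv⟩
    · subst h1; subst h2
      rw [hF.symm, hW.symm]; exact ⟨hFuv, hWuv⟩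
  refine ⟨⟨?_, ?_, ?_⟩, ?_, ?_⟩
  · intro a b
    rcases E_zo u v a b with h | h
    · rw [h, add_zero]; exact hW.zo a b
    · rw [h, (key a b h).2]; right; norm_num
  · intro a b
    rw [hW.symm a b, E_symm]
  · intro a
    have : E u v a a = 0 := by
      rcases E_zo u v a a with h | h
      · exact h
      · rcases E_eq_one.1 h with ⟨h1, h2⟩ | ⟨h1, h2⟩
        · exact absurd (h1.symm.trans h2) huv
        · exact absurd (h2.symm.trans h1) huv
    rw [this, hW.diag]; rfl
  · intro a b
    rcases E_zo u v a b with h | h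
    · have := hFW a b; omega
    · have := key a b h; omega
  · intro a
    unfold deg
    rw [Finset.sum_add_distrib, sum_E u v huv]

/-- the switching operation -/
theorem switch_edge {F W : V → V → ℤ} (hF : IsAdj F) (hW : IsAdj W) (hFW : ∀ a b, F a b + W a b ≤ 1)
    {u v x y : V} (hxy : W x y = 1) (hux : x ≠ u) (hvy : y ≠ v)
    (h0 : F u x + W u x = 0) (h1 : F v y + W v y = 0) :
    ∃ W' : V → V → ℤ, IsAdj W' ∧ (∀ a b, F a b + W' a b ≤ 1) ∧
      ∀ a, deg W' a = deg W a + ((if a = u then 1 else 0) + (if a = v then 1 else 0)) := by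
  have hxne : x ≠ y := by
    intro h; subst h; rw [hW.diag] at hxy; norm_num at hxy
  have hFux : F u x = 0 := by have := hF.nonneg u x; have := hW.nonneg u x; omega
  have hWux : W u x = 0 := by have := hF.nonneg u x; have := hW.nonneg u x; omega
  have hFvy : F v y = 0 := by have := hF.nonneg v y; have := hW.nonneg v y; omega
  have hWvy : W v y = 0 := by have := hF.nonneg v y; have := hW.nonneg v y; omega
  have kxy : ∀ a b, E x y a b = 1 → F a b = 0 ∧ W a b = 1 := by
    intro a b h
    rcases E_eq_one.1 h with ⟨h1, h2⟩ | ⟨h1, h2⟩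
    · subst h1; subst h2
      have := hFW a b; have := hF.nonneg a b; constructor <;> omega
    · subst h1; subst h2
      have := hFW b a; have := hF.nonneg b a
      rw [hF.symm, hW.symm]
      constructor <;> omega
  have kux : ∀ a b, E u x a b = 1 → F a b = 0 ∧ W a b = 0 := by
    intro a b h
    rcases E_eq_one.1 h with ⟨h1, h2⟩ | ⟨h1, h2⟩
    · subst h1; subst h2; exact ⟨hFux, hWux⟩
    · subst h1; subst h2
      rw [hF.symm, hW.symm]; exact ⟨hFux, hWux⟩
  have kvy : ∀ a b, E v y a b = 1 → F a b = 0 ∧ W a b = 0 := by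
    intro a b h
    rcases E_eq_one.1 h with ⟨h1, h2⟩ | ⟨h1, h2⟩
    · subst h1; subst h2; exact ⟨hFvy, hWvy⟩
    · subst h1; subst h2
      rw [hF.symm, hW.symm]; exact ⟨hFvy, hWvy⟩
  have hexcl : ∀ a b, E u x a b = 1 → E v y a b = 1 → False := by
    intro a b ha hb
    rcases E_eq_one.1 ha with ⟨h1, h2⟩ | ⟨h1, h2⟩
    · rcases E_eq_one.1 hb with ⟨h3, h4⟩ | ⟨h3, h4⟩
      · exact hxne (h2.symm.trans h4)
      · -- a = u, b = x, a = y, b = v : u = y, x = v
        have e1 : u = y := h1.symm.trans h3
        rw [e1, hW.symm, hxy] at hWux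
        norm_num at hWux
    · rcases E_eq_one.1 hb with ⟨h3, h4⟩ | ⟨h3, h4⟩
      · -- a = x, b = u, a = v, b = y
        have e1 : u = y := h2.symm.trans h4
        rw [e1, hW.symm, hxy] at hWux
        norm_num at hWux
      · exact hxne (h1.symm.trans h3)
  refine ⟨fun a b => W a b - E x y a b + E u x a b + E v y a b, ⟨?_, ?_, ?_⟩, ?_, ?_⟩
  · intro a b
    show W a b - E x y a b + E u x a b + E v y a b = 0 ∨ W a b - E x y a b + E u x a b + E v y a b = 1
    rcases E_zo x y a b with h | h
    · rcases E_zo u x a b with h' | h'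
      · rcases E_zo v y a b with h'' | h''
        · rcases hW.zo a b with g | g <;> omega
        · have := kvy a b h''; omega
      · rcases E_zo v y a b with h'' | h''
        · have := kux a b h'; omega
        · exact absurd h'' (fun h'' => hexcl a b h' h'')
    · have h3 := kxy a b h
      rcases E_zo u x a b with h' | h'
      · rcases E_zo v y a b with h'' | h''
        · omega
        · have := kvy a b h''; omega
      · have := kux a b h'; omega
  · intro a b
    show W a b - E x y a b + E u x a b + E v y a b = W b a - E x y b a + E u x b a + E v y b a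
    rw [hW.symm a b, E_symm x y a b, E_symm u x a b, E_symm v y a b]
  · intro a
    show W a a - E x y a a + E u x a a + E v y a a = 0
    have e1 : E x y a a = 0 := by
      rcases E_zo x y a a with h | h
      · exact h
      · have := kxy a a h; have := hW.diag a; omega
    have e2 : E u x a a = 0 := by
      rcases E_zo u x a a with h | h
      · exact h
      · rcases E_eq_one.1 h with ⟨h1, h2⟩ | ⟨h1, h2⟩
        · exact absurd (h2.symm.trans h1) hux
        · exact absurd (h1.symm.trans h2) hux
    have e3 : E v y a a = 0 := by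
      rcases E_zo v y a a with h | h
      · exact h
      · rcases E_eq_one.1 h with ⟨h1, h2⟩ | ⟨h1, h2⟩
        · exact absurd (h2.symm.trans h1) hvy
        · exact absurd (h1.symm.trans h2) hvy
    rw [e1, e2, e3, hW.diag]; rfl
  · intro a b
    show F a b + (W a b - E x y a b + E u x a b + E v y a b) ≤ 1
    rcases E_zo x y a b with h | h
    · rcases E_zo u x a b with h' | h'
      · rcases E_zo v y a b with h'' | h''
        · have := hFW a b; omega
        · have := kvy a b h''; omega
      · rcases E_zo v y a b with h'' | h''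
        · have := kux a b h'; omega
        · exact absurd h'' (fun h'' => hexcl a b h' h'')
    · have h3 := kxy a b h
      rcases E_zo u x a b with h' | h'
      · rcases E_zo v y a b with h'' | h''
        · omega
        · have := kvy a b h''; omega
      · have := kux a b h'; omega
  · intro a
    unfold deg
    rw [Finset.sum_add_distrib, Finset.sum_add_distrib, Finset.sum_sub_distrib, sum_E x y hxne,
      sum_E u x hux.symm, sum_E v y hvy.symm]
    ring

theorem card_closed_nbhd {G : V → V → ℤ} (hG : IsAdj G) {D : ℤ} (hD : ∀ a, deg G a ≤ D) (u : V) :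
    ((univ.filter (fun x => x = u ∨ G u x = 1)).card : ℤ) ≤ D + 1 := by
  have h1 : univ.filter (fun x => x = u ∨ G u x = 1) ⊆ insert u (univ.filter (fun x => G u x = 1)) := by
    intro x hx
    simp only [mem_filter, mem_univ, true_and] at hx
    simp only [mem_insert, mem_filter, mem_univ, true_and]
    exact hx
  have h2 := (Finset.card_le_card h1).trans (Finset.card_insert_le _ _)
  have h3 := hD u
  rw [deg_eq_card hG] at h3
  have h4 : ((univ.filter (fun x => x = u ∨ G u x = 1)).card : ℤ)
      ≤ ((univ.filter (fun x => G u x = 1)).card : ℤ) + 1 := by exact_mod_cast h2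
  omega

theorem switch_step {F : V → V → ℤ} (hF : IsAdj F) {Δ ω Z : ℤ}
    (hΔ : ∀ a, deg F a ≤ Δ) {w : V → ℤ} (hw0 : ∀ a, 0 ≤ w a) (hwω : ∀ a, w a ≤ ω)
    (hZ : ((univ.filter (fun a => w a = 0)).card : ℤ) ≤ Z)
    (heven : Even (∑ a, w a))
    (hm : (Δ + ω + 1) * (ω + 2) + Z < Fintype.card V)
    {W : V → V → ℤ} (hW : IsAdj W) (hFW : ∀ a b, F a b + W a b ≤ 1) (hWw : ∀ a, deg W a ≤ w a)
    (hne : ∃ a, deg W a < w a) :
    ∃ W' : V → V → ℤ, IsAdj W' ∧ (∀ a b, F a b + W' a b ≤ 1) ∧ (∀ a, deg W' a ≤ w a) ∧
      ∑ a, deg W a < ∑ a, deg W' a := by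
  set G : V → V → ℤ := fun a b => F a b + W a b with hGdef
  have hG : IsAdj G := by
    refine ⟨fun a b => ?_, fun a b => ?_, fun a => ?_⟩
    · have := hFW a b; have := hF.nonneg a b; have := hW.nonneg a b
      show F a b + W a b = 0 ∨ F a b + W a b = 1
      omega
    · show F a b + W a b = F b a + W b a
      rw [hF.symm, hW.symm]
    · show F a a + W a a = 0
      rw [hF.diag, hW.diag]; rfl
  have hGdeg : ∀ a, deg G a ≤ Δ + ω := by
    intro a
    have : deg G a = deg F a + deg W a := by
      unfold deg; rw [← Finset.sum_add_distrib]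
    have h1 := hΔ a; have h2 := hWw a; have h3 := hwω a
    omega
  have final : ∀ (W' : V → V → ℤ) (u v : V), IsAdj W' → (∀ a b, F a b + W' a b ≤ 1) →
      (∀ a, deg W' a = deg W a + ((if a = u then 1 else 0) + (if a = v then 1 else 0))) →
      (∀ a, deg W a + ((if a = u then 1 else 0) + (if a = v then 1 else 0)) ≤ w a) →
      ∃ W' : V → V → ℤ, IsAdj W' ∧ (∀ a b, F a b + W' a b ≤ 1) ∧ (∀ a, deg W' a ≤ w a) ∧
      ∑ a, deg W a < ∑ a, deg W' a := by
    intro W' u v h1 h2 h3 h4
    refine ⟨W', h1, h2, fun a => by rw [h3]; exact h4 a, ?_⟩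
    rw [Finset.sum_congr rfl (fun a _ => h3 a), Finset.sum_add_distrib, Finset.sum_add_distrib]
    simp
  -- deficient set
  obtain ⟨u, hu⟩ := hne
  by_cases hc : ∃ a b, a ≠ b ∧ deg W a < w a ∧ deg W b < w b ∧ G a b = 0
  · obtain ⟨a, b, hab, ha, hb, hG0⟩ := hc
    obtain ⟨h1, h2, h3⟩ := add_edge hF hW hFW hab hG0
    refine final _ a b h1 h2 h3 ?_
    intro c
    by_cases hca : c = a
    · have hcb : c ≠ b := fun h => hab (hca.symm.trans h)
      rw [if_pos hca, if_neg hcb, hca]; omega
    · by_cases hcb : c = b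
      · rw [if_neg hca, if_pos hcb, hcb]; omega
      · rw [if_neg hca, if_neg hcb]; have := hWw c; omega
  · push Not at hc
    have hD : univ.filter (fun a => deg W a < w a) ⊆ univ.filter (fun x => x = u ∨ G u x = 1) := by
      intro a ha
      simp only [mem_filter, mem_univ, true_and] at ha ⊢
      by_cases hau : a = u
      · left; exact hau
      · right
        have := hc u a (fun h => hau h.symm) hu ha
        rcases hG.zo u a with h | h
        · exact absurd h this
        · exact h
    have hDcard : ((univ.filter (fun a => deg W a < w a)).card : ℤ) ≤ Δ + ω + 1 :=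
      le_trans (by exact_mod_cast Finset.card_le_card hD) (card_closed_nbhd hG hGdeg u)
    -- choose v
    obtain ⟨v, hv⟩ : ∃ v, ∀ a, deg W a + ((if a = u then 1 else 0) + (if a = v then 1 else 0)) ≤ w a := by
      by_cases h2 : ∃ v, v ≠ u ∧ deg W v < w v
      · obtain ⟨v, hvu, hv⟩ := h2
        refine ⟨v, fun c => ?_⟩
        by_cases hca : c = u
        · have hcb : c ≠ v := fun h => hvu (h.symm.trans hca)
          rw [if_pos hca, if_neg hcb, hca]; omega
        · by_cases hcb : c = v
          · rw [if_neg hca, if_pos hcb, hcb]; omega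
          · rw [if_neg hca, if_neg hcb]; have := hWw c; omega
      · push Not at h2
        refine ⟨u, fun c => ?_⟩
        have hsum : ∑ a, (w a - deg W a) = w u - deg W u := by
          apply Finset.sum_eq_single u
          · intro b _ hb
            have := h2 b hb; have := hWw b; omega
          · intro h; exact absurd (mem_univ u) h
        have hev : Even (∑ a, deg W a) :=
          even_sum_of_symm hW.symm (fun a => by rw [hW.diag]; exact Even.zero)
        have : Even (w u - deg W u) := by
          rw [← hsum, Finset.sum_sub_distrib]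
          exact heven.sub hev
        by_cases hca : c = u
        · rw [if_pos hca, hca]
          obtain ⟨k, hk⟩ := this
          omega
        · rw [if_neg hca]; have := hWw c; omega
    -- bad sets
    set B1 := univ.filter (fun x => x = u ∨ G u x = 1) with hB1
    set Nv := univ.filter (fun y => y = v ∨ G v y = 1) with hNv
    set B2 := Nv.biUnion (fun y => univ.filter (fun x => W y x = 1)) with hB2
    set B3 := univ.filter (fun a => w a = 0) with hB3
    set B4 := univ.filter (fun a => deg W a < w a) with hB4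
    have c1 : (B1.card : ℤ) ≤ Δ + ω + 1 := card_closed_nbhd hG hGdeg u
    have cN : (Nv.card : ℤ) ≤ Δ + ω + 1 := card_closed_nbhd hG hGdeg v
    have hω0 : 0 ≤ ω := (hw0 u).trans (hwω u)
    have c2 : (B2.card : ℤ) ≤ (Δ + ω + 1) * ω := by
      have h1 : (B2.card : ℤ) ≤ ∑ y ∈ Nv, ((univ.filter (fun x => W y x = 1)).card : ℤ) := by
        exact_mod_cast Finset.card_biUnion_le
      have h2 : ∑ y ∈ Nv, ((univ.filter (fun x => W y x = 1)).card : ℤ) ≤ ∑ y ∈ Nv, ω := by
        apply Finset.sum_le_sum
        intro y _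
        rw [← deg_eq_card hW]
        exact (hWw y).trans (hwω y)
      rw [Finset.sum_const, nsmul_eq_mul] at h2
      calc (B2.card : ℤ) ≤ (Nv.card : ℤ) * ω := h1.trans h2
        _ ≤ (Δ + ω + 1) * ω := mul_le_mul_of_nonneg_right cN hω0
    have hex : ∃ x, x ∉ B1 ∪ (B2 ∪ (B3 ∪ B4)) := by
      by_contra hcon
      push Not at hcon
      have : (univ : Finset V) ⊆ B1 ∪ (B2 ∪ (B3 ∪ B4)) := fun x _ => hcon x
      have h1 := Finset.card_le_card this
      rw [Finset.card_univ] at h1
      have h2 : (B1 ∪ (B2 ∪ (B3 ∪ B4))).card ≤ B1.card + (B2.card + (B3.card + B4.card)) :=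
        (Finset.card_union_le _ _).trans (Nat.add_le_add_left ((Finset.card_union_le _ _).trans
          (Nat.add_le_add_left (Finset.card_union_le _ _) _)) _)
      have h3 : (Fintype.card V : ℤ) ≤ B1.card + (B2.card + (B3.card + B4.card)) := by
        exact_mod_cast h1.trans h2
      nlinarith
    obtain ⟨x, hx⟩ := hex
    simp only [mem_union, not_or] at hx
    obtain ⟨hx1, hx2, hx3, hx4⟩ := hx
    simp only [hB1, mem_filter, mem_univ, true_and, not_or] at hx1
    simp only [hB3, mem_filter, mem_univ, true_and] at hx3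
    simp only [hB4, mem_filter, mem_univ, true_and, not_lt] at hx4
    have hdx : 1 ≤ deg W x := by have := hw0 x; omega
    obtain ⟨y, hy⟩ : ∃ y, W x y = 1 := by
      by_contra hcon
      push Not at hcon
      have : deg W x = 0 := by
        unfold deg
        apply Finset.sum_eq_zero
        intro y _
        rcases hW.zo x y with h | h
        · exact h
        · exact absurd h (hcon y)
      omega
    have hyv : ¬ (y = v ∨ G v y = 1) := by
      intro h
      apply hx2
      rw [hB2, mem_biUnion]
      refine ⟨y, ?_, ?_⟩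
      · rw [hNv, mem_filter]; exact ⟨mem_univ _, h⟩
      · rw [mem_filter]; refine ⟨mem_univ _, ?_⟩
        rw [hW.symm]; exact hy
    push Not at hyv
    have h0 : F u x + W u x = 0 := by
      rcases hG.zo u x with h | h
      · exact h
      · exact absurd h hx1.2
    have h1 : F v y + W v y = 0 := by
      rcases hG.zo v y with h | h
      · exact h
      · exact absurd h hyv.2
    obtain ⟨W', g1, g2, g3⟩ := switch_edge hF hW hFW hy hx1.1 hyv.1 h0 h1
    exact final W' u v g1 g2 g3 hv

/-- existence of graphs with prescribed bounded degrees avoiding a bounded degree graph -/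
theorem exists_deg_small {F : V → V → ℤ} (hF : IsAdj F) {Δ ω Z : ℤ}
    (hΔ : ∀ a, deg F a ≤ Δ) {w : V → ℤ} (hw0 : ∀ a, 0 ≤ w a) (hwω : ∀ a, w a ≤ ω)
    (hZ : ((univ.filter (fun a => w a = 0)).card : ℤ) ≤ Z)
    (heven : Even (∑ a, w a))
    (hm : (Δ + ω + 1) * (ω + 2) + Z < Fintype.card V) :
    ∃ W : V → V → ℤ, IsAdj W ∧ (∀ a b, F a b + W a b ≤ 1) ∧ (∀ a, deg W a = w a) := by
  have key : ∀ n : ℕ, ∀ W : V → V → ℤ, IsAdj W → (∀ a b, F a b + W a b ≤ 1) → (∀ a, deg W a ≤ w a) →
      ∑ a, w a - ∑ a, deg W a ≤ n →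
      ∃ W : V → V → ℤ, IsAdj W ∧ (∀ a b, F a b + W a b ≤ 1) ∧ (∀ a, deg W a = w a) := by
    intro n
    induction n with
    | zero =>
      intro W h1 h2 h3 h4
      refine ⟨W, h1, h2, ?_⟩
      have h5 : ∑ a, (w a - deg W a) = 0 := by
        rw [Finset.sum_sub_distrib]
        have : 0 ≤ ∑ a, (w a - deg W a) := Finset.sum_nonneg (fun a _ => by have := h3 a; omega)
        rw [Finset.sum_sub_distrib] at this
        push_cast at h4
        omega
      rw [Finset.sum_eq_zero_iff_of_nonneg (fun a _ => by have := h3 a; omega)] at h5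
      intro a
      have := h5 a (mem_univ a)
      omega
    | succ n ih =>
      intro W h1 h2 h3 h4
      by_cases hne : ∃ a, deg W a < w a
      · obtain ⟨W', g1, g2, g3, g4⟩ := switch_step hF hΔ hw0 hwω hZ heven hm h1 h2 h3 hne
        apply ih W' g1 g2 g3
        push_cast at h4
        omega
      · push Not at hne
        exact ⟨W, h1, h2, fun a => le_antisymm (h3 a) (hne a)⟩
  have hdeg0 : ∀ a : V, deg (fun _ _ : V => (0 : ℤ)) a = 0 := fun a => by simp [deg]
  refine key (∑ a, w a).toNat (fun _ _ => 0) ⟨fun _ _ => Or.inl rfl, fun _ _ => rfl, fun _ => rfl⟩ ?_ ?_ ?_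
  · intro a b
    have := hF.le_one a b
    simpa using this
  · intro a
    rw [hdeg0]; exact hw0 a
  · simp only [hdeg0]
    have : 0 ≤ ∑ a, w a := Finset.sum_nonneg (fun a _ => hw0 a)
    simp [Int.toNat_of_nonneg this]

end Pool.Agent.Helper48
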