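import Pool.Agent.Helper48.HcBlock

namespace Pool.Agent.Helper48

open Finset

/-- matrix of a list of bit masks -/
def mk (l : List ℕ) (n : ℕ) : Fin n → Fin n → ℤ :=
  fun a b => if Nat.testBit (l.getD a.val 0) b.val then 1 else 0

def P4 : Fin 4 → Fin 4 → ℤ := mk [6, 9, 9, 6] 4
def N4 : Fin 4 → Fin 4 → ℤ := mk [8, 4, 2, 1] 4
def P19 : Fin 19 → Fin 19 → ℤ := mk [8194, 131073, 16416, 640, 65600, 262148, 272, 2056, 1088, 32776, 4352, 32896, 17408, 65537, 4100, 2560, 8208, 262146, 131104] 19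
def N19 : Fin 19 → Fin 19 → ℤ := mk [16384, 65536, 131072, 8192, 262144, 32768, 64, 128, 256, 512, 1024, 2048, 4096, 8, 1, 32, 2, 4, 16] 19
def P8 : Fin 8 → Fin 8 → ℤ := mk [22, 41, 73, 134, 97, 146, 148, 104] 8
def N8 : Fin 8 → Fin 8 → ℤ := mk [128, 64, 32, 16, 8, 4, 2, 1] 8
def P18 : Fin 18 → Fin 18 → ℤ := mk [70, 41, 2177, 530, 8456, 16450, 289, 66052, 592, 392, 22528, 33796, 74752, 135184, 33824, 149504, 135296, 106496] 18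
def N18 : Fin 18 → Fin 18 → ℤ := mk [512, 64, 16384, 256, 65536, 2048, 2, 8192, 8, 1, 131072, 32, 32768, 128, 4, 4096, 16, 1024] 18
def P9 : Fin 9 → Fin 9 → ℤ := mk [24, 132, 34, 257, 257, 68, 160, 66, 24] 9
def M9 : Fin 9 → Fin 9 → ℤ := mk [128, 256, 4, 32, 64, 8, 16, 1, 2] 9
def M9' : Fin 9 → Fin 9 → ℤ := mk [1, 2, 16, 8, 4, 32, 256, 128, 64] 9

theorem str4 : Str 1 (fun a : Fin 4 => (a : ℤ)) P4 N4 := by
  refine ⟨⟨?_, ?_, ?_⟩, ?_, ?_, ?_, ?_⟩ <;> decide +kernel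

theorem inv4 : Inv N4 := by
  refine ⟨?_, ?_, ?_⟩ <;> decide +kernel

theorem ne4 : ∀ a b, P4 a b + N4 a b ≤ 1 ∧ N4 a a = 0 := by decide +kernel

theorem str19 : Str 1 (fun a : Fin 19 => (a : ℤ)) P19 N19 := by
  refine ⟨⟨?_, ?_, ?_⟩, ?_, ?_, ?_, ?_⟩ <;> decide +kernel

theorem inv19 : Inv N19 := by
  refine ⟨?_, ?_, ?_⟩ <;> decide +kernel

theorem str8 : Str 2 (fun a : Fin 8 => (a : ℤ)) P8 N8 := by
  refine ⟨⟨?_, ?_, ?_⟩, ?_, ?_, ?_, ?_⟩ <;> decide +kernel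

theorem inv8 : Inv N8 := by
  refine ⟨?_, ?_, ?_⟩ <;> decide +kernel

theorem ne8 : ∀ a b, P8 a b + N8 a b ≤ 1 ∧ N8 a a = 0 := by decide +kernel

theorem str18 : Str 2 (fun a : Fin 18 => (a : ℤ)) P18 N18 := by
  refine ⟨⟨?_, ?_, ?_⟩, ?_, ?_, ?_, ?_⟩ <;> decide +kernel

theorem inv18 : Inv N18 := by
  refine ⟨?_, ?_, ?_⟩ <;> decide +kernel

theorem ne18 : ∀ a b, P18 a b + N18 a b ≤ 1 ∧ N18 a a = 0 := by decide +kernel

theorem str9 : Str 0 (fun a : Fin 9 => (a : ℤ)) P9 (fun a b => M9 a b + M9' a b) := by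
  refine ⟨⟨?_, ?_, ?_⟩, ?_, ?_, ?_, ?_⟩ <;> decide +kernel

theorem inv9 : Inv M9 := by
  refine ⟨?_, ?_, ?_⟩ <;> decide +kernel

theorem inv9' : Inv M9' := by
  refine ⟨?_, ?_, ?_⟩ <;> decide +kernel

end Pool.Agent.Helper48
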