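import Mathlib

/-!
Linear algebra and perturbation basics for orthogonal representations of graphs.
-/

open scoped RealInnerProductSpace Topology
open Filter

namespace MrGC

variable {V : Type*} [Fintype V] [DecidableEq V]
variable {E : Type*} [NormedAddCommGroup E] [InnerProductSpace ℝ E]

/-- span of the vectors attached to the vertices in `S` -/
def sp (x : V → E) (S : Finset V) : Submodule ℝ E := Submodule.span ℝ (x '' (S : Set V))

/-- the vectors attached to the vertices in `S` are linearly independent -/
def Ind (x : V → E) (S : Finset V) : Prop := LinearIndepOn ℝ x (S : Set V)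

omit [Fintype V] [DecidableEq V] in
lemma mem_sp {x : V → E} {S : Finset V} {v : V} (hv : v ∈ S) : x v ∈ sp x S :=
  Submodule.subset_span ⟨v, hv, rfl⟩

omit [Fintype V] [DecidableEq V] in
lemma sp_mono {x : V → E} {S T : Finset V} (h : S ⊆ T) : sp x S ≤ sp x T :=
  Submodule.span_mono (Set.image_mono (by exact_mod_cast h))

omit [Fintype V] [DecidableEq V] in
lemma Ind.mono {x : V → E} {S T : Finset V} (hT : Ind x T) (h : S ⊆ T) : Ind x S :=
  LinearIndepOn.mono hT (by exact_mod_cast h)

omit [Fintype V] [DecidableEq V] in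
lemma mem_sp_orth {x : V → E} {S : Finset V} {u : E} :
    u ∈ (sp x S)ᗮ ↔ ∀ s ∈ S, ⟪x s, u⟫ = 0 := by
  rw [Submodule.mem_orthogonal]
  constructor
  · intro h s hs
    exact h _ (mem_sp hs)
  · intro h w hw
    unfold sp at hw
    induction hw using Submodule.span_induction with
    | mem w hw =>
      obtain ⟨s, hs, rfl⟩ := hw
      exact h s hs
    | zero => simp
    | add a b _ _ ha hb => rw [inner_add_left, ha, hb, add_zero]
    | smul c a _ ha => rw [inner_smul_left, ha, mul_zero]

omit [Fintype V] [DecidableEq V] in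
lemma sp_empty (x : V → E) : sp x ∅ = ⊥ := by
  unfold sp; simp

omit [Fintype V] [DecidableEq V] in
lemma sp_congr {x x' : V → E} {S : Finset V} (h : ∀ s ∈ S, x s = x' s) : sp x S = sp x' S := by
  unfold sp
  congr 1
  exact Set.image_congr (by intro a ha; exact h a (by exact_mod_cast ha))

omit [Fintype V] [DecidableEq V] in
lemma ind_congr {x x' : V → E} {S : Finset V} (h : ∀ s ∈ S, x s = x' s) (hi : Ind x S) :
    Ind x' S := by
  unfold Ind at *
  exact (linearIndepOn_congr (fun a ha => h a (by exact_mod_cast ha))).1 hi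

omit [Fintype V] in
lemma sp_insert (x : V → E) (v : V) (S : Finset V) :
    sp x (insert v S) = Submodule.span ℝ {x v} ⊔ sp x S := by
  unfold sp
  rw [Finset.coe_insert, Set.image_insert_eq, Submodule.span_insert]

omit [Fintype V] in
lemma sp_union (x : V → E) (S T : Finset V) :
    sp x (S ∪ T) = sp x S ⊔ sp x T := by
  unfold sp
  rw [Finset.coe_union, Set.image_union, Submodule.span_union]

omit [Fintype V] in
lemma ind_insert {x : V → E} {v : V} {S : Finset V} (hS : Ind x S) (hv : x v ∉ sp x S) :
    Ind x (insert v S) := by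
  unfold Ind at *
  rw [Finset.coe_insert]
  exact LinearIndepOn.insert hS hv

omit [Fintype V] in
lemma Ind.notMem {x : V → E} {v : V} {S : Finset V} (h : Ind x (insert v S)) (hv : v ∉ S) :
    x v ∉ sp x S := by
  unfold Ind at h
  rw [Finset.coe_insert] at h
  exact ((linearIndepOn_insert (by exact_mod_cast hv)).1 h).2

omit [Fintype V] [DecidableEq V] in
lemma ind_empty (x : V → E) : Ind x ∅ := by
  unfold Ind
  simpa using linearIndepOn_empty ℝ x

omit [Fintype V] [DecidableEq V] in
lemma finrank_sp_le (x : V → E) (S : Finset V) : Module.finrank ℝ (sp x S) ≤ S.card := by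
  classical
  unfold sp
  have := finrank_span_finset_le_card (R := ℝ) (S.image x)
  rw [Finset.coe_image] at this
  exact this.trans Finset.card_image_le

omit [Fintype V] [DecidableEq V] in
lemma finrank_sp {x : V → E} {S : Finset V} (h : Ind x S) :
    Module.finrank ℝ (sp x S) = S.card := by
  have h1 : LinearIndependent ℝ (fun s : S => x s) := h
  have := finrank_span_eq_card h1
  unfold sp
  rw [Set.image_eq_range]
  simpa using this

omit [Fintype V] [DecidableEq V] in
lemma ind_of_finrank {x : V → E} {S : Finset V} (h : S.card ≤ Module.finrank ℝ (sp x S)) :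
    Ind x S := by
  have : LinearIndependent ℝ (fun s : S => x s) := by
    rw [linearIndependent_iff_card_le_finrank_span]
    unfold sp at h
    rw [Set.image_eq_range] at h
    simpa [Set.finrank] using h
  exact this

/-- finite-dimensional duality: `U ≤ W` iff `Wᗮ ≤ Uᗮ`. -/
lemma orth_le_orth_iff [FiniteDimensional ℝ E] {U W : Submodule ℝ E} : Uᗮ ≤ Wᗮ ↔ W ≤ U :=
  ⟨fun h => by
    have := Submodule.orthogonal_le h
    rwa [Submodule.orthogonal_orthogonal, Submodule.orthogonal_orthogonal] at this,
   fun h => Submodule.orthogonal_le h⟩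

lemma orth_le_iff [FiniteDimensional ℝ E] {U W : Submodule ℝ E} : Uᗮ ≤ W ↔ Wᗮ ≤ U := by
  constructor
  · intro h
    have := Submodule.orthogonal_le h
    rwa [Submodule.orthogonal_orthogonal] at this
  · intro h
    have := Submodule.orthogonal_le h
    rwa [Submodule.orthogonal_orthogonal] at this

omit [Fintype V] [DecidableEq V] in
/-- If `N ⊆ S` and `|S| < dim E` then the orthogonal complement of `N` is not inside `span S`. -/
lemma not_orth_le_sp [FiniteDimensional ℝ E] {x : V → E} {N S : Finset V} (h : N ⊆ S)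
    (hS : S.card < Module.finrank ℝ E) : ¬ (sp x N)ᗮ ≤ sp x S := by
  intro hle
  have h1 : (sp x S)ᗮ ≤ sp x S := (Submodule.orthogonal_le (sp_mono h)).trans hle
  have h2 : (sp x S)ᗮ = ⊥ := by
    rw [eq_bot_iff]
    intro u hu
    have := Submodule.inner_right_of_mem_orthogonal (h1 hu) hu
    rw [inner_self_eq_zero] at this
    simpa using this
  rw [Submodule.orthogonal_eq_bot_iff] at h2
  have h3 := finrank_sp_le x S
  rw [h2, finrank_top] at h3
  omega

/-- avoiding finitely many subspaces -/
lemma exists_avoid {ι : Type*} (s : Finset ι) (U : Submodule ℝ E) (W : ι → Submodule ℝ E)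
    (h : ∀ i ∈ s, ¬ U ≤ W i) : ∃ u ∈ U, ∀ i ∈ s, u ∉ W i := by
  classical
  by_contra hcon
  push Not at hcon
  let p : ι → Submodule ℝ U := fun i => (W i).comap U.subtype
  have hcov : ⋃ q ∈ s.image p, (q : Set U) = Set.univ := by
    ext ⟨u, hu⟩
    simp only [Set.mem_iUnion, Finset.mem_image, Set.mem_univ, iff_true]
    obtain ⟨i, hi, hui⟩ := hcon u hu
    exact ⟨p i, ⟨i, hi, rfl⟩, by simpa [p] using hui⟩
  have := Subspace.top_mem_of_biUnion_eq_univ hcov
  rw [Finset.mem_image] at this
  obtain ⟨i, hi, hpi⟩ := this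
  apply h i hi
  intro u hu
  have : (⟨u, hu⟩ : U) ∈ p i := by rw [hpi]; trivial
  simpa [p] using this

omit [DecidableEq V] in
lemma ind_eventually [FiniteDimensional ℝ E] {x0 : V → E} {S : Finset V} (h : Ind x0 S) :
    ∀ᶠ x in 𝓝 x0, Ind x S := by
  have h1 : LinearIndependent ℝ (fun s : (S : Set V) => x0 s) := h
  have h2 := h1.eventually
  have h3 : Tendsto (fun (x : V → E) (s : (S : Set V)) => x s) (𝓝 x0)
      (𝓝 (fun s : (S : Set V) => x0 s)) := by
    apply Continuous.tendsto
    fun_prop
  exact h3.eventually h2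

omit [DecidableEq V] in
lemma inner_ne_eventually {x0 : V → E} {u v : V} (h : ⟪x0 u, x0 v⟫ ≠ 0) :
    ∀ᶠ x in 𝓝 x0, ⟪x u, x v⟫ ≠ 0 := by
  have : Continuous (fun x : V → E => ⟪x u, x v⟫) := by fun_prop
  exact this.continuousAt.eventually_ne h

/-- lifting lemma: a vector orthogonal to an independent family can be followed continuously. -/
lemma exists_lift [FiniteDimensional ℝ E] {x0 : V → E} {N : Finset V} (hN : Ind x0 N) {w : E}
    (hw : w ∈ (sp x0 N)ᗮ) :
    ∃ L : (V → E) → E, Tendsto L (𝓝 x0) (𝓝 w) ∧ L x0 = w ∧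
      (∀ᶠ x in 𝓝 x0, L x ∈ (sp x N)ᗮ) ∧
      (∀ x x' : V → E, (∀ j ∈ N, x j = x' j) → L x = L x') := by
  classical
  let G : (V → E) → Matrix N N ℝ := fun x => Matrix.gram ℝ (fun i : N => x i)
  let rhs : (V → E) → N → ℝ := fun x i => ⟪x i, w⟫
  let c : (V → E) → N → ℝ := fun x => ((G x).det)⁻¹ • ((G x).adjugate.mulVec (rhs x))
  let L : (V → E) → E := fun x => w - ∑ i : N, c x i • x i
  have hdet0 : (G x0).det ≠ 0 := by
    have h1 : LinearIndependent ℝ (fun s : N => x0 s) := hN
    exact Matrix.det_gram_ne_zero_iff_linearIndependent.2 h1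
  have hGc : Continuous G := by
    apply continuous_matrix
    intro i j
    simp only [G, Matrix.gram_apply]
    fun_prop
  have hrc : Continuous rhs := by
    apply continuous_pi
    intro i
    simp only [rhs]
    fun_prop
  have hcc : ContinuousAt c x0 := by
    have h1 : ContinuousAt (fun x => ((G x).det)⁻¹) x0 :=
      (hGc.matrix_det.continuousAt).inv₀ hdet0
    have h2 : ContinuousAt (fun x => (G x).adjugate.mulVec (rhs x)) x0 :=
      (hGc.matrix_adjugate.matrix_mulVec hrc).continuousAt
    exact h1.smul h2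
  have hLc : ContinuousAt L x0 := by
    apply ContinuousAt.sub continuousAt_const
    apply tendsto_finsetSum
    intro i _
    apply Filter.Tendsto.smul
    · exact (continuousAt_pi.1 hcc i)
    · exact (continuous_apply (i : V)).continuousAt
  have hrhs0 : rhs x0 = 0 := by
    ext i
    exact mem_sp_orth.1 hw i i.2
  have hc0 : c x0 = 0 := by
    simp only [c, hrhs0, Matrix.mulVec_zero, smul_zero]
  have hL0 : L x0 = w := by
    simp [L, hc0]
  refine ⟨L, ?_, hL0, ?_, ?_⟩
  · have := hLc.tendsto
    rwa [hL0] at this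
  · have hev : ∀ᶠ x in 𝓝 x0, (G x).det ≠ 0 := hGc.matrix_det.continuousAt.eventually_ne hdet0
    filter_upwards [hev] with x hx
    rw [mem_sp_orth]
    intro s hs
    simp only [L, inner_sub_right, inner_sum, inner_smul_right]
    have h1 : ∑ i : N, c x i * ⟪x s, x i⟫ = ((G x).mulVec (c x)) ⟨s, hs⟩ := by
      simp only [Matrix.mulVec, dotProduct, G, Matrix.gram_apply]
      apply Finset.sum_congr rfl
      intro i _
      ring
    rw [h1]
    have h2 : (G x).mulVec (c x) = rhs x := by
      simp only [c]
      rw [Matrix.mulVec_smul, Matrix.mulVec_mulVec, Matrix.mul_adjugate, Matrix.smul_mulVec,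
        Matrix.one_mulVec, smul_smul, inv_mul_cancel₀ hx, one_smul]
    rw [h2]
    simp [rhs]
  · intro x x' h
    have hG : G x = G x' := by
      ext i j
      simp only [G, Matrix.gram_apply]
      rw [h i i.2, h j j.2]
    have hr : rhs x = rhs x' := by
      ext i
      simp only [rhs]
      rw [h i i.2]
    have hc : c x = c x' := by simp only [c, hG, hr]
    simp only [L, hc]
    congr 1
    apply Finset.sum_congr rfl
    intro i _
    rw [h i i.2]


omit [DecidableEq V] in
lemma li_eventually {F : Type*} [NormedAddCommGroup F] [NormedSpace ℝ F]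
    {g0 : V → F} {S : Set V} (h : LinearIndepOn ℝ g0 S) :
    ∀ᶠ g in 𝓝 g0, LinearIndepOn ℝ g S := by
  have h1 : LinearIndependent ℝ (fun s : S => g0 s) := h
  have h2 := h1.eventually
  have h3 : Tendsto (fun (x : V → F) (s : S) => x s) (𝓝 g0) (𝓝 (fun s : S => g0 s)) := by
    apply Continuous.tendsto
    fun_prop
  exact h3.eventually h2

/-- dimension of `span J ∩ Kᗮ` -/
noncomputable def yd (x : V → E) (J K : Finset V) : ℕ :=
  Module.finrank ℝ (sp x J ⊓ (sp x K)ᗮ : Submodule ℝ E)

omit [Fintype V] [DecidableEq V] in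
lemma yd_congr {x x' : V → E} {J K : Finset V} (hJ : ∀ s ∈ J, x s = x' s)
    (hK : ∀ s ∈ K, x s = x' s) : yd x J K = yd x' J K := by
  unfold yd
  rw [sp_congr hJ, sp_congr hK]

lemma finrank_inf_orth [FiniteDimensional ℝ E] (U W : Submodule ℝ E) :
    Module.finrank ℝ (U ⊓ Wᗮ : Submodule ℝ E) + Module.finrank ℝ W =
      Module.finrank ℝ (W ⊓ Uᗮ : Submodule ℝ E) + Module.finrank ℝ U := by
  have h1 : (U ⊓ Wᗮ : Submodule ℝ E) = (Uᗮ ⊔ W)ᗮ := by
    rw [← Submodule.inf_orthogonal, Submodule.orthogonal_orthogonal]
  have h2 := Submodule.finrank_add_finrank_orthogonal (Uᗮ ⊔ W)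
  have h3 := Submodule.finrank_sup_add_finrank_inf_eq Uᗮ W
  have h4 := Submodule.finrank_add_finrank_orthogonal U
  rw [← h1] at h2
  rw [inf_comm] at h3
  omega

omit [Fintype V] [DecidableEq V] in
lemma yd_symm [FiniteDimensional ℝ E] {x : V → E} {J K : Finset V} (hJ : Ind x J)
    (hK : Ind x K) : yd x J K + K.card = yd x K J + J.card := by
  have := finrank_inf_orth (sp x J) (sp x K)
  rw [finrank_sp hJ, finrank_sp hK] at this
  exact this

lemma finrank_map_add {F : Type*} [AddCommGroup F] [Module ℝ F] [FiniteDimensional ℝ E]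
    (T : E →ₗ[ℝ] F) (U : Submodule ℝ E) :
    Module.finrank ℝ (U.map T) + Module.finrank ℝ (U ⊓ LinearMap.ker T : Submodule ℝ E) =
      Module.finrank ℝ U := by
  have h := LinearMap.finrank_range_add_finrank_ker (T.domRestrict U)
  have h1 : LinearMap.range (T.domRestrict U) = U.map T := by
    ext y
    simp [LinearMap.mem_range, Submodule.mem_map]
  have h2 : Submodule.map U.subtype (LinearMap.ker (T.domRestrict U)) =
      U ⊓ LinearMap.ker T := by
    ext y
    simp only [Submodule.mem_map, LinearMap.mem_ker, Submodule.mem_inf, Submodule.subtype_apply,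
      Subtype.exists, LinearMap.domRestrict_apply]
    constructor
    · rintro ⟨a, ha, h, rfl⟩
      exact ⟨ha, h⟩
    · rintro ⟨ha, h⟩
      exact ⟨y, ha, h, rfl⟩
  have h3 := Submodule.finrank_map_subtype_eq U (LinearMap.ker (T.domRestrict U))
  rw [h2] at h3
  rw [h1] at h
  omega

omit [DecidableEq V] in
/-- upper semicontinuity of `dim (span J ∩ Kᗮ)` at a point where `J` is independent -/
lemma yd_usc [FiniteDimensional ℝ E] {x0 : V → E} {J K : Finset V} (hJ : Ind x0 J) :
    ∀ᶠ x in 𝓝 x0, yd x J K ≤ yd x0 J K := by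
  classical
  let T : (V → E) → E →ₗ[ℝ] (K → ℝ) := fun x =>
    { toFun := fun u k => ⟪x k, u⟫
      map_add' := by intro u w; ext k; simp [inner_add_right]
      map_smul' := by intro c u; ext k; simp [inner_smul_right] }
  have hker : ∀ x, LinearMap.ker (T x) = (sp x K)ᗮ := by
    intro x
    ext u
    rw [LinearMap.mem_ker, mem_sp_orth]
    constructor
    · intro h s hs
      exact congrFun h ⟨s, hs⟩
    · intro h
      ext k
      exact h k k.2
  let g : (V → E) → V → (K → ℝ) := fun x v k => ⟪x k, x v⟫
  have hgc : Continuous g := by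
    apply continuous_pi; intro v
    apply continuous_pi; intro k
    simp only [g]
    fun_prop
  have hmap : ∀ x, (sp x J).map (T x) = Submodule.span ℝ (g x '' (J : Set V)) := by
    intro x
    unfold sp
    rw [Submodule.map_span]
    congr 1
    ext y
    simp only [Set.mem_image, exists_exists_and_eq_and]
    rfl
  have hdim : ∀ x, Module.finrank ℝ (Submodule.span ℝ (g x '' (J : Set V))) + yd x J K =
      Module.finrank ℝ (sp x J) := by
    intro x
    have := finrank_map_add (T x) (sp x J)
    rw [hmap, hker] at this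
    exact this
  obtain ⟨b, hbJ, -, hspan, hb⟩ := exists_linearIndepOn_extension
    (linearIndepOn_empty ℝ (g x0)) (Set.empty_subset (J : Set V))
  have hbfin : b.Finite := (Finset.finite_toSet J).subset hbJ
  have hr0 : Module.finrank ℝ (Submodule.span ℝ (g x0 '' (J : Set V))) ≤ hbfin.toFinset.card := by
    have h1 : Submodule.span ℝ (g x0 '' (J : Set V)) ≤ Submodule.span ℝ (g x0 '' b) :=
      Submodule.span_le.2 hspan
    have h2 := Submodule.finrank_mono h1
    have h3 := finrank_span_finset_le_card (R := ℝ) (hbfin.toFinset.image (g x0))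
    rw [Finset.coe_image, Set.Finite.coe_toFinset] at h3
    exact h2.trans (h3.trans Finset.card_image_le)
  have hev := (hgc.tendsto x0).eventually (li_eventually hb)
  filter_upwards [hev, ind_eventually hJ] with x hx hxJ
  have h1 : hbfin.toFinset.card ≤ Module.finrank ℝ (Submodule.span ℝ (g x '' (J : Set V))) := by
    have h2 : Submodule.span ℝ (g x '' b) ≤ Submodule.span ℝ (g x '' (J : Set V)) :=
      Submodule.span_mono (Set.image_mono hbJ)
    have h3 := Submodule.finrank_mono h2
    have h4 : Module.finrank ℝ (Submodule.span ℝ (g x '' b)) = hbfin.toFinset.card := by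
      have h5 : LinearIndependent ℝ (fun s : b => g x s) := hx
      haveI : Fintype b := hbfin.fintype
      have := finrank_span_eq_card h5
      rw [Set.image_eq_range]
      rw [this, Set.Finite.card_toFinset]
    omega
  have h2 := hdim x
  have h3 := hdim x0
  rw [finrank_sp hxJ] at h2
  rw [finrank_sp hJ] at h3
  omega

omit [Fintype V] in
lemma sp_inf_sp [FiniteDimensional ℝ E] {x : V → E} {N A B : Finset V} (hN : Ind x N)
    (hA : A ⊆ N) (hB : B ⊆ N) : sp x A ⊓ sp x B = sp x (A ∩ B) := by
  symm
  apply Submodule.eq_of_le_of_finrank_le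
  · exact le_inf (sp_mono Finset.inter_subset_left) (sp_mono Finset.inter_subset_right)
  · have h1 := Submodule.finrank_sup_add_finrank_inf_eq (sp x A) (sp x B)
    rw [← sp_union, finrank_sp (hN.mono (Finset.union_subset hA hB)), finrank_sp (hN.mono hA),
      finrank_sp (hN.mono hB)] at h1
    rw [finrank_sp (hN.mono (Finset.inter_subset_left.trans hA))]
    have h2 := Finset.card_union_add_card_inter A B
    omega

omit [Fintype V] in
lemma mem_sp_sdiff [FiniteDimensional ℝ E] {x : V → E} {N : Finset V} (hN : Ind x N)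
    {u : E} (hu : u ∈ sp x N) (Q : Finset V) (h : ∀ q ∈ Q, q ∈ N → u ∈ sp x (N.erase q)) :
    u ∈ sp x (N \ Q) := by
  induction Q using Finset.induction_on with
  | empty => simpa using hu
  | insert q Q hq ih =>
    have h1 := ih (fun q' hq' hqN => h q' (Finset.mem_insert_of_mem hq') hqN)
    by_cases hqN : q ∈ N
    · have h2 := h q (Finset.mem_insert_self q Q) hqN
      have h3 : u ∈ sp x (N \ Q) ⊓ sp x (N.erase q) := ⟨h1, h2⟩
      rw [sp_inf_sp hN Finset.sdiff_subset (Finset.erase_subset _ _)] at h3
      apply sp_mono _ h3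
      intro a ha
      simp only [Finset.mem_inter, Finset.mem_sdiff, Finset.mem_erase, Finset.mem_insert] at ha ⊢
      tauto
    · have : N \ insert q Q = N \ Q := by
        ext a
        simp only [Finset.mem_sdiff, Finset.mem_insert]
        constructor
        · tauto
        · rintro ⟨h1, h2⟩
          refine ⟨h1, ?_⟩
          rintro (rfl | h3)
          · exact hqN h1
          · exact h2 h3
      rwa [this]

omit [Fintype V] in
/-- moving one vector of the spanning set in a direction outside the span removes that vector. -/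
lemma mem_sp_erase_of_move {x : V → E} {N : Finset V} {q : V} (hq : q ∈ N) {η z : E} {t : ℝ}
    (ht : t ≠ 0) (hη : η ∉ sp x N) (hz : z ∈ sp x N)
    (hz' : z ∈ sp (Function.update x q (x q + t • η)) N) : z ∈ sp x (N.erase q) := by
  have hN : N = insert q (N.erase q) := (Finset.insert_erase hq).symm
  rw [hN, sp_insert, Submodule.mem_sup] at hz'
  obtain ⟨a, ha, b, hb, hab⟩ := hz'
  rw [Submodule.mem_span_singleton] at ha
  obtain ⟨c, rfl⟩ := ha
  rw [Function.update_self] at hab
  have hb' : b ∈ sp x (N.erase q) := by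
    rw [sp_congr (x' := x)] at hb
    · exact hb
    · intro s hs
      rw [Function.update_of_ne (Finset.ne_of_mem_erase hs)]
  by_cases hc : c = 0
  · rw [hc, zero_smul, zero_add] at hab
    rwa [← hab]
  · exfalso
    apply hη
    have h1 : (c * t) • η = z - b - c • x q := by
      rw [← hab]
      module
    have h2 : (c * t) • η ∈ sp x N := by
      rw [h1]
      apply Submodule.sub_mem
      · exact Submodule.sub_mem _ hz (sp_mono (Finset.erase_subset _ _) hb')
      · exact Submodule.smul_mem _ _ (mem_sp hq)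
    have h3 : c * t ≠ 0 := mul_ne_zero hc ht
    exact (Submodule.smul_mem_iff _ h3).1 h2

end MrGC
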