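import Pool.Agent.Helper48.MrLss

/-!
Perturbation to faithful representations and extension to a larger graph.
-/

open scoped RealInnerProductSpace Topology
open Filter

namespace MrGC

variable {V : Type*} [Fintype V] [DecidableEq V]
variable {E : Type*} [NormedAddCommGroup E] [InnerProductSpace ℝ E]
variable {Ω : SimpleGraph V}

/-- one step of the perturbation to a faithful representation -/
lemma pert_step [FiniteDimensional ℝ E] {Y : Finset V} {v : V} (hv : v ∉ Y) {x0 : V → E}
    (hperp : ∀ u ∈ Y, Ω.Adj v u → ⟪x0 u, x0 v⟫ = 0) (hN : Ind x0 (nb Ω Y v))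
    (hNj : ∀ j ∈ Y, ¬ Ω.Adj v j → Ind x0 (insert j (nb Ω Y v)))
    (h : ∃ᶠ x in 𝓝 x0, OR Ω Y x ∧ Faith Ω Y x) :
    ∃ᶠ x in 𝓝 x0, OR Ω (insert v Y) x ∧ Faith Ω (insert v Y) x := by
  classical
  have hw : x0 v ∈ (sp x0 (nb Ω Y v))ᗮ := by
    rw [mem_sp_orth]
    intro s hs
    exact hperp s (mem_nb.1 hs).1 (mem_nb.1 hs).2
  obtain ⟨L, hLt, hL0, hLe, hLc⟩ := exists_lift hN hw
  let M : (V → E) → (V → E) := fun x' => Function.update x' v (L x')
  have hM : Tendsto M (𝓝 x0) (𝓝 x0) := by
    rw [tendsto_pi_nhds]
    intro u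
    by_cases hu : u = v
    · subst hu
      simp only [M, Function.update_self]
      exact hLt
    · simp only [M, Function.update_of_ne hu]
      exact (continuous_apply u).tendsto x0
  rw [Filter.frequently_iff]
  intro U hU
  have hU1 : ∀ᶠ y in 𝓝 x0, y ∈ U := hU
  have hU2 := hM.eventually (eventually_eventually_nhds.2 hU1)
  have hNj' : ∀ᶠ x in 𝓝 x0, ∀ j ∈ Y, ¬ Ω.Adj v j → Ind x (insert j (nb Ω Y v)) := by
    rw [Filter.eventually_all_finset]
    intro j hj
    by_cases hadj : Ω.Adj v j
    · exact Filter.Eventually.of_forall (fun x h => absurd hadj h)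
    · filter_upwards [ind_eventually (hNj j hj hadj)] with x hx _ using hx
  obtain ⟨x, ⟨hxOR, hxF⟩, ⟨hxU, hxL⟩, hxN⟩ := (h.and_eventually ((hU2.and hLe).and hNj')).exists
  set N := nb Ω Y v with hNdef
  -- choose a direction
  obtain ⟨η, hηN, hη⟩ := exists_avoid (Y \ N) ((sp x N)ᗮ)
    (fun j => (Submodule.span ℝ {x j})ᗮ) (by
      intro j hj hle
      rw [Finset.mem_sdiff] at hj
      rw [orth_le_orth_iff] at hle
      have h1 : x j ∈ sp x N := hle (Submodule.mem_span_singleton_self _)
      have h2 := hxN j hj.1 (fun hadj => hj.2 (mem_nb.2 ⟨hj.1, hadj⟩))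
      exact h2.notMem hj.2 h1)
  have hMx : ∀ u, u ≠ v → M x u = x u := fun u hu => Function.update_of_ne hu _ _
  have hYv : ∀ u ∈ Y, u ≠ v := by
    rintro u hu rfl
    exact hv hu
  have hMv : M x v = L x := Function.update_self _ _ _
  have hev1 : ∀ᶠ t in 𝓝[≠] (0 : ℝ), Function.update (M x) v (M x v + t • η) ∈ U :=
    ((tendsto_update (M x) v η).eventually hxU).filter_mono nhdsWithin_le_nhds
  have hev2 : ∀ᶠ t in 𝓝[≠] (0 : ℝ), ∀ j ∈ Y \ N, ⟪x j, L x + t • η⟫ ≠ 0 := by
    rw [Filter.eventually_all_finset]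
    intro j hj
    have h1 : ⟪x j, η⟫ ≠ 0 := by
      intro h0
      apply hη j hj
      rw [Submodule.mem_orthogonal_singleton_iff_inner_right]
      exact h0
    by_cases h2 : ⟪x j, L x⟫ = 0
    · filter_upwards [eventually_mem_nhdsWithin] with t ht
      rw [inner_add_right, inner_smul_right, h2, zero_add]
      exact mul_ne_zero ht h1
    · have hc : Continuous (fun t : ℝ => ⟪x j, L x + t • η⟫) := by fun_prop
      have h3 : ∀ᶠ t in 𝓝 (0 : ℝ), ⟪x j, L x + t • η⟫ ≠ 0 := by
        apply hc.continuousAt.eventually_ne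
        simpa using h2
      exact h3.filter_mono nhdsWithin_le_nhds
  obtain ⟨t, ht1, ht2⟩ := (hev1.and hev2).exists
  refine ⟨_, ht1, ?_, ?_⟩
  · have hvec : ∀ u ∈ Y, Ω.Adj v u → ⟪x u, L x + t • η⟫ = 0 := by
      intro u hu hadj
      have hm : u ∈ N := mem_nb.2 ⟨hu, hadj⟩
      rw [inner_add_right, inner_smul_right, mem_sp_orth.1 hxL u hm, mem_sp_orth.1 hηN u hm]
      ring
    intro a ha b hb hab
    rw [Finset.mem_insert] at ha hb
    rcases ha with rfl | ha
    · rcases hb with rfl | hb
      · exact absurd hab Ω.irrefl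
      · rw [Function.update_self, Function.update_of_ne (hYv b hb), hMx b (hYv b hb), hMv,
          real_inner_comm]
        exact hvec b hb hab
    · rcases hb with rfl | hb
      · rw [Function.update_self, Function.update_of_ne (hYv a ha), hMx a (hYv a ha), hMv]
        exact hvec a ha hab.symm
      · rw [Function.update_of_ne (hYv a ha), hMx a (hYv a ha), Function.update_of_ne (hYv b hb),
          hMx b (hYv b hb)]
        exact hxOR a ha b hb hab
  · have hvec : ∀ u ∈ Y, ¬ Ω.Adj v u → ⟪x u, L x + t • η⟫ ≠ 0 := by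
      intro u hu hadj
      exact ht2 u (Finset.mem_sdiff.2 ⟨hu, fun h => hadj (mem_nb.1 h).2⟩)
    intro a ha b hb hne hab
    rw [Finset.mem_insert] at ha hb
    rcases ha with rfl | ha
    · rcases hb with rfl | hb
      · exact absurd rfl hne
      · rw [Function.update_self, Function.update_of_ne (hYv b hb), hMx b (hYv b hb), hMv,
          real_inner_comm]
        exact hvec b hb hab
    · rcases hb with rfl | hb
      · rw [Function.update_self, Function.update_of_ne (hYv a ha), hMx a (hYv a ha), hMv]
        exact hvec a ha (fun h => hab h.symm)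
      · rw [Function.update_of_ne (hYv a ha), hMx a (hYv a ha), Function.update_of_ne (hYv b hb),
          hMx b (hYv b hb)]
        exact hxF a ha b hb hne hab

section ext

/-- the additional dimensions -/
abbrev Rest (H T : Finset V) := {w : V // w ∉ H ∧ w ∉ T}

open scoped Classical in
/-- base configuration: `H` in `E`, the vertices outside `H ∪ T` on new coordinate axes -/
noncomputable def cfg (H T : Finset V) (y : V → E) :
    V → WithLp 2 (E × EuclideanSpace ℝ (Rest H T)) := fun v =>
  if v ∈ H then WithLp.toLp 2 (y v, 0) else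
    if h : v ∉ H ∧ v ∉ T then WithLp.toLp 2 (0, EuclideanSpace.single ⟨v, h⟩ 1) else 0

variable {H T : Finset V} {y : V → E}

lemma cfg_H {v : V} (hv : v ∈ H) : cfg H T y v = WithLp.toLp 2 (y v, 0) := by
  simp [cfg, hv]

lemma cfg_W {v : V} (hv : v ∉ H ∧ v ∉ T) :
    cfg H T y v = WithLp.toLp 2 (0, EuclideanSpace.single ⟨v, hv⟩ 1) := by
  simp [cfg, hv.1, hv.2]

lemma cfg_T {v : V} (hv : v ∈ T) (hH : v ∉ H) : cfg H T y v = 0 := by
  simp [cfg, hv, hH]

lemma cfg_HH {u v : V} (hu : u ∈ H) (hv : v ∈ H) : ⟪cfg H T y u, cfg H T y v⟫ = ⟪y u, y v⟫ := by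
  rw [cfg_H hu, cfg_H hv, WithLp.prod_inner_apply]
  simp

lemma cfg_HW {u v : V} (hu : u ∈ H) (hv : v ∉ H ∧ v ∉ T) : ⟪cfg H T y u, cfg H T y v⟫ = 0 := by
  rw [cfg_H hu, cfg_W hv, WithLp.prod_inner_apply]
  simp

lemma cfg_WW {u v : V} (hu : u ∉ H ∧ u ∉ T) (hv : v ∉ H ∧ v ∉ T) (hne : u ≠ v) :
    ⟪cfg H T y u, cfg H T y v⟫ = 0 := by
  rw [cfg_W hu, cfg_W hv, WithLp.prod_inner_apply]
  simp [EuclideanSpace.inner_single_left, hne]

lemma cfg_fst (v : V) : (WithLp.ofLp (cfg H T y v)).1 = if v ∈ H then y v else 0 := by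
  unfold cfg
  split_ifs <;> simp

lemma cfg_snd (v : V) (w : Rest H T) :
    (WithLp.ofLp (cfg H T y v)).2 w = if v = w then 1 else 0 := by
  by_cases hH : v ∈ H
  · have : v ≠ w := by
      rintro rfl
      exact w.2.1 hH
    rw [cfg_H hH]
    simp [this]
  · by_cases hT : v ∈ T
    · have : v ≠ w := by
        rintro rfl
        exact w.2.2 hT
      rw [cfg_T hT hH]
      simp [this]
    · rw [cfg_W ⟨hH, hT⟩]
      by_cases h4 : v = w
      · subst h4
        simp
      · have : w ≠ ⟨v, hH, hT⟩ := by
          rintro rfl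
          exact h4 rfl
        simp [h4, this]

lemma cfg_ind {S : Finset V} (hS : Ind y (S ∩ H)) (hT : ∀ v ∈ S, v ∉ H → v ∉ T) :
    Ind (cfg H T y) S := by
  unfold Ind
  rw [linearIndepOn_finset_iff]
  intro f hf i hi
  by_cases hiH : i ∈ H
  · have h1 : ∑ i ∈ S, f i • (WithLp.ofLp (cfg H T y i)).1 = 0 := by
      have h2 := congrArg (fun z => (WithLp.ofLp z).1) hf
      simpa [WithLp.ofLp_sum, Prod.fst_sum] using h2
    simp only [cfg_fst] at h1
    have h3 : ∑ i ∈ S ∩ H, f i • y i = 0 := by
      rw [← h1, ← Finset.sum_filter_add_sum_filter_not S (fun i => i ∈ H)]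
      have h4 : ∑ x ∈ S with x ∉ H, f x • (if x ∈ H then y x else 0) = 0 := by
        apply Finset.sum_eq_zero
        intro j hj
        rw [Finset.mem_filter] at hj
        simp [hj.2]
      rw [h4, add_zero, Finset.filter_mem_eq_inter]
      apply Finset.sum_congr rfl
      intro j hj
      rw [Finset.mem_inter] at hj
      simp [hj.2]
    unfold Ind at hS
    rw [linearIndepOn_finset_iff] at hS
    exact hS f h3 i (Finset.mem_inter.2 ⟨hi, hiH⟩)
  · have hw : i ∉ H ∧ i ∉ T := ⟨hiH, hT i hi hiH⟩
    have h1 : ∑ j ∈ S, f j * (WithLp.ofLp (cfg H T y j)).2 ⟨i, hw⟩ = 0 := by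
      have h2 := congrArg (fun z => (WithLp.ofLp z).2 ⟨i, hw⟩) hf
      simpa [WithLp.ofLp_sum, Prod.snd_sum] using h2
    simp only [cfg_snd] at h1
    simpa [hi] using h1

/-- perturbing the base configuration to a faithful one on all vertices outside `T` -/
lemma ext_core [FiniteDimensional ℝ E] (hHT : Disjoint H T) (hOR : OR Ω H y) (hGP : GP H y)
    (hnb : ∀ v ∈ H, (nb Ω H v).card + 1 ≤ Module.finrank ℝ E) :
    ∃ᶠ x in 𝓝 (cfg H T y), OR Ω (Finset.univ \ T) x ∧ Faith Ω (Finset.univ \ T) x := by
  classical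
  -- phase 1
  have h1 : ∀ W : Finset V, (∀ v ∈ W, v ∉ H ∧ v ∉ T) →
      ∃ᶠ x in 𝓝 (cfg H T y), OR Ω W x ∧ Faith Ω W x := by
    intro W
    induction W using Finset.induction_on with
    | empty =>
      intro _
      apply Filter.Frequently.of_forall
      intro x
      exact ⟨by intro u hu; simp at hu, by intro u hu; simp at hu⟩
    | insert v W hv ih =>
      intro hW
      have hW' : ∀ v ∈ W, v ∉ H ∧ v ∉ T := fun u hu => hW u (Finset.mem_insert_of_mem hu)
      have hvW := hW v (Finset.mem_insert_self v W)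
      have hind : ∀ S ⊆ W, Ind (cfg H T y) S := by
        intro S hS
        apply cfg_ind
        · have : S ∩ H = ∅ := by
            rw [← Finset.disjoint_iff_inter_eq_empty, Finset.disjoint_left]
            intro a ha
            exact (hW' a (hS ha)).1
          rw [this]
          exact ind_empty y
        · intro a ha _
          exact (hW' a (hS ha)).2
      apply pert_step hv
      · intro u hu _
        exact cfg_WW (hW' u hu) hvW (by rintro rfl; exact hv hu)
      · exact hind _ (nb_subset W v)
      · intro j hj _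
        exact hind _ (Finset.insert_subset hj (nb_subset W v))
      · exact ih hW'
  -- phase 2
  set W : Finset V := Finset.univ \ (H ∪ T) with hWdef
  have hWm : ∀ v ∈ W, v ∉ H ∧ v ∉ T := by
    intro v hv
    rw [hWdef, Finset.mem_sdiff, Finset.mem_union] at hv
    tauto
  have h2 : ∀ H' : Finset V, H' ⊆ H →
      ∃ᶠ x in 𝓝 (cfg H T y), OR Ω (W ∪ H') x ∧ Faith Ω (W ∪ H') x := by
    intro H'
    induction H' using Finset.induction_on with
    | empty =>
      intro _
      rw [Finset.union_empty]
      exact h1 W hWm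
    | insert v H' hv ih =>
      intro hH'
      have hvH : v ∈ H := hH' (Finset.mem_insert_self v H')
      have hH'' : H' ⊆ H := (Finset.subset_insert v H').trans hH'
      have hvY : v ∉ W ∪ H' := by
        rw [Finset.mem_union]
        rintro (h | h)
        · exact (hWm v h).1 hvH
        · exact hv h
      have hcases : ∀ u ∈ W ∪ H', u ∈ H' ∨ (u ∉ H ∧ u ∉ T) := by
        intro u hu
        rw [Finset.mem_union] at hu
        rcases hu with hu | hu
        · exact Or.inr (hWm u hu)
        · exact Or.inl hu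
      have hnb2 : (nb Ω (W ∪ H') v) ∩ H ⊆ nb Ω H v := by
        intro a ha
        rw [Finset.mem_inter] at ha
        exact mem_nb.2 ⟨ha.2, (mem_nb.1 ha.1).2⟩
      have hc := hnb v hvH
      have hnbT : ∀ S ⊆ W ∪ H', ∀ a ∈ S, a ∉ H → a ∉ T := by
        intro S hS a ha haH
        rcases hcases a (hS ha) with h | h
        · exact absurd (hH'' h) haH
        · exact h.2
      have hun : W ∪ insert v H' = insert v (W ∪ H') := by
        rw [Finset.union_insert]
      rw [hun]
      apply pert_step hvY
      · intro u hu hadj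
        rcases hcases u hu with h | h
        · rw [cfg_HH (hH'' h) hvH]
          exact hOR u (hH'' h) v hvH hadj.symm
        · rw [real_inner_comm]
          exact cfg_HW hvH h
      · apply cfg_ind
        · apply hGP _ Finset.inter_subset_right
          have := Finset.card_le_card hnb2
          omega
        · exact hnbT _ (nb_subset _ v)
      · intro j hj hadj
        apply cfg_ind
        · apply hGP _ Finset.inter_subset_right
          have h3 : (insert j (nb Ω (W ∪ H') v)) ∩ H ⊆ insert j (nb Ω H v) := by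
            intro a ha
            rw [Finset.mem_inter, Finset.mem_insert] at ha
            rw [Finset.mem_insert]
            rcases ha with ⟨rfl | ha, haH⟩
            · exact Or.inl rfl
            · exact Or.inr (hnb2 (Finset.mem_inter.2 ⟨ha, haH⟩))
          have h4 := Finset.card_le_card h3
          have h5 := Finset.card_insert_le j (nb Ω H v)
          omega
        · exact hnbT _ (Finset.insert_subset hj (nb_subset _ v))
      · exact ih hH''
  have h3 := h2 H (Finset.Subset.refl H)
  have h4 : W ∪ H = Finset.univ \ T := by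
    ext a
    rw [Finset.mem_union, hWdef, Finset.mem_sdiff, Finset.mem_sdiff, Finset.mem_union]
    have : a ∈ H → a ∉ T := fun h => Finset.disjoint_left.1 hHT h
    simp only [Finset.mem_univ, true_and]
    tauto
  rwa [h4] at h3

end ext

/-- there is a positive semidefinite matrix of rank at most `d` whose zero off-diagonal entries
are exactly those at the edges of `Ω` -/
def PR (Ω : SimpleGraph V) (d : ℕ) : Prop :=
  ∃ A : Matrix V V ℝ, A.PosSemidef ∧ (∀ i j, i ≠ j → (A i j = 0 ↔ Ω.Adj i j)) ∧ A.rank ≤ d

lemma pr_of_rep [FiniteDimensional ℝ E] {x : V → E} (h1 : OR Ω Finset.univ x)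
    (h2 : Faith Ω Finset.univ x) : PR Ω (Module.finrank ℝ E) := by
  refine ⟨Matrix.gram ℝ x, Matrix.posSemidef_gram ℝ x, ?_, ?_⟩
  · intro i j hij
    rw [Matrix.gram_apply]
    constructor
    · intro h
      by_contra hadj
      exact h2 i (Finset.mem_univ i) j (Finset.mem_univ j) hij hadj h
    · intro h
      exact h1 i (Finset.mem_univ i) j (Finset.mem_univ j) h
  · rw [Matrix.gram_eq_conjTranspose_mul (stdOrthonormalBasis ℝ E) x]
    refine (Matrix.rank_mul_le_left _ _).trans ?_
    refine (Matrix.rank_le_card_width _).trans ?_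
    simp

lemma PR.mono {d d' : ℕ} (h : PR Ω d) (hd : d ≤ d') : PR Ω d' := by
  obtain ⟨A, h1, h2, h3⟩ := h
  exact ⟨A, h1, h2, h3.trans hd⟩

lemma finrank_prod_cfg (D : ℕ) (H T : Finset V) (hHT : Disjoint H T) :
    Module.finrank ℝ (WithLp 2 (EuclideanSpace ℝ (Fin D) × EuclideanSpace ℝ (Rest H T))) =
      Fintype.card V - H.card - T.card + D := by
  have h1 : Module.finrank ℝ
      (WithLp 2 (EuclideanSpace ℝ (Fin D) × EuclideanSpace ℝ (Rest H T))) =
      Module.finrank ℝ (EuclideanSpace ℝ (Fin D) × EuclideanSpace ℝ (Rest H T)) :=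
    LinearEquiv.finrank_eq (WithLp.linearEquiv 2 ℝ _)
  rw [h1, Module.finrank_prod, finrank_euclideanSpace, finrank_euclideanSpace, Fintype.card_fin]
  have h2 : Fintype.card (Rest H T) = Fintype.card V - H.card - T.card := by
    rw [Fintype.card_subtype]
    have : (Finset.univ.filter (fun w => w ∉ H ∧ w ∉ T)) = Finset.univ \ (H ∪ T) := by
      ext a
      simp only [Finset.mem_filter, Finset.mem_univ, true_and, Finset.mem_sdiff, Finset.mem_union]
      tauto
    rw [this, Finset.card_sdiff_of_subset (Finset.subset_univ _), Finset.card_univ,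
      Finset.card_union_of_disjoint hHT]
    omega
  omega

/-- Lower bound for the nullity from a set with the slack condition. -/
theorem pr_slack {D : ℕ} (hD : 0 < D) {H : Finset V} (hH : Slack Ω H D) :
    PR Ω (Fintype.card V - H.card + D) := by
  classical
  have hfr : Module.finrank ℝ (EuclideanSpace ℝ (Fin D)) = D := by simp
  obtain ⟨y, hg, -⟩ := lss_slack (E := EuclideanSpace ℝ (Fin D)) (by rw [hfr]; exact hD) H
    (by rw [hfr]; exact hH)
  have h1 := ext_core (Ω := Ω) (H := H) (T := ∅) (y := y) (Finset.disjoint_empty_right H) hg.1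
    hg.2.1 (by
      intro v hv
      rw [hfr]
      rcases hH.nb_card hv with h | h
      · omega
      · rw [h, Finset.card_empty]; omega)
  obtain ⟨x, hx1, hx2⟩ := h1.exists
  rw [Finset.sdiff_empty] at hx1 hx2
  have h2 := pr_of_rep hx1 hx2
  rw [finrank_prod_cfg D H ∅ (Finset.disjoint_empty_right H)] at h2
  simpa using h2

/-- Lower bound for the nullity in the exact situation with a last vertex. -/
theorem pr_exact {D : ℕ} (hD : 0 < D) {X : Finset V} {u v : V} (hu : u ∉ X)
    (hv : v ∉ insert u X) (hsl : Slack Ω X D) (hex : Slack Ω (insert u X) (D + 1))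
    (hvc : (nb Ω (insert u X) v).card + 1 ≤ D) :
    PR Ω (Fintype.card V - X.card - 2 + D) := by
  classical
  have hfr : Module.finrank ℝ (EuclideanSpace ℝ (Fin D)) = D := by simp
  obtain ⟨y, hg⟩ := lss_exact (E := EuclideanSpace ℝ (Fin D)) (by rw [hfr]; exact hD) X hu
    (by rw [hfr]; exact hsl) (by rw [hfr]; exact hex)
  set H := insert u X with hH
  have hHT : Disjoint H {v} := Finset.disjoint_singleton_right.2 hv
  have hcase : ∀ j : V, j ≠ v → j ∈ H ∨ (j ∉ H ∧ j ∉ ({v} : Finset V)) := by
    intro j hj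
    by_cases hjH : j ∈ H
    · exact Or.inl hjH
    · exact Or.inr ⟨hjH, by simpa using hj⟩
  have h1 := ext_core (Ω := Ω) (H := H) (T := {v}) (y := y) hHT hg.1
    hg.2.1 (by
      intro w hw
      rw [hfr]
      rcases (nb Ω H w).eq_empty_or_nonempty with h0 | h0
      · rw [h0, Finset.card_empty]; omega
      · have := hex {w} (by simpa using hw) (nb Ω H w) (nb_subset H w)
          (Finset.singleton_nonempty w) h0 (by
            intro a ha b hb
            rw [Finset.mem_singleton] at ha
            subst ha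
            exact (mem_nb.1 hb).2)
        rw [Finset.card_singleton] at this
        omega)
  have h2 : ∃ᶠ x in 𝓝 (cfg H {v} y), OR Ω (insert v (Finset.univ \ {v})) x ∧
      Faith Ω (insert v (Finset.univ \ {v})) x := by
    have hnbH : (nb Ω (Finset.univ \ {v}) v) ∩ H ⊆ nb Ω H v := by
      intro a ha
      rw [Finset.mem_inter] at ha
      exact mem_nb.2 ⟨ha.2, (mem_nb.1 ha.1).2⟩
    apply pert_step (by simp)
    · intro w hw _
      rw [cfg_T (by simp) hv, inner_zero_right]
    · apply cfg_ind
      · apply hg.2.1 _ Finset.inter_subset_right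
        have := Finset.card_le_card hnbH
        rw [hfr]
        omega
      · intro a ha _
        have := (mem_nb.1 ha).1
        simpa using this
    · intro j hj _
      apply cfg_ind
      · apply hg.2.1 _ Finset.inter_subset_right
        have h3 : (insert j (nb Ω (Finset.univ \ {v}) v)) ∩ H ⊆ insert j (nb Ω H v) := by
          intro a ha
          rw [Finset.mem_inter, Finset.mem_insert] at ha
          rw [Finset.mem_insert]
          rcases ha with ⟨rfl | ha, haH⟩
          · exact Or.inl rfl
          · exact Or.inr (hnbH (Finset.mem_inter.2 ⟨ha, haH⟩))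
        have h4 := Finset.card_le_card h3
        have h5 := Finset.card_insert_le j (nb Ω H v)
        rw [hfr]
        omega
      · intro a ha _
        rw [Finset.mem_insert] at ha
        rcases ha with rfl | ha
        · simpa using hj
        · have := (mem_nb.1 ha).1
          simpa using this
    · exact h1
  have h3 : insert v (Finset.univ \ {v}) = (Finset.univ : Finset V) := by
    ext a
    simp [em]
  rw [h3] at h2
  obtain ⟨x, hx1, hx2⟩ := h2.exists
  have h4 := pr_of_rep hx1 hx2
  rw [finrank_prod_cfg D H {v} hHT, Finset.card_singleton, hH,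
    Finset.card_insert_of_notMem hu] at h4
  apply h4.mono
  omega

end MrGC
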