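import Pool.Agent.Helper48.MrBasic

/-!
General position orthogonal representations: the theorem of Lovász, Saks and Schrijver with
slack one.
-/

open scoped RealInnerProductSpace Topology
open Filter

namespace MrGC

variable {V : Type*} [Fintype V] [DecidableEq V]
variable {E : Type*} [NormedAddCommGroup E] [InnerProductSpace ℝ E]

open scoped Classical in
/-- the vertices of `X` adjacent to `v` in the orthogonality graph -/
noncomputable def nb (Ω : SimpleGraph V) (X : Finset V) (v : V) : Finset V :=
  X.filter (fun u => Ω.Adj v u)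

omit [Fintype V] [DecidableEq V] in
lemma mem_nb {Ω : SimpleGraph V} {X : Finset V} {u v : V} :
    u ∈ nb Ω X v ↔ u ∈ X ∧ Ω.Adj v u := by
  unfold nb; simp

/-- orthogonality relations prescribed by `Ω` on `X` -/
def OR (Ω : SimpleGraph V) (X : Finset V) (x : V → E) : Prop :=
  ∀ u ∈ X, ∀ v ∈ X, Ω.Adj u v → ⟪x u, x v⟫ = 0

/-- non-orthogonality of the other pairs -/
def Faith (Ω : SimpleGraph V) (X : Finset V) (x : V → E) : Prop :=
  ∀ u ∈ X, ∀ v ∈ X, u ≠ v → ¬ Ω.Adj u v → ⟪x u, x v⟫ ≠ 0

/-- complete adjacency between two sets -/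
def Comp (Ω : SimpleGraph V) (A B : Finset V) : Prop := ∀ a ∈ A, ∀ b ∈ B, Ω.Adj a b

/-- general position -/
def GP (X : Finset V) (x : V → E) : Prop :=
  ∀ S ⊆ X, S.card ≤ Module.finrank ℝ E → Ind x S

/-- local constancy of all the dimensions of `span J ∩ Kᗮ` -/
def Stable (Ω : SimpleGraph V) (X : Finset V) (x : V → E) : Prop :=
  ∀ᶠ x' in 𝓝 x, OR Ω X x' → ∀ J ⊆ X, J.card ≤ Module.finrank ℝ E → ∀ K ⊆ X,
    yd x' J K = yd x J K

/-- the slack connectivity condition -/
def Slack (Ω : SimpleGraph V) (X : Finset V) (D : ℕ) : Prop :=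
  ∀ A ⊆ X, ∀ B ⊆ X, A.Nonempty → B.Nonempty → Comp Ω A B → A.card + B.card < D

variable {Ω : SimpleGraph V}

omit [Fintype V] [DecidableEq V] in
lemma Comp.symm {A B : Finset V} (h : Comp Ω A B) : Comp Ω B A :=
  fun b hb a ha => (h a ha b hb).symm

omit [Fintype V] [DecidableEq V] in
lemma OR.mono {X Y : Finset V} {x : V → E} (h : OR Ω X x) (hY : Y ⊆ X) : OR Ω Y x :=
  fun u hu v hv => h u (hY hu) v (hY hv)

omit [Fintype V] [DecidableEq V] in
lemma GP.mono {X Y : Finset V} {x : V → E} (h : GP X x) (hY : Y ⊆ X) : GP Y x :=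
  fun S hS hc => h S (hS.trans hY) hc

omit [Fintype V] [DecidableEq V] in
lemma Slack.mono {X Y : Finset V} {D : ℕ} (h : Slack Ω X D) (hY : Y ⊆ X) : Slack Ω Y D :=
  fun A hA B hB => h A (hA.trans hY) B (hB.trans hY)

omit [DecidableEq V] in
lemma gp_eventually [FiniteDimensional ℝ E] {X : Finset V} {x : V → E} (h : GP X x) :
    ∀ᶠ x' in 𝓝 x, GP X x' := by
  classical
  have h1 : ∀ S ∈ X.powerset, ∀ᶠ x' in 𝓝 x, (S.card ≤ Module.finrank ℝ E → Ind x' S) := by
    intro S hS
    rw [Finset.mem_powerset] at hS
    by_cases hc : S.card ≤ Module.finrank ℝ E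
    · filter_upwards [ind_eventually (h S hS hc)] with x' hx' _ using hx'
    · exact Filter.Eventually.of_forall (fun x' hc' => absurd hc' hc)
  have h2 := (Filter.eventually_all_finset X.powerset).2 h1
  filter_upwards [h2] with x' hx' S hS hc
  exact hx' S (Finset.mem_powerset.2 hS) hc

omit [DecidableEq V] in
lemma faith_eventually {X : Finset V} {x : V → E} (h : Faith Ω X x) :
    ∀ᶠ x' in 𝓝 x, Faith Ω X x' := by
  classical
  have h1 : ∀ u ∈ X, ∀ᶠ x' in 𝓝 x, ∀ v ∈ X, u ≠ v → ¬ Ω.Adj u v → ⟪x' u, x' v⟫ ≠ 0 := by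
    intro u hu
    rw [Filter.eventually_all_finset]
    intro v hv
    by_cases huv : u ≠ v ∧ ¬ Ω.Adj u v
    · filter_upwards [inner_ne_eventually (h u hu v hv huv.1 huv.2)] with x' hx' _ _ using hx'
    · exact Filter.Eventually.of_forall (fun x' h3 h4 => absurd ⟨h3, h4⟩ huv)
  have h2 := (Filter.eventually_all_finset X).2 h1
  exact h2

omit [DecidableEq V] in
lemma stable_eventually [FiniteDimensional ℝ E] {X : Finset V} {x : V → E}
    (h : Stable Ω X x) :
    ∀ᶠ x' in 𝓝 x, OR Ω X x' → (Stable Ω X x' ∧ ∀ J ⊆ X, J.card ≤ Module.finrank ℝ E → ∀ K ⊆ X,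
      yd x' J K = yd x J K) := by
  unfold Stable at h
  filter_upwards [eventually_eventually_nhds.2 h, h] with x' h1 h2 hOR
  have h3 := h2 hOR
  refine ⟨?_, h3⟩
  unfold Stable
  filter_upwards [h1] with x'' h4 hOR'' J hJ hc K hK
  rw [h4 hOR'' J hJ hc K hK, h3 J hJ hc K hK]

lemma stable_restrict_one [FiniteDimensional ℝ E] {Y : Finset V} {w : V} {x : V → E}
    (hw : w ∉ Y) (hOR : OR Ω (insert w Y) x) (hN : Ind x (nb Ω Y w))
    (h : Stable Ω (insert w Y) x) : Stable Ω Y x := by
  have hwo : x w ∈ (sp x (nb Ω Y w))ᗮ := by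
    rw [mem_sp_orth]
    intro s hs
    rw [mem_nb] at hs
    exact hOR s (Finset.mem_insert_of_mem hs.1) w (Finset.mem_insert_self w Y) hs.2.symm
  obtain ⟨L, hLt, hL0, hLe, hLc⟩ := exists_lift hN hwo
  let M : (V → E) → (V → E) := fun x' => Function.update x' w (L x')
  have hM : Tendsto M (𝓝 x) (𝓝 x) := by
    rw [tendsto_pi_nhds]
    intro v
    by_cases hv : v = w
    · subst hv
      simp only [M, Function.update_self]
      exact hLt
    · simp only [M, Function.update_of_ne hv]
      exact (continuous_apply v).tendsto x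
  have h1 := hM.eventually h
  unfold Stable
  filter_upwards [h1, hLe] with x' h2 h3 hOR' J hJ hJc K hK
  have hMY : ∀ v ∈ Y, M x' v = x' v := by
    intro v hv
    have : v ≠ w := fun h => hw (h ▸ hv)
    simp only [M, Function.update_of_ne this]
  have hORM : OR Ω (insert w Y) (M x') := by
    have haux : ∀ v ∈ Y, Ω.Adj w v → ⟪x' v, L x'⟫ = 0 := by
      intro v hv hadj
      exact mem_sp_orth.1 h3 v (mem_nb.2 ⟨hv, hadj⟩)
    intro u hu v hv huv
    rw [Finset.mem_insert] at hu hv
    rcases hu with rfl | hu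
    · rcases hv with rfl | hv
      · exact absurd huv (Ω.irrefl)
      · rw [hMY v hv]
        simp only [M, Function.update_self]
        rw [real_inner_comm]
        exact haux v hv huv
    · rcases hv with rfl | hv
      · rw [hMY u hu]
        simp only [M, Function.update_self]
        exact haux u hu huv.symm
      · rw [hMY u hu, hMY v hv]
        exact hOR' u hu v hv huv
  have h4 := h2 hORM J (hJ.trans (Finset.subset_insert w Y)) hJc K
    (hK.trans (Finset.subset_insert w Y))
  rw [← h4]
  exact (yd_congr (fun s hs => hMY s (hJ hs)) (fun s hs => hMY s (hK hs))).symm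

lemma stable_restrict [FiniteDimensional ℝ E] {X Y : Finset V} {x : V → E} (hY : Y ⊆ X)
    (hOR : OR Ω X x) (hN : ∀ w ∈ X, Ind x (nb Ω X w)) (h : Stable Ω X x) : Stable Ω Y x := by
  induction hn : (X \ Y).card generalizing Y with
  | zero =>
    have : X ⊆ Y := by
      rw [Finset.card_eq_zero, Finset.sdiff_eq_empty_iff_subset] at hn
      exact hn
    rwa [Finset.Subset.antisymm hY this]
  | succ n ih =>
    have hne : (X \ Y).Nonempty := by
      rw [← Finset.card_pos]; omega
    obtain ⟨w, hw⟩ := hne
    rw [Finset.mem_sdiff] at hw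
    have h1 : insert w Y ⊆ X := Finset.insert_subset hw.1 hY
    have h2 : (X \ insert w Y).card = n := by
      have : X \ insert w Y = (X \ Y).erase w := by
        ext a
        simp only [Finset.mem_sdiff, Finset.mem_insert, Finset.mem_erase]
        tauto
      rw [this, Finset.card_erase_of_mem (Finset.mem_sdiff.2 hw), hn]
      rfl
    have h3 := ih h1 h2
    refine stable_restrict_one hw.2 (hOR.mono h1) ?_ h3
    apply (hN w hw.1).mono
    intro a ha
    rw [mem_nb] at ha ⊢
    exact ⟨hY ha.1, ha.2⟩

omit [Fintype V] in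
/-- moving one vector orthogonally to its neighbours keeps the orthogonality relations -/
lemma OR.update {X : Finset V} {x : V → E} (hOR : OR Ω X x) {l : V} (hl : l ∈ X) {δ : E}
    (hδ : δ ∈ (sp x (nb Ω X l))ᗮ) (t : ℝ) :
    OR Ω X (Function.update x l (x l + t • δ)) := by
  have haux : ∀ v ∈ X, Ω.Adj l v → ⟪x v, x l + t • δ⟫ = 0 := by
    intro v hv hadj
    have h1 := mem_sp_orth.1 hδ v (mem_nb.2 ⟨hv, hadj⟩)
    rw [inner_add_right, inner_smul_right, h1, mul_zero, add_zero]
    exact hOR v hv l hl hadj.symm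
  intro u hu v hv huv
  by_cases hul : u = l
  · subst hul
    have hvu : v ≠ u := fun h => by subst h; exact Ω.irrefl huv
    rw [Function.update_self, Function.update_of_ne hvu, real_inner_comm]
    exact haux v hv huv
  · rw [Function.update_of_ne hul]
    by_cases hvl : v = l
    · subst hvl
      rw [Function.update_self]
      exact haux u hu huv.symm
    · rw [Function.update_of_ne hvl]
      exact hOR u hu v hv huv

lemma tendsto_update (x : V → E) (l : V) (δ : E) :
    Tendsto (fun t : ℝ => Function.update x l (x l + t • δ)) (𝓝 0) (𝓝 x) := by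
  have h : Continuous (fun t : ℝ => Function.update x l (x l + t • δ)) := by
    apply Continuous.update continuous_const
    fun_prop
  have := h.tendsto 0
  simpa using this

lemma exists_ne_of_eventually {P : ℝ → Prop} (h : ∀ᶠ t in 𝓝 (0 : ℝ), P t) :
    ∃ t : ℝ, t ≠ 0 ∧ P t := by
  have h1 : ∀ᶠ t in 𝓝[≠] (0 : ℝ), P t := h.filter_mono nhdsWithin_le_nhds
  have h2 : ∀ᶠ t in 𝓝[≠] (0 : ℝ), t ≠ 0 := eventually_mem_nhdsWithin
  obtain ⟨t, ht⟩ := (h1.and h2).exists
  exact ⟨t, ht.2, ht.1⟩

/-- at a stable point, if adding `l` to `K` does not change the dimension then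
`span J ∩ Kᗮ` lies in the span of the neighbours of `l`. -/
lemma step_one [FiniteDimensional ℝ E] {X : Finset V} {x : V → E} (hOR : OR Ω X x)
    (hst : Stable Ω X x) {l : V} (hl : l ∈ X) {J K : Finset V} (hJ : J ⊆ X) (hK : K ⊆ X)
    (hJc : J.card ≤ Module.finrank ℝ E) (hlJ : l ∉ J) (hlK : l ∉ K)
    (hy : yd x J (insert l K) = yd x J K) :
    sp x J ⊓ (sp x K)ᗮ ≤ sp x (nb Ω X l) := by
  have key : ∀ (x' : V → E), yd x' J (insert l K) = yd x' J K → ∀ u ∈ sp x' J ⊓ (sp x' K)ᗮ,
      ⟪x' l, u⟫ = 0 := by
    intro x' hy' u hu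
    have hle : sp x' J ⊓ (sp x' (insert l K))ᗮ ≤ sp x' J ⊓ (sp x' K)ᗮ := by
      apply inf_le_inf_left
      exact Submodule.orthogonal_le (sp_mono (Finset.subset_insert l K))
    have hge : Module.finrank ℝ (sp x' J ⊓ (sp x' K)ᗮ : Submodule ℝ E) ≤
        Module.finrank ℝ (sp x' J ⊓ (sp x' (insert l K))ᗮ : Submodule ℝ E) := le_of_eq hy'.symm
    have heq := Submodule.eq_of_le_of_finrank_le hle hge
    rw [← heq] at hu
    exact mem_sp_orth.1 hu.2 l (Finset.mem_insert_self l K)
  intro u hu
  have hu2 : u ∈ ((sp x (nb Ω X l))ᗮ)ᗮ := by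
    rw [Submodule.mem_orthogonal]
    intro δ hδ
    have h1 := (tendsto_update x l δ).eventually hst
    obtain ⟨t, ht0, ht⟩ := exists_ne_of_eventually h1
    have h2 := ht (hOR.update hl hδ t) J hJ hJc
    have h3 := h2 (insert l K) (Finset.insert_subset hl hK)
    have h4 := h2 K hK
    set x' := Function.update x l (x l + t • δ) with hx'
    have hJ' : ∀ s ∈ J, x' s = x s := by
      intro s hs
      rw [hx', Function.update_of_ne]
      rintro rfl
      exact hlJ hs
    have hK' : ∀ s ∈ K, x' s = x s := by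
      intro s hs
      rw [hx', Function.update_of_ne]
      rintro rfl
      exact hlK hs
    have h5 : ⟪x' l, u⟫ = 0 := by
      apply key x' (by rw [h3, h4, hy])
      rw [sp_congr hJ', sp_congr hK']
      exact hu
    have h6 : ⟪x l, u⟫ = 0 := key x hy u hu
    rw [hx', Function.update_self, inner_add_left, h6, zero_add, inner_smul_left] at h5
    simpa [ht0] using h5
  rwa [Submodule.orthogonal_orthogonal] at hu2

/-- the conclusion of the rank formula for a pair -/
def Wit (Ω : SimpleGraph V) (x : V → E) (J K : Finset V) : Prop :=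
  ∃ A ⊆ J, ∃ B ⊆ K, Comp Ω A B ∧ yd x J K + K.card ≤ A.card + B.card

omit [Fintype V] [DecidableEq V] in
lemma yd_anti [FiniteDimensional ℝ E] {x : V → E} {J K K' : Finset V} (h : K' ⊆ K) :
    yd x J K ≤ yd x J K' := by
  unfold yd
  apply Submodule.finrank_mono
  apply inf_le_inf_left
  exact Submodule.orthogonal_le (sp_mono h)

omit [Fintype V] in
/-- the main combinatorial step for a minimal violating pair -/
lemma key_step [FiniteDimensional ℝ E] {X : Finset V} {x : V → E} (hOR : OR Ω X x)
    (hGP : GP X x) {J K : Finset V} (hJ : J ⊆ X) (hK : K ⊆ X)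
    (hJc : J.card ≤ Module.finrank ℝ E) (hKc : K.card ≤ Module.finrank ℝ E)
    (ih : ∀ J' ⊆ X, ∀ K' ⊆ X, J'.card ≤ Module.finrank ℝ E → K'.card ≤ Module.finrank ℝ E →
      J'.card + K'.card < J.card + K.card → Wit Ω x J' K')
    (hno : ∀ A ⊆ J, ∀ B ⊆ K, Comp Ω A B → A.card + B.card < yd x J K + K.card)
    {l : V} (hlK : l ∈ K) (hlJ : l ∉ J) :
    J.card + 1 = yd x J K + K.card ∧ yd x J (K.erase l) = yd x J K := by
  have hKe : (K.erase l).card + 1 = K.card := Finset.card_erase_add_one hlK
  obtain ⟨A, hA, B, hB, hAB, hcard⟩ := ih J hJ (K.erase l) ((Finset.erase_subset _ _).trans hK)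
    hJc (by omega) (by omega)
  have h1 := hno A hA B (hB.trans (Finset.erase_subset _ _)) hAB
  have h2 : yd x J K ≤ yd x J (K.erase l) := yd_anti (Finset.erase_subset _ _)
  have h3 : yd x J (K.erase l) = yd x J K := by omega
  have h4 : A.card + B.card + 1 = yd x J K + K.card := by omega
  refine ⟨?_, h3⟩
  set C := (K.erase l) \ B with hC
  have hCK : C ⊆ K := Finset.sdiff_subset.trans (Finset.erase_subset _ _)
  have hCc : C.card + B.card = (K.erase l).card := by
    rw [hC]; exact Finset.card_sdiff_add_card_eq_card hB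
  have hlC : l ∉ C := by
    rw [hC]; simp
  have hAi : Ind x A := hGP A (hA.trans hJ) ((Finset.card_le_card hA).trans hJc)
  have hCi : Ind x C := hGP C (hCK.trans hK) ((Finset.card_le_card hCK).trans hKc)
  -- span A ∩ Cᗮ = span J ∩ (K - l)ᗮ
  have hle : sp x A ⊓ (sp x C)ᗮ ≤ sp x J ⊓ (sp x (K.erase l))ᗮ := by
    intro u hu
    refine ⟨sp_mono hA hu.1, mem_sp_orth.2 ?_⟩
    intro s hs
    by_cases hsB : s ∈ B
    · have h5 : x s ∈ (sp x A)ᗮ := by
        rw [mem_sp_orth]
        intro a ha
        exact hOR a (hJ (hA ha)) s (hK (Finset.mem_of_mem_erase hs)) (hAB a ha s hsB)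
      rw [real_inner_comm]
      exact Submodule.inner_right_of_mem_orthogonal hu.1 h5
    · exact mem_sp_orth.1 hu.2 s (by rw [hC, Finset.mem_sdiff]; exact ⟨hs, hsB⟩)
  have hdim : Module.finrank ℝ (sp x J ⊓ (sp x (K.erase l))ᗮ : Submodule ℝ E) ≤
      Module.finrank ℝ (sp x A ⊓ (sp x C)ᗮ : Submodule ℝ E) := by
    have h5 := yd_symm hAi hCi
    have h6 : yd x J (K.erase l) ≤ yd x A C := by omega
    exact h6
  have heq := Submodule.eq_of_le_of_finrank_le hle hdim
  have hle2 : sp x J ⊓ (sp x K)ᗮ ≤ sp x J ⊓ (sp x (K.erase l))ᗮ := by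
    apply inf_le_inf_left
    exact Submodule.orthogonal_le (sp_mono (Finset.erase_subset _ _))
  have heq2 := Submodule.eq_of_le_of_finrank_le hle2 (le_of_eq h3)
  have hydAC : yd x A C = yd x J K := by
    unfold yd
    rw [heq, ← heq2]
  have hydACl : yd x A (insert l C) = yd x J K := by
    rw [← hydAC]
    unfold yd
    have : sp x A ⊓ (sp x (insert l C))ᗮ = sp x A ⊓ (sp x C)ᗮ := by
      apply le_antisymm
      · apply inf_le_inf_left
        exact Submodule.orthogonal_le (sp_mono (Finset.subset_insert _ _))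
      · intro u hu
        refine ⟨hu.1, mem_sp_orth.2 ?_⟩
        intro s hs
        rw [Finset.mem_insert] at hs
        rcases hs with rfl | hs
        · rw [heq, ← heq2] at hu
          exact mem_sp_orth.1 hu.2 s hlK
        · exact mem_sp_orth.1 hu.2 s hs
    rw [this]
  have hins : (insert l C).card = C.card + 1 := Finset.card_insert_of_notMem hlC
  have hinsK : insert l C ⊆ K := Finset.insert_subset hlK hCK
  by_cases hlt : A.card + (insert l C).card < J.card + K.card
  · exfalso
    obtain ⟨A', hA', B', hB', hAB', hc'⟩ := ih A (hA.trans hJ) (insert l C) (hinsK.trans hK)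
      ((Finset.card_le_card hA).trans hJc) ((Finset.card_le_card hinsK).trans hKc) hlt
    have hdisj : Disjoint B B' := by
      rw [Finset.disjoint_left]
      intro b hb hb'
      have := hB' hb'
      rw [Finset.mem_insert, hC, Finset.mem_sdiff] at this
      rcases this with rfl | h5
      · exact (Finset.mem_erase.1 (hB hb)).1 rfl
      · exact h5.2 hb
    have h5 := hno A' (hA'.trans hA) (B ∪ B')
      (Finset.union_subset (hB.trans (Finset.erase_subset _ _)) (hB'.trans hinsK)) (by
        intro a ha b hb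
        rw [Finset.mem_union] at hb
        rcases hb with hb | hb
        · exact hAB a (hA' ha) b hb
        · exact hAB' a ha b hb)
    rw [Finset.card_union_of_disjoint hdisj] at h5
    omega
  · have h5 : A.card ≤ J.card := Finset.card_le_card hA
    have h6 : (insert l C).card ≤ K.card := Finset.card_le_card hinsK
    omega

lemma nb_mono {X Y : Finset V} (h : Y ⊆ X) (v : V) : nb Ω Y v ⊆ nb Ω X v := by
  intro a ha
  rw [mem_nb] at ha ⊢
  exact ⟨h ha.1, ha.2⟩

lemma nb_subset (X : Finset V) (v : V) : nb Ω X v ⊆ X := by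
  intro a ha
  exact (mem_nb.1 ha).1

lemma notMem_nb_self (X : Finset V) (v : V) : v ∉ nb Ω X v := by
  intro h
  exact Ω.irrefl (mem_nb.1 h).2

/-- under the slack condition every neighbourhood is small -/
lemma Slack.nb_card {X : Finset V} {D : ℕ} (h : Slack Ω X D) {v : V} (hv : v ∈ X) :
    (nb Ω X v).card + 1 < D ∨ nb Ω X v = ∅ := by
  rcases (nb Ω X v).eq_empty_or_nonempty with h0 | h0
  · exact Or.inr h0
  · left
    have := h {v} (by simpa using hv) (nb Ω X v) (nb_subset X v) (Finset.singleton_nonempty v) h0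
      (by
        intro a ha b hb
        rw [Finset.mem_singleton] at ha
        subst ha
        exact (mem_nb.1 hb).2)
    rw [Finset.card_singleton] at this
    omega

lemma Slack.nb_ind [FiniteDimensional ℝ E] {X : Finset V} {x : V → E}
    (h : Slack Ω X (Module.finrank ℝ E)) (hGP : GP X x) {v : V} (hv : v ∈ X) :
    Ind x (nb Ω X v) := by
  rcases h.nb_card hv with h1 | h1
  · exact hGP _ (nb_subset X v) (by omega)
  · rw [h1]; exact ind_empty x

/-- in a stable general position representation under the slack condition the complement of one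
neighbourhood is not inside the span of an adjacent neighbourhood. -/
lemma exists_direction [FiniteDimensional ℝ E] {X : Finset V} {x : V → E}
    (hOR : OR Ω X x) (hGP : GP X x) (hsl : Slack Ω X (Module.finrank ℝ E))
    {l l' : V} (hl : l ∈ X) (hl' : l' ∈ X) (hadj : Ω.Adj l l')
    (ih : ∀ J ⊆ (X.erase l).erase l', ∀ K ⊆ (X.erase l).erase l',
      J.card ≤ Module.finrank ℝ E → K.card ≤ Module.finrank ℝ E → Wit Ω x J K) :
    ¬ (sp x (nb Ω X l'))ᗮ ≤ sp x (nb Ω X l) := by
  intro hle
  set N := nb Ω X l with hN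
  set N' := nb Ω X l' with hN'
  have hl'N : l' ∈ N := mem_nb.2 ⟨hl', hadj⟩
  have hlN' : l ∈ N' := mem_nb.2 ⟨hl, hadj.symm⟩
  have hNc : N.card + 1 < Module.finrank ℝ E := by
    rcases hsl.nb_card hl with h | h
    · exact h
    · rw [← hN] at h; rw [h] at hl'N; simp at hl'N
  have hN'c : N'.card + 1 < Module.finrank ℝ E := by
    rcases hsl.nb_card hl' with h | h
    · exact h
    · rw [← hN'] at h; rw [h] at hlN'; simp at hlN'
  set F := N.erase l' with hF
  set F' := N'.erase l with hF'
  have hFc : F.card + 1 = N.card := Finset.card_erase_add_one hl'N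
  have hF'c : F'.card + 1 = N'.card := Finset.card_erase_add_one hlN'
  have hFX : F ⊆ (X.erase l).erase l' := by
    intro a ha
    rw [hF, Finset.mem_erase] at ha
    rw [Finset.mem_erase, Finset.mem_erase]
    refine ⟨ha.1, ?_, (mem_nb.1 ha.2).1⟩
    rintro rfl
    exact Ω.irrefl (mem_nb.1 ha.2).2
  have hF'X : F' ⊆ (X.erase l).erase l' := by
    intro a ha
    rw [hF', Finset.mem_erase] at ha
    rw [Finset.mem_erase, Finset.mem_erase]
    refine ⟨?_, ha.1, (mem_nb.1 ha.2).1⟩
    rintro rfl
    exact Ω.irrefl (mem_nb.1 ha.2).2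
  obtain ⟨A, hA, B, hB, hAB, hc⟩ := ih F hFX F' hF'X (by omega) (by omega)
  -- dimension estimate
  have hN'i : Ind x N' := hGP _ (nb_subset X l') (by omega)
  have h1 := Submodule.finrank_add_finrank_orthogonal (sp x N')
  rw [finrank_sp hN'i] at h1
  have h2 := Submodule.finrank_sup_add_finrank_inf_eq (sp x F) ((sp x N')ᗮ)
  have h3 : sp x F ⊔ (sp x N')ᗮ ≤ sp x N := sup_le (sp_mono (Finset.erase_subset _ _)) hle
  have h4 := (Submodule.finrank_mono h3).trans (finrank_sp_le x N)
  have hFi : Ind x F := hGP _ (hFX.trans (by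
    intro a ha
    rw [Finset.mem_erase, Finset.mem_erase] at ha
    exact ha.2.2)) (by omega)
  rw [finrank_sp hFi] at h2
  have h5 : Module.finrank ℝ (sp x F ⊓ (sp x N')ᗮ : Submodule ℝ E) ≤ yd x F F' := by
    unfold yd
    apply Submodule.finrank_mono
    apply inf_le_inf_left
    exact Submodule.orthogonal_le (sp_mono (Finset.erase_subset _ _))
  have h6 : Module.finrank ℝ E ≤ A.card + B.card + 2 := by omega
  -- contradiction with slack
  have hAl' : l' ∉ A := by
    intro h
    have := hA h
    rw [hF] at this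
    exact (Finset.mem_erase.1 this).1 rfl
  have hBl : l ∉ B := by
    intro h
    have := hB h
    rw [hF'] at this
    exact (Finset.mem_erase.1 this).1 rfl
  have hsub : (X.erase l).erase l' ⊆ X := (Finset.erase_subset _ _).trans (Finset.erase_subset _ _)
  have h7 := hsl (insert l' A) (Finset.insert_subset hl' ((hA.trans hFX).trans hsub))
    (insert l B) (Finset.insert_subset hl ((hB.trans hF'X).trans hsub))
    (Finset.insert_nonempty _ _) (Finset.insert_nonempty _ _) (by
      intro a ha b hb
      rw [Finset.mem_insert] at ha hb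
      rcases ha with rfl | ha
      · rcases hb with rfl | hb
        · exact hadj.symm
        · have := hB hb
          rw [hF', Finset.mem_erase] at this
          exact (mem_nb.1 this.2).2
      · rcases hb with rfl | hb
        · have := hA ha
          rw [hF, Finset.mem_erase] at this
          exact (mem_nb.1 this.2).2.symm
        · exact hAB a ha b hb)
  rw [Finset.card_insert_of_notMem hAl', Finset.card_insert_of_notMem hBl] at h7
  omega

/-- The rank formula for stable general position representations under the slack condition. -/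
theorem rank_formula [FiniteDimensional ℝ E] (Ω : SimpleGraph V) :
    ∀ (n : ℕ) (X : Finset V), X.card = n → ∀ (x : V → E), OR Ω X x → GP X x → Stable Ω X x →
      Slack Ω X (Module.finrank ℝ E) →
      ∀ J ⊆ X, ∀ K ⊆ X, J.card ≤ Module.finrank ℝ E → K.card ≤ Module.finrank ℝ E →
        Wit Ω x J K := by
  intro n
  induction n using Nat.strong_induction_on with
  | _ n ihn =>
  intro X hXn x hOR hGP hst hsl
  have outer : ∀ Y ⊂ X, ∀ (x' : V → E), OR Ω X x' → GP X x' → Stable Ω X x' →
      ∀ J ⊆ Y, ∀ K ⊆ Y, J.card ≤ Module.finrank ℝ E → K.card ≤ Module.finrank ℝ E →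
        Wit Ω x' J K := by
    intro Y hY x' hOR' hGP' hst'
    have hYc : Y.card < n := hXn ▸ Finset.card_lt_card hY
    exact ihn Y.card hYc Y rfl x' (hOR'.mono hY.1) (hGP'.mono hY.1)
      (stable_restrict hY.1 hOR' (fun w hw => hsl.nb_ind hGP' hw) hst') (hsl.mono hY.1)
  have inner : ∀ (m : ℕ) (J K : Finset V), J.card + K.card = m → J ⊆ X → K ⊆ X →
      J.card ≤ Module.finrank ℝ E → K.card ≤ Module.finrank ℝ E → Wit Ω x J K := by
    intro m
    induction m using Nat.strong_induction_on with
    | _ m ihm =>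
    intro J K hm hJ hK hJc hKc
    have ih : ∀ J' ⊆ X, ∀ K' ⊆ X, J'.card ≤ Module.finrank ℝ E → K'.card ≤ Module.finrank ℝ E →
        J'.card + K'.card < J.card + K.card → Wit Ω x J' K' := by
      intro J' hJ' K' hK' h1 h2 h3
      exact ihm _ (by omega) J' K' rfl hJ' hK' h1 h2
    by_cases hJK : J ∪ K = X
    swap
    · have hss : J ∪ K ⊂ X := by
        refine Finset.ssubset_iff_subset_ne.2 ⟨Finset.union_subset hJ hK, hJK⟩
      exact outer _ hss x hOR hGP hst J Finset.subset_union_left K Finset.subset_union_right hJc hKc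
    by_contra hW
    have hno : ∀ A ⊆ J, ∀ B ⊆ K, Comp Ω A B → A.card + B.card < yd x J K + K.card := by
      intro A hA B hB hAB
      by_contra h
      exact hW ⟨A, hA, B, hB, hAB, by omega⟩
    have hJi : Ind x J := hGP J hJ hJc
    have hKi : Ind x K := hGP K hK hKc
    have hsymm := yd_symm hJi hKi
    have hno' : ∀ A ⊆ K, ∀ B ⊆ J, Comp Ω A B → A.card + B.card < yd x K J + J.card := by
      intro A hA B hB hAB
      have := hno B hB A hA hAB.symm
      omega
    -- J ⊄ K and K ⊄ J
    have hyd_pos : 0 < yd x J K := by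
      have := hno ∅ (Finset.empty_subset _) K (Finset.Subset.refl _) (by intro a ha; simp at ha)
      simp at this
      omega
    have hyd_pos' : 0 < yd x K J := by
      have := hno' ∅ (Finset.empty_subset _) J (Finset.Subset.refl _) (by intro a ha; simp at ha)
      simp at this
      omega
    have hzero : ∀ S T : Finset V, S ⊆ T → yd x S T = 0 := by
      intro S T hST
      unfold yd
      have : sp x S ⊓ (sp x T)ᗮ = ⊥ := by
        rw [eq_bot_iff]
        refine le_trans (inf_le_inf_left _ (Submodule.orthogonal_le (sp_mono hST))) ?_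
        rw [Submodule.inf_orthogonal_eq_bot]
      rw [this]
      simp
    have hexl : ∃ l ∈ K, l ∉ J := by
      by_contra h
      push Not at h
      have := hzero K J h
      omega
    have hexi : ∃ i ∈ J, i ∉ K := by
      by_contra h
      push Not at h
      have := hzero J K h
      omega
    obtain ⟨l, hlK, hlJ⟩ := hexl
    obtain ⟨i0, hi0J, hi0K⟩ := hexi
    have hk1 := key_step hOR hGP hJ hK hJc hKc ih hno hlK hlJ
    have hk2 := key_step hOR hGP hK hJ hKc hJc (by
      intro J' hJ' K' hK' h1 h2 h3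
      exact ih J' hJ' K' hK' h1 h2 (by omega)) hno' hi0J hi0K
    have hyd1 : yd x J K = 1 := by omega
    -- a nonneighbour i of l in J
    have hexi2 : ∃ i ∈ J, ¬ Ω.Adj i l := by
      by_contra h
      push Not at h
      have := hno J (Finset.Subset.refl _) {l} (by simpa using hlK) (by
        intro a ha b hb
        rw [Finset.mem_singleton] at hb
        subst hb
        exact h a ha)
      rw [Finset.card_singleton] at this
      omega
    obtain ⟨i, hiJ, hil⟩ := hexi2
    have hyd0 : yd x (J.erase i) K = 0 := by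
      have hc : (J.erase i).card + 1 = J.card := Finset.card_erase_add_one hiJ
      obtain ⟨A, hA, B, hB, hAB, hcard⟩ := ih (J.erase i) ((Finset.erase_subset _ _).trans hJ) K hK
        (by omega) hKc (by omega)
      have := hno A (hA.trans (Finset.erase_subset _ _)) B hB hAB
      omega
    -- the vector z
    have hexz : ∃ z ∈ sp x J ⊓ (sp x K)ᗮ, z ≠ 0 := by
      apply Submodule.exists_mem_ne_zero_of_ne_bot
      intro h
      unfold yd at hyd1
      rw [h] at hyd1
      simp at hyd1
    obtain ⟨z, hz, hz0⟩ := hexz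
    have hlX : l ∈ X := hK hlK
    -- z lies in the span of the neighbours of every vertex of K \ J
    have hzN : ∀ (x' : V → E), OR Ω X x' → Stable Ω X x' → ∀ l1 ∈ K, l1 ∉ J →
        yd x' J (K.erase l1) = yd x' J K → ∀ u ∈ sp x' J ⊓ (sp x' (K.erase l1))ᗮ,
        u ∈ sp x' (nb Ω X l1) := by
      intro x' hOR' hst' l1 hl1K hl1J hy u hu
      refine step_one hOR' hst' (hK hl1K) hJ ((Finset.erase_subset _ _).trans hK) hJc hl1J
        (Finset.notMem_erase _ _) ?_ hu
      rw [Finset.insert_erase hl1K, hy]
    have hzK : ∀ l1 ∈ K, z ∈ sp x J ⊓ (sp x (K.erase l1))ᗮ := by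
      intro l1 _
      exact ⟨hz.1, Submodule.orthogonal_le (sp_mono (Finset.erase_subset _ _)) hz.2⟩
    have hzl : z ∈ sp x (nb Ω X l) := hzN x hOR hst l hlK hlJ hk1.2 z (hzK l hlK)
    have hNi : Ind x (nb Ω X l) := hsl.nb_ind hGP hlX
    have helim : ∀ q ∈ X \ J, q ∈ nb Ω X l → z ∈ sp x ((nb Ω X l).erase q) := by
      intro q hq hqN
      rw [Finset.mem_sdiff] at hq
      have hqK : q ∈ K := by
        have := hq.1
        rw [← hJK, Finset.mem_union] at this
        tauto
      have hadj : Ω.Adj l q := (mem_nb.1 hqN).2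
      have hne : q ≠ l := by
        rintro rfl
        exact Ω.irrefl hadj
      have hss : (X.erase l).erase q ⊂ X := by
        refine Finset.ssubset_iff_subset_ne.2
          ⟨(Finset.erase_subset _ _).trans (Finset.erase_subset _ _), ?_⟩
        intro h
        have := hlX
        rw [← h, Finset.mem_erase, Finset.mem_erase] at this
        exact this.2.1 rfl
      have hdir := exists_direction hOR hGP hsl hlX hq.1 hadj (outer _ hss x hOR hGP hst)
      rw [SetLike.not_le_iff_exists] at hdir
      obtain ⟨η, hη, hηN⟩ := hdir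
      have hkq := key_step hOR hGP hJ hK hJc hKc ih hno hqK hq.2
      have hzq : z ∈ sp x (nb Ω X q) := hzN x hOR hst q hqK hq.2 hkq.2 z (hzK q hqK)
      have hηz : ⟪η, z⟫ = 0 := by
        rw [real_inner_comm]
        exact Submodule.inner_right_of_mem_orthogonal hzq hη
      have hev := (tendsto_update x q η).eventually (stable_eventually hst)
      obtain ⟨t, ht0, ht⟩ := exists_ne_of_eventually hev
      have hOR' := hOR.update hq.1 hη t
      obtain ⟨hst', hyd'⟩ := ht hOR'
      have hyd2 := hyd' J hJ hJc K hK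
      have hyd3 := hyd' J hJ hJc (K.erase l) ((Finset.erase_subset _ _).trans hK)
      apply mem_sp_erase_of_move hqN ht0 hηN hzl
      have hJ' : ∀ s ∈ J, Function.update x q (x q + t • η) s = x s := by
        intro s hs
        rw [Function.update_of_ne]
        rintro rfl
        exact hq.2 hs
      refine hzN _ hOR' hst' l hlK hlJ (by rw [hyd2, hyd3, hk1.2]) z ⟨?_, ?_⟩
      · rw [sp_congr hJ']
        exact hz.1
      · rw [SetLike.mem_coe, mem_sp_orth]
        intro s hs
        by_cases hsq : s = q
        · subst hsq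
          rw [Function.update_self, inner_add_left, inner_smul_left, hηz, mul_zero, add_zero]
          exact mem_sp_orth.1 hz.2 s hqK
        · rw [Function.update_of_ne hsq]
          exact mem_sp_orth.1 hz.2 s (Finset.mem_of_mem_erase hs)
    have hfin := mem_sp_sdiff hNi hzl (X \ J) helim
    have hfin2 : z ∈ sp x (J.erase i) := by
      apply sp_mono _ hfin
      intro a ha
      rw [Finset.mem_sdiff, Finset.mem_sdiff] at ha
      rw [Finset.mem_erase]
      have haX := (mem_nb.1 ha.1).1
      have haJ : a ∈ J := by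
        by_contra h
        exact ha.2 ⟨haX, h⟩
      refine ⟨?_, haJ⟩
      rintro rfl
      exact hil (mem_nb.1 ha.1).2.symm
    have hbot : sp x (J.erase i) ⊓ (sp x K)ᗮ = ⊥ := by
      unfold yd at hyd0
      exact Submodule.finrank_eq_zero.1 hyd0
    have : z ∈ sp x (J.erase i) ⊓ (sp x K)ᗮ := ⟨hfin2, hz.2⟩
    rw [hbot] at this
    exact hz0 (by simpa using this)
  intro J hJ K hK hJc hKc
  exact inner _ J K rfl hJ hK hJc hKc

/-- the good representations on `X` -/
def Good (Ω : SimpleGraph V) (X : Finset V) (x : V → E) : Prop :=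
  OR Ω X x ∧ GP X x ∧ Faith Ω X x

omit [DecidableEq V] in
/-- a good representation can be replaced by a stable one -/
lemma exists_stable [FiniteDimensional ℝ E] {X : Finset V} {x : V → E} (h : Good Ω X x) :
    ∃ x' : V → E, Good Ω X x' ∧ Stable Ω X x' := by
  classical
  let P := (X.powerset.filter (fun J => J.card ≤ Module.finrank ℝ E)) ×ˢ X.powerset
  let Φ : (V → E) → ℕ := fun x => ∑ p ∈ P, yd x p.1 p.2
  have hex : ∃ m, ∃ x : V → E, Good Ω X x ∧ Φ x = m := ⟨Φ x, x, h, rfl⟩
  obtain ⟨x', hx', hm⟩ := Nat.find_spec hex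
  have hmin : ∀ x'' : V → E, Good Ω X x'' → Φ x' ≤ Φ x'' := by
    intro x'' h''
    rw [hm]
    exact Nat.find_min' hex ⟨x'', h'', rfl⟩
  refine ⟨x', hx', ?_⟩
  have h1 : ∀ᶠ x'' in 𝓝 x', ∀ p ∈ P, yd x'' p.1 p.2 ≤ yd x' p.1 p.2 := by
    rw [Filter.eventually_all_finset]
    intro p hp
    rw [Finset.mem_product, Finset.mem_filter, Finset.mem_powerset, Finset.mem_powerset] at hp
    exact yd_usc (hx'.2.1 p.1 hp.1.1 hp.1.2)
  unfold Stable
  filter_upwards [h1, gp_eventually hx'.2.1, faith_eventually hx'.2.2] with x'' h2 h3 h4 hOR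
    J hJ hJc K hK
  have h5 := hmin x'' ⟨hOR, h3, h4⟩
  have h6 : ∑ p ∈ P, yd x'' p.1 p.2 = ∑ p ∈ P, yd x' p.1 p.2 :=
    le_antisymm (Finset.sum_le_sum h2) h5
  have h7 := (Finset.sum_eq_sum_iff_of_le h2).1 h6 (J, K) (by
    rw [Finset.mem_product, Finset.mem_filter, Finset.mem_powerset, Finset.mem_powerset]
    exact ⟨⟨hJ, hJc⟩, hK⟩)
  exact h7

/-- adding a vertex under the exact connectivity condition -/
lemma good_extend [FiniteDimensional ℝ E] {X : Finset V} {v : V} (hv : v ∉ X) {x : V → E}
    (hg : Good Ω X x) (hst : Stable Ω X x) (hsl : Slack Ω X (Module.finrank ℝ E))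
    (hex : Slack Ω (insert v X) (Module.finrank ℝ E + 1)) (hE : 0 < Module.finrank ℝ E) :
    ∃ x' : V → E, Good Ω (insert v X) x' ∧ ∀ u, u ≠ v → x' u = x u := by
  classical
  set N := nb Ω X v with hN
  have hvN : v ∉ N := fun h => hv (nb_subset X v h)
  have hNc : N.card + 1 ≤ Module.finrank ℝ E := by
    rcases N.eq_empty_or_nonempty with h0 | h0
    · rw [h0, Finset.card_empty]; omega
    · have := hex {v} (by simp) N ((nb_subset X v).trans (Finset.subset_insert _ _))
        (Finset.singleton_nonempty v) h0 (by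
          intro a ha b hb
          rw [Finset.mem_singleton] at ha
          subst ha
          exact (mem_nb.1 hb).2)
      rw [Finset.card_singleton] at this
      omega
  have hNi : Ind x N := hg.2.1 N (nb_subset X v) (by omega)
  -- spans of small sets do not contain the complement
  have hA : ∀ S ⊆ X, S.card + 1 ≤ Module.finrank ℝ E → ¬ (sp x N)ᗮ ≤ sp x S := by
    intro S hS hSc hle
    obtain ⟨A, hA, B, hB, hAB, hc⟩ := rank_formula Ω X.card X rfl x hg.1 hg.2.1 hst hsl
      N (nb_subset X v) S hS (by omega) (by omega)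
    have hSi : Ind x S := hg.2.1 S hS (by omega)
    have h1 : (sp x S)ᗮ ≤ sp x N := orth_le_iff.1 hle
    have h2 : yd x N S = Module.finrank ℝ ((sp x S)ᗮ : Submodule ℝ E) := by
      unfold yd
      rw [inf_eq_right.2 h1]
    have h3 := Submodule.finrank_add_finrank_orthogonal (sp x S)
    rw [finrank_sp hSi] at h3
    have h4 : Module.finrank ℝ E ≤ A.card + B.card := by omega
    rcases A.eq_empty_or_nonempty with h0 | h0
    · rw [h0, Finset.card_empty] at h4
      have := Finset.card_le_card hB
      omega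
    · have hvB : v ∉ B := fun h => hv (hS (hB h))
      have := hex A ((hA.trans (nb_subset X v)).trans (Finset.subset_insert _ _)) (insert v B)
        (Finset.insert_subset_insert _ (hB.trans hS)) h0 (Finset.insert_nonempty _ _) (by
          intro a ha b hb
          rw [Finset.mem_insert] at hb
          rcases hb with rfl | hb
          · exact (mem_nb.1 (hA ha)).2.symm
          · exact hAB a ha b hb)
      rw [Finset.card_insert_of_notMem hvB] at this
      omega
  -- hyperplanes
  have hB : ∀ j ∈ X, j ∉ N → ¬ (sp x N)ᗮ ≤ (Submodule.span ℝ {x j})ᗮ := by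
    intro j hj hjN hle
    rw [orth_le_orth_iff] at hle
    have h1 : x j ∈ sp x N := hle (Submodule.mem_span_singleton_self _)
    have h2 : Ind x (insert j N) := by
      apply hg.2.1 _ (Finset.insert_subset hj (nb_subset X v))
      rw [Finset.card_insert_of_notMem hjN]
      exact hNc
    exact h2.notMem hjN h1
  let W : (Finset V) ⊕ V → Submodule ℝ E := fun i =>
    match i with
    | Sum.inl S => sp x S
    | Sum.inr j => (Submodule.span ℝ {x j})ᗮ
  let s : Finset ((Finset V) ⊕ V) :=
    (X.powerset.filter (fun S => S.card + 1 ≤ Module.finrank ℝ E)).disjSum (X \ N)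
  obtain ⟨u, huN, hu⟩ := exists_avoid s ((sp x N)ᗮ) W (by
    intro i hi
    rw [Finset.mem_disjSum] at hi
    rcases hi with ⟨S, hS, rfl⟩ | ⟨j, hj, rfl⟩
    · rw [Finset.mem_filter, Finset.mem_powerset] at hS
      exact hA S hS.1 hS.2
    · rw [Finset.mem_sdiff] at hj
      exact hB j hj.1 hj.2)
  have hxeq : ∀ w ∈ X, Function.update x v u w = x w := by
    intro w hw
    rw [Function.update_of_ne]
    rintro rfl
    exact hv hw
  refine ⟨Function.update x v u, ⟨?_, ?_, ?_⟩, fun w hw => Function.update_of_ne hw _ _⟩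
  · have haux : ∀ w ∈ X, Ω.Adj v w → ⟪x w, u⟫ = 0 := by
      intro w hw hadj
      exact mem_sp_orth.1 huN w (mem_nb.2 ⟨hw, hadj⟩)
    intro a ha b hb hab
    rw [Finset.mem_insert] at ha hb
    rcases ha with rfl | ha
    · rcases hb with rfl | hb
      · exact absurd hab Ω.irrefl
      · rw [Function.update_self, hxeq b hb, real_inner_comm]
        exact haux b hb hab
    · rcases hb with rfl | hb
      · rw [Function.update_self, hxeq a ha]
        exact haux a ha hab.symm
      · rw [hxeq a ha, hxeq b hb]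
        exact hg.1 a ha b hb hab
  · intro S hS hSc
    by_cases hvS : v ∈ S
    · have hSX : S.erase v ⊆ X := by
        intro a ha
        have h1 := hS (Finset.mem_of_mem_erase ha)
        rw [Finset.mem_insert] at h1
        rcases h1 with h1 | h1
        · exact absurd h1 (Finset.ne_of_mem_erase ha)
        · exact h1
      have hSc' : (S.erase v).card + 1 = S.card := Finset.card_erase_add_one hvS
      rw [← Finset.insert_erase hvS]
      have h1 : Ind (Function.update x v u) (S.erase v) :=
        ind_congr (fun w hw => (hxeq w (hSX hw)).symm) (hg.2.1 _ hSX (by omega))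
      apply ind_insert h1
      rw [sp_congr (fun w hw => hxeq w (hSX hw)), Function.update_self]
      have := hu (Sum.inl (S.erase v)) (by
        rw [Finset.mem_disjSum]
        left
        exact ⟨S.erase v, by rw [Finset.mem_filter, Finset.mem_powerset]; exact ⟨hSX, by omega⟩, rfl⟩)
      exact this
    · have hSX : S ⊆ X := by
        intro a ha
        have h1 := hS ha
        rw [Finset.mem_insert] at h1
        rcases h1 with rfl | h1
        · exact absurd ha hvS
        · exact h1
      exact ind_congr (fun w hw => (hxeq w (hSX hw)).symm) (hg.2.1 S hSX hSc)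
  · have haux : ∀ w ∈ X, ¬ Ω.Adj v w → ⟪x w, u⟫ ≠ 0 := by
      intro w hw hadj h0
      have := hu (Sum.inr w) (by
        rw [Finset.mem_disjSum]
        right
        refine ⟨w, ?_, rfl⟩
        rw [Finset.mem_sdiff]
        exact ⟨hw, fun h => hadj (mem_nb.1 h).2⟩)
      apply this
      show u ∈ (Submodule.span ℝ {x w})ᗮ
      rw [Submodule.mem_orthogonal_singleton_iff_inner_right]
      exact h0
    intro a ha b hb hne hab
    rw [Finset.mem_insert] at ha hb
    rcases ha with rfl | ha
    · rcases hb with rfl | hb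
      · exact absurd rfl hne
      · rw [Function.update_self, hxeq b hb, real_inner_comm]
        exact haux b hb hab
    · rcases hb with rfl | hb
      · rw [Function.update_self, hxeq a ha]
        exact haux a ha (fun h => hab h.symm)
      · rw [hxeq a ha, hxeq b hb]
        exact hg.2.2 a ha b hb hne hab

/-- The Lovász–Saks–Schrijver theorem with slack one (with faithfulness and stability). -/
theorem lss_slack [FiniteDimensional ℝ E] (hE : 0 < Module.finrank ℝ E) (X : Finset V)
    (hsl : Slack Ω X (Module.finrank ℝ E)) :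
    ∃ x : V → E, Good Ω X x ∧ Stable Ω X x := by
  induction X using Finset.induction_on with
  | empty =>
    apply exists_stable (x := fun _ => 0)
    refine ⟨by intro u hu; simp at hu, ?_, by intro u hu; simp at hu⟩
    intro S hS _
    rw [Finset.subset_empty.1 hS]
    exact ind_empty _
  | insert v X hv ih =>
    obtain ⟨x, hg, hst⟩ := ih (hsl.mono (Finset.subset_insert _ _))
    obtain ⟨x', hg', _⟩ := good_extend hv hg hst (hsl.mono (Finset.subset_insert _ _))
      (fun A hA B hB hAn hBn hAB => (hsl A hA B hB hAn hBn hAB).trans (Nat.lt_succ_self _)) hE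
    exact exists_stable hg'

/-- The Lovász–Saks–Schrijver theorem for a set `insert v X` satisfying the exact condition such
that `X` satisfies the slack condition. -/
theorem lss_exact [FiniteDimensional ℝ E] (hE : 0 < Module.finrank ℝ E) (X : Finset V) {v : V}
    (hv : v ∉ X) (hsl : Slack Ω X (Module.finrank ℝ E))
    (hex : Slack Ω (insert v X) (Module.finrank ℝ E + 1)) :
    ∃ x : V → E, Good Ω (insert v X) x := by
  obtain ⟨x, hg, hst⟩ := lss_slack hE X hsl
  obtain ⟨x', hg', _⟩ := good_extend hv hg hst hsl hex hE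
  exact ⟨x', hg'⟩

end MrGC
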