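import Pool.Agent.Helper48.MrPeel

/-!
Connectivity of induced subgraphs and the inequality `3/2`.
-/

namespace MrGC

variable {V : Type*} [Fintype V] [DecidableEq V]

/-- `G[H]` is `k`-connected -/
def Conn (G : SimpleGraph V) (H : Finset V) (k : ℕ) : Prop :=
  k + 1 ≤ H.card ∧ ∀ A ⊆ H, ∀ B ⊆ H, A.Nonempty → B.Nonempty → Comp Gᶜ A B →
    A.card + B.card + k ≤ H.card

variable {G : SimpleGraph V}

lemma Comp.disj {Ω : SimpleGraph V} {A B : Finset V} (h : Comp Ω A B) : Disjoint A B := by
  rw [Finset.disjoint_left]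
  intro a ha hb
  exact Ω.irrefl (h a ha a hb)

lemma exists_kap [Nonempty V] (G : SimpleGraph V) :
    ∃ a, (∃ H, Conn G H a) ∧ ∀ H k, Conn G H k → k ≤ a := by
  classical
  let Q : ℕ → Prop := fun k => ∃ H, Conn G H k
  have hb : ∀ k, Q k → k ≤ Fintype.card V := by
    rintro k ⟨H, hH⟩
    have := hH.1
    have := Finset.card_le_univ H
    omega
  have h0 : Q 0 := by
    obtain ⟨v⟩ := ‹Nonempty V›
    refine ⟨{v}, by simp, ?_⟩
    intro A hA B hB hAn hBn hAB
    exfalso
    rw [Finset.subset_singleton_iff] at hA hB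
    rcases hA with rfl | rfl
    · simp at hAn
    · rcases hB with rfl | rfl
      · simp at hBn
      · have := hAB v (by simp) v (by simp)
        exact Gᶜ.irrefl this
  refine ⟨Nat.findGreatest Q (Fintype.card V), Nat.findGreatest_spec (hb 0 h0) h0, ?_⟩
  intro H k hk
  exact Nat.le_findGreatest (hb k ⟨H, hk⟩) ⟨H, hk⟩

lemma Conn.lt {H : Finset V} {k : ℕ} (h : Conn G H k) : k + 1 ≤ Fintype.card V :=
  h.1.trans (Finset.card_le_univ H)

/-- slack bound -/
lemma pr_conn_slack {H : Finset V} {k : ℕ} (h : Conn G H k) :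
    PR Gᶜ (Fintype.card V - k + 1) := by
  have h1 := h.1
  have h2 := Finset.card_le_univ H
  have := pr_slack (Ω := Gᶜ) (D := H.card - k + 1) (by omega) (H := H) (by
    intro A hA B hB hAn hBn hAB
    have := h.2 A hA B hB hAn hBn hAB
    omega)
  apply this.mono
  omega

/-- a contractible edge -/
lemma exists_edge {H : Finset V} {k : ℕ} (h : Conn G H k) (hk1 : 1 ≤ k) (hk3 : k ≤ 3) :
    ∃ u ∈ H, ∃ v ∈ H, G.Adj u v ∧ Slack Gᶜ ((H.erase u).erase v) (H.card - k) := by
  classical
  by_contra hcon
  push Not at hcon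
  -- bad configurations
  let Bad : V → V → Finset V → Finset V → Prop := fun u v A B =>
    u ∈ H ∧ v ∈ H ∧ G.Adj u v ∧ A ⊆ (H.erase u).erase v ∧ B ⊆ (H.erase u).erase v ∧
      A.Nonempty ∧ B.Nonempty ∧ Comp Gᶜ A B ∧ H.card ≤ A.card + B.card + k
  have hbad : ∀ u ∈ H, ∀ v ∈ H, G.Adj u v → ∃ A B, Bad u v A B := by
    intro u hu v hv huv
    have h1 := hcon u hu v hv huv
    unfold Slack at h1
    push Not at h1
    obtain ⟨A, hA, B, hB, hAn, hBn, hAB, hc⟩ := h1
    exact ⟨A, B, hu, hv, huv, hA, hB, hAn, hBn, hAB, by omega⟩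
  -- existence of an edge
  have hedge : ∃ u ∈ H, ∃ v ∈ H, G.Adj u v := by
    by_contra hne
    push Not at hne
    have hHn : H.Nonempty := by
      rw [← Finset.card_pos]; have := h.1; omega
    obtain ⟨w, hw⟩ := hHn
    have hc : (H.erase w).card + 1 = H.card := Finset.card_erase_add_one hw
    have hn : (H.erase w).Nonempty := by
      rw [← Finset.card_pos]; have := h.1; omega
    have := h.2 {w} (by simpa using hw) (H.erase w) (Finset.erase_subset _ _)
      (Finset.singleton_nonempty w) hn (by
        intro a ha b hb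
        rw [Finset.mem_singleton] at ha
        subst ha
        rw [Finset.mem_erase] at hb
        rw [SimpleGraph.compl_adj]
        exact ⟨fun h => hb.1 h.symm, hne a hw b hb.2⟩)
    rw [Finset.card_singleton] at this
    omega
  obtain ⟨u0, hu0, v0, hv0, huv0⟩ := hedge
  obtain ⟨A0, B0, h0⟩ := hbad u0 hu0 v0 hv0 huv0
  have hex : ∃ m, ∃ u v A B, Bad u v A B ∧ A.card = m := ⟨_, u0, v0, A0, B0, h0, rfl⟩
  obtain ⟨u, v, A, B, hB0, hm⟩ := Nat.find_spec hex
  have hmin : ∀ u' v' A' B', Bad u' v' A' B' → A.card ≤ A'.card := by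
    intro u' v' A' B' h'
    rw [hm]
    exact Nat.find_min' hex ⟨u', v', A', B', h', rfl⟩
  obtain ⟨hu, hv, huv, hA, hB, hAn, hBn, hAB, hc⟩ := hB0
  have hAH : A ⊆ H := hA.trans ((Finset.erase_subset _ _).trans (Finset.erase_subset _ _))
  have hBH : B ⊆ H := hB.trans ((Finset.erase_subset _ _).trans (Finset.erase_subset _ _))
  have hc2 := h.2 A hAH B hBH hAn hBn hAB
  set S := H \ (A ∪ B) with hS
  have hABc : (A ∪ B).card = A.card + B.card := Finset.card_union_of_disjoint hAB.disj
  have hSc : S.card = k := by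
    rw [hS, Finset.card_sdiff_of_subset (Finset.union_subset hAH hBH), hABc]
    omega
  have huA : u ∉ A := fun h => by have := hA h; simp at this
  have huB : u ∉ B := fun h => by have := hB h; simp at this
  have hvA : v ∉ A := fun h => by have := hA h; simp at this
  have hvB : v ∉ B := fun h => by have := hB h; simp at this
  have huS : u ∈ S := by rw [hS, Finset.mem_sdiff, Finset.mem_union]; tauto
  have hvS : v ∈ S := by rw [hS, Finset.mem_sdiff, Finset.mem_union]; tauto
  have huv' : u ≠ v := G.ne_of_adj huv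
  obtain ⟨z, hzS, hSz⟩ : ∃ z ∈ S, ∀ w ∈ S, w = u ∨ w = v ∨ w = z := by
    have h1 : ((S.erase u).erase v).card ≤ 1 := by
      rw [Finset.card_erase_of_mem (Finset.mem_erase.2 ⟨huv'.symm, hvS⟩),
        Finset.card_erase_of_mem huS]
      omega
    by_cases h2 : ((S.erase u).erase v).Nonempty
    · obtain ⟨z, hz⟩ := h2
      refine ⟨z, by simp at hz; tauto, ?_⟩
      intro w hw
      by_cases hwu : w = u
      · exact Or.inl hwu
      · by_cases hwv : w = v
        · exact Or.inr (Or.inl hwv)
        · have hw2 : w ∈ (S.erase u).erase v := by simp; tauto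
          exact Or.inr (Or.inr (Finset.card_le_one.1 h1 w hw2 z hz))
    · rw [Finset.not_nonempty_iff_eq_empty] at h2
      refine ⟨u, huS, ?_⟩
      intro w hw
      by_cases hwu : w = u
      · exact Or.inl hwu
      · by_cases hwv : w = v
        · exact Or.inr (Or.inl hwv)
        · have hw2 : w ∈ (S.erase u).erase v := by simp; tauto
          rw [h2] at hw2
          simp at hw2
  have hzm := hzS
  rw [hS, Finset.mem_sdiff, Finset.mem_union] at hzm
  push Not at hzm
  obtain ⟨hzH, hzA, hzB⟩ := hzm
  -- z has a neighbour in A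
  obtain ⟨v', hv'A, hzv'⟩ : ∃ v' ∈ A, G.Adj z v' := by
    by_contra hne
    push Not at hne
    have := h.2 A hAH (insert z B) (Finset.insert_subset hzH hBH) hAn (Finset.insert_nonempty _ _)
      (by
        intro a ha b hb
        rw [Finset.mem_insert] at hb
        rcases hb with rfl | hb
        · rw [SimpleGraph.compl_adj]
          exact ⟨by rintro rfl; exact hzA ha, fun h' => hne a ha h'.symm⟩
        · exact hAB a ha b hb)
    rw [Finset.card_insert_of_notMem hzB] at this
    omega
  have hv'H := hAH hv'A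
  obtain ⟨A1, B1, hb1⟩ := hbad z hzH v' hv'H hzv'
  -- choose the side avoiding u and v
  obtain ⟨A', B', ⟨-, -, -, hA', hB', hA'n, hB'n, hA'B', hc'⟩, huA', hvA'⟩ :
      ∃ A' B', Bad z v' A' B' ∧ u ∉ A' ∧ v ∉ A' := by
    obtain ⟨h1, h2, h3, h4, h5, h6, h7, h8, h9⟩ := hb1
    by_cases hcase : u ∉ A1 ∧ v ∉ A1
    · exact ⟨A1, B1, ⟨h1, h2, h3, h4, h5, h6, h7, h8, h9⟩, hcase⟩
    · refine ⟨B1, A1, ⟨h1, h2, h3, h5, h4, h7, h6, h8.symm, by omega⟩, ?_⟩
      have hadj : ∀ a ∈ A1, ∀ b ∈ B1, a ≠ b ∧ ¬ G.Adj a b := by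
        intro a ha b hb
        have := h8 a ha b hb
        rwa [SimpleGraph.compl_adj] at this
      by_cases huA1 : u ∈ A1
      · refine ⟨fun hu1 => (hadj u huA1 u hu1).1 rfl, fun hv1 => (hadj u huA1 v hv1).2 huv⟩
      · have hvA1 : v ∈ A1 := by
          by_contra h'
          exact hcase ⟨huA1, h'⟩
        refine ⟨fun hu1 => (hadj v hvA1 u hu1).2 huv.symm, fun hv1 => (hadj v hvA1 v hv1).1 rfl⟩
  have hA'H : A' ⊆ H := hA'.trans ((Finset.erase_subset _ _).trans (Finset.erase_subset _ _))
  have hB'H : B' ⊆ H := hB'.trans ((Finset.erase_subset _ _).trans (Finset.erase_subset _ _))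
  have hzA' : z ∉ A' := fun h => by have := hA' h; simp at this
  have hv'A' : v' ∉ A' := fun h => by have := hA' h; simp at this
  have hv'B' : v' ∉ B' := fun h => by have := hB' h; simp at this
  -- v' has a neighbour in A'
  obtain ⟨y, hyA', hyv'⟩ : ∃ y ∈ A', G.Adj v' y := by
    by_contra hne
    push Not at hne
    have := h.2 A' hA'H (insert v' B') (Finset.insert_subset hv'H hB'H) hA'n
      (Finset.insert_nonempty _ _) (by
        intro a ha b hb
        rw [Finset.mem_insert] at hb
        rcases hb with rfl | hb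
        · rw [SimpleGraph.compl_adj]
          exact ⟨by rintro rfl; exact hv'A' ha, fun h' => hne a ha h'.symm⟩
        · exact hA'B' a ha b hb)
    rw [Finset.card_insert_of_notMem hv'B'] at this
    omega
  have hyA : y ∈ A := by
    by_contra hyA
    have hyB : y ∉ B := by
      intro hyB
      have := hAB v' hv'A y hyB
      rw [SimpleGraph.compl_adj] at this
      exact this.2 hyv'
    have hyS : y ∈ S := by
      rw [hS, Finset.mem_sdiff, Finset.mem_union]
      exact ⟨hA'H hyA', by tauto⟩
    rcases hSz y hyS with rfl | rfl | rfl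
    · exact huA' hyA'
    · exact hvA' hyA'
    · exact hzA' hyA'
  have hbad2 : Bad z v' (A ∩ A') (B ∪ B') := by
    refine ⟨hzH, hv'H, hzv', Finset.inter_subset_right.trans hA', Finset.union_subset ?_ hB',
      ⟨y, Finset.mem_inter.2 ⟨hyA, hyA'⟩⟩, hBn.mono Finset.subset_union_left, ?_, ?_⟩
    · intro b hb
      rw [Finset.mem_erase, Finset.mem_erase]
      refine ⟨?_, ?_, hBH hb⟩
      · rintro rfl
        exact (Finset.disjoint_left.1 hAB.disj hv'A) hb
      · rintro rfl
        exact hzB hb
    · intro a ha b hb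
      rw [Finset.mem_inter] at ha
      rw [Finset.mem_union] at hb
      rcases hb with hb | hb
      · exact hAB a ha.1 b hb
      · exact hA'B' a ha.2 b hb
    · have hdis : Disjoint (A ∩ A') (B ∪ B') := by
        rw [Finset.disjoint_left]
        intro a ha hb
        rw [Finset.mem_inter] at ha
        rw [Finset.mem_union] at hb
        rcases hb with hb | hb
        · exact (Finset.disjoint_left.1 hAB.disj ha.1) hb
        · exact (Finset.disjoint_left.1 hA'B'.disj ha.2) hb
      have hsub : H \ ((A ∩ A') ∪ (B ∪ B')) ⊆ H \ (A' ∪ B') := by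
        intro x hx
        rw [Finset.mem_sdiff, Finset.mem_union, Finset.mem_union, Finset.mem_inter] at hx
        rw [Finset.mem_sdiff, Finset.mem_union]
        refine ⟨hx.1, ?_⟩
        rintro (hxA' | hxB')
        · have hxS : x ∈ S := by
            rw [hS, Finset.mem_sdiff, Finset.mem_union]
            exact ⟨hx.1, by tauto⟩
          rcases hSz x hxS with rfl | rfl | rfl
          · exact huA' hxA'
          · exact hvA' hxA'
          · exact hzA' hxA'
        · exact hx.2 (Or.inr (Or.inr hxB'))
      have h1 := Finset.card_le_card hsub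
      have hAH2 : (A ∩ A') ∪ (B ∪ B') ⊆ H :=
        Finset.union_subset (Finset.inter_subset_left.trans hAH) (Finset.union_subset hBH hB'H)
      rw [Finset.card_sdiff_of_subset hAH2,
        Finset.card_sdiff_of_subset (Finset.union_subset hA'H hB'H),
        Finset.card_union_of_disjoint hdis, Finset.card_union_of_disjoint hA'B'.disj] at h1
      have h2 := Finset.card_le_card hAH2
      rw [Finset.card_union_of_disjoint hdis] at h2
      omega
  have h1 := hmin _ _ _ _ hbad2
  have h2 : (A ∩ A').card < A.card := by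
    apply Finset.card_lt_card
    rw [Finset.ssubset_iff_subset_ne]
    refine ⟨Finset.inter_subset_left, ?_⟩
    intro heq
    have := hv'A
    rw [← heq, Finset.mem_inter] at this
    exact hv'A' this.2
  omega

/-- exact bound for connectivity at most three -/
lemma pr_conn_exact {H : Finset V} {k : ℕ} (h : Conn G H k) (hk1 : 1 ≤ k) (hk3 : k ≤ 3) :
    PR Gᶜ (Fintype.card V - k) := by
  classical
  obtain ⟨u, hu, v, hv, huv, hsl⟩ := exists_edge h hk1 hk3
  have huv' : u ≠ v := G.ne_of_adj huv
  set X := (H.erase u).erase v with hX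
  have h1 := h.1
  have h2 := Finset.card_le_univ H
  have hXc : X.card + 2 = H.card := by
    have h3 : X.card + 1 = (H.erase u).card :=
      Finset.card_erase_add_one (Finset.mem_erase.2 ⟨huv'.symm, hv⟩)
    have h4 : (H.erase u).card + 1 = H.card := Finset.card_erase_add_one hu
    omega
  have huX : u ∉ X := by simp [hX]
  have hins : insert u X = H.erase v := by
    ext a
    simp only [hX, Finset.mem_insert, Finset.mem_erase]
    constructor
    · rintro (rfl | h)
      · exact ⟨huv', hu⟩
      · exact ⟨h.1, h.2.2⟩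
    · rintro ⟨h3, h4⟩
      by_cases hau : a = u
      · exact Or.inl hau
      · exact Or.inr ⟨h3, hau, h4⟩
  have := pr_exact (Ω := Gᶜ) (D := H.card - k) (by omega) (X := X) (u := u) (v := v) huX
    (by rw [hins]; simp) hsl (by
      intro A hA B hB hAn hBn hAB
      rw [hins] at hA hB
      have := h.2 A (hA.trans (Finset.erase_subset _ _)) B (hB.trans (Finset.erase_subset _ _))
        hAn hBn hAB
      omega) (by
      rw [hins]
      rcases (nb Gᶜ (H.erase v) v).eq_empty_or_nonempty with h0 | h0
      · rw [h0, Finset.card_empty]; omega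
      · have := h.2 {v} (by simpa using hv) (nb Gᶜ (H.erase v) v)
          ((nb_subset _ _).trans (Finset.erase_subset _ _)) (Finset.singleton_nonempty v) h0 (by
            intro a ha b hb
            rw [Finset.mem_singleton] at ha
            subst ha
            exact (mem_nb.1 hb).2)
        rw [Finset.card_singleton] at this
        omega)
  apply this.mono
  omega

/-- peeling along separators of size at most `kap G` -/
lemma pr_kap_peel {a b D : ℕ} (ha : ∀ H k, Conn G H k → k ≤ a)
    (hb : ∀ H k, Conn Gᶜ H k → k ≤ b) (hD : a + b ≤ D) (hD2 : 2 * a + 1 ≤ D) : PR G D := by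
  classical
  apply pr_peel hD hD2
  intro X hX
  have h1 : ¬ Conn G X (a + 1) := fun h => by
    have := ha X (a + 1) h
    omega
  unfold Conn at h1
  push Not at h1
  obtain ⟨A, hA, B, hB, hAn, hBn, hAB, hc⟩ := h1 (by omega)
  -- order the two sides
  obtain ⟨P, R, hP, hR, hPn, hRn, hPR, hle, hsum⟩ : ∃ P R : Finset V, P ⊆ X ∧ R ⊆ X ∧
      P.Nonempty ∧ R.Nonempty ∧ Comp Gᶜ P R ∧ P.card ≤ R.card ∧
      P.card + R.card = A.card + B.card := by
    rcases le_total A.card B.card with h | h
    · exact ⟨A, B, hA, hB, hAn, hBn, hAB, h, rfl⟩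
    · exact ⟨B, A, hB, hA, hBn, hAn, hAB.symm, h, by omega⟩
  have hPRd := hPR.disj
  refine ⟨P, hP, hPn, ?_, X \ (P ∪ R), ?_, ?_, ?_⟩
  · -- |P| ≤ b
    obtain ⟨R', hR'R, hR'c⟩ := Finset.exists_subset_card_eq hle
    have hPR' : Comp Gᶜ P R' := fun p hp r hr => hPR p hp r (hR'R hr)
    have hPRd' := hPR'.disj
    have hcard : (P ∪ R').card = P.card + P.card := by
      rw [Finset.card_union_of_disjoint hPRd', hR'c]
    apply hb (P ∪ R') P.card
    refine ⟨?_, ?_⟩
    · rw [hcard]
      have := Finset.card_pos.2 hPn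
      omega
    · intro A1 hA1 B1 hB1 hA1n hB1n hAB1
      rw [compl_compl] at hAB1
      have hd1 := hAB1.disj
      have hno : ∀ p ∈ P, ∀ r ∈ R', ¬ G.Adj p r := by
        intro p hp r hr
        have := hPR' p hp r hr
        rw [SimpleGraph.compl_adj] at this
        exact this.2
      have hunion : (A1 ∪ B1).card = A1.card + B1.card := Finset.card_union_of_disjoint hd1
      have key : A1 ∪ B1 ⊆ P ∨ A1 ∪ B1 ⊆ R' := by
        by_cases h : ∃ a ∈ A1, a ∈ P
        · obtain ⟨a, ha1, haP⟩ := h
          left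
          have hB1P : B1 ⊆ P := by
            intro b hb1
            have := hB1 hb1
            rw [Finset.mem_union] at this
            rcases this with h2 | h2
            · exact h2
            · exact absurd (hAB1 a ha1 b hb1) (hno a haP b h2)
          obtain ⟨b, hb1⟩ := hB1n
          apply Finset.union_subset _ hB1P
          intro a' ha'
          have := hA1 ha'
          rw [Finset.mem_union] at this
          rcases this with h2 | h2
          · exact h2
          · exact absurd (hAB1 a' ha' b hb1).symm (hno b (hB1P hb1) a' h2)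
        · push Not at h
          right
          have hA1R : A1 ⊆ R' := by
            intro a ha1
            have := hA1 ha1
            rw [Finset.mem_union] at this
            rcases this with h2 | h2
            · exact absurd h2 (h a ha1)
            · exact h2
          obtain ⟨a, ha1⟩ := hA1n
          apply Finset.union_subset hA1R
          intro b hb1
          have := hB1 hb1
          rw [Finset.mem_union] at this
          rcases this with h2 | h2
          · exact absurd (hAB1 a ha1 b hb1).symm (hno b h2 a (hA1R ha1))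
          · exact h2
      rw [hcard, ← hunion]
      rcases key with h | h
      · have := Finset.card_le_card h
        omega
      · have := Finset.card_le_card h
        omega
  · intro z hz
    rw [Finset.mem_sdiff, Finset.mem_union] at hz
    rw [Finset.mem_sdiff]
    tauto
  · rw [Finset.card_sdiff_of_subset (Finset.union_subset hP hR),
      Finset.card_union_of_disjoint hPRd]
    omega
  · intro p hp r hrX hrP hrZ
    have hrR : r ∈ R := by
      by_contra hrR
      apply hrZ
      rw [Finset.mem_sdiff, Finset.mem_union]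
      tauto
    have := hPR p hp r hrR
    rw [SimpleGraph.compl_adj] at this
    exact this.2

/-- an edge gives connectivity one -/
lemma conn_edge {u v : V} (huv : G.Adj u v) : Conn G {u, v} 1 := by
  have hne : u ≠ v := G.ne_of_adj huv
  have hc : ({u, v} : Finset V).card = 2 := Finset.card_pair hne
  refine ⟨by rw [hc], ?_⟩
  intro A hA B hB hAn hBn hAB
  exfalso
  obtain ⟨a, ha⟩ := hAn
  obtain ⟨b, hb⟩ := hBn
  have h1 := hAB a ha b hb
  rw [SimpleGraph.compl_adj] at h1
  have h2 := hA ha
  have h3 := hB hb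
  rw [Finset.mem_insert, Finset.mem_singleton] at h2 h3
  rcases h2 with rfl | rfl
  · rcases h3 with rfl | rfl
    · exact h1.1 rfl
    · exact h1.2 huv
  · rcases h3 with rfl | rfl
    · exact h1.2 huv.symm
    · exact h1.1 rfl

lemma pr_compl_empty (h : ∀ u v, ¬ G.Adj u v) : PR Gᶜ 0 := by
  refine ⟨0, Matrix.PosSemidef.zero, ?_, by simp⟩
  intro i j hij
  simp only [Matrix.zero_apply, true_iff, SimpleGraph.compl_adj]
  exact ⟨hij, h i j⟩

lemma pr_empty (h : ∀ u v, ¬ G.Adj u v) : PR G 1 := by
  refine ⟨Matrix.vecMulVec 1 1, ?_, ?_, ?_⟩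
  · have := Matrix.posSemidef_vecMulVec_self_star (1 : V → ℝ)
    simpa using this
  · intro i j hij
    have h1 : ¬ G.Adj i j := h i j
    simp [Matrix.vecMulVec_apply, h1]
  · exact Matrix.rank_vecMulVec_le _ _

/-- the ordered version of the main inequality -/
lemma main_ordered [Nonempty V] (G : SimpleGraph V) {a b : ℕ} (haH : ∃ H, Conn G H a)
    (hamax : ∀ H k, Conn G H k → k ≤ a) (hbH : ∃ H, Conn Gᶜ H b)
    (hbmax : ∀ H k, Conn Gᶜ H k → k ≤ b) (hab : a ≤ b) :
    ∃ d₁ d₂, PR Gᶜ d₁ ∧ PR G d₂ ∧ 2 * (d₁ + d₂) ≤ 3 * Fintype.card V := by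
  classical
  obtain ⟨HA, hHA⟩ := haH
  obtain ⟨HB, hHB⟩ := hbH
  have hn : 0 < Fintype.card V := Fintype.card_pos
  have haV := hHA.lt
  have hbV := hHB.lt
  set n := Fintype.card V with hndef
  have hcc : Gᶜᶜ = G := compl_compl G
  have hamax' : ∀ H k, Conn Gᶜᶜ H k → k ≤ a := by rw [hcc]; exact hamax
  -- slack bounds
  have s1 : PR Gᶜ (n - a + 1) := pr_conn_slack hHA
  have s2 : PR G (n - b + 1) := by
    have := pr_conn_slack hHB
    rwa [hcc] at this
  by_cases ha0 : a = 0
  · have hno : ∀ u v, ¬ G.Adj u v := by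
      intro u v huv
      have := hamax _ _ (conn_edge huv)
      omega
    exact ⟨0, 1, pr_compl_empty hno, pr_empty hno, by omega⟩
  by_cases hlt : a < b
  · -- peeling bound for the complement
    have p2 : PR G (a + b) := pr_kap_peel hamax hbmax le_rfl (by omega)
    by_cases ha3 : a ≤ 3
    · have e1 : PR Gᶜ (n - a) := pr_conn_exact hHA (by omega) ha3
      by_cases h1 : 2 * b ≤ n
      · exact ⟨n - a, a + b, e1, p2, by omega⟩
      · exact ⟨n - a, n - b + 1, e1, s2, by omega⟩
    · by_cases h1 : 2 * b + 2 ≤ n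
      · exact ⟨n - a + 1, a + b, s1, p2, by omega⟩
      · exact ⟨n - a + 1, n - b + 1, s1, s2, by omega⟩
  · have hEq : a = b := by omega
    subst hEq
    have p2 : PR G (2 * a + 1) := pr_kap_peel hamax hbmax (by omega) le_rfl
    have p1 : PR Gᶜ (2 * a + 1) := pr_kap_peel hbmax hamax' (by omega) le_rfl
    by_cases ha3 : a ≤ 3
    · have e1 : PR Gᶜ (n - a) := pr_conn_exact hHA (by omega) ha3
      have e2 : PR G (n - a) := by
        have := pr_conn_exact hHB (by omega) ha3
        rwa [hcc] at this
      by_cases h1 : n ≤ 4 * a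
      · exact ⟨n - a, n - a, e1, e2, by omega⟩
      · exact ⟨2 * a + 1, 2 * a + 1, p1, p2, by omega⟩
    · by_cases h1 : n + 4 ≤ 4 * a
      · exact ⟨n - a + 1, n - a + 1, s1, s2, by omega⟩
      · exact ⟨2 * a + 1, 2 * a + 1, p1, p2, by omega⟩

/-- The main inequality: positive semidefinite matrices for `G` and its complement whose ranks add
up to at most `3/2` times the number of vertices. -/
theorem main_ineq (G : SimpleGraph V) :
    ∃ d₁ d₂, PR Gᶜ d₁ ∧ PR G d₂ ∧ 2 * (d₁ + d₂) ≤ 3 * Fintype.card V := by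
  classical
  rcases isEmpty_or_nonempty V with hV | hV
  · refine ⟨0, 0, ⟨0, Matrix.PosSemidef.zero, fun i => (hV.false i).elim, by simp⟩,
      ⟨0, Matrix.PosSemidef.zero, fun i => (hV.false i).elim, by simp⟩, by omega⟩
  · obtain ⟨a, ha1, ha2⟩ := exists_kap G
    obtain ⟨b, hb1, hb2⟩ := exists_kap Gᶜ
    rcases le_total a b with h | h
    · exact main_ordered G ha1 ha2 hb1 hb2 h
    · have hcc : Gᶜᶜ = G := compl_compl G
      obtain ⟨d₁, d₂, h1, h2, h3⟩ := main_ordered Gᶜ hb1 hb2 (by rw [hcc]; exact ha1)
        (by rw [hcc]; exact ha2) h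
      rw [hcc] at h1
      exact ⟨d₂, d₁, h2, h1, by omega⟩

end MrGC
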