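import Pool.Agent.Helper48.MrExt

/-!
The peeling bound: a representation is built by adding vertices along small separators.
-/

open scoped RealInnerProductSpace Topology
open Filter

namespace MrGC

variable {V : Type*} [Fintype V] [DecidableEq V]
variable {E : Type*} [NormedAddCommGroup E] [InnerProductSpace ℝ E]
variable {Ω : SimpleGraph V}

/-- faithful representation in which all sets of at most `a + 1` vectors are independent -/
def PG (Ω : SimpleGraph V) (a : ℕ) (X : Finset V) (x : V → E) : Prop :=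
  OR Ω X x ∧ Faith Ω X x ∧ ∀ S ⊆ X, S.card ≤ a + 1 → Ind x S

/-- small sets: everything independent -/
lemma peel_base [FiniteDimensional ℝ E] {X : Finset V} (hX : X.card ≤ Module.finrank ℝ E) :
    ∃ x : V → E, OR Ω X x ∧ Faith Ω X x ∧ Ind x X := by
  classical
  have hcard : Fintype.card X ≤ Fintype.card (Fin (Module.finrank ℝ E)) := by simpa using hX
  obtain ⟨e⟩ := Function.Embedding.nonempty_of_card_le hcard
  let b := stdOrthonormalBasis ℝ E
  let x0 : V → E := fun v => if h : v ∈ X then b (e ⟨v, h⟩) else 0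
  have hon : Orthonormal ℝ (fun s : X => x0 s) := by
    have h1 := b.orthonormal.comp e e.injective
    convert h1 using 1
    ext s
    simp [x0]
  have hind : Ind x0 X := hon.linearIndependent
  have horth : ∀ u ∈ X, ∀ v ∈ X, u ≠ v → ⟪x0 u, x0 v⟫ = 0 := by
    intro u hu v hv huv
    exact hon.2 (i := ⟨u, hu⟩) (j := ⟨v, hv⟩) (by simpa using huv)
  have h1 : ∀ Y : Finset V, Y ⊆ X → ∃ᶠ x in 𝓝 x0, OR Ω Y x ∧ Faith Ω Y x := by
    intro Y
    induction Y using Finset.induction_on with
    | empty =>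
      intro _
      apply Filter.Frequently.of_forall
      intro x
      exact ⟨by intro u hu; simp at hu, by intro u hu; simp at hu⟩
    | insert v Y hv ih =>
      intro hY
      have hvX : v ∈ X := hY (Finset.mem_insert_self v Y)
      have hYX : Y ⊆ X := (Finset.subset_insert v Y).trans hY
      apply pert_step hv
      · intro u hu _
        exact horth u (hYX hu) v hvX (by rintro rfl; exact hv hu)
      · exact hind.mono ((nb_subset Y v).trans hYX)
      · intro j hj _
        exact hind.mono (Finset.insert_subset (hYX hj) ((nb_subset Y v).trans hYX))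
      · exact ih hYX
  obtain ⟨x, ⟨hx1, hx2⟩, hx3⟩ := ((h1 X (Finset.Subset.refl X)).and_eventually
    (ind_eventually hind)).exists
  exact ⟨x, hx1, hx2, hx3⟩

/-- stage A: adding the vertices of `P` keeping `Z ∪ P` independent -/
lemma peel_stageA [FiniteDimensional ℝ E] {a b : ℕ} (hD : a + b ≤ Module.finrank ℝ E)
    {X P Z : Finset V} (hP : P ⊆ X) (hZ : Z ⊆ X \ P) (hPb : P.card ≤ b) (hZa : Z.card ≤ a)
    (hsep : ∀ p ∈ P, ∀ r ∈ X, r ∉ P → r ∉ Z → ¬ Ω.Adj p r)
    {x : V → E} (hx : PG Ω a (X \ P) x) :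
    ∀ P0 : Finset V, P0 ⊆ P → ∃ x' : V → E, (∀ u ∈ X \ P, x' u = x u) ∧
      OR Ω ((X \ P) ∪ P0) x' ∧ Faith Ω ((X \ P) ∪ P0) x' ∧ Ind x' (Z ∪ P0) ∧
      (∀ j ∈ X \ P, (Z ∪ P0).card + 1 ≤ Module.finrank ℝ E → Ind x' (insert j (Z ∪ P0))) := by
  classical
  intro P0
  induction P0 using Finset.induction_on with
  | empty =>
    intro _
    refine ⟨x, fun u _ => rfl, ?_, ?_, ?_, ?_⟩
    · rw [Finset.union_empty]; exact hx.1
    · rw [Finset.union_empty]; exact hx.2.1
    · rw [Finset.union_empty]; exact hx.2.2 Z hZ (by omega)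
    · intro j hj _
      rw [Finset.union_empty]
      apply hx.2.2 _ (Finset.insert_subset hj hZ)
      have := Finset.card_insert_le j Z
      omega
  | insert p P0 hp ih =>
    intro hP0
    have hpP : p ∈ P := hP0 (Finset.mem_insert_self p P0)
    have hP0' : P0 ⊆ P := (Finset.subset_insert p P0).trans hP0
    obtain ⟨x', hxeq, hOR, hF, hind, hindj⟩ := ih hP0'
    have hpX : p ∈ X := hP hpP
    have hpX' : p ∉ X \ P := by
      rw [Finset.mem_sdiff]; tauto
    have hpY : p ∉ (X \ P) ∪ P0 := by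
      rw [Finset.mem_union]; tauto
    have hpZ : p ∉ Z := fun h => hpX' (hZ h)
    have hcardP0 : P0.card + 1 ≤ P.card := by
      have := Finset.card_le_card hP0
      rwa [Finset.card_insert_of_notMem hp] at this
    set S := Z ∪ P0 with hS
    have hSc : S.card + 1 ≤ Module.finrank ℝ E := by
      have := Finset.card_union_le Z P0
      rw [← hS] at this
      omega
    set N := nb Ω ((X \ P) ∪ P0) p with hN
    have hNS : N ⊆ S := by
      intro r hr
      obtain ⟨hr1, hr2⟩ := mem_nb.1 hr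
      rw [Finset.mem_union, Finset.mem_sdiff] at hr1
      rw [hS, Finset.mem_union]
      rcases hr1 with ⟨h1, h2⟩ | h1
      · by_contra hcon
        push Not at hcon
        exact hsep p hpP r h1 h2 hcon.1 hr2
      · exact Or.inr h1
    have hjind : ∀ j ∈ (X \ P) ∪ P0, Ind x' (insert j S) := by
      intro j hj
      rw [Finset.mem_union] at hj
      rcases hj with hj | hj
      · exact hindj j hj hSc
      · rw [Finset.insert_eq_of_mem (by rw [hS, Finset.mem_union]; exact Or.inr hj)]
        exact hind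
    -- avoid
    let W : Option V ⊕ V → Submodule ℝ E := fun i =>
      match i with
      | Sum.inl none => sp x' S
      | Sum.inl (some j) => sp x' (insert j S)
      | Sum.inr j => (Submodule.span ℝ {x' j})ᗮ
    let s : Finset (Option V ⊕ V) :=
      (insert none (((X \ P).filter (fun _ => S.card + 2 ≤ Module.finrank ℝ E)).image some)).disjSum
        (((X \ P) ∪ P0) \ N)
    obtain ⟨u, huN, hu⟩ := exists_avoid s ((sp x' N)ᗮ) W (by
      intro i hi
      rw [Finset.mem_disjSum] at hi
      rcases hi with ⟨o, ho, rfl⟩ | ⟨j, hj, rfl⟩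
      · rw [Finset.mem_insert, Finset.mem_image] at ho
        rcases ho with rfl | ⟨j, hj, rfl⟩
        · exact not_orth_le_sp hNS (by omega)
        · rw [Finset.mem_filter] at hj
          apply not_orth_le_sp (hNS.trans (Finset.subset_insert j S))
          have := Finset.card_insert_le j S
          omega
      · rw [Finset.mem_sdiff] at hj
        intro hle
        have hle2 : (sp x' N)ᗮ ≤ (Submodule.span ℝ {x' j})ᗮ := hle
        rw [orth_le_orth_iff] at hle2
        have h1 : x' j ∈ sp x' N := hle2 (Submodule.mem_span_singleton_self _)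
        have h2 : Ind x' (insert j N) := (hjind j hj.1).mono (Finset.insert_subset_insert j hNS)
        exact h2.notMem hj.2 h1)
    have huS : u ∉ sp x' S := by
      have := hu (Sum.inl none) (by
        rw [Finset.mem_disjSum]; left; exact ⟨none, Finset.mem_insert_self _ _, rfl⟩)
      exact this
    have huj : ∀ j ∈ X \ P, S.card + 2 ≤ Module.finrank ℝ E → u ∉ sp x' (insert j S) := by
      intro j hj hc
      have := hu (Sum.inl (some j)) (by
        rw [Finset.mem_disjSum]; left
        refine ⟨some j, ?_, rfl⟩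
        rw [Finset.mem_insert, Finset.mem_image]
        right
        exact ⟨j, by rw [Finset.mem_filter]; exact ⟨hj, hc⟩, rfl⟩)
      exact this
    have hur : ∀ j ∈ (X \ P) ∪ P0, j ∉ N → ⟪x' j, u⟫ ≠ 0 := by
      intro j hj hjN h0
      have := hu (Sum.inr j) (by
        rw [Finset.mem_disjSum]; right
        exact ⟨j, Finset.mem_sdiff.2 ⟨hj, hjN⟩, rfl⟩)
      apply this
      show u ∈ (Submodule.span ℝ {x' j})ᗮ
      rw [Submodule.mem_orthogonal_singleton_iff_inner_right]
      exact h0
    have hxeq' : ∀ w ∈ (X \ P) ∪ P0, Function.update x' p u w = x' w := by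
      intro w hw
      rw [Function.update_of_ne]
      rintro rfl
      exact hpY hw
    have hunion : (X \ P) ∪ insert p P0 = insert p ((X \ P) ∪ P0) := by
      rw [Finset.union_insert]
    have hunion2 : Z ∪ insert p P0 = insert p S := by
      rw [hS, Finset.union_insert]
    have hSY : S ⊆ (X \ P) ∪ P0 := by
      rw [hS]
      exact Finset.union_subset_union_left hZ
    have hpS : p ∉ S := fun h => hpY (hSY h)
    refine ⟨Function.update x' p u, ?_, ?_, ?_, ?_, ?_⟩
    · intro w hw
      rw [hxeq' w (Finset.mem_union_left _ hw)]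
      exact hxeq w hw
    · rw [hunion]
      have haux : ∀ w ∈ (X \ P) ∪ P0, Ω.Adj p w → ⟪x' w, u⟫ = 0 := by
        intro w hw hadj
        exact mem_sp_orth.1 huN w (mem_nb.2 ⟨hw, hadj⟩)
      intro c hc d hd hcd
      rw [Finset.mem_insert] at hc hd
      rcases hc with rfl | hc
      · rcases hd with rfl | hd
        · exact absurd hcd Ω.irrefl
        · rw [Function.update_self, hxeq' d hd, real_inner_comm]
          exact haux d hd hcd
      · rcases hd with rfl | hd
        · rw [Function.update_self, hxeq' c hc]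
          exact haux c hc hcd.symm
        · rw [hxeq' c hc, hxeq' d hd]
          exact hOR c hc d hd hcd
    · rw [hunion]
      have haux : ∀ w ∈ (X \ P) ∪ P0, ¬ Ω.Adj p w → ⟪x' w, u⟫ ≠ 0 := by
        intro w hw hadj
        exact hur w hw (fun h => hadj (mem_nb.1 h).2)
      intro c hc d hd hne hcd
      rw [Finset.mem_insert] at hc hd
      rcases hc with rfl | hc
      · rcases hd with rfl | hd
        · exact absurd rfl hne
        · rw [Function.update_self, hxeq' d hd, real_inner_comm]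
          exact haux d hd hcd
      · rcases hd with rfl | hd
        · rw [Function.update_self, hxeq' c hc]
          exact haux c hc (fun h => hcd h.symm)
        · rw [hxeq' c hc, hxeq' d hd]
          exact hF c hc d hd hne hcd
    · rw [hunion2]
      apply ind_insert
      · exact ind_congr (fun w hw => (hxeq' w (hSY hw)).symm) hind
      · rw [sp_congr (fun w hw => hxeq' w (hSY hw)), Function.update_self]
        exact huS
    · intro j hj hc
      rw [hunion2] at hc ⊢
      rw [Finset.card_insert_of_notMem hpS] at hc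
      rw [Finset.insert_comm]
      have hjSY : insert j S ⊆ (X \ P) ∪ P0 :=
        Finset.insert_subset (Finset.mem_union_left _ hj) hSY
      apply ind_insert
      · exact ind_congr (fun w hw => (hxeq' w (hjSY hw)).symm) (hindj j hj hSc)
      · rw [sp_congr (fun w hw => hxeq' w (hjSY hw)), Function.update_self]
        exact huj j hj (by omega)

/-- admissible extensions of the fixed representation `x` from `X \ P` to `X` -/
def Adm (Ω : SimpleGraph V) (X P Z : Finset V) (x x' : V → E) : Prop :=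
  (∀ u ∈ X \ P, x' u = x u) ∧ OR Ω X x' ∧ Faith Ω X x' ∧ Ind x' (Z ∪ P)

open scoped Classical in
/-- the independent sets of size at most `a + 1` -/
noncomputable def indF (a : ℕ) (X : Finset V) (x' : V → E) : Finset (Finset V) :=
  X.powerset.filter (fun F => F.card ≤ a + 1 ∧ Ind x' F)

/-- admissible extensions with the maximum number of independent sets -/
def MaxAdm (Ω : SimpleGraph V) (a : ℕ) (X P Z : Finset V) (x x' : V → E) : Prop :=
  Adm Ω X P Z x x' ∧ ∀ x'' : V → E, Adm Ω X P Z x x'' → (indF a X x'').card ≤ (indF a X x').card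

lemma mem_indF {a : ℕ} {X : Finset V} {x' : V → E} {F : Finset V} :
    F ∈ indF a X x' ↔ F ⊆ X ∧ F.card ≤ a + 1 ∧ Ind x' F := by
  classical
  unfold indF
  simp only [Finset.mem_filter, Finset.mem_powerset]

lemma exists_maxAdm {a : ℕ} {X P Z : Finset V} {x x' : V → E} (h : Adm Ω X P Z x x') :
    ∃ y : V → E, MaxAdm Ω a X P Z x y := by
  classical
  have hb : ∀ y : V → E, (indF a X y).card ≤ X.powerset.card := fun y =>
    Finset.card_le_card (Finset.filter_subset _ _)
  let Q : ℕ → Prop := fun m => ∃ y : V → E, Adm Ω X P Z x y ∧ (indF a X y).card = m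
  have hQ : Q (indF a X x').card := ⟨x', h, rfl⟩
  have hQb : ∀ m, Q m → m ≤ X.powerset.card := by
    rintro m ⟨y, _, rfl⟩
    exact hb y
  obtain ⟨y, hy, hm⟩ := Nat.findGreatest_spec (P := Q) (hQb _ hQ) hQ
  refine ⟨y, hy, ?_⟩
  intro x'' h''
  rw [hm]
  exact Nat.le_findGreatest (hb x'') ⟨x'', h'', rfl⟩

lemma maxAdm_near [FiniteDimensional ℝ E] {a : ℕ} {X P Z : Finset V} {x x' : V → E}
    (h : MaxAdm Ω a X P Z x x') :
    ∀ᶠ x'' in 𝓝 x', (∀ u ∈ X \ P, x'' u = x u) → OR Ω X x'' →
      (MaxAdm Ω a X P Z x x'' ∧ ∀ F ⊆ X, F.card ≤ a + 1 → Ind x'' F → Ind x' F) := by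
  classical
  have h1 : ∀ᶠ x'' in 𝓝 x', ∀ F ∈ indF a X x', Ind x'' F := by
    rw [Filter.eventually_all_finset]
    intro F hF
    exact ind_eventually (mem_indF.1 hF).2.2
  filter_upwards [h1, faith_eventually h.1.2.2.1, ind_eventually h.1.2.2.2] with x'' h2 h3 h4 h5 h6
  have hadm : Adm Ω X P Z x x'' := ⟨h5, h6, h3, h4⟩
  have hsub : indF a X x' ⊆ indF a X x'' := by
    intro F hF
    rw [mem_indF]
    exact ⟨(mem_indF.1 hF).1, (mem_indF.1 hF).2.1, h2 F hF⟩
  have heq : indF a X x' = indF a X x'' := Finset.eq_of_subset_of_card_le hsub (h.2 x'' hadm)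
  refine ⟨⟨hadm, ?_⟩, ?_⟩
  · intro y hy
    rw [← heq]
    exact h.2 y hy
  · intro F hF hFc hFi
    have : F ∈ indF a X x'' := mem_indF.2 ⟨hF, hFc, hFi⟩
    rw [← heq] at this
    exact (mem_indF.1 this).2.2

/-- step B1 -/
lemma peel_B1 [FiniteDimensional ℝ E] {a : ℕ} {X P Z : Finset V} {x x' : V → E} (hP : P ⊆ X)
    (h : MaxAdm Ω a X P Z x x') {p : V} (hp : p ∈ P) {T : Finset V} (hpT : p ∉ T)
    (hF : insert p T ⊆ X) (hFc : (insert p T).card ≤ a + 1) (hdep : ¬ Ind x' (insert p T))
    (hT : Ind x' T) : (sp x' (nb Ω X p))ᗮ ≤ sp x' T := by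
  intro δ hδ
  have hpX : p ∈ X := hP hp
  have hev := (tendsto_update x' p δ).eventually (maxAdm_near h)
  obtain ⟨t, ht0, ht⟩ := exists_ne_of_eventually hev
  have h1 := ht (by
    intro u hu
    rw [Function.update_of_ne]
    · exact h.1.1 u hu
    · rintro rfl
      exact (Finset.mem_sdiff.1 hu).2 hp) (h.1.2.1.update hpX hδ t)
  have hcong : ∀ w ∈ T, Function.update x' p (x' p + t • δ) w = x' w := by
    intro w hw
    rw [Function.update_of_ne]
    rintro rfl
    exact hpT hw
  have h2 : x' p + t • δ ∈ sp x' T := by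
    by_contra hcon
    apply hdep
    apply h1.2 _ hF hFc
    apply ind_insert
    · exact ind_congr (fun w hw => (hcong w hw).symm) hT
    · rw [sp_congr hcong, Function.update_self]
      exact hcon
  have h3 : x' p ∈ sp x' T := by
    by_contra hcon
    exact hdep (ind_insert hT hcon)
  have h4 : t • δ ∈ sp x' T := by
    have := Submodule.sub_mem _ h2 h3
    rwa [add_sub_cancel_left] at this
  exact (Submodule.smul_mem_iff _ ht0).1 h4

/-- step B2 -/
lemma peel_B2 [FiniteDimensional ℝ E] {a : ℕ} {X P Z : Finset V} {x x' : V → E} (hP : P ⊆ X)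
    (hZX : Z ⊆ X) (hZP : Disjoint Z P)
    (hsep : ∀ p ∈ P, ∀ r ∈ X, r ∉ P → r ∉ Z → ¬ Ω.Adj p r)
    (hD : (Z ∪ P).card ≤ Module.finrank ℝ E)
    (h : MaxAdm Ω a X P Z x x') {p : V} (hp : p ∈ P) {T : Finset V} (hpT : p ∉ T)
    (hF : insert p T ⊆ X) (hFc : (insert p T).card ≤ a + 1) (hdep : ¬ Ind x' (insert p T))
    (hT : Ind x' T) {q : V} (hq : q ∈ nb Ω X p) (hqP : q ∈ P) (hqT : q ∉ T) :
    ∀ u ∈ (sp x' T)ᗮ, u ∈ sp x' ((nb Ω X p).erase q) := by
  classical
  have hpX : p ∈ X := hP hp
  have hqX : q ∈ X := hP hqP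
  have hadj : Ω.Adj p q := (mem_nb.1 hq).2
  have hqp : q ≠ p := by
    rintro rfl
    exact Ω.irrefl hadj
  set N := nb Ω X p with hN
  set N' := nb Ω X q with hN'
  have hsub : ∀ w ∈ P, nb Ω X w ⊆ Z ∪ P := by
    intro w hw r hr
    obtain ⟨hr1, hr2⟩ := mem_nb.1 hr
    rw [Finset.mem_union]
    by_contra hcon
    push Not at hcon
    exact hsep w hw r hr1 hcon.2 hcon.1 hr2
  have hNi : Ind x' N := h.1.2.2.2.mono (hsub p hp)
  have hNS : N ⊆ (Z ∪ P).erase p := by
    intro r hr
    rw [Finset.mem_erase]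
    refine ⟨?_, hsub p hp hr⟩
    rintro rfl
    exact notMem_nb_self X r hr
  have hN'S : N'.erase p ⊆ (Z ∪ P).erase p := Finset.erase_subset_erase p (hsub q hqP)
  have hpU : p ∈ Z ∪ P := Finset.mem_union_right _ hp
  have hSc : ((Z ∪ P).erase p).card < Module.finrank ℝ E := by
    have := Finset.card_erase_add_one hpU
    omega
  have h1 := not_orth_le_sp (x := x') hN'S hSc
  rw [SetLike.not_le_iff_exists] at h1
  obtain ⟨δ, hδ, hδS⟩ := h1
  have hδN : δ ∉ sp x' N := fun h => hδS (sp_mono hNS h)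
  -- the two step perturbation
  have hw : x' p ∈ (sp x' N)ᗮ := by
    rw [mem_sp_orth]
    intro s hs
    exact h.1.2.1 s (mem_nb.1 hs).1 p hpX (mem_nb.1 hs).2.symm
  obtain ⟨L, hLt, hL0, hLe, hLc⟩ := exists_lift hNi hw
  let M1 : ℝ → (V → E) := fun t => Function.update x' q (x' q + t • δ)
  have hM1 : Tendsto M1 (𝓝 0) (𝓝 x') := tendsto_update x' q δ
  let M : ℝ → (V → E) := fun t => Function.update (M1 t) p (L (M1 t))
  have hM : Tendsto M (𝓝 0) (𝓝 x') := by
    rw [tendsto_pi_nhds]
    intro u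
    by_cases hu : u = p
    · subst hu
      simp only [M, Function.update_self]
      exact hLt.comp hM1
    · simp only [M, Function.update_of_ne hu]
      exact ((continuous_apply u).tendsto x').comp hM1
  obtain ⟨t, ht0, ht1, ht2⟩ := exists_ne_of_eventually
    ((hM.eventually (maxAdm_near h)).and (hM1.eventually hLe))
  have hMu : ∀ u, u ≠ p → u ≠ q → M t u = x' u := by
    intro u h1 h2
    simp only [M, M1, Function.update_of_ne h1, Function.update_of_ne h2]
  have hMp : M t p = L (M1 t) := by simp only [M, Function.update_self]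
  have hMq : M t q = x' q + t • δ := by
    simp only [M, M1, Function.update_of_ne hqp, Function.update_self]
  have hM1u : ∀ u, u ≠ p → M1 t u = M t u := by
    intro u hu
    simp only [M, Function.update_of_ne hu]
  have hpN : ∀ r ∈ X, Ω.Adj p r → ⟪M t r, M t p⟫ = 0 := by
    intro r hr hadj'
    have hrp : r ≠ p := by
      rintro rfl
      exact Ω.irrefl hadj'
    rw [hMp, ← hM1u r hrp]
    exact mem_sp_orth.1 ht2 r (mem_nb.2 ⟨hr, hadj'⟩)
  have hqN : ∀ r ∈ X, r ≠ p → Ω.Adj q r → ⟪M t r, M t q⟫ = 0 := by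
    intro r hr hrp hadj'
    have hrq : r ≠ q := by
      rintro rfl
      exact Ω.irrefl hadj'
    rw [hMq, hMu r hrp hrq, inner_add_right, inner_smul_right,
      h.1.2.1 r hr q hqX hadj'.symm,
      mem_sp_orth.1 hδ r (Finset.mem_erase.2 ⟨hrp, mem_nb.2 ⟨hr, hadj'⟩⟩)]
    ring
  have hORM : OR Ω X (M t) := by
    intro c hc d hd hcd
    by_cases hcp : c = p
    · subst hcp
      rw [real_inner_comm]
      exact hpN d hd hcd
    · by_cases hdp : d = p
      · subst hdp
        exact hpN c hc hcd.symm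
      · by_cases hcq : c = q
        · subst hcq
          rw [real_inner_comm]
          exact hqN d hd hdp hcd
        · by_cases hdq : d = q
          · subst hdq
            exact hqN c hc hcp hcd.symm
          · rw [hMu c hcp hcq, hMu d hdp hdq]
            exact h.1.2.1 c hc d hd hcd
  have h2 := ht1 (by
    intro u hu
    rw [Finset.mem_sdiff] at hu
    rw [hMu u (by rintro rfl; exact hu.2 hp) (by rintro rfl; exact hu.2 hqP)]
    exact h.1.1 u (Finset.mem_sdiff.2 hu)) hORM
  have hTc : ∀ w ∈ T, M t w = x' w := by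
    intro w hwT
    apply hMu
    · rintro rfl; exact hpT hwT
    · rintro rfl; exact hqT hwT
  have hTi : Ind (M t) T := ind_congr (fun w hw => (hTc w hw).symm) hT
  have hdep' : ¬ Ind (M t) (insert p T) := fun hI => hdep (h2.2 _ hF hFc hI)
  have h3 := peel_B1 hP h2.1 hp hpT hF hFc hdep' hTi
  rw [sp_congr hTc, orth_le_iff] at h3
  have h4 := peel_B1 hP h hp hpT hF hFc hdep hT
  rw [orth_le_iff] at h4
  have h5 : sp (M t) N = sp (Function.update x' q (x' q + t • δ)) N := by
    apply sp_congr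
    intro s hs
    have hsp : s ≠ p := by
      rintro rfl
      exact notMem_nb_self X s hs
    exact (hM1u s hsp).symm
  intro u hu
  have h6 := h3 hu
  rw [h5] at h6
  exact mem_sp_erase_of_move hq ht0 hδN (h4 hu) h6

/-- the inductive step of the peeling construction -/
lemma peel_step [FiniteDimensional ℝ E] {a b : ℕ} (hD : a + b ≤ Module.finrank ℝ E)
    (hD2 : 2 * a + 1 ≤ Module.finrank ℝ E)
    {X P Z : Finset V} (hP : P ⊆ X) (hZ : Z ⊆ X \ P) (hPb : P.card ≤ b) (hZa : Z.card ≤ a)
    (hsep : ∀ p ∈ P, ∀ r ∈ X, r ∉ P → r ∉ Z → ¬ Ω.Adj p r)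
    {x : V → E} (hx : PG Ω a (X \ P) x) : ∃ x' : V → E, PG Ω a X x' := by
  classical
  obtain ⟨x1, h1, h2, h3, h4, -⟩ := peel_stageA hD hP hZ hPb hZa hsep hx P (Finset.Subset.refl P)
  rw [Finset.sdiff_union_of_subset hP] at h2 h3
  obtain ⟨x', hmax⟩ := exists_maxAdm (a := a) (Ω := Ω) (X := X) (P := P) (Z := Z) (x := x)
    ⟨h1, h2, h3, h4⟩
  have hZX : Z ⊆ X := hZ.trans Finset.sdiff_subset
  have hZP : Disjoint Z P := by
    rw [Finset.disjoint_left]
    intro z hz
    exact (Finset.mem_sdiff.1 (hZ hz)).2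
  have hc : (Z ∪ P).card ≤ Module.finrank ℝ E := by
    have := Finset.card_union_le Z P
    omega
  refine ⟨x', hmax.1.2.1, hmax.1.2.2.1, ?_⟩
  intro F
  induction hn : F.card using Nat.strong_induction_on generalizing F with
  | _ n ih =>
  intro hF hFc
  subst hn
  by_contra hdep
  have hex : ∃ p ∈ F, p ∈ P := by
    by_contra hcon
    push Not at hcon
    apply hdep
    have hF' : F ⊆ X \ P := fun f hf => Finset.mem_sdiff.2 ⟨hF hf, hcon f hf⟩
    exact ind_congr (fun s hs => (hmax.1.1 s (hF' hs)).symm) (hx.2.2 F hF' hFc)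
  obtain ⟨p, hpF, hp⟩ := hex
  set T := F.erase p with hT
  have hTc : T.card + 1 = F.card := Finset.card_erase_add_one hpF
  have hFT : insert p T = F := Finset.insert_erase hpF
  have hpT : p ∉ T := Finset.notMem_erase p F
  have hTi : Ind x' T := ih T.card (by omega) T rfl ((Finset.erase_subset _ _).trans hF) (by omega)
  rw [← hFT] at hF hFc hdep
  have hB1 := peel_B1 hP hmax hp hpT hF hFc hdep hTi
  rw [orth_le_iff] at hB1
  set N := nb Ω X p with hN
  have hNZP : N ⊆ Z ∪ P := by
    intro r hr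
    obtain ⟨hr1, hr2⟩ := mem_nb.1 hr
    rw [Finset.mem_union]
    by_contra hcon
    push Not at hcon
    exact hsep p hp r hr1 hcon.2 hcon.1 hr2
  have hNi : Ind x' N := hmax.1.2.2.2.mono hNZP
  have hB3 : (sp x' T)ᗮ ≤ sp x' (N \ (P \ T)) := by
    intro u hu
    apply mem_sp_sdiff hNi (hB1 hu)
    intro q hq hqN
    rw [Finset.mem_sdiff] at hq
    exact peel_B2 hP hZX hZP hsep hc hmax hp hpT hF hFc hdep hTi hqN hq.1 hq.2 u hu
  set M := N \ (P \ T) with hM
  have hMi : Ind x' M := hNi.mono Finset.sdiff_subset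
  have hMZ : M \ T ⊆ Z := by
    intro m hm
    rw [Finset.mem_sdiff, hM, Finset.mem_sdiff, Finset.mem_sdiff] at hm
    have h5 := hNZP hm.1.1
    rw [Finset.mem_union] at h5
    rcases h5 with h5 | h5
    · exact h5
    · exfalso
      exact hm.1.2 ⟨h5, hm.2⟩
  have h6 : (sp x' T)ᗮ ⊓ sp x' (M ∩ T) = ⊥ := by
    rw [eq_bot_iff]
    refine le_trans (inf_le_inf_left _ (sp_mono (T := T) Finset.inter_subset_right)) ?_
    rw [inf_comm, Submodule.inf_orthogonal_eq_bot]
  have h7 := Submodule.finrank_sup_add_finrank_inf_eq ((sp x' T)ᗮ) (sp x' (M ∩ T))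
  rw [h6, finrank_bot, finrank_sp (hMi.mono Finset.inter_subset_left)] at h7
  have h8 : (sp x' T)ᗮ ⊔ sp x' (M ∩ T) ≤ sp x' M := sup_le hB3 (sp_mono Finset.inter_subset_left)
  have h9 := Submodule.finrank_mono h8
  rw [finrank_sp hMi] at h9
  have h10 := Submodule.finrank_add_finrank_orthogonal (sp x' T)
  rw [finrank_sp hTi] at h10
  have h11 := Finset.card_inter_add_card_sdiff M T
  have h12 := (Finset.card_le_card hMZ).trans hZa
  rw [hFT] at hFc
  omega

/-- The peeling theorem. -/
theorem peel [FiniteDimensional ℝ E] {a b : ℕ} (hD : a + b ≤ Module.finrank ℝ E)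
    (hD2 : 2 * a + 1 ≤ Module.finrank ℝ E)
    (hsep : ∀ X : Finset V, a + 2 ≤ X.card → ∃ P ⊆ X, P.Nonempty ∧ P.card ≤ b ∧
      ∃ Z ⊆ X \ P, Z.card ≤ a ∧ ∀ p ∈ P, ∀ r ∈ X, r ∉ P → r ∉ Z → ¬ Ω.Adj p r) :
    ∀ X : Finset V, ∃ x : V → E, PG Ω a X x := by
  intro X
  induction hn : X.card using Nat.strong_induction_on generalizing X with
  | _ n ih =>
  subst hn
  by_cases hX : X.card ≤ a + 1
  · obtain ⟨x, h1, h2, h3⟩ := peel_base (E := E) (Ω := Ω) (X := X) (by omega)
    exact ⟨x, h1, h2, fun S hS _ => h3.mono hS⟩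
  · obtain ⟨P, hP, hPn, hPb, Z, hZ, hZa, hs⟩ := hsep X (by omega)
    have hlt : (X \ P).card < X.card := by
      apply Finset.card_lt_card
      rw [Finset.ssubset_iff_subset_ne]
      refine ⟨Finset.sdiff_subset, ?_⟩
      intro h
      obtain ⟨p, hp⟩ := hPn
      have := hP hp
      rw [← h, Finset.mem_sdiff] at this
      exact this.2 hp
    obtain ⟨x, hx⟩ := ih _ hlt (X \ P) rfl
    exact peel_step hD hD2 hP hZ hPb hZa hs hx

theorem pr_peel {a b D : ℕ} (hD : a + b ≤ D) (hD2 : 2 * a + 1 ≤ D)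
    (hsep : ∀ X : Finset V, a + 2 ≤ X.card → ∃ P ⊆ X, P.Nonempty ∧ P.card ≤ b ∧
      ∃ Z ⊆ X \ P, Z.card ≤ a ∧ ∀ p ∈ P, ∀ r ∈ X, r ∉ P → r ∉ Z → ¬ Ω.Adj p r) :
    PR Ω D := by
  have hfr : Module.finrank ℝ (EuclideanSpace ℝ (Fin D)) = D := by simp
  obtain ⟨x, h1, h2, -⟩ := peel (E := EuclideanSpace ℝ (Fin D)) (Ω := Ω)
    (by rw [hfr]; exact hD) (by rw [hfr]; exact hD2) hsep Finset.univ
  have := pr_of_rep h1 h2
  rwa [hfr] at this

end MrGC
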